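import Pool.Agent.R965.HP.Sys
import Pool.Agent.TH966.AK.Weight

/-!
# Systems of moves with two-sided growth bounds: rates for all lengths
-/

set_option autoImplicit false

namespace Pool.Agent.R965.HP

open Finset Filter Topology TH966.KS TH966.AK
open scoped Classical

variable {α σ : Type} {Y : Sys α σ} {μ K : ℝ} {a : ℕ}

theorem rt_pos {a n : ℕ} (hn : 2 ≤ n) : 0 < rt a n := by
  unfold rt
  have h1 : (2 : ℝ) ≤ n := by exact_mod_cast hn
  have h2 : 0 < Real.log (n : ℝ) := Real.log_pos (by linarith)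
  exact Real.sqrt_pos.2 (by positivity)

/-- from large lengths to all lengths, uniformly in a class -/
theorem all_of_ev {β : Type} (P : β → Prop) (X : ℕ → β → ℝ) (g : ℕ → ℝ)
    (hg : ∀ n, 2 ≤ n → 0 < g n) (hb : ∀ n, 2 ≤ n → ∃ B : ℝ, ∀ f, P f → X n f ≤ B) (R : ℝ)
    (hR : ∀ᶠ n : ℕ in atTop, ∀ f, P f → X n f ≤ R * g n) :
    ∃ R' : ℝ, 0 ≤ R' ∧ ∀ n : ℕ, 2 ≤ n → ∀ f, P f → X n f ≤ R' * g n := by
  obtain ⟨N0, hN⟩ := eventually_atTop.1 hR
  have hb' : ∀ n : ℕ, ∃ B : ℝ, 2 ≤ n → ∀ f, P f → X n f ≤ B := by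
    intro n
    by_cases h : 2 ≤ n
    · obtain ⟨B, hB⟩ := hb n h
      exact ⟨B, fun _ => hB⟩
    · exact ⟨0, fun h2 => absurd h2 h⟩
  choose B hB using hb'
  refine ⟨|R| + ∑ i ∈ range N0, |B i| / |g i|, by positivity, fun n hn f hf => ?_⟩
  have hs : 0 ≤ ∑ i ∈ range N0, |B i| / |g i| :=
    Finset.sum_nonneg fun i _ => by positivity
  have hgn := hg n hn
  by_cases h : N0 ≤ n
  · refine (hN n h f hf).trans ?_
    refine mul_le_mul_of_nonneg_right ?_ hgn.le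
    exact (le_abs_self R).trans (le_add_of_nonneg_right hs)
  · have h1 : |B n| / |g n| ≤ ∑ i ∈ range N0, |B i| / |g i| :=
      Finset.single_le_sum (f := fun i => |B i| / |g i|) (fun i _ => by positivity)
        (Finset.mem_range.2 (by omega))
    have h2 : X n f ≤ |B n| / |g n| * g n := by
      refine (hB n hn f hf).trans ((le_abs_self _).trans (le_of_eq ?_))
      rw [abs_of_pos hgn]
      field_simp
    refine h2.trans (mul_le_mul_of_nonneg_right ?_ hgn.le)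
    exact h1.trans (le_add_of_nonneg_left (abs_nonneg R))

theorem Gr.rate_ev (G : Gr Y μ K a) (ha : 1 ≤ a) (m : ℕ) : ∃ R : ℝ, 0 ≤ R ∧ ∀ᶠ n : ℕ in atTop,
    ∀ f : α → ℝ, Wg Y m f → |Y.af f (n + Y.s) / Y.af f n / μ ^ Y.s - 1| ≤ R * rt a n := by
  have hμ := G.hμ
  have hμ0 : 0 < μ := by linarith
  have hs := G.hs
  have hs1 : (1 : ℝ) ≤ Y.s := by exact_mod_cast hs
  choose R hR h using G.rate ha m
  have hall : ∀ᶠ k : ℕ in atTop, ∀ r ∈ range Y.s, ∀ f : α → ℝ, Wg Y m f →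
      |Y.af f (Y.s * k + r + Y.s) / Y.af f (Y.s * k + r) / μ ^ Y.s - 1| ≤ R r * rt a k :=
    (Finset.eventually_all _).2 fun r _ => h r
  obtain ⟨S, hS⟩ : ∃ S : ℝ, S = ∑ r ∈ range Y.s, R r := ⟨_, rfl⟩
  have hS0 : 0 ≤ S := by
    rw [hS]
    exact sum_nonneg fun r _ => (hR r).le
  have hdt : Tendsto (fun n : ℕ => n / Y.s) atTop atTop :=
    Nat.tendsto_div_const_atTop (by omega)
  refine ⟨S * (2 * Y.s), by positivity, ?_⟩
  filter_upwards [hdt.eventually hall, hdt.eventually_ge_atTop 2, eventually_ge_atTop 1]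
    with n h1 h3 h4 f hf
  obtain ⟨k, hk⟩ : ∃ k, k = n / Y.s := ⟨_, rfl⟩
  obtain ⟨r, hr⟩ : ∃ r, r = n % Y.s := ⟨_, rfl⟩
  rw [← hk] at h1 h3
  have hrs : r < Y.s := by rw [hr]; exact Nat.mod_lt _ hs
  have hn : Y.s * k + r = n := by rw [hk, hr]; exact Nat.div_add_mod n Y.s
  have hRS : R r ≤ S := by
    rw [hS]
    exact single_le_sum (f := R) (fun i _ => (hR i).le) (mem_range.2 hrs)
  have g1 := h1 r (mem_range.2 hrs) f hf
  rw [hn] at g1
  refine g1.trans ?_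
  have h7 : rt a k ≤ 2 * Y.s * rt a n := by
    have hkn : k ≤ n := by
      have := Nat.mul_le_mul_right k hs
      omega
    have hn0 : (0 : ℝ) < n := by exact_mod_cast h4
    have hk0 : (0 : ℝ) < k := by exact_mod_cast (show 0 < k by omega)
    have h8 : Real.log k ^ a ≤ Real.log n ^ a :=
      pow_le_pow_left₀ (Real.log_natCast_nonneg k)
        (Real.log_le_log (by positivity) (by exact_mod_cast hkn)) a
    unfold rt
    rw [show 2 * (Y.s : ℝ) * √(Real.log n ^ a / n) = √((2 * Y.s) ^ 2 * (Real.log n ^ a / n)) by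
      rw [Real.sqrt_mul (by positivity), Real.sqrt_sq (by positivity)]]
    apply Real.sqrt_le_sqrt
    have h9 : (n : ℝ) ≤ (2 * Y.s) ^ 2 * k := by
      have h10 : n ≤ Y.s * k + Y.s := by omega
      have h11 : (n : ℝ) ≤ Y.s * k + Y.s := by exact_mod_cast h10
      have h12 : (2 : ℝ) ≤ k := by exact_mod_cast h3
      nlinarith
    rw [← mul_div_assoc, div_le_div_iff₀ hk0 hn0]
    have h13 : 0 ≤ Real.log (n : ℝ) ^ a := by
      have := Real.log_natCast_nonneg n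
      positivity
    calc Real.log (k : ℝ) ^ a * n ≤ Real.log n ^ a * ((2 * Y.s) ^ 2 * k) :=
          mul_le_mul h8 h9 hn0.le h13
      _ = _ := by ring
  calc R r * rt a k ≤ S * (2 * Y.s * rt a n) :=
        mul_le_mul hRS h7 (rt_nonneg _ _) hS0
    _ = _ := by ring

theorem wg_one (Y : Sys α σ) (m : ℕ) : Wg Y m (fun _ => 1) :=
  ⟨⟨fun _ _ _ => zero_le_one, fun _ _ _ _ _ => rfl⟩, fun _ _ _ _ => le_rfl, fun n _ _ =>
    one_le_pow₀ (by have : (0 : ℝ) ≤ n := Nat.cast_nonneg _; linarith)⟩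

theorem af_one (Y : Sys α σ) (n : ℕ) : Y.af (fun _ => 1) n = N Y n := by
  unfold Sys.af N
  rw [sum_const, nsmul_one]

/-- the ratios -/
theorem Gr.ratio (G : Gr Y μ K a) (ha : 1 ≤ a) : ∃ R : ℝ, 0 ≤ R ∧ ∀ n : ℕ, 2 ≤ n →
    |N Y (n + Y.s) / N Y n - μ ^ Y.s| ≤ R * rt a n := by
  have hμ := G.hμ
  have hμ0 : 0 < μ := by linarith
  obtain ⟨R, hR, h⟩ := G.rate_ev ha 0
  have h' : ∀ᶠ n : ℕ in atTop, ∀ _ : Unit, True →
      |N Y (n + Y.s) / N Y n - μ ^ Y.s| ≤ R * μ ^ Y.s * rt a n := by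
    filter_upwards [h] with n hn _ _
    have h1 := hn _ (wg_one Y 0)
    rw [af_one, af_one] at h1
    have h2 : N Y (n + Y.s) / N Y n - μ ^ Y.s =
        (N Y (n + Y.s) / N Y n / μ ^ Y.s - 1) * μ ^ Y.s := by
      have : μ ^ Y.s ≠ 0 := by positivity
      field_simp
    rw [h2, abs_mul, abs_of_pos (show 0 < μ ^ Y.s by positivity)]
    calc _ ≤ R * rt a n * μ ^ Y.s := mul_le_mul_of_nonneg_right h1 (by positivity)
      _ = _ := by ring
  obtain ⟨R', hR', h2⟩ := all_of_ev (fun _ : Unit => True)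
    (fun n _ => |N Y (n + Y.s) / N Y n - μ ^ Y.s|) (rt a) (fun n hn => rt_pos hn)
    (fun n _ => ⟨_, fun _ _ => le_rfl⟩) _ h'
  exact ⟨R', hR', fun n hn => h2 n hn () trivial⟩

/-- the mean over the objects of size `n` -/
noncomputable def EY (Y : Sys α σ) (n : ℕ) (f : α → ℝ) : ℝ := (∑ w ∈ Y.K n, f w) / N Y n

theorem EY_nonneg (G : Gr Y μ K a) {n : ℕ} {f : α → ℝ} (h : ∀ w ∈ Y.K n, 0 ≤ f w) :
    0 ≤ EY Y n f := div_nonneg (sum_nonneg h) (G.pos n).le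

theorem EY_le (G : Gr Y μ K a) {n : ℕ} {f : α → ℝ} {c : ℝ} (h : ∀ w ∈ Y.K n, f w ≤ c) :
    EY Y n f ≤ c := by
  unfold EY
  rw [div_le_iff₀ (G.pos n)]
  unfold N
  rw [mul_comm, ← nsmul_eq_mul, ← sum_const]
  exact sum_le_sum h

theorem EY_ge (G : Gr Y μ K a) {n : ℕ} {f : α → ℝ} {c : ℝ} (h : ∀ w ∈ Y.K n, c ≤ f w) :
    c ≤ EY Y n f := by
  unfold EY
  rw [le_div_iff₀ (G.pos n)]
  unfold N
  rw [mul_comm, ← nsmul_eq_mul, ← sum_const]
  exact sum_le_sum h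

/-- the means of a weight -/
theorem Gr.mean_ratio (G : Gr Y μ K a) (ha : 1 ≤ a) (m : ℕ) : ∃ R : ℝ, 0 ≤ R ∧
    ∀ n : ℕ, 2 ≤ n → ∀ f : α → ℝ, Wg Y m f → |EY Y (n + Y.s) f / EY Y n f - 1| ≤ R * rt a n := by
  have hμ := G.hμ
  have hμ0 : 0 < μ := by linarith
  obtain ⟨R, hR, h⟩ := G.rate_ev ha m
  have t1 : Tendsto (fun n : ℕ => R * rt a n) atTop (𝓝 0) := by
    have := (rt_tendsto a).const_mul R
    rwa [mul_zero] at this
  refine all_of_ev (Wg Y m) (fun n f => |EY Y (n + Y.s) f / EY Y n f - 1|) (rt a)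
    (fun n hn => rt_pos hn) (fun n hn => ?_) (4 * R) ?_
  · refine ⟨(2 * ((n + Y.s : ℕ) : ℝ) + 2) ^ m + 1, fun f hf => ?_⟩
    have h1 : 1 ≤ EY Y n f := EY_ge G fun w hw => hf.ge n (by omega) w hw
    have h2 : EY Y (n + Y.s) f ≤ (2 * ((n + Y.s : ℕ) : ℝ) + 2) ^ m :=
      EY_le G fun w hw => hf.le _ w hw
    have h3 : 0 ≤ EY Y (n + Y.s) f := EY_nonneg G fun w hw => hf.wt.1 _ w hw
    have h4 : EY Y (n + Y.s) f / EY Y n f ≤ (2 * ((n + Y.s : ℕ) : ℝ) + 2) ^ m :=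
      (div_le_self h3 h1).trans h2
    have h5 : 0 ≤ EY Y (n + Y.s) f / EY Y n f := div_nonneg h3 (by linarith)
    rw [abs_le]
    have h6 : (0 : ℝ) ≤ (2 * ((n + Y.s : ℕ) : ℝ) + 2) ^ m := by positivity
    constructor <;> linarith
  · filter_upwards [h, t1.eventually_lt_const (show (0 : ℝ) < 1 / 2 by norm_num),
      eventually_ge_atTop 1] with n h1 h2 h4 f hf
    have g1 := h1 f hf
    have g2 := h1 (fun _ => 1) (wg_one Y m)
    rw [af_one, af_one] at g2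
    have hcn := G.pos n
    have h6 := ratio_aux (lt_of_lt_of_le hcn (af_ge hf h4)) hcn (pow_pos hμ0 Y.s) g1 g2 h2.le
    have e : EY Y (n + Y.s) f / EY Y n f =
        Y.af f (n + Y.s) / N Y (n + Y.s) / (Y.af f n / N Y n) := rfl
    rw [e]
    refine h6.trans (le_of_eq ?_)
    ring

/-- total variation: means of the bounded functions which are invariant under the moves -/
theorem Gr.tv (G : Gr Y μ K a) (ha : 1 ≤ a) : ∃ R : ℝ, 0 ≤ R ∧
    ∀ n : ℕ, 2 ≤ n → ∀ g : α → ℝ, (∀ m, ∀ w ∈ Y.K m, 0 ≤ g w ∧ g w ≤ 1) →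
      (∀ m w q, w ∈ Y.K m → q ∈ Y.S w → g (Y.ins w q) = g w) →
      |EY Y (n + Y.s) g - EY Y n g| ≤ R * rt a n := by
  obtain ⟨R, hR, h⟩ := G.mean_ratio ha 1
  refine ⟨2 * R, by positivity, fun n hn g hg hinv => ?_⟩
  have hW : Wg Y 1 (fun w => 1 + g w) := by
    refine ⟨⟨fun m w hw => by have := (hg m w hw).1; linarith, fun m w q hw hq => by
      simp only [hinv m w q hw hq]⟩, fun m _ w hw => by have := (hg m w hw).1; linarith,
      fun m w hw => ?_⟩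
    have h1 := (hg m w hw).2
    have h2 : (0 : ℝ) ≤ m := Nat.cast_nonneg _
    simp only [pow_one]
    linarith
  have e : ∀ k, EY Y k (fun w => 1 + g w) = 1 + EY Y k g := by
    intro k
    unfold EY
    rw [sum_add_distrib, add_div]
    congr 1
    rw [sum_const, nsmul_one]
    exact div_self (G.pos k).ne'
  have h1 := h n hn _ hW
  rw [e, e] at h1
  have h2 : 0 ≤ EY Y n g := EY_nonneg G fun w hw => (hg n w hw).1
  have h3 : EY Y n g ≤ 1 := EY_le G fun w hw => (hg n w hw).2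
  have h4 : EY Y (n + Y.s) g - EY Y n g =
      ((1 + EY Y (n + Y.s) g) / (1 + EY Y n g) - 1) * (1 + EY Y n g) := by
    have : 1 + EY Y n g ≠ 0 := by positivity
    field_simp
    ring
  rw [h4, abs_mul, abs_of_pos (show 0 < 1 + EY Y n g by linarith)]
  have h5 : 0 ≤ R * rt a n := mul_nonneg hR (rt_nonneg _ _)
  calc _ ≤ R * rt a n * (1 + EY Y n g) := mul_le_mul_of_nonneg_right h1 (by linarith)
    _ ≤ R * rt a n * 2 := mul_le_mul_of_nonneg_left (by linarith) h5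
    _ = _ := by ring

end Pool.Agent.R965.HP
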