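import Pool.Agent.R965.HP.WinBad

/-!
# Few moves inside an arbitrary set of vertices
-/

set_option autoImplicit false

namespace Pool.Agent.R965.HP

open Finset Filter Topology TH966.KS TH966.AK
open scoped Classical

variable {A : P → P → Prop}

/-- the moves with a condition -/
def restr (Z : Rule A) (π : List P → List P → Prop) : Rule A where
  T U U' := Z.T U U' ∧ π U U'
  ρ := Z.ρ
  k := Z.k
  s := Z.s
  step := Z.step
  pair := fun U U' h => Z.pair U U' h.1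
  len := fun U U' h => Z.len U U' h.1
  loc := fun U U' h => Z.loc U U' h.1

/-- few moves inside of `D`, uniformly in `D` -/
theorem bad_any (Z : Rule A) {μ : ℝ} (hμ : 1 ≤ μ)
    (hp : ∃ (M0 : ℕ) (ρ C0 : ℝ), 1 ≤ M0 ∧ 0 ≤ ρ ∧ ρ < μ ∧ ∀ n : ℕ,
      (((Kw A n).filter (fun w => M0 * (Z.B w).card ≤ n)).card : ℝ) ≤ C0 * ρ ^ n)
    (hup : ∀ τ : ℝ, 0 < τ → ∃ C1 : ℝ, ∀ n : ℕ, ((Kw A n).card : ℝ) ≤ C1 * ((1 + τ) * μ) ^ n) :
    ∃ (M : ℕ) (θ C : ℝ), 1 ≤ M ∧ 0 < θ ∧ θ < 1 ∧ 0 ≤ C ∧ ∀ D : P → Prop, D 0 → ∀ n : ℕ,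
      (((ruleD Z D).sys.bad M n).card : ℝ) ≤ C * (θ * μ) ^ n := by
  obtain ⟨M0, ρ, C0, hM0, hρ0, hρ1, hp⟩ := hp
  have hμ0 : 0 < μ := by linarith
  obtain ⟨k, hk⟩ : ∃ k, k = 5 * Z.CC + 5 + 2 * Z.s := ⟨_, rfl⟩
  obtain ⟨M1, hM1⟩ : ∃ M1, M1 = 2 * M0 := ⟨_, rfl⟩
  obtain ⟨M, hM⟩ : ∃ M, M = M1 * k := ⟨_, rfl⟩
  have hk1 : 1 ≤ k := by omega
  have hM11 : 1 ≤ M1 := by omega
  have hM1M : M1 ≤ M := by rw [hM]; exact Nat.le_mul_of_pos_right _ (by omega)
  have hMp : 1 ≤ M := by omega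
  obtain ⟨θ₁, hθ₁⟩ : ∃ θ₁ : ℝ, θ₁ = 1 - 1 / (2 * (M : ℝ)) := ⟨_, rfl⟩
  have hM' : (1 : ℝ) ≤ M := by exact_mod_cast hMp
  have hθ2 : 1 / (2 * (M : ℝ)) ≤ 1 / 2 := by
    rw [div_le_div_iff₀ (by positivity) (by norm_num)]; linarith
  have hθ0 : 0 < θ₁ := by rw [hθ₁]; linarith
  have hθ1 : θ₁ < 1 := by
    rw [hθ₁]
    have : 0 < 1 / (2 * (M : ℝ)) := by positivity
    linarith
  obtain ⟨τ, hτ⟩ : ∃ τ : ℝ, τ = (1 - θ₁) / 2 := ⟨_, rfl⟩
  have hτ0 : 0 < τ := by rw [hτ]; linarith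
  have hτ1 : (1 + τ) * θ₁ < 1 := by rw [hτ]; nlinarith
  obtain ⟨C1, hC1⟩ := hup τ hτ0
  have hC10 : 0 ≤ C1 := by
    have := hC1 0
    rw [pow_zero, mul_one] at this
    exact le_trans (Nat.cast_nonneg _) this
  have hC00 : 0 ≤ C0 := by
    have := hp 0
    rw [pow_zero, mul_one] at this
    exact le_trans (Nat.cast_nonneg _) this
  obtain ⟨θ, hθ⟩ : ∃ θ, θ = max ((1 + τ) * θ₁) (ρ / μ) := ⟨_, rfl⟩
  have hθp : 0 < θ := by
    rw [hθ]
    exact lt_max_of_lt_left (by positivity)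
  refine ⟨M, θ, C0 + 4 * C1, hMp, hθp, by
    rw [hθ]
    exact max_lt hτ1 (by rw [div_lt_one hμ0]; exact hρ1), by positivity, fun D h0 n => ?_⟩
  obtain ⟨π, hπ⟩ : ∃ π : List P → List P → Prop, π = fun U _ => ¬ ∀ x ∈ U, D x := ⟨_, rfl⟩
  obtain ⟨Z', hZ'⟩ : ∃ Z', Z' = restr Z π := ⟨_, rfl⟩
  obtain ⟨j, hj⟩ : ∃ j, j = n / M := ⟨_, rfl⟩
  -- the main estimate
  have hsub : Kw (AD A D) n ⊆ Kw A n := fun w hw => ((Kw_D Z h0).1 hw).1
  have hpow : ∀ m : ℕ, m ≤ n → ((Kw A m).card : ℝ) * (1 / 4) ^ j ≤ 2 * C1 * (θ * μ) ^ n := by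
    intro m hm
    have h1 := hC1 m
    have h2 : ((1 + τ) * μ) ^ m ≤ ((1 + τ) * μ) ^ n :=
      pow_le_pow_right₀ (by nlinarith) hm
    have h3 := half_pow hMp n
    rw [← hθ₁, ← hj] at h3
    have h4 : (1 + τ) * θ₁ ≤ θ := by rw [hθ]; exact le_max_left _ _
    have h5 : ((1 + τ) * θ₁) ^ n ≤ θ ^ n := pow_le_pow_left₀ (by positivity) h4 _
    calc ((Kw A m).card : ℝ) * (1 / 4) ^ j ≤ (C1 * ((1 + τ) * μ) ^ n) * (2 * θ₁ ^ n) := by
          refine mul_le_mul (h1.trans (mul_le_mul_of_nonneg_left h2 hC10)) h3 (by positivity)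
            (by positivity)
      _ = 2 * C1 * (((1 + τ) * θ₁) ^ n * μ ^ n) := by rw [mul_pow, mul_pow]; ring
      _ ≤ 2 * C1 * (θ ^ n * μ ^ n) :=
          mul_le_mul_of_nonneg_left (mul_le_mul_of_nonneg_right h5 (by positivity))
            (by positivity)
      _ = _ := by rw [mul_pow]
  have h64 : (4 : ℝ) ^ j * (1 / 4) ^ j = 1 := by rw [← mul_pow]; norm_num
  -- few downward moves in the plane
  have q1 : (((Kw (AD A D) n).filter (fun w => M0 * (Z.B w).card ≤ n)).card : ℝ) ≤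
      C0 * (θ * μ) ^ n := by
    have h1 : (((Kw (AD A D) n).filter (fun w => M0 * (Z.B w).card ≤ n)).card : ℝ) ≤
        (((Kw A n).filter (fun w => M0 * (Z.B w).card ≤ n)).card : ℝ) := by
      exact_mod_cast Finset.card_le_card (Finset.filter_subset_filter _ hsub)
    refine h1.trans ((hp n).trans (mul_le_mul_of_nonneg_left ?_ hC00))
    refine pow_le_pow_left₀ hρ0 ?_ _
    have h1 : ρ / μ ≤ θ := by rw [hθ]; exact le_max_right _ _
    rwa [div_le_iff₀ hμ0] at h1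
  -- many downward moves which leave `D`
  have q2 : (((Kw (AD A D) n).filter (fun w => n < M1 * (Z'.B w).card)).card : ℝ) ≤
      2 * C1 * (θ * μ) ^ n := by
    have hd := down_win Z'.sys rfl hM11 (le_refl n)
      ((Kw (AD A D) n).filter (fun w => n < M1 * (Z'.B w).card))
      ((filter_subset _ _).trans hsub) (by
        intro w hw
        rw [mem_filter, Kw_D Z h0] at hw
        refine ⟨hw.2, ?_⟩
        have hS : Z'.sys.S w = ∅ := by
          rw [Finset.eq_empty_iff_forall_notMem]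
          intro q hq
          have hq' : q ∈ Z'.S w := hq
          rw [Rule.mem_S, hZ'] at hq'
          obtain ⟨⟨-, h2⟩, h3⟩ := hq'
          rw [hπ] at h2
          exact h2 fun x hx => hw.1.2 x (h3.1.subset hx)
        rw [hS, Finset.card_empty, Nat.mul_zero]
        exact Nat.zero_le _)
    have e0 : M1 * (5 * Z'.sys.C + 5 + 2 * Z'.sys.s) = M := by
      rw [hM, hk, hZ']
      rfl
    rw [e0, ← hj] at hd
    have hd' : (((Kw (AD A D) n).filter (fun w => n < M1 * (Z'.B w).card)).card : ℝ) * 4 ^ j ≤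
        ((Kw A (n - Z'.sys.s * j)).card : ℝ) := by exact_mod_cast hd
    calc (((Kw (AD A D) n).filter (fun w => n < M1 * (Z'.B w).card)).card : ℝ)
        = (((Kw (AD A D) n).filter (fun w => n < M1 * (Z'.B w).card)).card : ℝ) * 4 ^ j *
          (1 / 4) ^ j := by rw [mul_assoc, h64, mul_one]
      _ ≤ ((Kw A (n - Z'.sys.s * j)).card : ℝ) * (1 / 4) ^ j :=
          mul_le_mul_of_nonneg_right hd' (by positivity)
      _ ≤ _ := hpow _ (by omega)
  -- many downward moves inside of `D`, few upward moves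
  have q3 : (((Kw (AD A D) n).filter (fun w => n < M1 * ((ruleD Z D).B w).card ∧
      M * ((ruleD Z D).S w).card ≤ n)).card : ℝ) ≤ 2 * C1 * (θ * μ) ^ n := by
    have hd := down_win (ruleD Z D).sys rfl hM11 (le_refl n)
      ((Kw (AD A D) n).filter (fun w => n < M1 * ((ruleD Z D).B w).card ∧
      M * ((ruleD Z D).S w).card ≤ n)) (filter_subset _ _) (by
        intro w hw
        rw [mem_filter] at hw
        refine ⟨hw.2.1, ?_⟩
        have h1 := hw.2.2
        rw [hM, hk] at h1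
        exact h1)
    have e0 : M1 * (5 * (ruleD Z D).sys.C + 5 + 2 * (ruleD Z D).sys.s) = M := by
      rw [hM, hk]
      rfl
    rw [e0, ← hj] at hd
    have hd' : (((Kw (AD A D) n).filter (fun w => n < M1 * ((ruleD Z D).B w).card ∧
        M * ((ruleD Z D).S w).card ≤ n)).card : ℝ) * 4 ^ j ≤
        ((Kw A (n - (ruleD Z D).sys.s * j)).card : ℝ) := by
      have hd2 : ((ruleD Z D).sys.K (n - (ruleD Z D).sys.s * j)).card ≤
          (Kw A (n - (ruleD Z D).sys.s * j)).card :=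
        Finset.card_le_card fun w hw => ((Kw_D Z h0).1 hw).1
      exact_mod_cast hd.trans hd2
    calc (((Kw (AD A D) n).filter (fun w => n < M1 * ((ruleD Z D).B w).card ∧
        M * ((ruleD Z D).S w).card ≤ n)).card : ℝ)
        = (((Kw (AD A D) n).filter (fun w => n < M1 * ((ruleD Z D).B w).card ∧
        M * ((ruleD Z D).S w).card ≤ n)).card : ℝ) * 4 ^ j * (1 / 4) ^ j := by
          rw [mul_assoc, h64, mul_one]
      _ ≤ ((Kw A (n - (ruleD Z D).sys.s * j)).card : ℝ) * (1 / 4) ^ j :=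
          mul_le_mul_of_nonneg_right hd' (by positivity)
      _ ≤ _ := hpow _ (by omega)
  -- the cover
  have hcov : (ruleD Z D).sys.bad M n ⊆
      (Kw (AD A D) n).filter (fun w => M0 * (Z.B w).card ≤ n) ∪
      ((Kw (AD A D) n).filter (fun w => n < M1 * (Z'.B w).card) ∪
      (Kw (AD A D) n).filter (fun w => n < M1 * ((ruleD Z D).B w).card ∧
        M * ((ruleD Z D).S w).card ≤ n)) := by
    intro w hw
    unfold Sys.bad at hw
    rw [mem_filter] at hw
    obtain ⟨hw1, hw2⟩ := hw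
    change w ∈ Kw (AD A D) n at hw1
    change M * ((ruleD Z D).S w).card ≤ n ∨ M * ((ruleD Z D).B w).card ≤ n at hw2
    simp only [mem_union, mem_filter]
    by_cases h1 : n < M1 * ((ruleD Z D).B w).card
    · refine Or.inr (Or.inr ⟨hw1, h1, ?_⟩)
      rcases hw2 with h2 | h2
      · exact h2
      · have := Nat.mul_le_mul_right ((ruleD Z D).B w).card hM1M
        omega
    · by_cases h2 : M0 * (Z.B w).card ≤ n
      · exact Or.inl ⟨hw1, h2⟩
      · refine Or.inr (Or.inl ⟨hw1, ?_⟩)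
        have h3 : (Z.B w).card ≤ ((ruleD Z D).B w).card + (Z'.B w).card := by
          refine (Finset.card_le_card (t := (ruleD Z D).B w ∪ Z'.B w) fun q hq => ?_).trans
            (Finset.card_union_le _ _)
          rw [Z.mem_B] at hq
          have hU' : ∀ x ∈ q.2, D x := fun x hx =>
            ((Kw_D Z h0).1 hw1).2 x (hq.2.1.subset hx)
          rw [mem_union, (ruleD Z D).mem_B, Z'.mem_B, hZ']
          by_cases hU : ∀ x ∈ q.1, D x
          · exact Or.inl ⟨⟨hq.1, hU, hU'⟩, hq.2⟩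
          · exact Or.inr ⟨⟨hq.1, by rw [hπ]; exact hU⟩, hq.2⟩
        have h4 := Nat.mul_le_mul_left M0 h3
        rw [Nat.mul_add] at h4
        have e1 : M1 * ((ruleD Z D).B w).card = 2 * (M0 * ((ruleD Z D).B w).card) := by
          rw [hM1]; ring
        have e2 : M1 * (Z'.B w).card = 2 * (M0 * (Z'.B w).card) := by
          rw [hM1]; ring
        omega
  have hcard : (((ruleD Z D).sys.bad M n).card : ℝ) ≤
      (((Kw (AD A D) n).filter (fun w => M0 * (Z.B w).card ≤ n)).card : ℝ) +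
      ((((Kw (AD A D) n).filter (fun w => n < M1 * (Z'.B w).card)).card : ℝ) +
      (((Kw (AD A D) n).filter (fun w => n < M1 * ((ruleD Z D).B w).card ∧
        M * ((ruleD Z D).S w).card ≤ n)).card : ℝ)) := by
    have h1 := (card_le_card hcov).trans ((card_union_le _ _).trans
      (Nat.add_le_add_left (card_union_le _ _) _))
    exact_mod_cast h1
  refine hcard.trans ((add_le_add q1 (add_le_add q2 q3)).trans (le_of_eq ?_))
  ring

end Pool.Agent.R965.HP
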