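import Pool.Agent.R965.HP.Window

/-!
# One step, explicit form
-/

set_option autoImplicit false

namespace Pool.Agent.R965.HP

open Finset Filter Topology TH966.KS TH966.AK
open scoped Classical

variable {α σ : Type}

theorem EY_nn {Y : Sys α σ} {n : ℕ} {f : α → ℝ} (h0 : 0 < N Y n) (h : ∀ w ∈ Y.K n, 0 ≤ f w) :
    0 ≤ EY Y n f := div_nonneg (sum_nonneg h) h0.le

theorem EY_l1 {Y : Sys α σ} {n : ℕ} {f : α → ℝ} (h0 : 0 < N Y n) (h : ∀ w ∈ Y.K n, f w ≤ 1) :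
    EY Y n f ≤ 1 := by
  unfold EY
  rw [div_le_iff₀ h0, one_mul]
  unfold N
  refine (sum_le_sum h).trans ?_
  rw [sum_const, nsmul_one]

/-- one step, upper bound, explicit -/
theorem one_core (Y : Sys α σ) (M n : ℕ) (hM : 1 ≤ M) (hn1 : 1 ≤ n) (hn0 : Y.n0 ≤ n)
    (h8 : 8 * M * Y.C ≤ n) (ρ : ℝ) (hA0 : 0 < N Y n) (hA1 : 0 < N Y (n + Y.s))
    (hA2 : 0 < N Y (n + Y.s + Y.s)) (h2 : 1 / 2 ≤ rr Y n ∧ rr Y n ≤ ρ)
    (h3 : rr Y (n + Y.s) ≤ ρ)
    (herr : (((Y.bad M (n + Y.s)).card : ℝ) + Y.C * (n + 1) * (Y.bad M n).card) ≤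
      N Y (n + Y.s) / n) :
    0 ≤ VV Y ((12 * Y.C * M + 2) * ρ ^ 2) n ∧
    ∀ f : α → ℝ, (∀ w ∈ Y.K n, 0 ≤ f w ∧ f w ≤ 1) →
      (∀ w ∈ Y.K (n + Y.s), 0 ≤ f w ∧ f w ≤ 1) →
      (∀ w ∈ Y.K n, ∀ q ∈ Y.S w, f (Y.ins w q) ≤ f w) →
      EY Y (n + Y.s) f ≤ EY Y n f +
        (8 * √(VV Y ((12 * Y.C * M + 2) * ρ ^ 2) n) + (1 + 2 * Y.C * M) / n) := by
  have hC : (1 : ℝ) ≤ Y.C := by exact_mod_cast Y.hC
  have hM' : (1 : ℝ) ≤ M := by exact_mod_cast hM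
  obtain ⟨c, hc⟩ : ∃ c : ℝ, c = (12 * Y.C * M + 2) * ρ ^ 2 := ⟨_, rfl⟩
  rw [← hc]
  have hn4 : 4 * M * Y.C ≤ n := by nlinarith
  have hn : (1 : ℝ) ≤ n := by exact_mod_cast hn1
  have hnp : (0 : ℝ) < n := by linarith
  have hn4' : (4 * M * Y.C : ℝ) ≤ n := by exact_mod_cast hn4
  have hn8' : (8 * M * Y.C : ℝ) ≤ n := by exact_mod_cast h8
  set Gd := (Y.K n).filter (Y.good M n) with hGd
  set Rw : α → ℝ := fun w =>
    if Y.good M n w then ((Y.S w).card : ℝ) / ((Y.B w).card : ℝ) else 0 with hRw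
  have hgood : ∀ w ∈ Gd, ((n : ℝ) < M * (Y.S w).card ∧ (n : ℝ) < M * (Y.B w).card) ∧
      (4 * Y.C : ℝ) < (Y.S w).card ∧ (4 * Y.C : ℝ) < (Y.B w).card := by
    intro w hw
    have := (mem_filter.mp hw).2
    exact ⟨⟨by exact_mod_cast this.1, by exact_mod_cast this.2⟩,
      by exact_mod_cast Y.big hn4 this.1, by exact_mod_cast Y.big hn4 this.2⟩
  have hsumR : ∀ g : α → ℝ, ∑ w ∈ Gd, g w * (((Y.S w).card : ℝ) / ((Y.B w).card : ℝ)) =
      ∑ w ∈ Y.K n, g w * Rw w := by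
    intro g
    rw [hGd, sum_filter]
    refine sum_congr rfl fun w _ => ?_
    simp only [hRw]
    split_ifs <;> simp
  have hup : ∀ g : α → ℝ, (∀ w ∈ Y.K n, 0 ≤ g w) →
      ∑ w ∈ Gd, g w * (((Y.S w).card : ℝ) / (((Y.B w).card : ℝ) - Y.C)) ≤
      (1 + 2 * Y.C * M / n) * ∑ w ∈ Y.K n, g w * Rw w := by
    intro g hg
    rw [← hsumR, mul_sum]
    apply sum_le_sum
    intro w hw
    have hgw := hgood w hw
    have h3 := Sys.term1 ((Y.S w).card : ℝ) ((Y.B w).card : ℝ) Y.C M n hC hnp (by positivity)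
      hgw.1.2 hgw.2.2
    calc g w * (((Y.S w).card : ℝ) / (((Y.B w).card : ℝ) - Y.C)) ≤
          g w * ((1 + 2 * Y.C * M / n) * (((Y.S w).card : ℝ) / ((Y.B w).card : ℝ))) :=
          mul_le_mul_of_nonneg_left h3 (hg w (mem_filter.1 hw).1)
      _ = _ := by ring
  obtain ⟨S1, hS1⟩ : ∃ S1 : ℝ, S1 = ∑ w ∈ Y.K n, Rw w := ⟨_, rfl⟩
  obtain ⟨S2, hS2⟩ : ∃ S2 : ℝ, S2 = ∑ w ∈ Y.K n, Rw w ^ 2 := ⟨_, rfl⟩
  have u1 : N Y (n + Y.s) - N Y (n + Y.s) / n ≤ (1 + 2 * Y.C * M / n) * S1 := by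
    have k1 := upperF Y (fun _ => 1) (fun _ => 1) M n hn0 hn4 (fun _ _ => zero_le_one)
      (fun _ _ => le_rfl) (fun _ _ _ _ => le_rfl) (fun _ _ => zero_le_one)
    rw [af_one] at k1
    have k2 := hup (fun _ => 1) (fun _ _ => zero_le_one)
    simp only [one_mul] at k1 k2
    rw [← hS1] at k2
    linarith
  have u2 : (1 - 4 * Y.C * M / n) * S2 ≤ N Y (n + Y.s + Y.s) := by
    have k1 := Y.lowerW (wg_one Y 0).wt M n hn0 hn4
    rw [af_one] at k1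
    refine le_trans ?_ k1
    have e : S2 = ∑ w ∈ Gd, (((Y.S w).card : ℝ) / ((Y.B w).card : ℝ)) ^ 2 := by
      rw [hS2, hGd, sum_filter]
      refine sum_congr rfl fun w _ => ?_
      simp only [hRw]
      split_ifs <;> simp
    rw [e, mul_sum]
    apply sum_le_sum
    intro w hw
    have hgw := hgood w hw
    have h3 := Sys.term2 ((Y.S w).card : ℝ) ((Y.B w).card : ℝ) Y.C M n hC hM' hn4'
      hgw.1.1 hgw.1.2 hgw.2.1 hgw.2.2
    simpa using h3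
  have hr : N Y (n + Y.s) / N Y n = rr Y n := rfl
  have hr' : N Y (n + Y.s + Y.s) / N Y (n + Y.s) = rr Y (n + Y.s) := rfl
  have hvar := var_real (n := (n : ℝ)) (x1 := 2 * Y.C * M / n) (x2 := 4 * Y.C * M / n) (ρ := ρ)
    hA0 hA1 hA2 hn (by positivity) (by positivity) (by
      rw [div_le_div_iff₀ hnp (by norm_num)]; linarith) u1 u2 h2.2 h3
  rw [hr, hr'] at hvar
  have eV : rr Y n * (rr Y (n + Y.s) - rr Y n) +
      (2 * (4 * Y.C * M / n) + 2 * (1 / n + 2 * Y.C * M / n)) * ρ ^ 2 = VV Y c n := by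
    unfold VV
    rw [hc]
    congr 1
    field_simp
    ring
  rw [eV] at hvar
  obtain ⟨V, hV⟩ : ∃ V : ℝ, V = VV Y c n := ⟨_, rfl⟩
  rw [← hV] at hvar ⊢
  obtain ⟨r, hrd⟩ : ∃ r : ℝ, r = rr Y n := ⟨_, rfl⟩
  rw [← hrd] at hvar hr h2
  have eA1 : N Y (n + Y.s) = r * N Y n := by rw [← hr]; field_simp
  have hsq : ∑ w ∈ Y.K n, (Rw w - r) ^ 2 = S2 - 2 * r * S1 + r ^ 2 * N Y n := by
    have : ∀ w ∈ Y.K n, (Rw w - r) ^ 2 = Rw w ^ 2 - 2 * r * Rw w + r ^ 2 := fun w _ => by ring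
    rw [sum_congr rfl this, sum_add_distrib, sum_sub_distrib, ← mul_sum, ← hS1, ← hS2,
      sum_const, nsmul_eq_mul]
    unfold N
    ring
  rw [← hsq] at hvar
  have hV0 : 0 ≤ V := by
    have : 0 ≤ N Y n * V := le_trans (sum_nonneg fun w _ => sq_nonneg _) hvar
    by_contra hcon
    have : N Y n * V < 0 := mul_neg_of_pos_of_neg hA0 (not_le.1 hcon)
    linarith
  refine ⟨hV0, fun f hf0 hf1 hff => ?_⟩
  obtain ⟨δ, hδe⟩ : ∃ δ : ℝ, δ = 0 := ⟨_, rfl⟩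
  have hδ : 0 ≤ δ := by rw [hδe]
  have hδ1 : δ ≤ 1 := by rw [hδe]; norm_num
  have hff : ∀ w ∈ Y.K n, ∀ q ∈ Y.S w, f (Y.ins w q) ≤ f w + δ := by
    intro w hw q hq
    rw [hδe, add_zero]
    exact hff w hw q hq
  have k1 := upperF Y f (fun w => f w + δ) M n hn0 hn4 (fun w hw => (hf1 w hw).1)
    (fun w hw => (hf1 w hw).2) hff (fun w hw => by have := (hf0 w hw).1; linarith)
  have k2 := hup (fun w => f w + δ) (fun w hw => by have := (hf0 w hw).1; linarith)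
  -- Cauchy-Schwarz
  have cs : ∑ w ∈ Y.K n, (f w + δ) * (Rw w - r) ≤ 2 * N Y n * √V := by
    have h4 := Finset.sum_mul_sq_le_sq_mul_sq (Y.K n) (fun w => f w + δ) (fun w => Rw w - r)
    have h5 : ∑ w ∈ Y.K n, (f w + δ) ^ 2 ≤ 4 * N Y n := by
      have : ∀ w ∈ Y.K n, (f w + δ) ^ 2 ≤ 4 := by
        intro w hw
        have := hf0 w hw
        nlinarith
      refine (sum_le_sum this).trans ?_
      rw [sum_const, nsmul_eq_mul]
      unfold N
      linarith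
    have h6 : (∑ w ∈ Y.K n, (f w + δ) * (Rw w - r)) ^ 2 ≤ (2 * N Y n * √V) ^ 2 := by
      refine h4.trans ?_
      calc _ ≤ 4 * N Y n * (N Y n * V) :=
            mul_le_mul h5 hvar (sum_nonneg fun w _ => sq_nonneg _) (by positivity)
        _ = (2 * N Y n * √V) ^ 2 := by
            rw [mul_pow, Real.sq_sqrt hV0]; ring
    exact (le_abs_self _).trans (abs_le_of_sq_le_sq h6 (by positivity))
  have e5 : ∑ w ∈ Y.K n, (f w + δ) * Rw w =
      ∑ w ∈ Y.K n, (f w + δ) * (Rw w - r) + r * (∑ w ∈ Y.K n, f w + N Y n * δ) := by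
    have : ∀ w ∈ Y.K n, (f w + δ) * Rw w = (f w + δ) * (Rw w - r) + (r * f w + r * δ) :=
      fun w _ => by ring
    rw [sum_congr rfl this, sum_add_distrib, sum_add_distrib, ← mul_sum, sum_const,
      nsmul_eq_mul]
    unfold N
    ring
  have e6 : ∑ w ∈ Y.K n, f w = N Y n * EY Y n f := by
    unfold EY
    field_simp
  have e7 : Y.af f (n + Y.s) = N Y (n + Y.s) * EY Y (n + Y.s) f := by
    unfold EY Sys.af
    field_simp
  rw [e5, e6] at k2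
  rw [e7, eA1] at k1
  rw [eA1] at herr
  have hE0 : 0 ≤ EY Y n f := EY_nn hA0 fun w hw => (hf0 w hw).1
  have hE1 : EY Y n f ≤ 1 := EY_l1 hA0 fun w hw => (hf0 w hw).2
  have hx1 : (2 * Y.C * M / n : ℝ) ≤ 1 := by
    rw [div_le_one hnp]; nlinarith
  have hx0 : (0 : ℝ) ≤ 2 * Y.C * M / n := by positivity
  obtain ⟨x, hx⟩ : ∃ x : ℝ, x = 2 * Y.C * M / n := ⟨_, rfl⟩
  rw [← hx] at k2 hx1 hx0
  have hsV := Real.sqrt_nonneg V
  have k3 : r * N Y n * EY Y (n + Y.s) f ≤ r * N Y n / n +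
      (1 + x) * (2 * N Y n * √V + r * (N Y n * EY Y n f + N Y n * δ)) := by
    refine k1.trans (add_le_add herr (k2.trans ?_))
    exact mul_le_mul_of_nonneg_left (by linarith) (by linarith)
  have hr0 : 0 < r := by linarith [h2.1]
  have k4 : EY Y (n + Y.s) f ≤ 1 / n + (1 + x) * (2 * √V / r + (EY Y n f + δ)) := by
    have e8 : r * N Y n / n +
        (1 + x) * (2 * N Y n * √V + r * (N Y n * EY Y n f + N Y n * δ)) =
        r * N Y n * (1 / n + (1 + x) * (2 * √V / r + (EY Y n f + δ))) := by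
      field_simp
    rw [e8] at k3
    exact le_of_mul_le_mul_left k3 (by positivity)
  have k5 : 2 * √V / r ≤ 4 * √V := by
    rw [div_le_iff₀ hr0]
    nlinarith [h2.1]
  have hx' : x = 2 * Y.C * M * (1 / n) := by rw [hx]; ring
  have hn' : (0 : ℝ) ≤ 1 / n := by positivity
  have hCM : (0 : ℝ) ≤ Y.C * M := by positivity
  calc EY Y (n + Y.s) f ≤ 1 / n + (1 + x) * (2 * √V / r + (EY Y n f + δ)) := k4
    _ ≤ 1 / n + (1 + x) * (4 * √V + δ) + (1 + x) * EY Y n f := by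
        have := mul_le_mul_of_nonneg_left k5 (show 0 ≤ 1 + x by linarith)
        linarith
    _ ≤ 1 / n + 2 * (4 * √V + δ) + (EY Y n f + x) := by
        have q1 : (1 + x) * (4 * √V + δ) ≤ 2 * (4 * √V + δ) :=
          mul_le_mul_of_nonneg_right (by linarith) (by positivity)
        have q2 : x * EY Y n f ≤ x := mul_le_of_le_one_right hx0 hE1
        linarith
    _ = _ := by
        rw [hδe, hx]
        ring

end Pool.Agent.R965.HP
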