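import Pool.Agent.R965.HP.All

/-!
# Walks in a domain
-/

set_option autoImplicit false

namespace Pool.Agent.R965.HP

open Finset Filter Topology TH966.KS TH966.AK
open scoped Classical

/-- steps inside a domain -/
def AD (A : P → P → Prop) (D : P → Prop) (p q : P) : Prop := A p q ∧ D p ∧ D q

variable {A : P → P → Prop} {D : P → Prop}

theorem chain_AD {l : List P} (h : l.IsChain A) (hD : ∀ x ∈ l, D x) : l.IsChain (AD A D) := by
  induction l with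
  | nil => exact List.IsChain.nil
  | cons x l ih =>
    cases l with
    | nil => exact List.IsChain.singleton _
    | cons y l =>
      rw [List.isChain_cons_cons] at h ⊢
      exact ⟨⟨h.1, hD x (by simp), hD y (by simp)⟩, ih h.2 fun z hz => hD z (by simp [hz])⟩

theorem AD_chain {l : List P} (h : l.IsChain (AD A D)) : l.IsChain A :=
  h.imp fun _ _ h => h.1

theorem mem_of_chain {l : List P} (h : l.IsChain (AD A D)) (h0 : ∀ x, l.head? = some x → D x) :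
    ∀ x ∈ l, D x := by
  induction l with
  | nil => simp
  | cons x l ih =>
    intro z hz
    rcases List.mem_cons.1 hz with rfl | hz
    · exact h0 _ rfl
    · cases l with
      | nil => simp at hz
      | cons y l =>
        rw [List.isChain_cons_cons] at h
        refine ih h.2 (fun u hu => ?_) z hz
        simp only [List.head?_cons, Option.some.injEq] at hu
        subst hu
        exact h.1.2.2

/-- the rule in a domain -/
def ruleD (Z : Rule A) (D : P → Prop) : Rule (AD A D) where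
  T U U' := Z.T U U' ∧ (∀ x ∈ U, D x) ∧ ∀ x ∈ U', D x
  ρ := Z.ρ
  k := Z.k
  s := Z.s
  step := fun p q h => Z.step p q h.1
  pair := by
    rintro U U' ⟨h, h1, h2⟩
    obtain ⟨h3, h4, h5, h6, h7⟩ := Z.pair U U' h
    exact ⟨h3, h4, h5, chain_AD h6 h1, chain_AD h7 h2⟩
  len := fun U U' h => Z.len U U' h.1
  loc := fun U U' h => Z.loc U U' h.1

theorem Kw_D (Z : Rule A) (h0 : D 0) {n : ℕ} {w : List P} : w ∈ Kw (AD A D) n ↔
    w ∈ Kw A n ∧ ∀ x ∈ w, D x := by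
  rw [(ruleD Z D).mem_K, Z.mem_K]
  constructor
  · rintro ⟨h1, h2, h3, h4⟩
    refine ⟨⟨h1, h2, h3, AD_chain h4⟩, mem_of_chain h4 fun x hx => ?_⟩
    rw [h2] at hx
    cases hx
    exact h0
  · rintro ⟨⟨h1, h2, h3, h4⟩, h5⟩
    exact ⟨h1, h2, h3, chain_AD h4 h5⟩

theorem poorD (Z : Rule A) (h0 : D 0)
    (hcl : ∀ U U', Z.T U U' → (∀ x ∈ U', D x) → ∀ x ∈ U, D x) {μ : ℝ}
    (h : ∃ (M0 : ℕ) (ρ C0 : ℝ), 1 ≤ M0 ∧ 0 ≤ ρ ∧ ρ < μ ∧ ∀ n : ℕ,
      (((Kw A n).filter (fun w => M0 * (Z.B w).card ≤ n)).card : ℝ) ≤ C0 * ρ ^ n) :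
    ∃ (M0 : ℕ) (ρ C0 : ℝ), 1 ≤ M0 ∧ 0 ≤ ρ ∧ ρ < μ ∧ ∀ n : ℕ,
      (((Kw (AD A D) n).filter (fun w => M0 * ((ruleD Z D).B w).card ≤ n)).card : ℝ) ≤
        C0 * ρ ^ n := by
  obtain ⟨M0, ρ, C0, h1, h2, h3, h4⟩ := h
  refine ⟨M0, ρ, C0, h1, h2, h3, fun n => le_trans ?_ (h4 n)⟩
  rw [Nat.cast_le]
  refine Finset.card_le_card fun w hw => ?_
  rw [Finset.mem_filter, Kw_D Z h0] at hw
  obtain ⟨⟨h5, h6⟩, h7⟩ := hw
  rw [Finset.mem_filter]
  refine ⟨h5, le_trans ?_ h7⟩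
  refine Nat.mul_le_mul_left _ (Finset.card_le_card fun q hq => ?_)
  rw [Z.mem_B] at hq
  rw [(ruleD Z D).mem_B]
  have h8 : ∀ x ∈ q.2, D x := fun x hx => h6 x (hq.2.1.subset hx)
  exact ⟨⟨hq.1, hcl _ _ hq.1 h8, h8⟩, hq.2⟩

end Pool.Agent.R965.HP
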