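import Pool.Agent.R965.HP.Grid

/-!
# The half-planes of the three grids; walks as functions and the law of the end point
-/

set_option autoImplicit false

namespace Pool.Agent.R965.HP

open Finset Filter Topology TH966.KS TH966.AK H982
open scoped Classical

/-! ### the half-planes -/

theorem half_sq : ∃ K : ℝ, Gr (ruleD Sq.rule (fun p => 0 ≤ p.1)).sys (@H982.mu H982P.sqL) K 2 := by
  obtain ⟨K, hK⟩ := low_half (L := H982P.sqL) Sq.rule H982P.coord_sq sqS (fun _ _ => Iff.rfl)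
    (fun _ => rfl)
  exact gr_dom (L := H982P.sqL) Sq.rule H982P.coord_sq (by show 1 ≤ 2; norm_num) _
    (by show (0 : ℤ) ≤ 0; exact le_rfl) (sq_cl _) sq_poor le_rfl hK

theorem coord_triA : ∃ (φ : ℤ × ℤ → ℤ × ℤ) (R : ℕ → ℤ × ℤ → Prop),
    @Coord H982P.triL Tri.A φ R ∧ ∀ p, Pool.Agent.H976R3.HPL.triS.h p = (φ p).1 := by
  have h := H982P.coord_tri
  change @Coord H982P.triL AdjT _ _ at h
  rw [adjT_eq] at h
  exact ⟨_, _, h, fun _ => rfl⟩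

theorem half_tri : ∃ K : ℝ, Gr (ruleD Tri.rule (fun p => 0 ≤ p.1 + p.2)).sys
    (@H982.mu H982P.triL) K 2 := by
  obtain ⟨φ, R, hc, hh⟩ := coord_triA
  obtain ⟨K, hK⟩ := low_half (L := H982P.triL) Tri.rule hc Pool.Agent.H976R3.HPL.triS
    (fun p q => (tri_A p q).symm) hh
  exact gr_dom (L := H982P.triL) Tri.rule hc (by show 1 ≤ 1; norm_num) _
    (by show (0 : ℤ) ≤ 0 + 0; norm_num) (tri_cl _) tri_poor le_rfl hK

theorem half_hex : ∃ K : ℝ, Gr (ruleD Hex.rule (fun p => 0 ≤ p.1)).sys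
    (Real.sqrt (2 + Real.sqrt 2)) K 2 := by
  obtain ⟨K, hK⟩ := low_half (L := H982P.hexL) Hex.rule H982P.coord_hex
    Pool.Agent.H976R3.HPL.hexB (fun p q => Iff.rfl)
    (fun p => by show 1 * p.1 + 0 * p.2 = p.1; ring)
  have e : (fun p : ℤ × ℤ => 0 ≤ Pool.Agent.H976R3.HPL.hexB.h p) = fun p => 0 ≤ p.1 := by
    funext p
    have : Pool.Agent.H976R3.HPL.hexB.h p = p.1 := by show 1 * p.1 + 0 * p.2 = p.1; ring
    rw [this]
  rw [e] at hK
  have h := gr_dom (L := H982P.hexL) Hex.rule H982P.coord_hex (by show 1 ≤ 2; norm_num)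
    (fun p => 0 ≤ p.1) (by show (0 : ℤ) ≤ 0; exact le_rfl) hex_cl hex_poor le_rfl hK
  rw [Pool.Agent.H976R3.HPL.mu_hex] at h
  exact h

/-! ### walks as functions -/

/-- the walks with `n` steps in `D` -/
def Wk (A : ℤ × ℤ → ℤ × ℤ → Prop) (D : ℤ × ℤ → Prop) (n : ℕ) : Set (Fin (n + 1) → ℤ × ℤ) :=
  {f | f 0 = 0 ∧ Function.Injective f ∧ (∀ i : Fin n, A (f i.castSucc) (f i.succ)) ∧
    ∀ i, D (f i)}

variable {A : ℤ × ℤ → ℤ × ℤ → Prop} {D : ℤ × ℤ → Prop}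

theorem Wk_eq (h0 : D 0) (n : ℕ) : Wk A D n = wks (AD A D) n := by
  ext f
  unfold Wk wks
  rw [Set.mem_ofPred_eq, Set.mem_ofPred_eq]
  constructor
  · rintro ⟨h1, h2, h3, h4⟩
    exact ⟨h1, h2, fun i => ⟨h3 i, h4 _, h4 _⟩⟩
  · rintro ⟨h1, h2, h3⟩
    refine ⟨h1, h2, fun i => (h3 i).1, fun i => ?_⟩
    rcases Fin.eq_zero_or_eq_succ i with rfl | ⟨j, rfl⟩
    · rw [h1]; exact h0
    · exact (h3 j).2.2

theorem ncard_Wk (Z : Rule A) (h0 : D 0) (n : ℕ) :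
    ((Wk A D n).ncard : ℝ) = N (ruleD Z D).sys n := by
  rw [Wk_eq h0, card_wks (ruleD Z D)]
  rfl

theorem Wk_finite (Z : Rule A) (h0 : D 0) (n : ℕ) : (Wk A D n).Finite := by
  rw [Wk_eq h0]
  have h := image_wks (ruleD Z D) n
  refine Set.Finite.of_finite_image (f := List.ofFn) ?_ List.ofFn_injective.injOn
  rw [h]
  exact Finset.finite_toSet _

theorem ncard_Wk_S (Z : Rule A) (h0 : D 0) (n : ℕ) (S : Set (ℤ × ℤ)) :
    ({f ∈ Wk A D n | f (Fin.last n) ∈ S}.ncard : ℝ) =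
      ∑ w ∈ (ruleD Z D).sys.K n, (if lst w ∈ S then (1 : ℝ) else 0) := by
  rw [Finset.sum_boole]
  congr 1
  rw [← Set.ncard_image_of_injective _ List.ofFn_injective, ← Set.ncard_coe_finset]
  congr 1
  ext w
  rw [Finset.mem_coe, Finset.mem_filter, Set.mem_image]
  have h := image_wks (ruleD Z D) n
  constructor
  · rintro ⟨f, ⟨hf, h1⟩, rfl⟩
    rw [Wk_eq h0] at hf
    refine ⟨?_, by rw [lst_ofFn]; exact h1⟩
    show _ ∈ Kw (AD A D) n
    rw [← Finset.mem_coe, ← h]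
    exact ⟨f, hf, rfl⟩
  · rintro ⟨h1, h2⟩
    change w ∈ Kw (AD A D) n at h1
    rw [← Finset.mem_coe, ← h] at h1
    obtain ⟨f, hf, rfl⟩ := h1
    rw [lst_ofFn] at h2
    exact ⟨f, ⟨by rw [Wk_eq h0]; exact hf, h2⟩, rfl⟩

theorem lst_ins (Z : Rule A) {n : ℕ} {w : List P} {q : List P × List P} (hw : w ∈ Z.sys.K n)
    (hq : q ∈ Z.sys.S w) : lst (Z.sys.ins w q) = lst w := by
  obtain ⟨U, U'⟩ := q
  change w ∈ Kw A n at hw
  change (U, U') ∈ Z.S w at hq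
  rw [Z.mem_K] at hw
  rw [Rule.mem_S] at hq
  obtain ⟨L, R, h1, h2, -⟩ := Rule.rep_all (Z.pair _ _ hq.1) hw.2 hq.2
  change lst (Rule.rep w U U') = lst w
  simp only at h1 h2
  rw [h2, h1, lst_append _ _ _ (Rule.ne_nil (Z.pair _ _ hq.1)),
    lst_append _ _ _ (Rule.ne_nil (Z.pair _ _ hq.1).symm), lst_pair (Z.pair _ _ hq.1)]

/-- the ratios and the law of the end point, for the walks in `D` -/
theorem ends (Z : Rule A) (h0 : D 0) {μ K : ℝ} {a : ℕ} (G : Gr (ruleD Z D).sys μ K a)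
    (ha : 1 ≤ a) : ∃ C : ℝ, 0 ≤ C ∧ ∀ n : ℕ, 2 ≤ n →
      |((Wk A D (n + Z.s)).ncard : ℝ) / ((Wk A D n).ncard : ℝ) - μ ^ Z.s| ≤ C * rt a n ∧
      ∀ S : Set (ℤ × ℤ),
        |({f ∈ Wk A D (n + Z.s) | f (Fin.last (n + Z.s)) ∈ S}.ncard : ℝ) /
            ((Wk A D (n + Z.s)).ncard : ℝ) -
          ({f ∈ Wk A D n | f (Fin.last n) ∈ S}.ncard : ℝ) / ((Wk A D n).ncard : ℝ)| ≤
        C * rt a n := by
  obtain ⟨R1, hR1, h1⟩ := G.ratio ha
  obtain ⟨R2, hR2, h2⟩ := G.tv ha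
  refine ⟨R1 + R2, by positivity, fun n hn => ⟨?_, fun S => ?_⟩⟩
  · rw [ncard_Wk Z h0, ncard_Wk Z h0]
    refine (h1 n hn).trans (mul_le_mul_of_nonneg_right (by linarith) (rt_nonneg _ _))
  · rw [ncard_Wk Z h0, ncard_Wk Z h0, ncard_Wk_S Z h0, ncard_Wk_S Z h0]
    refine (h2 n hn (fun w => if lst w ∈ S then (1 : ℝ) else 0) (fun m w _ => ?_)
      (fun m w q hw hq => ?_)).trans
      (mul_le_mul_of_nonneg_right (by linarith) (rt_nonneg _ _))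
    · split_ifs <;> norm_num
    · simp only [lst_ins (ruleD Z D) hw hq]

end Pool.Agent.R965.HP
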