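import Pool.Agent.R965.HP.Core

/-!
# All lengths together: the ensemble with a fixed fugacity
-/

set_option autoImplicit false

namespace Pool.Agent.R965.HP

open Finset Filter Topology TH966.KS TH966.AK
open scoped Classical

variable {α σ : Type}

/-- the weighted sum over the objects of all lengths below `L` -/
noncomputable def gc (Y : Sys α σ) (x : ℝ) (L : ℕ) (F : ℕ → α → ℝ) : ℝ :=
  ∑ n ∈ range L, x ^ n * ∑ w ∈ Y.K n, F n w

/-- the quotient of the numbers of moves -/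
noncomputable def Rg (Y : Sys α σ) (M n : ℕ) (w : α) : ℝ :=
  if Y.good M n w then ((Y.S w).card : ℝ) / ((Y.B w).card : ℝ) else 0

/-- the error terms -/
noncomputable def bb (Y : Sys α σ) (x : ℝ) (L M : ℕ) : ℝ :=
  ∑ n ∈ range L, x ^ n * (((n : ℝ) + 1) * ((Y.bad M n).card : ℝ))

theorem shift_sum (a : ℕ → ℝ) (s L : ℕ) (h0 : ∀ n, n < s → a n = 0)
    (hL : ∀ n, L ≤ n → a n = 0) : ∑ n ∈ range L, a (n + s) = ∑ n ∈ range L, a n := by
  have h1 := Finset.sum_range_add a s L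
  have h2 := Finset.sum_range_add a L s
  rw [add_comm L s, h1] at h2
  rw [Finset.sum_eq_zero (fun n hn => h0 n (mem_range.1 hn)),
    Finset.sum_eq_zero (s := range s) (fun n _ => hL (L + n) (Nat.le_add_right _ _)),
    zero_add, add_zero] at h2
  rw [← h2]
  exact sum_congr rfl fun n _ => by rw [add_comm]

/-- the hypotheses -/
structure GH (Y : Sys α σ) (x : ℝ) (L M m : ℕ) : Prop where
  hx : 0 < x
  hn0 : Y.n0 = 0
  hM : 1 ≤ M
  hm1 : 1 ≤ m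
  h8 : 8 * M * Y.C ≤ m
  hs : Y.s + Y.s ≤ m
  hmin : ∀ n, n < m → Y.K n = ∅
  hmax : ∀ n, L ≤ n → Y.K n = ∅

variable {Y : Sys α σ} {x : ℝ} {L M m : ℕ}

theorem GH.bad_all (H : GH Y x L M m) {n : ℕ} (hn : n < m) : Y.K (n + Y.s) ⊆ Y.bad M (n + Y.s) := by
  intro w hw
  unfold Sys.bad
  rw [mem_filter]
  refine ⟨hw, Or.inr ?_⟩
  have : Y.B w = ∅ := by
    rw [Finset.eq_empty_iff_forall_notMem]
    intro q hq
    have h1 := Y.rem_K n w q (by rw [H.hn0]; exact Nat.zero_le _) hw hq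
    rw [H.hmin n hn] at h1
    exact absurd h1 (Finset.notMem_empty _)
  rw [this, Finset.card_empty, Nat.mul_zero]
  exact Nat.zero_le _

theorem GH.up (H : GH Y x L M m) (f f' : α → ℝ)
    (hf : ∀ n, ∀ w ∈ Y.K n, 0 ≤ f w ∧ f w ≤ 1) (hf' : ∀ n, ∀ w ∈ Y.K n, 0 ≤ f' w)
    (hff : ∀ n, ∀ w ∈ Y.K n, ∀ q ∈ Y.S w, f (Y.ins w q) ≤ f' w) (n : ℕ) :
    ∑ w ∈ Y.K (n + Y.s), f w ≤ ((Y.bad M (n + Y.s)).card : ℝ) +
      Y.C * (n + 1) * (Y.bad M n).card +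
      (1 + 2 * Y.C * M / m) * ∑ w ∈ Y.K n, f' w * Rg Y M n w := by
  have hmp : (0 : ℝ) < m := by exact_mod_cast H.hm1
  by_cases hn : n < m
  · have h1 : ∑ w ∈ Y.K (n + Y.s), f w ≤ ((Y.bad M (n + Y.s)).card : ℝ) := by
      refine (sum_le_sum fun w hw => (hf _ w hw).2).trans ?_
      rw [sum_const, nsmul_one, Nat.cast_le]
      exact card_le_card (H.bad_all hn)
    rw [H.hmin n hn, sum_empty, mul_zero, add_zero]
    have : (0 : ℝ) ≤ Y.C * (n + 1) * (Y.bad M n).card := by positivity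
    linarith
  · have hmn : m ≤ n := not_lt.1 hn
    have hmn' : (m : ℝ) ≤ n := by exact_mod_cast hmn
    have hnp : (0 : ℝ) < n := by linarith
    have h4n : 4 * M * Y.C ≤ n := by have := H.h8; nlinarith
    have hC : (1 : ℝ) ≤ Y.C := by exact_mod_cast Y.hC
    have k1 := upperF Y f f' M n (by rw [H.hn0]; exact Nat.zero_le _) h4n
      (fun w hw => (hf _ w hw).1) (fun w hw => (hf _ w hw).2) (hff n) (hf' n)
    refine k1.trans ?_
    rw [add_assoc, add_assoc]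
    refine add_le_add le_rfl (add_le_add le_rfl ?_)
    have e1 : ∑ w ∈ Y.K n, f' w * Rg Y M n w =
        ∑ w ∈ (Y.K n).filter (Y.good M n), f' w * (((Y.S w).card : ℝ) / ((Y.B w).card : ℝ)) := by
      rw [sum_filter]
      refine sum_congr rfl fun w _ => ?_
      unfold Rg
      split_ifs <;> simp
    rw [e1, mul_sum]
    apply sum_le_sum
    intro w hw
    have hg := (mem_filter.mp hw).2
    have g1 : (n : ℝ) < M * (Y.B w).card := by exact_mod_cast hg.2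
    have g2 : (4 * Y.C : ℝ) < (Y.B w).card := by exact_mod_cast Y.big h4n hg.2
    have h3 := Sys.term1 ((Y.S w).card : ℝ) ((Y.B w).card : ℝ) Y.C M n hC hnp (by positivity)
      g1 g2
    have h4 : (1 + 2 * Y.C * M / n : ℝ) ≤ 1 + 2 * Y.C * M / m :=
      add_le_add le_rfl (div_le_div_of_nonneg_left (by positivity) hmp hmn')
    have h5 : (0 : ℝ) ≤ ((Y.S w).card : ℝ) / ((Y.B w).card : ℝ) := by positivity
    calc f' w * (((Y.S w).card : ℝ) / (((Y.B w).card : ℝ) - Y.C)) ≤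
          f' w * ((1 + 2 * Y.C * M / n) * (((Y.S w).card : ℝ) / ((Y.B w).card : ℝ))) :=
          mul_le_mul_of_nonneg_left h3 (hf' n w (mem_filter.1 hw).1)
      _ ≤ f' w * ((1 + 2 * Y.C * M / m) * (((Y.S w).card : ℝ) / ((Y.B w).card : ℝ))) :=
          mul_le_mul_of_nonneg_left (mul_le_mul_of_nonneg_right h4 h5)
            (hf' n w (mem_filter.1 hw).1)
      _ = _ := by ring

theorem GH.lo (H : GH Y x L M m) (n : ℕ) :
    (1 - 4 * Y.C * M / m) * ∑ w ∈ Y.K n, Rg Y M n w ^ 2 ≤ N Y (n + (Y.s + Y.s)) := by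
  have hmp : (0 : ℝ) < m := by exact_mod_cast H.hm1
  by_cases hn : n < m
  · rw [H.hmin n hn, sum_empty, mul_zero]
    exact Nat.cast_nonneg _
  · have hmn : m ≤ n := not_lt.1 hn
    have hmn' : (m : ℝ) ≤ n := by exact_mod_cast hmn
    have hnp : (0 : ℝ) < n := by linarith
    have h4n : 4 * M * Y.C ≤ n := by have := H.h8; nlinarith
    have h4n' : (4 * M * Y.C : ℝ) ≤ n := by exact_mod_cast h4n
    have hC : (1 : ℝ) ≤ Y.C := by exact_mod_cast Y.hC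
    have hM' : (1 : ℝ) ≤ M := by exact_mod_cast H.hM
    have k1 := Y.lowerW (wg_one Y 0).wt M n (by rw [H.hn0]; exact Nat.zero_le _) h4n
    rw [af_one, add_assoc] at k1
    refine le_trans ?_ k1
    have e : ∑ w ∈ Y.K n, Rg Y M n w ^ 2 =
        ∑ w ∈ (Y.K n).filter (Y.good M n), (((Y.S w).card : ℝ) / ((Y.B w).card : ℝ)) ^ 2 := by
      rw [sum_filter]
      refine sum_congr rfl fun w _ => ?_
      unfold Rg
      split_ifs <;> simp
    rw [e, mul_sum]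
    apply sum_le_sum
    intro w hw
    have hg := (mem_filter.mp hw).2
    have g0 : (n : ℝ) < M * (Y.S w).card := by exact_mod_cast hg.1
    have g1 : (n : ℝ) < M * (Y.B w).card := by exact_mod_cast hg.2
    have g2 : (4 * Y.C : ℝ) < (Y.S w).card := by exact_mod_cast Y.big h4n hg.1
    have g3 : (4 * Y.C : ℝ) < (Y.B w).card := by exact_mod_cast Y.big h4n hg.2
    have h3 := Sys.term2 ((Y.S w).card : ℝ) ((Y.B w).card : ℝ) Y.C M n hC hM' h4n' g0 g1 g2 g3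
    have h4 : (1 - 4 * Y.C * M / m : ℝ) ≤ 1 - 4 * Y.C * M / n := by
      have : (4 * Y.C * M / n : ℝ) ≤ 4 * Y.C * M / m :=
        div_le_div_of_nonneg_left (by positivity) hmp hmn'
      linarith
    refine (mul_le_mul_of_nonneg_right h4 (sq_nonneg _)).trans ?_
    simpa using h3

/-- the sums -/
theorem GH.sum_up (H : GH Y x L M m) (f f' : α → ℝ)
    (hf : ∀ n, ∀ w ∈ Y.K n, 0 ≤ f w ∧ f w ≤ 1) (hf' : ∀ n, ∀ w ∈ Y.K n, 0 ≤ f' w)
    (hff : ∀ n, ∀ w ∈ Y.K n, ∀ q ∈ Y.S w, f (Y.ins w q) ≤ f' w) :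
    gc Y x L (fun _ => f) ≤ (1 + Y.C * x ^ Y.s) * bb Y x L M +
      (1 + 2 * Y.C * M / m) * (x ^ Y.s * gc Y x L (fun n w => f' w * Rg Y M n w)) := by
  have hx := H.hx
  have h1 : gc Y x L (fun _ => f) =
      ∑ n ∈ range L, x ^ (n + Y.s) * ∑ w ∈ Y.K (n + Y.s), f w := by
    unfold gc
    refine (shift_sum (fun n => x ^ n * ∑ w ∈ Y.K n, f w) Y.s L ?_ ?_).symm
    · intro n hn
      rw [H.hmin n (by have := H.hs; omega), sum_empty, mul_zero]
    · intro n hn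
      rw [H.hmax n hn, sum_empty, mul_zero]
  have h2 : ∑ n ∈ range L, x ^ (n + Y.s) * ((Y.bad M (n + Y.s)).card : ℝ) =
      ∑ n ∈ range L, x ^ n * ((Y.bad M n).card : ℝ) := by
    refine shift_sum (fun n => x ^ n * ((Y.bad M n).card : ℝ)) Y.s L ?_ ?_
    · intro n hn
      unfold Sys.bad
      rw [H.hmin n (by have := H.hs; omega), filter_empty, card_empty, Nat.cast_zero, mul_zero]
    · intro n hn
      unfold Sys.bad
      rw [H.hmax n hn, filter_empty, card_empty, Nat.cast_zero, mul_zero]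
  have h3 : ∑ n ∈ range L, x ^ n * ((Y.bad M n).card : ℝ) ≤ bb Y x L M := by
    unfold bb
    refine sum_le_sum fun n _ => mul_le_mul_of_nonneg_left ?_ (by positivity)
    have : (0 : ℝ) ≤ n * ((Y.bad M n).card : ℝ) := by positivity
    linarith
  rw [h1]
  have h4 : ∑ n ∈ range L, x ^ (n + Y.s) * ∑ w ∈ Y.K (n + Y.s), f w ≤
      ∑ n ∈ range L, (x ^ (n + Y.s) * ((Y.bad M (n + Y.s)).card : ℝ) +
        Y.C * x ^ Y.s * (x ^ n * (((n : ℝ) + 1) * ((Y.bad M n).card : ℝ))) +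
        (1 + 2 * Y.C * M / m) * (x ^ Y.s * (x ^ n * ∑ w ∈ Y.K n, f' w * Rg Y M n w))) := by
    refine sum_le_sum fun n _ => ?_
    have h5 := mul_le_mul_of_nonneg_left (H.up f f' hf hf' hff n)
      (show 0 ≤ x ^ (n + Y.s) by positivity)
    refine h5.trans (le_of_eq ?_)
    rw [pow_add]
    ring
  refine h4.trans ?_
  rw [sum_add_distrib, sum_add_distrib, h2, ← mul_sum, ← mul_sum, ← mul_sum]
  have h6 : ∑ n ∈ range L, x ^ n * (((n : ℝ) + 1) * ((Y.bad M n).card : ℝ)) = bb Y x L M := rfl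
  rw [h6]
  have h7 : ∑ n ∈ range L, x ^ n * ∑ w ∈ Y.K n, f' w * Rg Y M n w =
      gc Y x L (fun n w => f' w * Rg Y M n w) := rfl
  rw [h7]
  linarith

theorem GH.sum_lo (H : GH Y x L M m) :
    (1 - 4 * Y.C * M / m) * ((x ^ Y.s) ^ 2 * gc Y x L (fun n w => Rg Y M n w ^ 2)) ≤
      gc Y x L (fun _ _ => 1) := by
  have hx := H.hx
  have h1 : gc Y x L (fun _ _ => 1) =
      ∑ n ∈ range L, x ^ (n + (Y.s + Y.s)) * ∑ w ∈ Y.K (n + (Y.s + Y.s)), (1 : ℝ) := by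
    unfold gc
    refine (shift_sum (fun n => x ^ n * ∑ w ∈ Y.K n, (1 : ℝ)) (Y.s + Y.s) L ?_ ?_).symm
    · intro n hn
      rw [H.hmin n (by have := H.hs; omega), sum_empty, mul_zero]
    · intro n hn
      rw [H.hmax n hn, sum_empty, mul_zero]
  rw [h1]
  have h2 : (1 - 4 * Y.C * M / m) * ((x ^ Y.s) ^ 2 * gc Y x L (fun n w => Rg Y M n w ^ 2)) =
      ∑ n ∈ range L, x ^ (n + (Y.s + Y.s)) *
        ((1 - 4 * Y.C * M / m) * ∑ w ∈ Y.K n, Rg Y M n w ^ 2) := by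
    unfold gc
    rw [mul_sum, mul_sum]
    refine sum_congr rfl fun n _ => ?_
    rw [pow_add, pow_add]
    ring
  rw [h2]
  refine sum_le_sum fun n _ => mul_le_mul_of_nonneg_left ?_ (by positivity)
  refine (H.lo n).trans (le_of_eq ?_)
  unfold N
  rw [sum_const, nsmul_one]

theorem gc_sigma (Y : Sys α σ) (x : ℝ) (L : ℕ) (F : ℕ → α → ℝ) :
    gc Y x L F = ∑ p ∈ (range L).sigma (fun n => Y.K n), x ^ p.1 * F p.1 p.2 := by
  unfold gc
  rw [Finset.sum_sigma]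
  refine sum_congr rfl fun n _ => ?_
  rw [mul_sum]

/-- Cauchy-Schwarz -/
theorem gc_cs (hx : 0 < x) (F G : ℕ → α → ℝ) :
    gc Y x L (fun n w => F n w * G n w) ^ 2 ≤
      gc Y x L (fun n w => F n w ^ 2) * gc Y x L (fun n w => G n w ^ 2) := by
  rw [gc_sigma, gc_sigma, gc_sigma]
  have h := Finset.sum_mul_sq_le_sq_mul_sq ((range L).sigma (fun n => Y.K n))
    (fun p => √(x ^ p.1) * F p.1 p.2) (fun p => √(x ^ p.1) * G p.1 p.2)
  have e0 : ∀ n : ℕ, √(x ^ n) * √(x ^ n) = x ^ n := fun n => Real.mul_self_sqrt (by positivity)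
  have e1 : ∑ p ∈ (range L).sigma (fun n => Y.K n), x ^ p.1 * (F p.1 p.2 * G p.1 p.2) =
      ∑ p ∈ (range L).sigma (fun n => Y.K n),
        √(x ^ p.1) * F p.1 p.2 * (√(x ^ p.1) * G p.1 p.2) := by
    refine sum_congr rfl fun p _ => ?_
    rw [show √(x ^ p.1) * F p.1 p.2 * (√(x ^ p.1) * G p.1 p.2) =
      √(x ^ p.1) * √(x ^ p.1) * (F p.1 p.2 * G p.1 p.2) by ring, e0]
  have e2 : ∀ F : ℕ → α → ℝ, ∑ p ∈ (range L).sigma (fun n => Y.K n), x ^ p.1 * F p.1 p.2 ^ 2 =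
      ∑ p ∈ (range L).sigma (fun n => Y.K n), (√(x ^ p.1) * F p.1 p.2) ^ 2 := by
    intro F
    refine sum_congr rfl fun p _ => ?_
    rw [mul_pow, sq (√(x ^ p.1)), e0]
  rw [e1, e2, e2]
  exact h

/-- the variance -/
theorem GH.var (H : GH Y x L M m) :
    gc Y x L (fun n w => (x ^ Y.s * Rg Y M n w - 1) ^ 2) ≤
      6 * (2 * Y.C * M / m) * gc Y x L (fun _ _ => 1) +
        2 * ((1 + Y.C * x ^ Y.s) * bb Y x L M) := by
  have hx := H.hx
  have hmp : (0 : ℝ) < m := by exact_mod_cast H.hm1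
  obtain ⟨y, hy⟩ : ∃ y, y = x ^ Y.s := ⟨_, rfl⟩
  obtain ⟨ξ, hξ⟩ : ∃ ξ : ℝ, ξ = 2 * Y.C * M / m := ⟨_, rfl⟩
  obtain ⟨ZZ, hZ⟩ : ∃ ZZ, ZZ = gc Y x L (fun _ _ => 1) := ⟨_, rfl⟩
  obtain ⟨S1, hS1⟩ : ∃ S1, S1 = gc Y x L (fun n w => Rg Y M n w) := ⟨_, rfl⟩
  obtain ⟨S2, hS2⟩ : ∃ S2, S2 = gc Y x L (fun n w => Rg Y M n w ^ 2) := ⟨_, rfl⟩
  obtain ⟨b, hb⟩ : ∃ b, b = (1 + Y.C * x ^ Y.s) * bb Y x L M := ⟨_, rfl⟩
  have h1 := H.sum_up (fun _ => 1) (fun _ => 1) (fun _ _ _ => ⟨zero_le_one, le_rfl⟩)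
    (fun _ _ _ => zero_le_one) (fun _ _ _ _ _ => le_rfl)
  have h2 := H.sum_lo
  simp only [one_mul] at h1
  rw [← hb, ← hS1, ← hξ, ← hZ, ← hy] at h1
  rw [← hS2, ← hZ, ← hy] at h2
  have e4 : (4 * Y.C * M / m : ℝ) = 2 * ξ := by rw [hξ]; ring
  rw [e4] at h2
  have hξ0 : 0 ≤ ξ := by rw [hξ]; positivity
  have hξ1 : ξ ≤ 1 / 4 := by
    rw [hξ, div_le_div_iff₀ hmp (by norm_num)]
    have : (8 * M * Y.C : ℝ) ≤ m := by exact_mod_cast H.h8
    linarith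
  have hZ0 : 0 ≤ ZZ := by
    rw [hZ]
    unfold gc
    exact sum_nonneg fun n _ => mul_nonneg (by positivity) (sum_nonneg fun _ _ => zero_le_one)
  have hb0 : 0 ≤ b := by
    rw [hb]
    refine mul_nonneg (by positivity) ?_
    unfold bb
    exact sum_nonneg fun n _ => by positivity
  have e5 : gc Y x L (fun n w => (y * Rg Y M n w - 1) ^ 2) = y ^ 2 * S2 - 2 * (y * S1) + ZZ := by
    rw [hS2, hS1, hZ]
    unfold gc
    rw [mul_sum, mul_sum, mul_sum, ← sum_sub_distrib, ← sum_add_distrib]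
    refine sum_congr rfl fun n _ => ?_
    have : ∀ w ∈ Y.K n, (y * Rg Y M n w - 1) ^ 2 =
        y ^ 2 * Rg Y M n w ^ 2 - 2 * y * Rg Y M n w + 1 := fun w _ => by ring
    rw [sum_congr rfl this, sum_add_distrib, sum_sub_distrib, ← mul_sum, ← mul_sum]
    ring
  rw [← hb, ← hy, ← hξ, ← hZ, e5]
  -- y² S2 ≤ (1 + 4 ξ) ZZ, y S1 ≥ (1 - ξ) (ZZ - b)
  have g1 : y ^ 2 * S2 ≤ (1 + 4 * ξ) * ZZ := by
    have h3 : 0 ≤ y ^ 2 * S2 := by
      rw [hS2]
      refine mul_nonneg (sq_nonneg _) ?_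
      unfold gc
      exact sum_nonneg fun n _ => mul_nonneg (by positivity) (sum_nonneg fun _ _ => sq_nonneg _)
    have h4 : 1 ≤ (1 + 4 * ξ) * (1 - 2 * ξ) := by nlinarith
    have h5 : 0 ≤ 1 + 4 * ξ := by linarith
    calc y ^ 2 * S2 = 1 * (y ^ 2 * S2) := (one_mul _).symm
      _ ≤ (1 + 4 * ξ) * (1 - 2 * ξ) * (y ^ 2 * S2) := mul_le_mul_of_nonneg_right h4 h3
      _ = (1 + 4 * ξ) * ((1 - 2 * ξ) * (y ^ 2 * S2)) := by ring
      _ ≤ _ := mul_le_mul_of_nonneg_left h2 h5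
  have g2 : (1 - ξ) * (ZZ - b) ≤ y * S1 := by
    have h3 : 0 ≤ y * S1 := by
      rw [hS1, hy]
      refine mul_nonneg (by positivity) ?_
      unfold gc
      refine sum_nonneg fun n _ => mul_nonneg (by positivity) (sum_nonneg fun w _ => ?_)
      show 0 ≤ Rg Y M n w
      unfold Rg
      split_ifs <;> positivity
    have h4 : (1 - ξ) * (1 + ξ) ≤ 1 := by nlinarith
    calc (1 - ξ) * (ZZ - b) ≤ (1 - ξ) * ((1 + ξ) * (y * S1)) :=
          mul_le_mul_of_nonneg_left (by linarith) (by linarith)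
      _ = (1 - ξ) * (1 + ξ) * (y * S1) := by ring
      _ ≤ 1 * (y * S1) := mul_le_mul_of_nonneg_right h4 h3
      _ = y * S1 := one_mul _
  have g3 : 0 ≤ ξ * b := mul_nonneg hξ0 hb0
  nlinarith

/-- **one step in the ensemble** -/
theorem GH.step (H : GH Y x L M m) (hZ : 0 < gc Y x L (fun _ _ => 1)) (f f' : α → ℝ)
    (hf : ∀ n, ∀ w ∈ Y.K n, 0 ≤ f w ∧ f w ≤ 1)
    (hf' : ∀ n, ∀ w ∈ Y.K n, 0 ≤ f' w ∧ f' w ≤ 2)
    (hff : ∀ n, ∀ w ∈ Y.K n, ∀ q ∈ Y.S w, f (Y.ins w q) ≤ f' w) (β : ℝ)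
    (hβ : (1 + Y.C * x ^ Y.s) * bb Y x L M ≤ β * gc Y x L (fun _ _ => 1)) :
    gc Y x L (fun _ => f) / gc Y x L (fun _ _ => 1) ≤
      gc Y x L (fun _ => f') / gc Y x L (fun _ _ => 1) +
        (2 * (2 * Y.C * M / m) + β + 4 * √(6 * (2 * Y.C * M / m) + 2 * β)) := by
  have hx := H.hx
  have hmp : (0 : ℝ) < m := by exact_mod_cast H.hm1
  have hvar := H.var
  have hup := H.sum_up f f' hf (fun n w hw => (hf' n w hw).1) hff
  obtain ⟨y, hy⟩ : ∃ y, y = x ^ Y.s := ⟨_, rfl⟩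
  obtain ⟨ξ, hξ⟩ : ∃ ξ : ℝ, ξ = 2 * Y.C * M / m := ⟨_, rfl⟩
  obtain ⟨ZZ, hZZ⟩ : ∃ ZZ, ZZ = gc Y x L (fun _ _ => 1) := ⟨_, rfl⟩
  obtain ⟨V, hV⟩ : ∃ V, V = gc Y x L (fun n w => (x ^ Y.s * Rg Y M n w - 1) ^ 2) := ⟨_, rfl⟩
  obtain ⟨b, hb⟩ : ∃ b, b = (1 + Y.C * x ^ Y.s) * bb Y x L M := ⟨_, rfl⟩
  rw [← hb] at hβ hvar hup
  rw [← hZZ] at hβ hvar hZ ⊢
  rw [← hV] at hvar
  rw [← hξ] at hvar hup ⊢
  have hξ0 : 0 ≤ ξ := by rw [hξ]; positivity
  have hξ1 : ξ ≤ 1 / 4 := by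
    rw [hξ, div_le_div_iff₀ hmp (by norm_num)]
    have : (8 * M * Y.C : ℝ) ≤ m := by exact_mod_cast H.h8
    linarith
  have hV2 : V ≤ (6 * ξ + 2 * β) * ZZ := by linarith
  have hV0 : 0 ≤ V := by
    rw [hV]
    unfold gc
    exact sum_nonneg fun n _ => mul_nonneg (by positivity) (sum_nonneg fun _ _ => sq_nonneg _)
  -- Cauchy-Schwarz
  have cs := gc_cs (Y := Y) (L := L) hx (fun _ => f') (fun n w => x ^ Y.s * Rg Y M n w - 1)
  have hf2 : gc Y x L (fun _ w => f' w ^ 2) ≤ 4 * ZZ := by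
    rw [hZZ]
    unfold gc
    rw [mul_sum]
    refine sum_le_sum fun n _ => ?_
    rw [mul_left_comm]
    refine mul_le_mul_of_nonneg_left ?_ (by positivity)
    rw [mul_sum]
    refine sum_le_sum fun w hw => ?_
    have := hf' n w hw
    nlinarith
  rw [← hV] at cs
  have hT0 : 0 ≤ 6 * ξ + 2 * β := by
    by_contra hcon
    have : (6 * ξ + 2 * β) * ZZ < 0 := mul_neg_of_neg_of_pos (not_le.1 hcon) hZ
    linarith
  obtain ⟨T, hT⟩ : ∃ T, T = √(6 * ξ + 2 * β) := ⟨_, rfl⟩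
  have hTn : 0 ≤ T := by rw [hT]; exact Real.sqrt_nonneg _
  have hTsq : T ^ 2 = 6 * ξ + 2 * β := by rw [hT]; exact Real.sq_sqrt hT0
  have cs2 : gc Y x L (fun n w => f' w * (x ^ Y.s * Rg Y M n w - 1)) ≤ 2 * T * ZZ := by
    have h1 : gc Y x L (fun n w => f' w * (x ^ Y.s * Rg Y M n w - 1)) ^ 2 ≤ (2 * T * ZZ) ^ 2 := by
      refine cs.trans ?_
      have h2 : gc Y x L (fun _ w => f' w ^ 2) * V ≤ (4 * ZZ) * ((6 * ξ + 2 * β) * ZZ) :=
        mul_le_mul hf2 hV2 hV0 (by positivity)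
      rw [← hTsq] at h2
      calc _ ≤ (4 * ZZ) * (T ^ 2 * ZZ) := h2
        _ = (2 * T * ZZ) ^ 2 := by ring
    exact (le_abs_self _).trans (abs_le_of_sq_le_sq h1 (by positivity))
  have e6 : x ^ Y.s * gc Y x L (fun n w => f' w * Rg Y M n w) =
      gc Y x L (fun n w => f' w * (x ^ Y.s * Rg Y M n w - 1)) + gc Y x L (fun _ => f') := by
    unfold gc
    rw [mul_sum, ← sum_add_distrib]
    refine sum_congr rfl fun n _ => ?_
    rw [← mul_add, ← sum_add_distrib, mul_left_comm, mul_sum]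
    congr 1
    refine sum_congr rfl fun w _ => ?_
    ring
  rw [e6] at hup
  have hf'Z : gc Y x L (fun _ => f') ≤ 2 * ZZ := by
    rw [hZZ]
    unfold gc
    rw [mul_sum]
    refine sum_le_sum fun n _ => ?_
    rw [mul_left_comm]
    refine mul_le_mul_of_nonneg_left ?_ (by positivity)
    rw [mul_sum]
    exact sum_le_sum fun w hw => by have := (hf' n w hw).2; linarith
  rw [div_le_iff₀ hZ, add_mul, div_mul_cancel₀ _ hZ.ne', ← hT]
  have h7 : (1 + ξ) * (gc Y x L (fun n w => f' w * (x ^ Y.s * Rg Y M n w - 1)) +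
      gc Y x L (fun _ => f')) ≤ (1 + ξ) * (2 * T * ZZ + gc Y x L (fun _ => f')) :=
    mul_le_mul_of_nonneg_left (by linarith) (by linarith)
  have h8 : 0 ≤ T * ZZ := by positivity
  have h9 : ξ * gc Y x L (fun _ => f') ≤ ξ * (2 * ZZ) := mul_le_mul_of_nonneg_left hf'Z hξ0
  nlinarith

end Pool.Agent.R965.HP
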