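import Pool.Agent.R965.HP.Sq

/-!
# The square lattice: walks with few U-turns are rare
-/

set_option autoImplicit false

namespace Pool.Agent.R965.HP.Sq

open Finset TH966.AK

theorem pow_small (n : ℕ) : (100 : ℝ) ^ (n / 10000) ≤ (1001 / 1000 : ℝ) ^ n := by
  have h1 : (100 : ℝ) ≤ (1001 / 1000 : ℝ) ^ 10000 := by
    have h2 : (2 : ℝ) ≤ (1001 / 1000 : ℝ) ^ 1000 := by
      have := one_add_mul_le_pow (a := (1 / 1000 : ℝ)) (by norm_num) 1000
      have e : (1 : ℝ) + 1 / 1000 = 1001 / 1000 := by norm_num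
      rw [e] at this
      refine le_trans ?_ this
      norm_num
    calc (100 : ℝ) ≤ 2 ^ 10 := by norm_num
      _ ≤ ((1001 / 1000 : ℝ) ^ 1000) ^ 10 := pow_le_pow_left₀ (by norm_num) h2 _
      _ = (1001 / 1000 : ℝ) ^ 10000 := by rw [← pow_mul]
  calc (100 : ℝ) ^ (n / 10000) ≤ ((1001 / 1000 : ℝ) ^ 10000) ^ (n / 10000) :=
        pow_le_pow_left₀ (by norm_num) h1 _
    _ = (1001 / 1000 : ℝ) ^ (10000 * (n / 10000)) := by rw [← pow_mul]
    _ ≤ (1001 / 1000 : ℝ) ^ n := pow_le_pow_right₀ (by norm_num) (Nat.mul_div_le n 10000)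

open scoped Classical in
theorem poor_long (m k : ℕ) (hk : k = 2) :
    (((Kw A (m + 2)).filter (fun w => 10000 * (rule.B w).card ≤ m + 2)).card : ℝ) ≤
    ((Kw A k).card : ℝ) * 2 * (121121 / 50000 : ℝ) ^ (m + 2) := by
  obtain ⟨Q, hQ⟩ : ∃ Q, Q = (Kw A (m + 2)).filter
    (fun w => 10000 * (rule.B w).card ≤ m + 2) := ⟨_, rfl⟩
  obtain ⟨K2, hK2⟩ : ∃ K2, K2 = Kw A k := ⟨_, rfl⟩
  obtain ⟨GG, hGG⟩ : ∃ GG : Finset (List P),
    GG = K2.biUnion (fun u => (E m (u.getD 0 0) (u.getD 1 0) (u.getD 2 0)).image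
      (fun l => u ++ l)) := ⟨_, rfl⟩
  rw [← hQ, ← hK2]
  have hsub : Q ⊆ GG := by
    intro w hw
    rw [hQ, Finset.mem_filter, rule.mem_K] at hw
    obtain ⟨⟨h1, h2, h3, h4⟩, -⟩ := hw
    match w, h1 with
    | a :: b :: c :: l, h1 =>
      have hl : l.length = m := by
        simp only [List.length_cons] at h1
        omega
      rw [hGG, Finset.mem_biUnion]
      refine ⟨[a, b, c], ?_, ?_⟩
      · rw [hK2, rule.mem_K]
        refine ⟨by rw [hk]; rfl, ?_, ?_, ?_⟩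
        · simpa using h2
        · exact h3.sublist (by simp)
        · have h5 := List.isChain_cons_cons.1 h4
          have h6 := List.isChain_cons_cons.1 h5.2
          rw [List.isChain_cons_cons, List.isChain_cons_cons]
          exact ⟨h5.1, h6.1, List.IsChain.singleton _⟩
      · rw [Finset.mem_image]
        exact ⟨l, mem_E m a b c l h3 h4 hl, by simp⟩
  have h1 : (Q.card : ℝ) * (1 / 100 : ℝ) ^ ((m + 2) / 10000) ≤
      ∑ w ∈ Q, (1 / 100 : ℝ) ^ sh w := by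
    rw [← nsmul_eq_mul, ← Finset.sum_const]
    refine Finset.sum_le_sum fun w hw => ?_
    refine pow_le_pow_of_le_one (by norm_num) (by norm_num) ?_
    rw [hQ, Finset.mem_filter, rule.mem_K] at hw
    obtain ⟨⟨h1, h2, h3, h4⟩, h5⟩ := hw
    have h6 := sh_le w h3 h4
    refine h6.trans ?_
    rw [Nat.le_div_iff_mul_le (by norm_num)]
    omega
  have h2 : ∑ w ∈ Q, (1 / 100 : ℝ) ^ sh w ≤ ∑ w ∈ GG, (1 / 100 : ℝ) ^ sh w :=
    Finset.sum_le_sum_of_subset_of_nonneg hsub fun _ _ _ => by positivity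
  have h3 : ∑ w ∈ GG, (1 / 100 : ℝ) ^ sh w ≤ K2.card * ((121 / 50 : ℝ) ^ m * 2) := by
    rw [hGG, Finset.sum_biUnion (by
      intro u hu u' hu' huu
      simp only [Function.onFun]
      rw [Finset.disjoint_left]
      intro l hl hl'
      rw [Finset.mem_image] at hl hl'
      obtain ⟨l1, -, rfl⟩ := hl
      obtain ⟨l2, -, h2⟩ := hl'
      rw [hK2, Finset.mem_coe, rule.mem_K] at hu hu'
      exact huu (List.append_inj h2 (by rw [hu.1, hu'.1])).1.symm)]
    rw [← nsmul_eq_mul]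
    refine Finset.sum_le_card_nsmul _ _ _ fun u hu => ?_
    rw [hK2, rule.mem_K, hk] at hu
    obtain ⟨g1, -, g3, g4⟩ := hu
    match u, g1 with
    | [a, b, c], _ =>
      rw [Finset.sum_image (fun _ _ _ _ h => List.append_cancel_left h)]
      have h5 := List.isChain_cons_cons.1 g4
      have h6 := List.isChain_cons_cons.1 h5.2
      have hac : a ≠ c := by
        rintro rfl
        exact (List.nodup_cons.1 g3).1 (by simp)
      refine (sum_E m a b c h5.1 h6.1 hac).trans ?_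
      refine mul_le_mul_of_nonneg_left ?_ (by positivity)
      have := F_le a b c
      linarith
  have h4 := (h1.trans h2).trans h3
  have h5 := pow_small (m + 2)
  obtain ⟨e, he⟩ : ∃ e : ℕ, e = (m + 2) / 10000 := ⟨_, rfl⟩
  obtain ⟨v, hv⟩ : ∃ v : ℕ, v = m + 2 := ⟨_, rfl⟩
  rw [← he] at h4 h5
  rw [← hv] at h5 ⊢
  have h6 : (1 / 100 : ℝ) ^ e * (100 : ℝ) ^ e = 1 := by
    rw [← mul_pow]; norm_num
  have p1 : (0 : ℝ) ≤ 100 ^ e := pow_nonneg (by norm_num) _
  have p2 : (0 : ℝ) ≤ (1001 / 1000 : ℝ) ^ v := pow_nonneg (by norm_num) _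
  have p3 : (0 : ℝ) ≤ (121 / 50 : ℝ) ^ m := pow_nonneg (by norm_num) _
  have p4 : (0 : ℝ) ≤ (K2.card : ℝ) := Nat.cast_nonneg _
  have p5 : (121 / 50 : ℝ) ^ m ≤ (121 / 50 : ℝ) ^ v := pow_le_pow_right₀ (by norm_num) (by omega)
  calc (Q.card : ℝ) = (Q.card : ℝ) * (1 / 100 : ℝ) ^ e * (100 : ℝ) ^ e := by
        rw [mul_assoc, h6, mul_one]
    _ ≤ K2.card * ((121 / 50 : ℝ) ^ m * 2) * (1001 / 1000 : ℝ) ^ v :=
        mul_le_mul h4 h5 p1 (mul_nonneg p4 (mul_nonneg p3 (by norm_num)))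
    _ ≤ K2.card * ((121 / 50 : ℝ) ^ v * 2) * (1001 / 1000 : ℝ) ^ v := by
        refine mul_le_mul_of_nonneg_right (mul_le_mul_of_nonneg_left
          (mul_le_mul_of_nonneg_right p5 (by norm_num)) p4) p2
    _ = K2.card * 2 * ((121 / 50 : ℝ) ^ v * (1001 / 1000 : ℝ) ^ v) := by ring
    _ = _ := by
        rw [← mul_pow]; norm_num

open scoped Classical in
/-- walks with few U-turns are rare -/
theorem poor : ∃ C0 : ℝ, ∀ n : ℕ,
    (((Kw A n).filter (fun w => 10000 * (rule.B w).card ≤ n)).card : ℝ) ≤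
      C0 * (121121 / 50000 : ℝ) ^ n := by
  obtain ⟨k, hk⟩ : ∃ k : ℕ, k = 2 := ⟨_, rfl⟩
  refine ⟨(Kw A k).card * 2 + ∑ i ∈ range 2, ((Kw A i).card : ℝ), fun n => ?_⟩
  have hsum : 0 ≤ ∑ i ∈ range 2, ((Kw A i).card : ℝ) :=
    Finset.sum_nonneg fun _ _ => Nat.cast_nonneg _
  have hp : (1 : ℝ) ≤ (121121 / 50000 : ℝ) ^ n := one_le_pow₀ (by norm_num)
  have hK : (0 : ℝ) ≤ (Kw A k).card * 2 := by positivity
  rcases Nat.lt_or_ge n 2 with h | h
  · have h1 : (((Kw A n).filter (fun w => 10000 * (rule.B w).card ≤ n)).card : ℝ) ≤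
        (Kw A n).card := by exact_mod_cast Finset.card_filter_le _ _
    have h2 : ((Kw A n).card : ℝ) ≤ ∑ i ∈ range 2, ((Kw A i).card : ℝ) :=
      Finset.single_le_sum (f := fun i => ((Kw A i).card : ℝ)) (fun _ _ => Nat.cast_nonneg _)
        (Finset.mem_range.2 h)
    nlinarith
  · obtain ⟨m, rfl⟩ : ∃ m, n = m + 2 := ⟨n - 2, by omega⟩
    refine (poor_long m k hk).trans ?_
    exact mul_le_mul_of_nonneg_right (by linarith) (by positivity)

end Pool.Agent.R965.HP.Sq
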