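import Pool.Agent.R965.HP.Dom
import Pool.Agent.R965.HP.SqPoor
import Pool.Agent.TH966.AK.HexEnd
import Pool.Agent.H976R3.HPL.AS
import Pool.Agent.TH508.LT.Fin2
import Pool.Agent.H739K.BND

/-!
# Growth bounds for the walks in domains and half-planes of the three grids
-/

set_option autoImplicit false

namespace Pool.Agent.R965.HP

open Finset Filter Topology TH966.KS TH966.AK H982
open scoped Classical

/-- the square lattice with the height `x` -/
def sqS : Pool.Agent.H976R3.HPL.Sys where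
  Adj := Sq.A
  nb := Sq.nb
  h p := p.1
  good _ := True
  adj_symm := fun h => Sq.A_symm h
  mem_nb := fun {p q} => by
    rw [Sq.mem_nb]
  card_nb p := Finset.card_le_four.trans (by norm_num)
  h_add p q := rfl
  h_e := rfl
  h_adj := by
    intro p q h
    have := (Sq.A_step h).1
    rwa [abs_sub_comm] at this
  adj_e p := by
    rw [Sq.A_iff]
    left
    simp
  adj_good := by
    intro c p q _ h
    rw [Sq.A_iff] at *
    simp only [Prod.fst_add, Prod.snd_add]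
    omega
  good_zero := trivial
  good_add _ _ := trivial
  good_neg _ := trivial
  good_step _ := trivial
  good_two := trivial
  good_or _ := Or.inl trivial

theorem card_pre {A : ℤ × ℤ → ℤ × ℤ → Prop} (Z : Rule A) {m n : ℕ} (hmn : m ≤ n)
    (h : 0 < (Kw A n).card) : 0 < (Kw A m).card := by
  obtain ⟨w, hw⟩ := Finset.card_pos.1 h
  rw [Z.mem_K] at hw
  refine Finset.card_pos.2 ⟨w.take (m + 1), ?_⟩
  rw [Z.mem_K]
  obtain ⟨h1, h2, h3, h4⟩ := hw
  refine ⟨by rw [List.length_take]; omega, ?_, h3.sublist (List.take_sublist _ _),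
    h4.take _⟩
  cases w with
  | nil => simp at h1
  | cons x t => simpa using h2

section gen

variable [L : H982.Lat] {A : ℤ × ℤ → ℤ × ℤ → Prop} {φ : ℤ × ℤ → ℤ × ℤ} {R : ℕ → ℤ × ℤ → Prop}

theorem card_full (Z : Rule A) (H : Coord A φ R) (n : ℕ) : ((Kw A n).card : ℝ) = cr' n := by
  rw [← card_wks Z, ← ncard_walks H]
  rfl

/-- growth bounds in a domain -/
theorem gr_dom (Z : Rule A) (H : Coord A φ R) (hs : 1 ≤ Z.s) (D : ℤ × ℤ → Prop) (h0 : D 0)
    (hcl : ∀ U U', Z.T U U' → (∀ x ∈ U', D x) → ∀ x ∈ U, D x)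
    (hp : ∃ (M0 : ℕ) (ρ C0 : ℝ), 1 ≤ M0 ∧ 0 ≤ ρ ∧ ρ < mu ∧ ∀ n : ℕ,
      (((Kw A n).filter (fun w => M0 * (Z.B w).card ≤ n)).card : ℝ) ≤ C0 * ρ ^ n)
    {K : ℝ} {a : ℕ} (ha : 2 ≤ a)
    (hlow : ∀ n : ℕ, 2 ≤ n → mu ^ n * Real.exp (-(K * Real.log n ^ a)) ≤
      ((Kw (AD A D) n).card : ℝ)) :
    ∃ K' : ℝ, Gr (ruleD Z D).sys mu K' a := by
  obtain ⟨K1, hK1, hup⟩ := Pool.Agent.TH508.LT.cr'_upper2
  have hl2 : 0 < Real.log 2 := Real.log_pos (by norm_num)
  have hpos2 : ∀ n : ℕ, 2 ≤ n → 0 < (Kw (AD A D) n).card := by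
    intro n hn
    have h1 : 0 < mu ^ n * Real.exp (-(K * Real.log n ^ a)) := by
      have := H982.mu_pos
      positivity
    exact_mod_cast h1.trans_le (hlow n hn)
  refine ⟨|K| + K1 * (1 / Real.log 2) ^ (a - 2), ?_⟩
  have hK' : 0 ≤ K1 * (1 / Real.log 2) ^ (a - 2) := by positivity
  refine ⟨hs, H982.one_le_mu, by positivity, fun n => ?_, fun n hn => ?_, fun n hn => ?_, ?_⟩
  · have h1 : 0 < (Kw (AD A D) n).card := by
      by_cases h : 2 ≤ n
      · exact hpos2 n h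
      · exact card_pre (ruleD Z D) (by omega) (hpos2 2 le_rfl)
    show (0 : ℝ) < ((Kw (AD A D) n).card : ℝ)
    exact_mod_cast h1
  · refine le_trans ?_ (hlow n hn)
    have hm := H982.mu_pos
    refine mul_le_mul_of_nonneg_left (Real.exp_le_exp.2 ?_) (by positivity)
    have hl : 0 ≤ Real.log (n : ℝ) ^ a := pow_nonneg (Real.log_natCast_nonneg n) _
    have h2 := le_abs_self K
    nlinarith
  · have h1 : N (ruleD Z D).sys n ≤ ((Kw A n).card : ℝ) := by
      show ((Kw (AD A D) n).card : ℝ) ≤ _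
      exact_mod_cast Finset.card_le_card fun w hw => ((Kw_D Z h0).1 hw).1
    rw [card_full Z H] at h1
    refine h1.trans ((hup n hn).trans ?_)
    have hm := H982.mu_pos
    refine mul_le_mul_of_nonneg_left (Real.exp_le_exp.2 ?_) (by positivity)
    have hl : 0 ≤ Real.log (n : ℝ) := Real.log_natCast_nonneg n
    have h2 : 1 ≤ (1 / Real.log 2 * Real.log n) ^ (a - 2) := by
      refine one_le_pow₀ ?_
      rw [one_div, inv_mul_eq_div, one_le_div hl2]
      exact Real.log_le_log (by norm_num) (by exact_mod_cast hn)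
    have h3 : Real.log (n : ℝ) ^ a = Real.log n ^ (a - 2) * Real.log n ^ 2 := by
      rw [← pow_add]
      congr 1
      omega
    rw [mul_pow] at h2
    have h4 : 0 ≤ K1 * Real.log (n : ℝ) ^ 2 := by positivity
    have h5 := mul_le_mul_of_nonneg_left h2 h4
    have h6 : 0 ≤ |K| * Real.log (n : ℝ) ^ a := by positivity
    calc K1 * Real.log (n : ℝ) ^ 2 = K1 * Real.log (n : ℝ) ^ 2 * 1 := by ring
      _ ≤ _ := h5
      _ = K1 * (1 / Real.log 2) ^ (a - 2) * Real.log (n : ℝ) ^ a := by rw [h3]; ring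
      _ ≤ _ := by rw [add_mul]; linarith
  · exact poorD Z h0 hcl hp

/-- the lower bound in a half-plane -/
theorem low_half (Z : Rule A) (H : Coord A φ R) (G : Pool.Agent.H976R3.HPL.Sys)
    (hA : ∀ p q, G.Adj p q ↔ A p q) (hh : ∀ p, G.h p = (φ p).1) :
    ∃ K : ℝ, ∀ n : ℕ, 2 ≤ n → mu ^ n * Real.exp (-(K * Real.log n ^ 2)) ≤
      ((Kw (AD A (fun p => 0 ≤ G.h p)) n).card : ℝ) := by
  obtain ⟨K, hK, h⟩ := Pool.Agent.TH508.LT.br'_lower2
  refine ⟨K, fun n hn => (h n hn).trans ?_⟩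
  refine (Pool.Agent.H976R3.HPL.words_le H G (fun p q h => (hA p q).2 h) hh n).trans ?_
  unfold Pool.Agent.H976R3.HPL.b
  rw [Nat.cast_le]
  refine Finset.card_le_card fun l hl => ?_
  have h00 : G.h 0 = 0 := Pool.Agent.H976R3.HPL.S5_h_zero G
  rw [Kw_D Z (by rw [h00]), Z.mem_K]
  obtain ⟨h1, h2⟩ := Pool.Agent.H976R3.HPL.mem_Br.1 hl
  obtain ⟨h3, h4, h5, h6, h7⟩ := Pool.Agent.H976R3.HPL.mem_HW.1 h1
  refine ⟨⟨h3, h4, h6, h5.imp fun {a b} hab => (hA a b).1 hab⟩, fun x hx => ?_⟩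
  cases l with
  | nil => simp at hx
  | cons y t =>
    simp only [List.head?_cons, Option.some.injEq] at h4
    subst h4
    rcases List.mem_cons.1 hx with rfl | hx
    · rw [h00]
    · have := h7 x (by simpa using hx)
      rw [h00] at this
      exact this.le

end gen

/-! ### the square lattice -/

theorem mu_sq : @H982.mu H982P.sqL = H981.mu := by
  have h := @H982.tendsto_root H982P.sqL
  have hc : ∀ n, @H982.cr' H982P.sqL n = H981.cr' n := by
    intro n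
    rw [← @H982.ncard_walks H982P.sqL _ _ _ H982P.coord_sq, H981.cr'_eq]
    congr 1
    rw [H982.walks, H981.C, ← Nat.card_coe_set_eq]
    refine Nat.card_congr (Equiv.subtypeEquivRight fun f => ?_)
    unfold H981.IsSAW
    constructor
    · rintro ⟨h0, hi, hs⟩
      refine ⟨h0, fun i => ?_, hi⟩
      have := hs i
      rw [abs_sub_comm, abs_sub_comm (f i.succ).2]
      exact this
    · rintro ⟨h0, hs, hi⟩
      refine ⟨h0, hi, fun i => ?_⟩
      have := hs i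
      rw [abs_sub_comm, abs_sub_comm (f i.succ).2] at this
      exact this
  simp only [hc] at h
  exact tendsto_nhds_unique h H981.tendsto_root

theorem sq_poor : ∃ (M0 : ℕ) (ρ C0 : ℝ), 1 ≤ M0 ∧ 0 ≤ ρ ∧ ρ < @H982.mu H982P.sqL ∧ ∀ n : ℕ,
    (((Kw Sq.A n).filter (fun w => M0 * (Sq.rule.B w).card ≤ n)).card : ℝ) ≤ C0 * ρ ^ n := by
  obtain ⟨C0, hC0⟩ := Sq.poor
  refine ⟨10000, 121121 / 50000, C0, by norm_num, by norm_num, ?_, hC0⟩
  rw [mu_sq]
  have := Pool.Agent.H739K.BNDx.mu_ge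
  linarith

theorem sq_cl (D : ℤ × ℤ → Prop) : ∀ U U', Sq.rule.T U U' → (∀ x ∈ U', D x) → ∀ x ∈ U, D x := by
  rintro U U' ⟨p, v, w, r, rfl, rfl, -⟩ h x hx
  simp only [List.mem_cons, List.not_mem_nil, or_false] at hx
  rcases hx with rfl | rfl
  · exact h _ (by simp)
  · exact h _ (by simp)

/-! ### the triangular lattice -/

theorem tri_A : ∀ p q, TH966.AK.Tri.A p q ↔ Pool.Agent.H976R3.HPL.TAdj p q := by
  intro p q
  rw [Pool.Agent.H976R3.HPL.TAdj_iff, TH966.AK.Tri.A_iff]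

theorem tri_poor : ∃ (M0 : ℕ) (ρ C0 : ℝ), 1 ≤ M0 ∧ 0 ≤ ρ ∧ ρ < @H982.mu H982P.triL ∧ ∀ n : ℕ,
    (((Kw Tri.A n).filter (fun w => M0 * (Tri.rule.B w).card ≤ n)).card : ℝ) ≤ C0 * ρ ^ n := by
  refine ⟨10000, 31 / 10, 6, by norm_num, by norm_num, ?_, fun n => ?_⟩
  · have := Pool.Agent.H976R3.HPL.mu_tri
    linarith
  · have h := Tri.poor n
    convert h using 3

theorem tri_cl (D : ℤ × ℤ → Prop) : ∀ U U', Tri.rule.T U U' → (∀ x ∈ U', D x) →
    ∀ x ∈ U, D x := by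
  rintro U U' ⟨p, v, r, rfl, rfl, -⟩ h x hx
  simp only [List.mem_cons, List.not_mem_nil, or_false] at hx
  rcases hx with rfl | rfl
  · exact h _ (by simp)
  · exact h _ (by simp)

/-! ### the hexagonal lattice -/

theorem hex_poor : ∃ (M0 : ℕ) (ρ C0 : ℝ), 1 ≤ M0 ∧ 0 ≤ ρ ∧ ρ < @H982.mu H982P.hexL ∧ ∀ n : ℕ,
    (((Kw Hex.A n).filter (fun w => M0 * (Hex.rule.B w).card ≤ n)).card : ℝ) ≤ C0 * ρ ^ n := by
  obtain ⟨C0, hC0⟩ := Hex.poor
  refine ⟨10000, 459 / 250, C0, by norm_num, by norm_num, ?_, hC0⟩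
  rw [Pool.Agent.H976R3.HPL.mu_hex]
  show _ < Real.sqrt (2 + Real.sqrt 2)
  have h4 : (1.4142 : ℝ) ≤ Real.sqrt 2 := by
    rw [Real.le_sqrt' (by norm_num)]
    norm_num
  rw [Real.lt_sqrt (by norm_num)]
  linarith [show (459 / 250 : ℝ) ^ 2 < 2 + 1.4142 by norm_num]

theorem hex_cl : ∀ U U', Hex.rule.T U U' → (∀ x ∈ U', 0 ≤ x.1) → ∀ x ∈ U, 0 ≤ x.1 := by
  rintro U U' ⟨p, q, r, rfl, rfl, h1, h2, h3⟩ h x hx
  have hp : 0 ≤ p.1 := h p (by simp)
  have hr : 0 ≤ r.1 := h r (by simp)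
  simp only [List.mem_cons, List.not_mem_nil, or_false] at hx
  rcases hx with rfl | rfl | rfl
  · exact hp
  · rw [Hex.A_iff] at h1 h2
    by_contra hcon
    apply h3
    exact Prod.ext (by omega) (by omega)
  · exact hr

end Pool.Agent.R965.HP
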