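import Pool.Agent.R965.HP.HexLen

/-!
# Hexagons
-/

set_option autoImplicit false

namespace Pool.Agent.R965.HP

open Finset Filter Topology TH966.KS TH966.AK

theorem hex_base : ∀ q ∈ Hex.nb 0, ∀ r ∈ Hex.nb q, ∀ x ∈ Hex.nb 0, ∀ y ∈ Hex.nb x,
    ∀ z ∈ Hex.nb y, r ∈ Hex.nb z → (0 : P) ≠ r → x ≠ q → (0 : P) ≠ y → x ≠ z → y ≠ r →
      z ≠ q → x = Hex.ctr 0 q r - r ∧ y = Hex.ctr 0 q r - q ∧ z = Hex.ctr 0 q r - 0 := by
  decide

/-- two edges of a hexagon and the four others -/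
def HexPair (U U' : List (ℤ × ℤ)) : Prop :=
  ∃ p q r x y z, U = [p, q, r] ∧ U' = [p, x, y, z, r] ∧ U.IsChain Nb ∧ U'.IsChain Nb ∧
    [p, q, r, z, y, x].Nodup

theorem hexPair_iff (U U' : List (ℤ × ℤ)) : HexPair U U' ↔ Hex.T U U' := by
  constructor
  · rintro ⟨p, q, r, x, y, z, rfl, rfl, h1, h2, h3⟩
    simp only [List.isChain_cons_cons, List.isChain_singleton, and_true, nb_iff] at h1 h2
    simp only [List.nodup_cons, List.mem_cons, List.not_mem_nil, or_false, not_or,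
      List.nodup_nil, not_false_eq_true, and_true] at h3
    obtain ⟨⟨n1, n2, n3, n4, n5⟩, ⟨n6, n7, n8, n9⟩, ⟨n10, n11, n12⟩, ⟨n13, n14⟩, n15⟩ := h3
    have inj := hexMot.inj p
    have a1 := hexMot.adj p _ _ h1.1
    have a2 := hexMot.adj p _ _ h1.2
    have a3 := hexMot.adj p _ _ h2.1
    have a4 := hexMot.adj p _ _ h2.2.1
    have a5 := hexMot.adj p _ _ h2.2.2.1
    have a6 := hexMot.adj p _ _ h2.2.2.2
    rw [hexMot.h0] at a1 a3
    have hb := hex_base _ (Hex.mem_nb.2 a1) _ (Hex.mem_nb.2 a2) _ (Hex.mem_nb.2 a3) _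
      (Hex.mem_nb.2 a4) _ (Hex.mem_nb.2 a5) (Hex.mem_nb.2 a6)
      (fun h => n2 (inj (by rw [hexMot.h0]; exact h)))
      (fun h => n9 (inj h.symm)) (fun h => n4 (inj (by rw [hexMot.h0]; exact h)))
      (fun h => n14 (inj h.symm)) (fun h => n11 (inj h.symm)) (fun h => n7 (inj h.symm))
    have hT : Hex.rule.T [0, hexMot.σ p q, hexMot.σ p r]
        [0, hexMot.σ p x, hexMot.σ p y, hexMot.σ p z, hexMot.σ p r] := by
      refine ⟨0, hexMot.σ p q, hexMot.σ p r, rfl, ?_, a1, a2,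
        fun h => n2 (inj (by rw [hexMot.h0]; exact h))⟩
      rw [← hb.1, ← hb.2.1, ← hb.2.2]
    have h4 := hexMot.tT p _ _ hT
    simp only [List.map_cons, List.map_nil, hexMot.ts, hex_tau_zero] at h4
    exact h4
  · rintro ⟨p, q, r, rfl, rfl, h1, h2, h3⟩
    obtain ⟨a1, a2, a3, a4, a5, a6, a7, a8⟩ := Hex.hexagon h1 h2 h3
    have n1 := Hex.A_ne h1
    have n2 := Hex.A_ne h2
    refine ⟨p, q, r, _, _, _, rfl, rfl, ?_, ?_, ?_⟩
    · simp only [List.isChain_cons_cons, List.isChain_singleton, and_true, nb_iff]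
      exact ⟨h1, h2⟩
    · simp only [List.isChain_cons_cons, List.isChain_singleton, and_true, nb_iff]
      exact ⟨a1, a2, a3, a4⟩
    · simp only [List.nodup_cons, List.mem_cons, List.not_mem_nil, or_false, not_or,
        List.nodup_nil, not_false_eq_true, and_true] at a5 ⊢
      obtain ⟨⟨b1, b2, b3, b4⟩, ⟨b5, b6, b7⟩, ⟨b8, b9⟩, b10⟩ := a5
      exact ⟨⟨n1, h3, b3, b2, b1⟩, ⟨n2, a8, a7, a6⟩,
        ⟨fun h => b10 h.symm, fun h => b9 h.symm, fun h => b7 h.symm⟩,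
        ⟨fun h => b8 h.symm, fun h => b6 h.symm⟩, fun h => b5 h.symm⟩

end Pool.Agent.R965.HP
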