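import Pool.Agent.R965.HP.HexLLN
import Pool.Agent.W832.HR.Cont2

/-!
# Critical walks in the discretisations of a domain
-/

set_option autoImplicit false

namespace Pool.Agent.R965.HP

open Filter Topology
open scoped ENNReal

theorem bounded_finite {δ M : ℝ} (hδ : 0 < δ) {D : Set (ℤ × ℤ)}
    (hM : ∀ v ∈ D, ‖(δ : ℂ) * Pool.Agent.W832.HR.emb v‖ ≤ M) : D.Finite := by
  have hb : ∀ v ∈ D, ‖Pool.Agent.W832.HR.emb v‖ ≤ M / δ := by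
    intro v hv
    have h1 := hM v hv
    rw [norm_mul, Complex.norm_real, Real.norm_of_nonneg hδ.le] at h1
    rw [le_div_iff₀ hδ]
    linarith
  obtain ⟨B, hB⟩ : ∃ B : ℕ, 2 * (M / δ) + 1 ≤ B := exists_nat_ge _
  refine (Set.finite_Icc ((-(B : ℤ), -(B : ℤ)) : ℤ × ℤ) ((B : ℤ), (B : ℤ))).subset ?_
  intro v hv
  have h1 := hb v hv
  have h2 := (Complex.abs_re_le_norm (Pool.Agent.W832.HR.emb v)).trans h1
  have h3 := (Complex.abs_im_le_norm (Pool.Agent.W832.HR.emb v)).trans h1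
  have e1 : (Pool.Agent.W832.HR.emb v).re = √3 / 2 * v.1 := rfl
  have e2 : (Pool.Agent.W832.HR.emb v).im =
    3 / 2 * v.2 + if Even (v.1 + v.2) then 1 / 2 else 0 := rfl
  rw [e1, abs_le] at h2
  rw [e2, abs_le] at h3
  have hs : (1 : ℝ) ≤ √3 := by rw [Real.one_le_sqrt]; norm_num
  have hM0 : 0 ≤ M / δ := (norm_nonneg _).trans h1
  have g1 : |(v.1 : ℝ)| ≤ B := by
    have h4 : |√3 / 2 * (v.1 : ℝ)| ≤ M / δ := abs_le.2 h2
    rw [abs_mul, abs_of_nonneg (show 0 ≤ √3 / 2 by positivity)] at h4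
    have h5 : 1 / 2 * |(v.1 : ℝ)| ≤ √3 / 2 * |(v.1 : ℝ)| :=
      mul_le_mul_of_nonneg_right (by linarith) (abs_nonneg _)
    linarith
  have g2 : |(v.2 : ℝ)| ≤ B := by
    rw [abs_le]
    split_ifs at h3 <;> constructor <;> linarith
  have g1' : |v.1| ≤ B := by exact_mod_cast g1
  have g2' : |v.2| ≤ B := by exact_mod_cast g2
  rw [abs_le] at g1' g2'
  exact ⟨⟨g1'.1, g2'.1⟩, ⟨g1'.2, g2'.2⟩⟩

theorem dom_core (W : Set ℂ) (hW : IsOpen W) (hc : IsConnected W) (a b : ℂ) (hab : a ≠ b)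
    (ε ε' : ℝ) (hε : ε = 1 ∨ ε = -1) (hε' : ε' = 1 ∨ ε' = -1) (r : ℝ) (hr : 0 < r)
    (ha : Pool.Agent.W832.HR.HD a ε r ⊆ W) (hb : Pool.Agent.W832.HR.HD b ε' r ⊆ W) (M : ℝ) :
    ∃ K : Set ℂ, K ⊆ W ∧ IsCompact K ∧ ∃ C : ℝ, 1 ≤ C ∧ ∀ δ : ℝ, 0 < δ → C * δ ≤ 1 →
      ∀ (D : Set (ℤ × ℤ)) (p q : ℤ × ℤ), Pool.Agent.W832.HR.Bd ε p →
      Pool.Agent.W832.HR.Bd ε' q → C * ‖(δ : ℂ) * Pool.Agent.W832.HR.emb p - a‖ ≤ 1 →
      C * ‖(δ : ℂ) * Pool.Agent.W832.HR.emb q - b‖ ≤ 1 →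
      (∀ v : ℤ × ℤ, (δ : ℂ) * Pool.Agent.W832.HR.emb v ∈ K → v ∈ D) →
      Pool.Agent.W832.HR.Hd δ ε r p ⊆ D → Pool.Agent.W832.HR.Hd δ ε' r q ⊆ D →
      (∀ v ∈ D, ‖(δ : ℂ) * Pool.Agent.W832.HR.emb v‖ ≤ M) →
      (Tj D p q).Finite ∧ 0 < Zr xr D p q ∧ Concl (C * √δ) D p q ∧
        ∀ t : ℝ, 0 < t → t ≤ 1 → Ex xr D p q (farH D t) ≤ C * δ / t ^ 2 := by
  obtain ⟨K, hK1, hK2, C0, hC0, h⟩ := Pool.Agent.W832.HR.domain_two_point W hW hc a b hab ε ε'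
    hε hε' r hr ha hb
  have hab' : 0 < ‖a - b‖ := norm_pos_iff.2 (sub_ne_zero.2 hab)
  obtain ⟨C1, hC1, hcore⟩ := len_core (‖a - b‖ / 2) (by positivity) C0
  obtain ⟨C2, hC2, hlln⟩ := lln_core (‖a - b‖ / 2) (by positivity) C0
  have hC0' : (1 : ℝ) ≤ C0 := by exact_mod_cast hC0
  have h4 : 0 ≤ 4 / ‖a - b‖ := by positivity
  refine ⟨K, hK1, hK2, C0 + C1 + C2 + 4 / ‖a - b‖, by linarith, ?_⟩
  intro δ hδ hCδ D p q hp hq hpa hqb hKD hpD hqD hDM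
  have hfin := bounded_finite hδ hDM
  have n1 := norm_nonneg ((δ : ℂ) * Pool.Agent.W832.HR.emb p - a)
  have n2 := norm_nonneg ((δ : ℂ) * Pool.Agent.W832.HR.emb q - b)
  have hZ := h δ hδ (by nlinarith) D p q hp hq (by nlinarith) (by nlinarith) hKD hpD hqD
  have hZ' : Pool.Agent.W832.HR.Z D p q = ENNReal.ofReal (Zr xr D p q) := Z_eq hfin
  rw [hZ'] at hZ
  have hδC : 0 < δ ^ C0 := by positivity
  have hZp : 0 < Zr xr D p q := by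
    by_contra hcon
    rw [ENNReal.ofReal_of_nonpos (not_lt.1 hcon)] at hZ
    have := ENNReal.ofReal_pos.2 hδC
    exact absurd hZ (not_le.2 this)
  have hZl : δ ^ C0 ≤ Zr xr D p q := (ENNReal.ofReal_le_ofReal_iff hZp.le).1 hZ
  have hpD' : p ∈ D := by
    refine hpD ?_
    show ‖(δ : ℂ) * Pool.Agent.W832.HR.emb p - δ * Pool.Agent.W832.HR.emb p‖ < r ∧ _
    rw [sub_self, norm_zero, sub_self, mul_zero]
    exact ⟨hr, le_rfl⟩
  refine ⟨tj_finite hfin, hZp, ?_⟩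
  have hCδ1 : C1 * δ ≤ 1 := by nlinarith
  have hCδ2 : C2 * δ ≤ 1 := by nlinarith
  have hdist : ‖a - b‖ / 2 ≤ δ * ‖eb p - eb q‖ := by
    have e1 : δ * ‖eb p - eb q‖ = ‖(δ : ℂ) * Pool.Agent.W832.HR.emb p -
        (δ : ℂ) * Pool.Agent.W832.HR.emb q‖ := by
      rw [← mul_sub, norm_mul, Complex.norm_real, Real.norm_of_nonneg hδ.le]
      rfl
    rw [e1]
    have t1 : 4 / ‖a - b‖ * ‖(δ : ℂ) * Pool.Agent.W832.HR.emb p - a‖ ≤ 1 := by nlinarith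
    have t2 : 4 / ‖a - b‖ * ‖(δ : ℂ) * Pool.Agent.W832.HR.emb q - b‖ ≤ 1 := by nlinarith
    rw [div_mul_eq_mul_div, div_le_one hab'] at t1 t2
    have t3 : ‖a - b‖ ≤ ‖(δ : ℂ) * Pool.Agent.W832.HR.emb p - a‖ +
        ‖(δ : ℂ) * Pool.Agent.W832.HR.emb p - (δ : ℂ) * Pool.Agent.W832.HR.emb q‖ +
        ‖(δ : ℂ) * Pool.Agent.W832.HR.emb q - b‖ := by
      have e2 : a - b = -((δ : ℂ) * Pool.Agent.W832.HR.emb p - a) +
          ((δ : ℂ) * Pool.Agent.W832.HR.emb p - (δ : ℂ) * Pool.Agent.W832.HR.emb q) +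
          ((δ : ℂ) * Pool.Agent.W832.HR.emb q - b) := by ring
      conv_lhs => rw [e2]
      refine (norm_add_le _ _).trans (add_le_add ((norm_add_le _ _).trans
        (add_le_add (le_of_eq (norm_neg _)) le_rfl)) le_rfl)
    linarith
  have hc1 := hcore δ hδ hCδ1 D hfin p q hpD' hdist hZl
  refine ⟨?_, fun t ht ht1 => ?_⟩
  · intro f f' η hη hf hf' hff
    refine (hc1 f f' η hη hf hf' hff).trans (add_le_add ?_ le_rfl)
    exact mul_le_mul_of_nonneg_right (by linarith) (Real.sqrt_nonneg _)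
  · refine (hlln δ hδ hCδ2 D hfin p q hpD' hdist hZl t ht ht1).trans
      (div_le_div_of_nonneg_right (mul_le_mul_of_nonneg_right (by linarith) hδ.le)
        (by positivity))

end Pool.Agent.R965.HP
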