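import Pool.Agent.R965.HP.TwoLLN
import Pool.Agent.R965.HP.HexCyc

/-!
# The quotient of the numbers of moves, on the honeycomb lattice
-/

set_option autoImplicit false

namespace Pool.Agent.R965.HP

open Finset Filter Topology TH966.KS TH966.AK
open scoped Classical

variable {D : Set (ℤ × ℤ)} {p q : ℤ × ℤ}

/-- the ways to replace two consecutive edges by the four other edges of a hexagon, inside `D` -/
def upS (D : Set (ℤ × ℤ)) (l : List (ℤ × ℤ)) : Set (List (ℤ × ℤ) × List (ℤ × ℤ)) :=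
  {u | HexPair u.1 u.2 ∧ u.1 <:+: l ∧ ∀ v ∈ u.2, v ∈ D ∧ (v ∈ u.1 ∨ v ∉ l)}

/-- the ways to replace four consecutive edges by the two other edges of a hexagon, inside `D` -/
def dnS (D : Set (ℤ × ℤ)) (l : List (ℤ × ℤ)) : Set (List (ℤ × ℤ) × List (ℤ × ℤ)) :=
  {u | HexPair u.1 u.2 ∧ u.2 <:+: l ∧ ∀ v ∈ u.1, v ∈ D ∧ (v ∈ u.2 ∨ v ∉ l)}

theorem hexPair_sigma {U U' : List (ℤ × ℤ)} (v : P) (h : HexPair U U') :
    HexPair (U.map (hexMot.σ v)) (U'.map (hexMot.σ v)) := by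
  obtain ⟨p, q, r, x, y, z, rfl, rfl, h1, h2, h3⟩ := h
  refine ⟨hexMot.σ v p, hexMot.σ v q, hexMot.σ v r, hexMot.σ v x, hexMot.σ v y, hexMot.σ v z,
    rfl, rfl, ?_, ?_, ?_⟩
  · rw [List.isChain_map]
    exact h1.imp fun {a b} hab => (nb_iff _ _).2 (hexMot.adj v a b ((nb_iff _ _).1 hab))
  · rw [List.isChain_map]
    exact h2.imp fun {a b} hab => (nb_iff _ _).2 (hexMot.adj v a b ((nb_iff _ _).1 hab))
  · have := h3.map (hexMot.inj v)
    simpa using this

theorem tau_T {U U' : List (ℤ × ℤ)} (v : P) (h : Hex.T U U') :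
    HexPair (U.map (hexMot.τ v)) (U'.map (hexMot.τ v)) :=
  (hexPair_iff _ _).2 (hexMot.tT v U U' h)

theorem pair_back (u : List P × List P) (v : P) :
    ((u.1.map (hexMot.σ v)).map (hexMot.τ v), (u.2.map (hexMot.σ v)).map (hexMot.τ v)) = u := by
  rw [tau_sigma, tau_sigma]

theorem map_inj2 (v : P) : Function.Injective (fun u : List P × List P =>
    (u.1.map (hexMot.τ v), u.2.map (hexMot.τ v))) := by
  rintro ⟨U, U'⟩ ⟨V, V'⟩ h1
  simp only [Prod.mk.injEq] at h1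
  exact Prod.ext (List.map_injective_iff.2 (hexMot.inj' v) h1.1)
    (List.map_injective_iff.2 (hexMot.inj' v) h1.2)

theorem mem_map_tau {v x : P} {w : List P} : hexMot.τ v x ∈ w.map (hexMot.τ v) ↔ x ∈ w := by
  rw [List.mem_map]
  constructor
  · rintro ⟨y, hy, h⟩
    rwa [← hexMot.inj' v h]
  · exact fun h => ⟨x, h, rfl⟩

theorem upS_card {w : List P} (hw : ∀ x ∈ w, hexMot.τ p x ∈ D) :
    (upS D (w.map (hexMot.τ p))).ncard = ((YY D p q).S w).card := by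
  have e : upS D (w.map (hexMot.τ p)) = (fun u : List P × List P =>
      (u.1.map (hexMot.τ p), u.2.map (hexMot.τ p))) ''
        (((ruleD Hex.rule (fun x => hexMot.τ p x ∈ D)).S w : Finset _) :
          Set (List P × List P)) := by
    ext u
    constructor
    · rintro ⟨h1, h2, h3⟩
      refine ⟨(u.1.map (hexMot.σ p), u.2.map (hexMot.σ p)), ?_, pair_back u p⟩
      rw [Finset.mem_coe, Rule.mem_S]
      have h4 : u.1.map (hexMot.σ p) <:+: w := by
        have := h2.map (hexMot.σ p)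
        rw [List.map_map] at this
        have e2 : (hexMot.σ p) ∘ (hexMot.τ p) = id := by
          funext x
          exact hexMot.st p x
        rwa [e2, List.map_id] at this
      refine ⟨⟨(hexPair_iff _ _).1 (hexPair_sigma p h1), fun x hx => hw x (h4.subset hx), ?_⟩,
        h4, ?_⟩
      · intro x hx
        rw [List.mem_map] at hx
        obtain ⟨y, hy, rfl⟩ := hx
        rw [hexMot.ts]
        exact (h3 y hy).1
      · intro x hx hx' hxw
        rw [List.mem_map] at hx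
        obtain ⟨y, hy, rfl⟩ := hx
        rcases (h3 y hy).2 with h5 | h5
        · exact hx' (List.mem_map_of_mem h5)
        · apply h5
          rw [List.mem_map]
          exact ⟨_, hxw, hexMot.ts p y⟩
    · rintro ⟨⟨U, U'⟩, hu, rfl⟩
      rw [Finset.mem_coe, Rule.mem_S] at hu
      obtain ⟨⟨h1, h2, h3⟩, h4, h5⟩ := hu
      refine ⟨tau_T p h1, h4.map _, ?_⟩
      intro v hv
      rw [List.mem_map] at hv
      obtain ⟨x, hx, rfl⟩ := hv
      refine ⟨h3 x hx, ?_⟩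
      by_cases hxU : x ∈ U
      · exact Or.inl (List.mem_map_of_mem hxU)
      · refine Or.inr fun hc => h5 x hx hxU ?_
        exact mem_map_tau.1 hc
  rw [e, Set.ncard_image_of_injective _ (map_inj2 p), Set.ncard_coe_finset]
  rfl

theorem dnS_card {w : List P} (hw : ∀ x ∈ w, hexMot.τ p x ∈ D) :
    (dnS D (w.map (hexMot.τ p))).ncard = ((YY D p q).B w).card := by
  have e : dnS D (w.map (hexMot.τ p)) = (fun u : List P × List P =>
      (u.1.map (hexMot.τ p), u.2.map (hexMot.τ p))) ''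
        (((ruleD Hex.rule (fun x => hexMot.τ p x ∈ D)).B w : Finset _) :
          Set (List P × List P)) := by
    ext u
    constructor
    · rintro ⟨h1, h2, h3⟩
      refine ⟨(u.1.map (hexMot.σ p), u.2.map (hexMot.σ p)), ?_, pair_back u p⟩
      rw [Finset.mem_coe, Rule.mem_B]
      have h4 : u.2.map (hexMot.σ p) <:+: w := by
        have := h2.map (hexMot.σ p)
        rw [List.map_map] at this
        have e2 : (hexMot.σ p) ∘ (hexMot.τ p) = id := by
          funext x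
          exact hexMot.st p x
        rwa [e2, List.map_id] at this
      refine ⟨⟨(hexPair_iff _ _).1 (hexPair_sigma p h1), ?_, fun x hx => hw x (h4.subset hx)⟩,
        h4, ?_⟩
      · intro x hx
        rw [List.mem_map] at hx
        obtain ⟨y, hy, rfl⟩ := hx
        rw [hexMot.ts]
        exact (h3 y hy).1
      · intro x hx hx' hxw
        rw [List.mem_map] at hx
        obtain ⟨y, hy, rfl⟩ := hx
        rcases (h3 y hy).2 with h5 | h5
        · exact hx' (List.mem_map_of_mem h5)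
        · apply h5
          rw [List.mem_map]
          exact ⟨_, hxw, hexMot.ts p y⟩
    · rintro ⟨⟨U, U'⟩, hu, rfl⟩
      rw [Finset.mem_coe, Rule.mem_B] at hu
      obtain ⟨⟨h1, h2, h3⟩, h4, h5⟩ := hu
      refine ⟨tau_T p h1, h4.map _, ?_⟩
      intro v hv
      rw [List.mem_map] at hv
      obtain ⟨x, hx, rfl⟩ := hv
      refine ⟨h2 x hx, ?_⟩
      by_cases hxU : x ∈ U'
      · exact Or.inl (List.mem_map_of_mem hxU)
      · refine Or.inr fun hc => h5 x hx hxU ?_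
        exact mem_map_tau.1 hc
  rw [e, Set.ncard_image_of_injective _ (map_inj2 p), Set.ncard_coe_finset]
  rfl

/-- the quotient of the numbers of moves is not close to `2 + √2` -/
noncomputable def farH (D : Set (ℤ × ℤ)) (t : ℝ) (l : List (ℤ × ℤ)) : ℝ :=
  if |((upS D l).ncard : ℝ) - (2 + Real.sqrt 2) * ((dnS D l).ncard : ℝ)| ≤
    t * ((dnS D l).ncard : ℝ) ∧ 0 < (dnS D l).ncard then 0 else 1

/-- **the quotient of the numbers of moves on the honeycomb lattice** -/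
theorem hex_lln : ∃ C θ : ℝ, 1 ≤ C ∧ 0 < θ ∧ θ < 1 ∧ ∀ (D : Set (ℤ × ℤ)), D.Finite →
    ∀ (p q : ℤ × ℤ) (m : ℕ), p ∈ D → C ≤ m → (∀ l ∈ Tj D p q, m < l.length) →
      0 < Zr xr D p q → ∀ t : ℝ, 0 < t → t ≤ 1 →
      Ex xr D p q (farH D t) ≤ C * (1 / m + θ ^ m / Zr xr D p q) / t ^ 2 := by
  obtain ⟨C, θ, hC, hθ0, hθ1, h⟩ := two_lln Hex.rule (@H982.one_le_mu H982P.hexL) hex_poor hex_hup
  rw [Pool.Agent.H976R3.HPL.mu_hex] at h
  refine ⟨C, θ, hC, hθ0, hθ1, fun D hD p q m hp hm hmin hZ t ht ht1 => ?_⟩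
  obtain ⟨L, hmax⟩ := exists_max (q := q) hp hD
  have h1 := h (fun x => hexMot.τ p x ∈ D) (D_zero hp) (hexMot.σ p q) m L hm (by
    intro n hn
    rw [Finset.eq_empty_iff_forall_notMem]
    intro w hw
    obtain ⟨h6, h7⟩ := tau_mem (D := D) (p := p) (q := q) hp (n := n) (w := w) hw
    have := hmin _ h6
    omega) hmax
  change 0 < gc (YY D p q) xr L (fun _ _ => 1) → ∀ t : ℝ, 0 < t → t ≤ 1 →
      gc (YY D p q) xr L (fun _ => far (YY D p q) (Real.sqrt (2 + Real.sqrt 2) ^ 2) t) /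
        gc (YY D p q) xr L (fun _ _ => 1) ≤
        C * (1 / m + θ ^ m / gc (YY D p q) xr L (fun _ _ => 1)) / t ^ 2 at h1
  rw [← Zr_eq hp hmax, Real.sq_sqrt (by positivity)] at h1
  have h2 := h1 hZ t ht ht1
  refine le_trans (le_of_eq ?_) h2
  unfold Ex
  rw [fin_sum hp hmax]
  congr 1
  unfold gc
  refine sum_congr rfl fun n _ => ?_
  congr 1
  refine sum_congr rfl fun w hw => ?_
  have hw' := ((mem_YY hp).1 hw).2.1
  show farH D t (w.map (hexMot.τ p)) = far (YY D p q) (2 + Real.sqrt 2) t w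
  unfold farH far
  rw [upS_card (q := q) hw', dnS_card (q := q) hw']

/-- the choice of the minimal number of steps -/
theorem geo (C1 θ : ℝ) (hC1 : 1 ≤ C1) (hθ0 : 0 < θ) (hθ1 : θ < 1) (d : ℝ) (hd : 0 < d) (C0 : ℕ) :
    ∃ C : ℝ, 1 ≤ C ∧ ∀ δ : ℝ, 0 < δ → C * δ ≤ 1 →
    ∀ (D : Set (ℤ × ℤ)) (p q : ℤ × ℤ), d ≤ δ * ‖eb p - eb q‖ →
      δ ^ C0 ≤ Zr xr D p q → ∃ m : ℕ, C1 ≤ m ∧ (∀ l ∈ Tj D p q, m < l.length) ∧
        1 / m + θ ^ m / Zr xr D p q ≤ C * δ := by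
  obtain ⟨κ, hκ⟩ : ∃ κ : ℝ, κ = d / 12 := ⟨_, rfl⟩
  have hκ0 : 0 < κ := by rw [hκ]; positivity
  have ht : Tendsto (fun n : ℕ => (n : ℝ) ^ (C0 + 1) * θ ^ n) atTop (𝓝 0) :=
    tendsto_pow_const_mul_const_pow_of_abs_lt_one (C0 + 1) (by rw [abs_of_pos hθ0]; exact hθ1)
  obtain ⟨m0, hm0⟩ := eventually_atTop.1 (ht.eventually_le_const
    (show (0 : ℝ) < κ ^ (C0 + 1) by positivity))
  have h1 : 0 ≤ 1 / κ := by positivity
  have h2 : 0 ≤ 12 / d := by positivity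
  have h3 : 0 ≤ (m0 + C1) / κ := by positivity
  refine ⟨(1 / κ + 1) + 12 / d + (m0 + C1) / κ + 1, by linarith,
    fun δ hδ hCδ D p q hpq hZ => ?_⟩
  have g1 : 12 / d * δ ≤ 1 := by nlinarith
  have g2 : (m0 + C1) / κ * δ ≤ 1 := by nlinarith
  have g3 : 12 * δ ≤ d := by
    rw [div_mul_eq_mul_div, div_le_one hd] at g1
    exact g1
  have g4 : (m0 + C1) * δ ≤ κ := by
    rw [div_mul_eq_mul_div, div_le_one hκ0] at g2
    exact g2
  obtain ⟨m, hm⟩ : ∃ m : ℕ, m = ⌊d / (6 * δ)⌋₊ := ⟨_, rfl⟩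
  have hm1 : (m : ℝ) ≤ d / (6 * δ) := by rw [hm]; exact Nat.floor_le (by positivity)
  have hm2 : d / (6 * δ) < m + 1 := by rw [hm]; exact Nat.lt_floor_add_one _
  have hm3 : κ ≤ m * δ := by
    have h4 : d / (6 * δ) * δ = d / 6 := by field_simp
    have h5 : d / (6 * δ) * δ < (m + 1) * δ := mul_lt_mul_of_pos_right hm2 hδ
    rw [h4] at h5
    rw [hκ]
    linarith
  have hm4 : (m0 : ℝ) + C1 ≤ m := by
    have h4 : ((m0 : ℝ) + C1) * δ ≤ m * δ := g4.trans hm3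
    exact le_of_mul_le_mul_right h4 hδ
  have hm0m : m0 ≤ m := by
    have : (m0 : ℝ) ≤ m := by linarith
    exact_mod_cast this
  have hC1m : C1 ≤ m := by
    have : (0 : ℝ) ≤ m0 := Nat.cast_nonneg _
    linarith
  have hmp : (0 : ℝ) < m := by linarith
  have hZp : 0 < Zr xr D p q := lt_of_lt_of_le (by positivity) hZ
  refine ⟨m, hC1m, ?_, ?_⟩
  · intro l hl
    obtain ⟨h6, h7⟩ := tj_dist hl
    have h8 : d ≤ δ * (3 * ((l.length : ℝ) - 1) + 1) :=
      hpq.trans (mul_le_mul_of_nonneg_left h6 hδ.le)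
    have h9 : (m : ℝ) ≤ (l.length : ℝ) - 1 := by
      refine hm1.trans ?_
      rw [div_le_iff₀ (by positivity)]
      nlinarith
    have h10 : (m : ℝ) < l.length := by linarith
    exact_mod_cast h10
  have k1 : 1 / (m : ℝ) ≤ 1 / κ * δ := by
    rw [div_mul_eq_mul_div, one_mul, div_le_div_iff₀ hmp hκ0]
    linarith
  have k2 : θ ^ m ≤ δ ^ (C0 + 1) := by
    have h6 := hm0 m hm0m
    have h7 : κ ^ (C0 + 1) ≤ (m : ℝ) ^ (C0 + 1) * δ ^ (C0 + 1) := by
      rw [← mul_pow]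
      exact pow_le_pow_left₀ hκ0.le hm3 _
    exact le_of_mul_le_mul_left (h6.trans h7) (by positivity)
  have k3 : θ ^ m / Zr xr D p q ≤ δ := by
    rw [div_le_iff₀ hZp]
    calc θ ^ m ≤ δ ^ (C0 + 1) := k2
      _ = δ * δ ^ C0 := by rw [pow_succ]; ring
      _ ≤ δ * Zr xr D p q := mul_le_mul_of_nonneg_left hZ hδ.le
  calc 1 / m + θ ^ m / Zr xr D p q ≤ 1 / κ * δ + δ := add_le_add k1 k3
    _ = (1 / κ + 1) * δ := by ring
    _ ≤ _ := mul_le_mul_of_nonneg_right (by linarith) hδ.le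

theorem lln_core (d : ℝ) (hd : 0 < d) (C0 : ℕ) : ∃ C : ℝ, 1 ≤ C ∧ ∀ δ : ℝ, 0 < δ → C * δ ≤ 1 →
    ∀ (D : Set (ℤ × ℤ)), D.Finite → ∀ p q : ℤ × ℤ, p ∈ D → d ≤ δ * ‖eb p - eb q‖ →
      δ ^ C0 ≤ Zr xr D p q → ∀ t : ℝ, 0 < t → t ≤ 1 →
        Ex xr D p q (farH D t) ≤ C * δ / t ^ 2 := by
  obtain ⟨C1, θ, hC1, hθ0, hθ1, h⟩ := hex_lln
  obtain ⟨C2, hC2, h2⟩ := geo C1 θ hC1 hθ0 hθ1 d hd C0
  refine ⟨C1 * C2, by nlinarith, fun δ hδ hCδ D hD p q hp hpq hZ t ht ht1 => ?_⟩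
  have hZp : 0 < Zr xr D p q := lt_of_lt_of_le (by positivity) hZ
  obtain ⟨m, h3, h4, h5⟩ := h2 δ hδ (by
    have : C2 * δ ≤ C1 * (C2 * δ) := le_mul_of_one_le_left (by positivity) hC1
    linarith) D p q hpq hZ
  have h6 := h D hD p q m hp h3 h4 hZp t ht ht1
  refine h6.trans (div_le_div_of_nonneg_right ?_ (by positivity))
  rw [mul_assoc]
  exact mul_le_mul_of_nonneg_left h5 (by linarith)

end Pool.Agent.R965.HP
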