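import Pool.Agent.R965.HP.HexTwo

/-!
# Critical walks on the honeycomb lattice: the law of the number of steps
-/

set_option autoImplicit false

namespace Pool.Agent.R965.HP

open Finset Filter Topology TH966.KS TH966.AK
open scoped Classical ENNReal

/-- the critical fugacity -/
noncomputable def xr : ℝ := 1 / Real.sqrt (2 + Real.sqrt 2)

theorem xr_pos : 0 < xr := by unfold xr; positivity

/-- the points of the plane -/
noncomputable def eb (v : ℤ × ℤ) : ℂ :=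
  ⟨Real.sqrt 3 / 2 * v.1, 3 / 2 * v.2 + if Even (v.1 + v.2) then 1 / 2 else 0⟩

variable {D : Set (ℤ × ℤ)} {p q : ℤ × ℤ}

theorem tj_dist {l : List (ℤ × ℤ)} (hl : l ∈ Tj D p q) :
    ‖eb p - eb q‖ ≤ 3 * ((l.length : ℝ) - 1) + 1 ∧ 1 ≤ l.length := by
  obtain ⟨h1, h2, h3, h4, h5⟩ := hl
  have hne : l ≠ [] := by rintro rfl; simp at h1
  have hlen : 1 ≤ l.length := List.length_pos_of_ne_nil hne
  refine ⟨?_, hlen⟩
  have hc : l.IsChain Hex.A := h4.imp fun {a b} hab => (nb_iff _ _).1 hab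
  have h6 := pth_lip Hex.rule hne hc 0 (l.length - 1)
  rw [zero_add] at h6
  have e1 : pth l (l.length - 1) = q := by
    rw [pth_ge hne (by omega)]
    unfold lst
    rw [h2]
    rfl
  have e0 : pth l 0 = p := by
    rw [pth_lt (by omega)]
    cases l with
    | nil => exact absurd rfl hne
    | cons x t => simpa using h1
  rw [e1, e0] at h6
  obtain ⟨n, hn⟩ : ∃ n : ℕ, n = l.length - 1 := ⟨_, rfl⟩
  rw [← hn] at h6
  have hn' : (l.length : ℝ) - 1 = n := by
    have : l.length = n + 1 := by omega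
    rw [this]
    push_cast
    ring
  rw [hn']
  have a1 : |((q.1 : ℝ)) - p.1| ≤ n := by exact_mod_cast h6.1
  have a2 : |((q.2 : ℝ)) - p.2| ≤ n := by exact_mod_cast h6.2
  refine (Complex.norm_le_abs_re_add_abs_im _).trans ?_
  have hs : √3 ≤ 2 := by
    rw [Real.sqrt_le_left (by norm_num)]
    norm_num
  have hs0 : 0 ≤ √3 := Real.sqrt_nonneg 3
  have r1 : |(eb p - eb q).re| ≤ n := by
    have : (eb p - eb q).re = √3 / 2 * (p.1 - q.1) := by
      show √3 / 2 * (p.1 : ℝ) - √3 / 2 * (q.1 : ℝ) = _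
      ring
    rw [this, abs_mul, abs_of_nonneg (by positivity), abs_sub_comm]
    calc √3 / 2 * |(q.1 : ℝ) - p.1| ≤ 1 * n :=
          mul_le_mul (by linarith) a1 (abs_nonneg _) zero_le_one
      _ = n := one_mul _
  have r2 : |(eb p - eb q).im| ≤ 3 / 2 * n + 1 / 2 := by
    have : (eb p - eb q).im = 3 / 2 * ((p.2 : ℝ) - q.2) +
        ((if Even (p.1 + p.2) then (1 / 2 : ℝ) else 0) -
          (if Even (q.1 + q.2) then (1 / 2 : ℝ) else 0)) := by
      show (3 / 2 * (p.2 : ℝ) + (if Even (p.1 + p.2) then (1 / 2 : ℝ) else 0)) -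
        (3 / 2 * (q.2 : ℝ) + (if Even (q.1 + q.2) then (1 / 2 : ℝ) else 0)) = _
      ring
    rw [this]
    have b1 : |3 / 2 * ((p.2 : ℝ) - q.2)| ≤ 3 / 2 * n := by
      rw [abs_mul, abs_of_nonneg (show (0 : ℝ) ≤ 3 / 2 by norm_num), abs_sub_comm]
      exact mul_le_mul_of_nonneg_left a2 (by norm_num)
    have b2 : |(if Even (p.1 + p.2) then (1 / 2 : ℝ) else 0) -
        (if Even (q.1 + q.2) then (1 / 2 : ℝ) else 0)| ≤ 1 / 2 := by
      split_ifs <;> norm_num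
    exact (abs_add_le _ _).trans (add_le_add b1 b2)
  have hn0 : (0 : ℝ) ≤ n := Nat.cast_nonneg n
  linarith

/-- the conclusion -/
def Concl (c : ℝ) (D : Set (ℤ × ℤ)) (p q : ℤ × ℤ) : Prop :=
  ∀ (f f' : List (ℤ × ℤ) → ℝ) (η : ℝ), 0 ≤ η → (∀ l, 0 ≤ f l ∧ f l ≤ 1) →
    (∀ l, 0 ≤ f' l ∧ f' l ≤ 1) →
    (∀ l ∈ Tj D p q, ∀ l' ∈ Tj D p q, Fl l l' → |f l' - f' l| ≤ η) →
    |Ex xr D p q f - Ex xr D p q f'| ≤ c + η

theorem len_core (d : ℝ) (hd : 0 < d) (C0 : ℕ) : ∃ C : ℝ, 1 ≤ C ∧ ∀ δ : ℝ, 0 < δ → C * δ ≤ 1 →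
    ∀ (D : Set (ℤ × ℤ)), D.Finite → ∀ p q : ℤ × ℤ, p ∈ D → d ≤ δ * ‖eb p - eb q‖ →
      δ ^ C0 ≤ Zr xr D p q → Concl (C * √δ) D p q := by
  obtain ⟨C1, θ, hC1, hθ0, hθ1, h⟩ := hex_main
  obtain ⟨κ, hκ⟩ : ∃ κ : ℝ, κ = d / 12 := ⟨_, rfl⟩
  have hκ0 : 0 < κ := by rw [hκ]; positivity
  have ht : Tendsto (fun n : ℕ => (n : ℝ) ^ (C0 + 1) * θ ^ n) atTop (𝓝 0) :=
    tendsto_pow_const_mul_const_pow_of_abs_lt_one (C0 + 1) (by rw [abs_of_pos hθ0]; exact hθ1)
  obtain ⟨m0, hm0⟩ := eventually_atTop.1 (ht.eventually_le_const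
    (show (0 : ℝ) < κ ^ (C0 + 1) by positivity))
  refine ⟨C1 * √(1 / κ + 1) + 12 / d + (m0 + C1) / κ + 1, ?_, fun δ hδ hCδ D hD p q hp hpq hZ => ?_⟩
  · have h1 : 0 ≤ C1 * √(1 / κ + 1) := by positivity
    have h2 : 0 ≤ 12 / d := by positivity
    have h3 : 0 ≤ (m0 + C1) / κ := by positivity
    linarith
  have h1 : 0 ≤ C1 * √(1 / κ + 1) := by positivity
  have h2 : 0 ≤ 12 / d := by positivity
  have h3 : 0 ≤ (m0 + C1) / κ := by positivity
  have g1 : 12 / d * δ ≤ 1 := by nlinarith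
  have g2 : (m0 + C1) / κ * δ ≤ 1 := by nlinarith
  have g3 : 12 * δ ≤ d := by
    rw [div_mul_eq_mul_div, div_le_one hd] at g1
    exact g1
  have g4 : (m0 + C1) * δ ≤ κ := by
    rw [div_mul_eq_mul_div, div_le_one hκ0] at g2
    exact g2
  obtain ⟨m, hm⟩ : ∃ m : ℕ, m = ⌊d / (6 * δ)⌋₊ := ⟨_, rfl⟩
  have hm1 : (m : ℝ) ≤ d / (6 * δ) := by rw [hm]; exact Nat.floor_le (by positivity)
  have hm2 : d / (6 * δ) < m + 1 := by rw [hm]; exact Nat.lt_floor_add_one _
  have hm3 : κ ≤ m * δ := by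
    have h4 : d / (6 * δ) * δ = d / 6 := by field_simp
    have h5 : d / (6 * δ) * δ < (m + 1) * δ := mul_lt_mul_of_pos_right hm2 hδ
    rw [h4] at h5
    rw [hκ]
    linarith
  have hm4 : (m0 : ℝ) + C1 ≤ m := by
    have h4 : ((m0 : ℝ) + C1) * δ ≤ m * δ := g4.trans hm3
    exact le_of_mul_le_mul_right h4 hδ
  have hm0m : m0 ≤ m := by
    have : (m0 : ℝ) ≤ m := by linarith
    exact_mod_cast this
  have hC1m : C1 ≤ m := by
    have : (0 : ℝ) ≤ m0 := Nat.cast_nonneg _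
    linarith
  have hmp : (0 : ℝ) < m := by linarith
  have hZp : 0 < Zr xr D p q := lt_of_lt_of_le (by positivity) hZ
  intro f f' η hη hf hf' hff
  have h5 := h D hD p q m hp hC1m (by
    intro l hl
    obtain ⟨h6, h7⟩ := tj_dist hl
    have h8 : d ≤ δ * (3 * ((l.length : ℝ) - 1) + 1) :=
      hpq.trans (mul_le_mul_of_nonneg_left h6 hδ.le)
    have h9 : (m : ℝ) ≤ (l.length : ℝ) - 1 := by
      refine hm1.trans ?_
      rw [div_le_iff₀ (by positivity)]
      nlinarith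
    have h10 : (m : ℝ) < l.length := by linarith
    exact_mod_cast h10) hZp f f' η hη hf hf' hff
  change |Ex xr D p q f - Ex xr D p q f'| ≤ C1 * √(1 / m + θ ^ m / Zr xr D p q) + η at h5
  refine h5.trans (add_le_add ?_ le_rfl)
  have k1 : 1 / (m : ℝ) ≤ 1 / κ * δ := by
    rw [div_mul_eq_mul_div, one_mul, div_le_div_iff₀ hmp hκ0]
    linarith
  have k2 : θ ^ m ≤ δ ^ (C0 + 1) := by
    have h6 := hm0 m hm0m
    have h7 : κ ^ (C0 + 1) ≤ (m : ℝ) ^ (C0 + 1) * δ ^ (C0 + 1) := by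
      rw [← mul_pow]
      exact pow_le_pow_left₀ hκ0.le hm3 _
    exact le_of_mul_le_mul_left (h6.trans h7) (by positivity)
  have k3 : θ ^ m / Zr xr D p q ≤ δ := by
    rw [div_le_iff₀ hZp]
    calc θ ^ m ≤ δ ^ (C0 + 1) := k2
      _ = δ * δ ^ C0 := by rw [pow_succ]; ring
      _ ≤ δ * Zr xr D p q := mul_le_mul_of_nonneg_left hZ hδ.le
  have k4 : √(1 / m + θ ^ m / Zr xr D p q) ≤ √(1 / κ + 1) * √δ := by
    rw [← Real.sqrt_mul (by positivity)]
    refine Real.sqrt_le_sqrt ?_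
    rw [add_mul, one_mul]
    exact add_le_add k1 k3
  have k5 : 0 ≤ √δ := Real.sqrt_nonneg δ
  calc C1 * √(1 / m + θ ^ m / Zr xr D p q) ≤ C1 * (√(1 / κ + 1) * √δ) :=
        mul_le_mul_of_nonneg_left k4 (by linarith)
    _ = C1 * √(1 / κ + 1) * √δ := by ring
    _ ≤ _ := mul_le_mul_of_nonneg_right (by linarith) k5

theorem fl_len {l l' : List (ℤ × ℤ)} (h : Fl l l') : l'.length - 1 = l.length - 1 + 2 := by
  obtain ⟨L, U, U', R, h1, h2, h3, h4⟩ := h
  rw [h1, h2]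
  simp only [List.length_append]
  omega

/-- shifts of the number of steps -/
theorem Concl.shift {c : ℝ} (H : Concl c D p q) (h : ℕ → ℝ) (hh : ∀ n, 0 ≤ h n ∧ h n ≤ 1)
    (k : ℕ) : |Ex xr D p q (fun l => h (l.length - 1)) -
      Ex xr D p q (fun l => h (l.length - 1 + 2 * k))| ≤ k * c := by
  induction k with
  | zero => simp
  | succ k ih =>
    have h1 := H (fun l => h (l.length - 1 + 2 * k)) (fun l => h (l.length - 1 + 2 * (k + 1))) 0
      le_rfl (fun l => hh _) (fun l => hh _) (fun l _ l' _ hl => by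
        rw [fl_len hl, show l.length - 1 + 2 + 2 * k = l.length - 1 + 2 * (k + 1) by ring]
        simp)
    rw [add_zero] at h1
    have h2 := abs_sub_le (Ex xr D p q (fun l => h (l.length - 1)))
      (Ex xr D p q (fun l => h (l.length - 1 + 2 * k)))
      (Ex xr D p q (fun l => h (l.length - 1 + 2 * (k + 1))))
    push_cast
    linarith

theorem Ex_sub (hfin : (Tj D p q).Finite) (f g : List (ℤ × ℤ) → ℝ) :
    Ex xr D p q f - Ex xr D p q g = Ex xr D p q (fun l => f l - g l) := by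
  unfold Ex
  rw [← sub_div]
  congr 1
  rw [← finsum_mem_sub_distrib _ _ hfin]
  refine finsum_mem_congr rfl fun l _ => ?_
  ring

theorem Ex_mono (hfin : (Tj D p q).Finite) (f g : List (ℤ × ℤ) → ℝ) (h : ∀ l, f l ≤ g l)
    (hZ : 0 < Zr xr D p q) : Ex xr D p q f ≤ Ex xr D p q g := by
  unfold Ex
  refine div_le_div_of_nonneg_right ?_ hZ.le
  rw [finsum_mem_eq_finite_toFinset_sum _ hfin, finsum_mem_eq_finite_toFinset_sum _ hfin]
  exact sum_le_sum fun l _ => mul_le_mul_of_nonneg_right (h l) (pow_nonneg xr_pos.le _)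

/-- the largest atom -/
theorem Concl.atom {c : ℝ} (H : Concl c D p q) (hfin : (Tj D p q).Finite)
    (hZ : 0 < Zr xr D p q) (n : ℕ) :
    Ex xr D p q (fun l => if l.length - 1 = n then 1 else 0) ≤ c := by
  have h1 := H.shift (fun t => if n < t then 1 else 0) (fun t => by
    split_ifs <;> norm_num) 1
  rw [abs_sub_comm, Ex_sub hfin, Nat.cast_one, one_mul, mul_one] at h1
  refine le_trans (Ex_mono hfin _ _ (fun l => ?_) hZ) ((le_abs_self _).trans h1)
  by_cases h2 : l.length - 1 = n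
  · rw [if_pos h2, if_pos (by omega), if_neg (by omega)]
    norm_num
  · rw [if_neg h2]
    split_ifs with h3 h4 <;> first | omega | norm_num

theorem tj_finite (hD : D.Finite) : (Tj D p q).Finite := by
  by_cases hp : p ∈ D
  · obtain ⟨L, hL⟩ := exists_max (q := q) hp hD
    rw [tj_image hp hL]
    exact (Finset.finite_toSet _).image _
  · have : Tj D p q = ∅ := by
      ext l
      simp only [Set.mem_empty_iff_false, iff_false]
      rintro ⟨h1, -, -, -, h5⟩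
      exact hp (h5 p (List.mem_of_mem_head? (by rw [h1]; rfl)))
    rw [this]
    exact Set.finite_empty

/-- the partition function in `[0, ∞]` -/
theorem Z_eq (hD : D.Finite) : (∑' l : Tj D p q,
    (ENNReal.ofReal (1 / Real.sqrt (2 + Real.sqrt 2))) ^ (l.1.length - 1)) =
      ENNReal.ofReal (Zr xr D p q) := by
  have hfin := tj_finite (p := p) (q := q) hD
  have e : Tj D p q = ((hfin.toFinset : Finset (List (ℤ × ℤ))) : Set (List (ℤ × ℤ))) := by
    rw [Set.Finite.coe_toFinset]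
  unfold Zr
  rw [finsum_mem_eq_finite_toFinset_sum _ hfin,
    ENNReal.ofReal_sum_of_nonneg (fun l _ => pow_nonneg xr_pos.le _)]
  rw [tsum_congr_set_coe (fun l : List (ℤ × ℤ) =>
    (ENNReal.ofReal (1 / Real.sqrt (2 + Real.sqrt 2))) ^ (l.length - 1)) e,
    Finset.tsum_subtype' hfin.toFinset (fun l : List (ℤ × ℤ) =>
    (ENNReal.ofReal (1 / Real.sqrt (2 + Real.sqrt 2))) ^ (l.length - 1))]
  refine sum_congr rfl fun l _ => ?_
  rw [ENNReal.ofReal_pow xr_pos.le]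
  rfl

end Pool.Agent.R965.HP
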