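import Pool.Agent.R965.HP.WinPath

/-!
# Windows of times: the square and the triangular grid
-/

set_option autoImplicit false

namespace Pool.Agent.R965.HP

open Finset Filter Topology TH966.KS TH966.AK H982
open scoped Classical

section gen

variable [L : H982.Lat] {A : ℤ × ℤ → ℤ × ℤ → Prop} {φ : ℤ × ℤ → ℤ × ℤ} {R : ℕ → ℤ × ℤ → Prop}

theorem full_bd (Z : Rule A) (H : Coord A φ R) (g : ℕ) (hg : 2 ≤ g) : ∃ K1 C1 : ℝ, 0 ≤ K1 ∧
    1 ≤ C1 ∧ ∀ j n : ℕ, j ≤ n → 2 ≤ n →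
      ((Kw A j).card : ℝ) ≤ C1 * mu ^ j * Real.exp (K1 * Real.log n ^ g) := by
  obtain ⟨K1, hK1, hup⟩ := Pool.Agent.TH508.LT.cr'_upper2
  have hl2 : 0 < Real.log 2 := Real.log_pos (by norm_num)
  have hmu := H982.one_le_mu
  have hc0 : ∀ n, (0 : ℝ) ≤ cr' n := fun n => by
    rw [← card_full Z H n]
    exact Nat.cast_nonneg _
  refine ⟨K1 * (1 / Real.log 2) ^ (g - 2), 1 + cr' 0 + cr' 1, by positivity, by
    have := hc0 0
    have := hc0 1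
    linarith, fun j n hj hn => ?_⟩
  have hK' : 0 ≤ K1 * (1 / Real.log 2) ^ (g - 2) := by positivity
  have hl : 0 ≤ Real.log (n : ℝ) := Real.log_natCast_nonneg n
  have hC1 : 1 ≤ 1 + cr' 0 + cr' 1 := by
    have := hc0 0
    have := hc0 1
    linarith
  have hmp : 1 ≤ mu ^ j := one_le_pow₀ hmu
  rw [card_full Z H]
  by_cases h2 : 2 ≤ j
  · have hj' : Real.log (j : ℝ) ≤ Real.log n :=
      Real.log_le_log (by exact_mod_cast (show 0 < j by omega)) (by exact_mod_cast hj)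
    have hj0 : 0 ≤ Real.log (j : ℝ) := Real.log_natCast_nonneg j
    refine (hup j h2).trans ?_
    have h3 : K1 * Real.log (j : ℝ) ^ 2 ≤ K1 * (1 / Real.log 2) ^ (g - 2) * Real.log n ^ g := by
      have h4 : 1 ≤ (1 / Real.log 2 * Real.log n) ^ (g - 2) := by
        refine one_le_pow₀ ?_
        rw [one_div, inv_mul_eq_div, one_le_div hl2]
        exact Real.log_le_log (by norm_num) (by exact_mod_cast hn)
      have h5 : Real.log (n : ℝ) ^ g = Real.log n ^ (g - 2) * Real.log n ^ 2 := by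
        rw [← pow_add]
        congr 1
        omega
      rw [mul_pow] at h4
      have h6 : K1 * Real.log (j : ℝ) ^ 2 ≤ K1 * Real.log (n : ℝ) ^ 2 :=
        mul_le_mul_of_nonneg_left (pow_le_pow_left₀ hj0 hj' 2) hK1
      have h7 : 0 ≤ K1 * Real.log (n : ℝ) ^ 2 := by positivity
      have h8 := mul_le_mul_of_nonneg_left h4 h7
      calc K1 * Real.log (j : ℝ) ^ 2 ≤ K1 * Real.log (n : ℝ) ^ 2 * 1 := by linarith
        _ ≤ _ := h8
        _ = _ := by rw [h5]; ring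
    have h9 : mu ^ j * Real.exp (K1 * Real.log (j : ℝ) ^ 2) ≤
        mu ^ j * Real.exp (K1 * (1 / Real.log 2) ^ (g - 2) * Real.log n ^ g) :=
      mul_le_mul_of_nonneg_left (Real.exp_le_exp.2 h3) (by positivity)
    have h10 : 0 ≤ mu ^ j * Real.exp (K1 * (1 / Real.log 2) ^ (g - 2) * Real.log n ^ g) := by
      positivity
    nlinarith
  · have h3 : cr' j ≤ 1 + cr' 0 + cr' 1 := by
      have := hc0 0
      have := hc0 1
      have h4 : j = 0 ∨ j = 1 := by omega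
      rcases h4 with rfl | rfl <;> linarith
    have h4 : 1 ≤ Real.exp (K1 * (1 / Real.log 2) ^ (g - 2) * Real.log n ^ g) := by
      rw [Real.one_le_exp_iff]
      positivity
    calc cr' j ≤ 1 + cr' 0 + cr' 1 := h3
      _ = (1 + cr' 0 + cr' 1) * 1 * 1 := by ring
      _ ≤ (1 + cr' 0 + cr' 1) * mu ^ j *
          Real.exp (K1 * (1 / Real.log 2) ^ (g - 2) * Real.log n ^ g) := by
        refine mul_le_mul (mul_le_mul_of_nonneg_left hmp (by linarith)) h4 zero_le_one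
          (by positivity)

/-- the hypothesis about the walks with few downward moves -/
theorem pw_sub {D : ℤ × ℤ → Prop} (Z : Rule A) (h0 : D 0)
    (hp : ∃ (M0 : ℕ) (ρ C0 : ℝ), 1 ≤ M0 ∧ 0 ≤ ρ ∧ ρ < mu ∧ ∀ n : ℕ,
      (((Kw A n).filter (fun w => M0 * (Z.B w).card ≤ n)).card : ℝ) ≤ C0 * ρ ^ n)
    (hA : ∀ c p q : P, A p q → A (p + c) (q + c))
    (hsub : ∀ U U', Z.T U U' → ∀ x ∈ U, x ∈ U')
    (htr : ∀ c U U', Z.T U U' → Z.T (tr c U) (tr c U')) :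
    ∃ (M0 : ℕ) (ρ C0 : ℝ), 1 ≤ M0 ∧ 0 ≤ ρ ∧ ρ < mu ∧ 0 ≤ C0 ∧
    ∀ n a b m : ℕ, n + 1 = a + (m + 1) + b →
      (((Kw (AD A D) n).filter (fun w => M0 * (BW (ruleD Z D) a b w).card ≤ m)).card : ℝ) ≤
        ((Kw A a).card : ℝ) * (C0 * ρ ^ m) * ((Kw A b).card : ℝ) := by
  obtain ⟨M0, ρ, C0, h1, h2, h3, h4⟩ := hp
  refine ⟨M0, ρ, C0, h1, h2, h3, ?_, fun n a b m hn => poor_win Z h0 hA hsub htr h4 hn⟩
  have := h4 0
  rw [pow_zero, mul_one] at this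
  exact le_trans (Nat.cast_nonneg _) this

theorem wh_dom (Z : Rule A) (H : Coord A φ R) (hs : 1 ≤ Z.s) (D : ℤ × ℤ → Prop) (h0 : D 0)
    (hcl : ∀ U U', Z.T U U' → (∀ x ∈ U', D x) → ∀ x ∈ U, D x)
    (hp : ∃ (M0 : ℕ) (ρ C0 : ℝ), 1 ≤ M0 ∧ 0 ≤ ρ ∧ ρ < mu ∧ ∀ n : ℕ,
      (((Kw A n).filter (fun w => M0 * (Z.B w).card ≤ n)).card : ℝ) ≤ C0 * ρ ^ n)
    (hA : ∀ c p q : P, A p q → A (p + c) (q + c))
    (hsub : ∀ U U', Z.T U U' → ∀ x ∈ U, x ∈ U')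
    (htr : ∀ c U U', Z.T U U' → Z.T (tr c U) (tr c U'))
    {K : ℝ} {a : ℕ} (ha : 2 ≤ a)
    (hlow : ∀ n : ℕ, 2 ≤ n → mu ^ n * Real.exp (-(K * Real.log n ^ a)) ≤
      ((Kw (AD A D) n).card : ℝ)) :
    ∃ K' K1 C1 : ℝ, WH Z D mu K' K1 C1 a := by
  obtain ⟨K', hK'⟩ := gr_dom Z H hs D h0 hcl hp ha hlow
  obtain ⟨K1, C1, h1, h2, h3⟩ := full_bd Z H a ha
  exact ⟨K', K1, C1, h0, hK', h1, h2, h3, pw_sub Z h0 hp hA hsub htr⟩

theorem wh_half (Z : Rule A) (H : Coord A φ R) (D : ℤ × ℤ → Prop) (h0 : D 0)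
    (hp : ∃ (M0 : ℕ) (ρ C0 : ℝ), 1 ≤ M0 ∧ 0 ≤ ρ ∧ ρ < mu ∧ 0 ≤ C0 ∧
      ∀ n a b m : ℕ, n + 1 = a + (m + 1) + b →
      (((Kw (AD A D) n).filter (fun w => M0 * (BW (ruleD Z D) a b w).card ≤ m)).card : ℝ) ≤
        ((Kw A a).card : ℝ) * (C0 * ρ ^ m) * ((Kw A b).card : ℝ))
    (hG : ∃ K : ℝ, Gr (ruleD Z D).sys mu K 2) :
    ∃ K' K1 C1 : ℝ, WH Z D mu K' K1 C1 2 := by
  obtain ⟨K', hK'⟩ := hG
  obtain ⟨K1, C1, h1, h2, h3⟩ := full_bd Z H 2 le_rfl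
  exact ⟨K', K1, C1, h0, hK', h1, h2, h3, hp⟩

end gen

/-! ### the square lattice -/

theorem sq_hA : ∀ c p q : P, Sq.A p q → Sq.A (p + c) (q + c) := by
  intro c p q h
  exact sqS.adj_good trivial h

theorem sq_hsub : ∀ U U', Sq.rule.T U U' → ∀ x ∈ U, x ∈ U' := by
  rintro U U' ⟨p, v, w, r, rfl, rfl, -⟩ x hx
  simp only [List.mem_cons, List.not_mem_nil, or_false] at hx ⊢
  tauto

theorem sq_htr : ∀ c U U', Sq.rule.T U U' → Sq.rule.T (tr c U) (tr c U') := by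
  rintro c U U' ⟨p, v, w, r, rfl, rfl, h1, h2, h3, h4, h5, h6⟩
  exact ⟨p + c, v + c, w + c, r + c, rfl, rfl, sq_hA _ _ _ h1, sq_hA _ _ _ h2, sq_hA _ _ _ h3,
    sq_hA _ _ _ h4, fun h => h5 (add_right_cancel h), fun h => h6 (add_right_cancel h)⟩

/-! ### the triangular lattice -/

theorem tri_hA : ∀ c p q : P, Tri.A p q → Tri.A (p + c) (q + c) := by
  intro c p q h
  rw [Tri.A_iff] at *
  simp only [Prod.fst_add, Prod.snd_add]
  omega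

theorem tri_hsub : ∀ U U', Tri.rule.T U U' → ∀ x ∈ U, x ∈ U' := by
  rintro U U' ⟨p, v, r, rfl, rfl, -⟩ x hx
  simp only [List.mem_cons, List.not_mem_nil, or_false] at hx ⊢
  tauto

theorem tri_htr : ∀ c U U', Tri.rule.T U U' → Tri.rule.T (tr c U) (tr c U') := by
  rintro c U U' ⟨p, v, r, rfl, rfl, h1, h2, h3⟩
  exact ⟨p + c, v + c, r + c, rfl, rfl, tri_hA _ _ _ h1, tri_hA _ _ _ h2, tri_hA _ _ _ h3⟩

end Pool.Agent.R965.HP
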