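import Pool.Agent.R965.HP.WinMot
import Pool.Agent.R965.HP.WinGrid

/-!
# Windows of times: the hexagonal grid
-/

set_option autoImplicit false

namespace Pool.Agent.R965.HP

open Finset Filter Topology TH966.KS TH966.AK
open scoped Classical

theorem hex_deg {q p r u v : P} (h1 : Hex.A q p) (h2 : Hex.A q r) (h3 : Hex.A q u)
    (h4 : Hex.A q v) (hpr : p ≠ r) (huv : u ≠ v) : u = p ∨ u = r ∨ v = p ∨ v = r := by
  by_contra hcon
  simp only [not_or] at hcon
  obtain ⟨c1, c2, c3, c4⟩ := hcon
  have hsub : ({p, r, u, v} : Finset P) ⊆ Hex.nb q := by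
    intro x hx
    simp only [Finset.mem_insert, Finset.mem_singleton] at hx
    rcases hx with rfl | rfl | rfl | rfl
    · exact Hex.mem_nb.2 h1
    · exact Hex.mem_nb.2 h2
    · exact Hex.mem_nb.2 h3
    · exact Hex.mem_nb.2 h4
  have hcard : ({p, r, u, v} : Finset P).card = 4 := by
    rw [Finset.card_insert_of_notMem, Finset.card_insert_of_notMem,
      Finset.card_insert_of_notMem, Finset.card_singleton]
    · simpa using huv
    · simp only [Finset.mem_insert, Finset.mem_singleton, not_or]
      exact ⟨fun h => c2 h.symm, fun h => c4 h.symm⟩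
    · simp only [Finset.mem_insert, Finset.mem_singleton, not_or]
      exact ⟨hpr, fun h => c1 h.symm, fun h => c3 h.symm⟩
  have := Finset.card_le_card hsub
  have := Hex.card_nb q
  omega

/-- the motions of the hexagonal grid -/
def hexMot : Mot Hex.rule where
  σ v x := if (v.1 + v.2) % 2 = 0 then x - v else v - x
  τ v x := if (v.1 + v.2) % 2 = 0 then x + v else v - x
  h0 v := by split_ifs <;> simp
  st v x := by split_ifs <;> simp
  ts v x := by split_ifs <;> simp
  adj v p q h := by
    rw [Hex.A_iff] at h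
    split_ifs with hv
    · rw [Hex.A_iff]
      simp only [Prod.fst_sub, Prod.snd_sub]
      rcases h with ⟨h, h'⟩ | ⟨h, h'⟩ | ⟨h, h', h''⟩ | ⟨h, h', h''⟩ <;> omega
    · rw [Hex.A_iff]
      simp only [Prod.fst_sub, Prod.snd_sub]
      rcases h with ⟨h, h'⟩ | ⟨h, h'⟩ | ⟨h, h', h''⟩ | ⟨h, h', h''⟩ <;> omega
  tT v U U' := by
    rintro ⟨p, q, r, rfl, rfl, h1, h2, h3⟩
    have hA : ∀ x y : P, Hex.A x y →
        Hex.A (if (v.1 + v.2) % 2 = 0 then x + v else v - x)
          (if (v.1 + v.2) % 2 = 0 then y + v else v - y) := by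
      intro x y h
      rw [Hex.A_iff] at h
      split_ifs with hv
      · rw [Hex.A_iff]
        simp only [Prod.fst_add, Prod.snd_add]
        rcases h with ⟨h, h'⟩ | ⟨h, h'⟩ | ⟨h, h', h''⟩ | ⟨h, h', h''⟩ <;> omega
      · rw [Hex.A_iff]
        simp only [Prod.fst_sub, Prod.snd_sub]
        rcases h with ⟨h, h'⟩ | ⟨h, h'⟩ | ⟨h, h', h''⟩ | ⟨h, h', h''⟩ <;> omega
    refine ⟨_, _, _, rfl, ?_, hA p q h1, hA q r h2, ?_⟩
    · split_ifs with hv
      · have e : Hex.ctr (p + v) (q + v) (r + v) = Hex.ctr p q r + (v + v) := by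
          unfold Hex.ctr
          refine Prod.ext ?_ ?_
          · simp only [Prod.fst_add]; ring
          · simp only [Prod.fst_add, Prod.snd_add]
            split_ifs <;> omega
        rw [e]
        simp only [List.map_cons, List.map_nil, List.cons.injEq, and_true, true_and]
        refine ⟨?_, ?_, ?_⟩ <;> abel
      · have e : Hex.ctr (v - p) (v - q) (v - r) = v + v - Hex.ctr p q r := by
          unfold Hex.ctr
          refine Prod.ext ?_ ?_
          · simp only [Prod.fst_add, Prod.fst_sub]; ring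
          · simp only [Prod.fst_sub, Prod.snd_add, Prod.snd_sub]
            split_ifs <;> omega
        rw [e]
        simp only [List.map_cons, List.map_nil, List.cons.injEq, and_true, true_and]
        refine ⟨?_, ?_, ?_⟩ <;> abel
    · split_ifs
      · exact fun h => h3 (add_right_cancel h)
      · exact fun h => h3 (sub_right_injective h)

theorem exc_hex : Exc Hex.rule := by
  rintro w hn hc a m b hlen V V' ⟨p, q, r, rfl, rfl, h1, h2, h3⟩ hin ⟨x, hx, hx1, hx2⟩
  obtain ⟨L, R, h5⟩ := hin
  obtain ⟨y1, hy1⟩ : ∃ y, y = Hex.ctr p q r - r := ⟨_, rfl⟩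
  obtain ⟨y2, hy2⟩ : ∃ y, y = Hex.ctr p q r - q := ⟨_, rfl⟩
  obtain ⟨y3, hy3⟩ : ∃ y, y = Hex.ctr p q r - p := ⟨_, rfl⟩
  rw [← hy1, ← hy2, ← hy3] at h5 ⊢
  have hpl : ((w.drop a).take (m + 1)).length = m + 1 := by
    rw [List.length_take, List.length_drop]; omega
  have hlen2 : L.length + 5 + R.length = m + 1 := by
    rw [← hpl, ← h5]
    simp
    omega
  -- the points of the piece
  have hget : ∀ i, i ≤ m → ((w.drop a).take (m + 1))[i]? = w[a + i]? := by
    intro i hi
    rw [List.getElem?_take, if_pos (by omega), List.getElem?_drop]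
  have hp : w[a + L.length]? = some p := by
    rw [← hget _ (by omega), ← h5]
    simp
  have hr : w[a + L.length + 4]? = some r := by
    rw [show a + L.length + 4 = a + (L.length + 4) by ring, ← hget _ (by omega), ← h5]
    simp
  have hmem : ∀ t, a ≤ t → t ≤ a + m → ∀ z, w[t]? = some z → z ∈ (w.drop a).take (m + 1) := by
    intro t ht ht' z hz
    have h6 := hget (t - a) (by omega)
    rw [show a + (t - a) = t by omega, hz] at h6
    exact List.mem_of_getElem? h6
  -- the new point is `q`
  have hxq : x = q := by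
    simp only [List.mem_cons, List.not_mem_nil, or_false] at hx
    rcases hx with rfl | rfl | rfl
    · exact absurd (hmem _ (by omega) (by omega) _ hp) hx1
    · rfl
    · exact absurd (hmem _ (by omega) (by omega) _ hr) hx1
  subst hxq
  obtain ⟨t, ht, htq⟩ := List.getElem_of_mem hx2
  have htq' : w[t]? = some x := by rw [List.getElem?_eq_getElem ht, htq]
  have hout : t < a ∨ a + m < t := by
    by_contra hcon
    exact hx1 (hmem t (by omega) (by omega) _ htq')
  have hgd : ∀ (s : ℕ) (z : P), w[s]? = some z → w.getD s 0 = z := by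
    intro s z hz
    rw [List.getD_eq_getElem?_getD, hz]
    rfl
  by_cases c0 : t = 0
  · left
    rw [← c0, hgd t x htq']
    simp
  by_cases c1 : t = a + m + b
  · right; left
    rw [← c1, hgd t x htq']
    simp
  right
  right
  have hinj : ∀ (s s' : ℕ) (z : P), w[s]? = some z → w[s']? = some z → s = s' := by
    intro s s' z hs hs'
    obtain ⟨k1, k2⟩ := List.getElem?_eq_some_iff.1 hs
    obtain ⟨k3, k4⟩ := List.getElem?_eq_some_iff.1 hs'
    exact (List.Nodup.getElem_inj_iff hn).1 (by rw [k2, k4])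
  have ht1 : t + 1 < w.length := by omega
  have e1 := List.isChain_iff_getElem.1 hc (t - 1) (by omega)
  have e2 := List.isChain_iff_getElem.1 hc t ht1
  obtain ⟨u, hu⟩ : ∃ u, w[t - 1]? = some u := ⟨w[t - 1], List.getElem?_eq_getElem (by omega)⟩
  obtain ⟨v, hv⟩ : ∃ v, w[t + 1]? = some v := ⟨w[t + 1], List.getElem?_eq_getElem (by omega)⟩
  have hu' : w[t - 1] = u := (List.getElem?_eq_some_iff.1 hu).2
  have hv' : w[t + 1] = v := (List.getElem?_eq_some_iff.1 hv).2
  have htt : t - 1 + 1 = t := by omega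
  have e3 : w[t - 1 + 1]'(by omega) = x := by
    have : w[t - 1 + 1]? = some x := by rw [htt]; exact htq'
    exact (List.getElem?_eq_some_iff.1 this).2
  rw [hu', e3] at e1
  rw [htq, hv'] at e2
  have huv : u ≠ v := by
    intro h
    rw [← h] at hv
    have := hinj _ _ _ hu hv
    omega
  rcases hex_deg (Hex.A_symm h1) h2 (Hex.A_symm e1) e2 h3 huv with h | h | h | h
  · -- `w[t-1] = p`
    exfalso
    rw [h] at hu
    have := hinj _ _ _ hu hp
    omega
  · -- `w[t-1] = r`
    right
    rw [h] at hu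
    have h7 := hinj _ _ _ hu hr
    have h8 : a + L.length + 4 = a + m := by omega
    rw [← h8, hgd _ _ hr]
    simp
  · -- `w[t+1] = p`
    left
    rw [h] at hv
    have h7 := hinj _ _ _ hv hp
    have h8 : a + L.length = a := by omega
    rw [h8] at hp
    rw [hgd _ _ hp]
    simp
  · exfalso
    rw [h] at hv
    have := hinj _ _ _ hv hr
    omega

theorem wh_hex : ∃ K' K1 C1 : ℝ,
    WH Hex.rule (fun p => 0 ≤ p.1) (@H982.mu H982P.hexL) K' K1 C1 2 := by
  obtain ⟨C0, hC0⟩ := Hex.poor
  refine wh_half (L := H982P.hexL) Hex.rule H982P.coord_hex (fun p => 0 ≤ p.1)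
    (show (0 : ℤ) ≤ 0 from le_rfl) ?_ ?_
  · refine pw_gen hexMot exc_hex (show (0 : ℤ) ≤ 0 from le_rfl) hex_cl (M0 := 10000)
      (ρ := 459 / 250) (C0 := C0) (by norm_num) (by norm_num) ?_ ?_
    · rw [Pool.Agent.H976R3.HPL.mu_hex]
      show _ < Real.sqrt (2 + Real.sqrt 2)
      have h4 : (1.4142 : ℝ) ≤ Real.sqrt 2 := by
        rw [Real.le_sqrt' (by norm_num)]
        norm_num
      rw [Real.lt_sqrt (by norm_num)]
      linarith [show (459 / 250 : ℝ) ^ 2 < 2 + 1.4142 by norm_num]
    · intro n
      exact hC0 n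
  · have h := half_hex
    rw [show Real.sqrt (2 + Real.sqrt 2) = @H982.mu H982P.hexL from
      Pool.Agent.H976R3.HPL.mu_hex.symm] at h
    exact h

end Pool.Agent.R965.HP
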