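import Pool.Agent.R965.HP.TwoPt
import Pool.Agent.R965.HP.WinHex

/-!
# Critical walks on the honeycomb lattice with given end points
-/

set_option autoImplicit false

namespace Pool.Agent.R965.HP

open Finset Filter Topology TH966.KS TH966.AK
open scoped Classical ENNReal

/-- adjacency in the honeycomb lattice -/
def Nb (p q : ℤ × ℤ) : Prop :=
  (p.2 = q.2 ∧ (p.1 - q.1 = 1 ∨ q.1 - p.1 = 1)) ∨
    (p.1 = q.1 ∧ ((q.2 = p.2 + 1 ∧ Even (p.1 + p.2)) ∨ (p.2 = q.2 + 1 ∧ Even (q.1 + q.2))))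

theorem nb_iff (p q : ℤ × ℤ) : Nb p q ↔ Hex.A p q := by
  unfold Nb
  rw [Hex.A_iff, Int.even_iff, Int.even_iff]
  omega

/-- the trajectories -/
def Tj (D : Set (ℤ × ℤ)) (a b : ℤ × ℤ) : Set (List (ℤ × ℤ)) :=
  {l | l.head? = some a ∧ l.getLast? = some b ∧ l.Nodup ∧ l.IsChain Nb ∧ ∀ p ∈ l, p ∈ D}

theorem hex_tau_adj (v x y : P) (h : Hex.A x y) : Hex.A (hexMot.τ v x) (hexMot.τ v y) := by
  show Hex.A (if (v.1 + v.2) % 2 = 0 then x + v else v - x)
    (if (v.1 + v.2) % 2 = 0 then y + v else v - y)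
  rw [Hex.A_iff] at h
  split_ifs with hv
  · rw [Hex.A_iff]
    simp only [Prod.fst_add, Prod.snd_add]
    rcases h with ⟨h, h'⟩ | ⟨h, h'⟩ | ⟨h, h', h''⟩ | ⟨h, h', h''⟩ <;> omega
  · rw [Hex.A_iff]
    simp only [Prod.fst_sub, Prod.snd_sub]
    rcases h with ⟨h, h'⟩ | ⟨h, h'⟩ | ⟨h, h', h''⟩ | ⟨h, h', h''⟩ <;> omega

theorem hex_tau_zero (v : P) : hexMot.τ v 0 = v := by
  have h := hexMot.ts v v
  rwa [hexMot.h0] at h

theorem hex_hup : ∀ τ : ℝ, 0 < τ → ∃ C1 : ℝ, ∀ n : ℕ,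
    ((Kw Hex.A n).card : ℝ) ≤ C1 * ((1 + τ) * @H982.mu H982P.hexL) ^ n := by
  intro τ hτ
  obtain ⟨K1, C1, hK1, hC1, h⟩ := full_bd (L := H982P.hexL) Hex.rule H982P.coord_hex 2 le_rfl
  obtain ⟨N0, hN⟩ := eventually_atTop.1 (exp_log_le 2 K1 τ hτ)
  have hμ := @H982.one_le_mu H982P.hexL
  have hb : 1 ≤ (1 + τ) * @H982.mu H982P.hexL := by nlinarith
  have hs : (0 : ℝ) ≤ ∑ i ∈ range (N0 + 2), ((Kw Hex.A i).card : ℝ) :=
    sum_nonneg fun _ _ => Nat.cast_nonneg _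
  refine ⟨C1 + ∑ i ∈ range (N0 + 2), ((Kw Hex.A i).card : ℝ), fun n => ?_⟩
  have hp : 1 ≤ ((1 + τ) * @H982.mu H982P.hexL) ^ n := one_le_pow₀ hb
  by_cases hn : n < N0 + 2
  · have h2 : ((Kw Hex.A n).card : ℝ) ≤ ∑ i ∈ range (N0 + 2), ((Kw Hex.A i).card : ℝ) :=
      Finset.single_le_sum (f := fun i => ((Kw Hex.A i).card : ℝ))
        (fun i _ => Nat.cast_nonneg _) (Finset.mem_range.2 hn)
    nlinarith
  · have h2 := h n n le_rfl (by omega)
    have h3 := hN n (by omega)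
    have h4 : C1 * @H982.mu H982P.hexL ^ n * Real.exp (K1 * Real.log n ^ 2) ≤
        C1 * @H982.mu H982P.hexL ^ n * (1 + τ) ^ n :=
      mul_le_mul_of_nonneg_left h3 (by positivity)
    have h5 : C1 * @H982.mu H982P.hexL ^ n * (1 + τ) ^ n =
        C1 * ((1 + τ) * @H982.mu H982P.hexL) ^ n := by rw [mul_pow]; ring
    rw [h5] at h4
    refine h2.trans (h4.trans (mul_le_mul_of_nonneg_right (by linarith) (by positivity)))

variable {D : Set (ℤ × ℤ)} {p q : ℤ × ℤ}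

/-- the system of the walks from `p` to `q`, moved to the origin -/
noncomputable def YY (D : Set (ℤ × ℤ)) (p q : ℤ × ℤ) : Sys (List P) (List P × List P) :=
  two Hex.rule (fun x => hexMot.τ p x ∈ D) (hexMot.σ p q)

theorem D_zero (hp : p ∈ D) : (fun x => hexMot.τ p x ∈ D) 0 := by
  show hexMot.τ p 0 ∈ D
  rw [hex_tau_zero]
  exact hp

theorem mem_YY (hp : p ∈ D) {n : ℕ} {w : List P} : w ∈ (YY D p q).K n ↔
    (w.length = n + 1 ∧ w.head? = some 0 ∧ w.Nodup ∧ w.IsChain Hex.A) ∧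
      (∀ x ∈ w, hexMot.τ p x ∈ D) ∧ lst w = hexMot.σ p q := by
  unfold YY
  rw [two_mem, Kw_D Hex.rule (D_zero hp), Hex.rule.mem_K]
  exact and_assoc

theorem tau_mem (hp : p ∈ D) {n : ℕ} {w : List P} (hw : w ∈ (YY D p q).K n) :
    w.map (hexMot.τ p) ∈ Tj D p q ∧ (w.map (hexMot.τ p)).length = n + 1 := by
  rw [mem_YY hp] at hw
  obtain ⟨⟨h1, h2, h3, h4⟩, h5, h6⟩ := hw
  have hne : w ≠ [] := by rintro rfl; simp at h1
  refine ⟨⟨?_, ?_, h3.map (hexMot.inj' p), ?_, ?_⟩, by rw [List.length_map]; exact h1⟩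
  · rw [List.head?_map, h2]
    simp [hex_tau_zero]
  · rw [List.getLast?_map, List.getLast?_eq_getLast_of_ne_nil hne]
    rw [lst_eq hne] at h6
    rw [h6]
    simp [hexMot.ts]
  · rw [List.isChain_map]
    exact h4.imp fun {a b} hab => (nb_iff _ _).2 (hex_tau_adj p a b hab)
  · intro x hx
    rw [List.mem_map] at hx
    obtain ⟨y, hy, rfl⟩ := hx
    exact h5 y hy

theorem sigma_mem {l : List P} (hl : l ∈ Tj D p q) :
    l.map (hexMot.σ p) ∈ (YY D p q).K (l.length - 1) ∧ 1 ≤ l.length := by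
  obtain ⟨h1, h2, h3, h4, h5⟩ := hl
  have hne : l ≠ [] := by rintro rfl; simp at h1
  have hlen : 1 ≤ l.length := List.length_pos_of_ne_nil hne
  have hp : p ∈ D := h5 p (List.mem_of_mem_head? (by rw [h1]; rfl))
  have hne' : l.map (hexMot.σ p) ≠ [] := by simpa using hne
  refine ⟨?_, hlen⟩
  rw [mem_YY hp]
  refine ⟨⟨by rw [List.length_map]; omega, ?_, h3.map (hexMot.inj p), ?_⟩, ?_, ?_⟩
  · rw [List.head?_map, h1]
    simp [hexMot.h0]
  · rw [List.isChain_map]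
    exact h4.imp fun {a b} hab => hexMot.adj p a b ((nb_iff _ _).1 hab)
  · intro x hx
    rw [List.mem_map] at hx
    obtain ⟨y, hy, rfl⟩ := hx
    rw [hexMot.ts]
    exact h5 y hy
  · unfold lst
    rw [List.getLast?_map, h2]
    rfl

theorem tau_sigma (l : List P) : (l.map (hexMot.σ p)).map (hexMot.τ p) = l := by
  rw [List.map_map]
  have : (hexMot.τ p) ∘ (hexMot.σ p) = id := by
    funext x
    exact hexMot.ts p x
  rw [this, List.map_id]

theorem tj_image (hp : p ∈ D) {L : ℕ} (hmax : ∀ n, L ≤ n → (YY D p q).K n = ∅) :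
    Tj D p q = (fun w : List P => w.map (hexMot.τ p)) ''
      (((range L).biUnion (fun n => (YY D p q).K n) : Finset (List P)) : Set (List P)) := by
  ext l
  constructor
  · intro hl
    obtain ⟨h1, -⟩ := sigma_mem hl
    refine ⟨l.map (hexMot.σ p), ?_, tau_sigma l⟩
    rw [Finset.mem_coe, Finset.mem_biUnion]
    refine ⟨l.length - 1, ?_, h1⟩
    rw [mem_range]
    by_contra hcon
    rw [hmax _ (not_lt.1 hcon)] at h1
    exact absurd h1 (Finset.notMem_empty _)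
  · rintro ⟨w, hw, rfl⟩
    rw [Finset.mem_coe, Finset.mem_biUnion] at hw
    obtain ⟨n, -, hw⟩ := hw
    exact (tau_mem hp hw).1

theorem fin_sum (hp : p ∈ D) {L : ℕ} (hmax : ∀ n, L ≤ n → (YY D p q).K n = ∅) (x : ℝ)
    (f : List P → ℝ) :
    ∑ᶠ l ∈ Tj D p q, f l * x ^ (l.length - 1) =
      gc (YY D p q) x L (fun _ w => f (w.map (hexMot.τ p))) := by
  have hinj : Function.Injective (fun w : List P => w.map (hexMot.τ p)) :=
    List.map_injective_iff.2 (hexMot.inj' p)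
  rw [tj_image hp hmax, finsum_mem_image hinj.injOn, finsum_mem_coe_finset, sum_biUnion]
  · unfold gc
    refine sum_congr rfl fun n _ => ?_
    rw [mul_sum]
    refine sum_congr rfl fun w hw => ?_
    rw [(tau_mem hp hw).2, Nat.add_sub_cancel, mul_comm]
  · intro i _ j _ hij
    rw [Function.onFun, Finset.disjoint_left]
    intro w hw hw'
    rw [mem_YY hp] at hw hw'
    have h1 := hw.1.1
    have h2 := hw'.1.1
    omega

theorem exists_max (hp : p ∈ D) (hD : D.Finite) : ∃ L : ℕ, ∀ n, L ≤ n → (YY D p q).K n = ∅ := by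
  refine ⟨hD.toFinset.card, fun n hn => ?_⟩
  rw [Finset.eq_empty_iff_forall_notMem]
  intro w hw
  obtain ⟨⟨-, -, h3, -, h5⟩, h6⟩ := tau_mem hp hw
  have h7 : (w.map (hexMot.τ p)).toFinset ⊆ hD.toFinset := by
    intro x hx
    rw [List.mem_toFinset] at hx
    rw [Set.Finite.mem_toFinset]
    exact h5 x hx
  have h8 := Finset.card_le_card h7
  rw [List.toFinset_card_of_nodup h3, h6] at h8
  omega

/-- the partition function, as a real number -/
noncomputable def Zr (x : ℝ) (D : Set (ℤ × ℤ)) (p q : ℤ × ℤ) : ℝ :=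
  ∑ᶠ l ∈ Tj D p q, x ^ (l.length - 1)

/-- the mean -/
noncomputable def Ex (x : ℝ) (D : Set (ℤ × ℤ)) (p q : ℤ × ℤ) (f : List (ℤ × ℤ) → ℝ) : ℝ :=
  (∑ᶠ l ∈ Tj D p q, f l * x ^ (l.length - 1)) / Zr x D p q

/-- a block of three consecutive vertices is replaced by a block of five vertices -/
def Fl (l l' : List (ℤ × ℤ)) : Prop :=
  ∃ L U U' R, l = L ++ U ++ R ∧ l' = L ++ U' ++ R ∧ U.length = 3 ∧ U'.length = 5

theorem Zr_eq (hp : p ∈ D) {L : ℕ} (hmax : ∀ n, L ≤ n → (YY D p q).K n = ∅) (x : ℝ) :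
    Zr x D p q = gc (YY D p q) x L (fun _ _ => 1) := by
  have h := fin_sum hp hmax x (fun _ => 1)
  simp only [one_mul] at h
  exact h

theorem ins_fl (hp : p ∈ D) {n : ℕ} {w : List P} {r : List P × List P}
    (hw : w ∈ (YY D p q).K n) (hr : r ∈ (YY D p q).S w) :
    Fl (w.map (hexMot.τ p)) (((YY D p q).ins w r).map (hexMot.τ p)) := by
  obtain ⟨U, U'⟩ := r
  change (U, U') ∈ (ruleD Hex.rule (fun x => hexMot.τ p x ∈ D)).S w at hr
  rw [Rule.mem_S] at hr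
  have hw' := hw
  unfold YY at hw'
  rw [two_mem, (ruleD Hex.rule (fun x => hexMot.τ p x ∈ D)).mem_K] at hw'
  obtain ⟨L, R, h1, h2, -⟩ := Rule.rep_all
    ((ruleD Hex.rule (fun x => hexMot.τ p x ∈ D)).pair _ _ hr.1) hw'.1.2 hr.2
  simp only at h1 h2
  obtain ⟨⟨⟨a, b, c, hU, hU', -⟩, -⟩, -⟩ := hr
  simp only at hU hU'
  have h3 : (YY D p q).ins w (U, U') = L ++ U' ++ R := h2
  refine ⟨L.map (hexMot.τ p), U.map (hexMot.τ p), U'.map (hexMot.τ p), R.map (hexMot.τ p),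
    ?_, ?_, ?_, ?_⟩
  · conv_lhs => rw [h1]
    simp
  · rw [h3]
    simp
  · rw [hU]; simp
  · rw [hU']; simp

/-- **the main inequality on the honeycomb lattice** -/
theorem hex_main : ∃ C θ : ℝ, 1 ≤ C ∧ 0 < θ ∧ θ < 1 ∧ ∀ (D : Set (ℤ × ℤ)), D.Finite →
    ∀ (p q : ℤ × ℤ) (m : ℕ), p ∈ D → C ≤ m → (∀ l ∈ Tj D p q, m < l.length) →
      0 < Zr (1 / Real.sqrt (2 + Real.sqrt 2)) D p q →
      ∀ (f f' : List (ℤ × ℤ) → ℝ) (η : ℝ), 0 ≤ η → (∀ l, 0 ≤ f l ∧ f l ≤ 1) →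
      (∀ l, 0 ≤ f' l ∧ f' l ≤ 1) →
      (∀ l ∈ Tj D p q, ∀ l' ∈ Tj D p q, Fl l l' → |f l' - f' l| ≤ η) →
      |Ex (1 / Real.sqrt (2 + Real.sqrt 2)) D p q f -
        Ex (1 / Real.sqrt (2 + Real.sqrt 2)) D p q f'| ≤
        C * √(1 / m + θ ^ m / Zr (1 / Real.sqrt (2 + Real.sqrt 2)) D p q) + η := by
  obtain ⟨C, θ, hC, hθ0, hθ1, h⟩ := two_step Hex.rule (@H982.one_le_mu H982P.hexL) hex_poor hex_hup
  rw [Pool.Agent.H976R3.HPL.mu_hex] at h
  change ∀ (D : P → Prop), D 0 → ∀ (y : P) (m L : ℕ), C ≤ m →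
      (∀ n, n < m → (two Hex.rule D y).K n = ∅) → (∀ n, L ≤ n → (two Hex.rule D y).K n = ∅) →
      0 < gc (two Hex.rule D y) (1 / Real.sqrt (2 + Real.sqrt 2)) L (fun _ _ => 1) → _ at h
  obtain ⟨x, hx⟩ : ∃ x : ℝ, x = 1 / Real.sqrt (2 + Real.sqrt 2) := ⟨_, rfl⟩
  refine ⟨C, θ, hC, hθ0, hθ1, fun D hD p q m hp hm hmin hZ f f' η hη hf hf' hff => ?_⟩
  obtain ⟨L, hmax⟩ := exists_max (q := q) hp hD
  have h1 := h (fun x => hexMot.τ p x ∈ D) (D_zero hp) (hexMot.σ p q) m L hm (by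
    intro n hn
    rw [Finset.eq_empty_iff_forall_notMem]
    intro w hw
    obtain ⟨h6, h7⟩ := tau_mem (D := D) (p := p) (q := q) hp (n := n) (w := w) hw
    have := hmin _ h6
    omega) hmax
  change 0 < gc (YY D p q) (1 / Real.sqrt (2 + Real.sqrt 2)) L (fun _ _ => 1) → _ at h1
  rw [← Zr_eq hp hmax] at h1
  have h2 := h1 hZ
  change ∀ f f' : List P → ℝ,
      (∀ n, ∀ w ∈ (YY D p q).K n, 0 ≤ f w ∧ f w ≤ 1) →
      (∀ n, ∀ w ∈ (YY D p q).K n, 0 ≤ f' w ∧ f' w ≤ 2) →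
      (∀ n, ∀ w ∈ (YY D p q).K n, ∀ r ∈ (YY D p q).S w, f ((YY D p q).ins w r) ≤ f' w) →
      gc (YY D p q) (1 / Real.sqrt (2 + Real.sqrt 2)) L (fun _ => f) /
        gc (YY D p q) (1 / Real.sqrt (2 + Real.sqrt 2)) L (fun _ _ => 1) ≤
        gc (YY D p q) (1 / Real.sqrt (2 + Real.sqrt 2)) L (fun _ => f') /
          gc (YY D p q) (1 / Real.sqrt (2 + Real.sqrt 2)) L (fun _ _ => 1) +
        C * √(1 / m + θ ^ m / gc (YY D p q) (1 / Real.sqrt (2 + Real.sqrt 2)) L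
          (fun _ _ => 1)) at h2
  rw [← hx] at h2 hZ ⊢
  rw [← Zr_eq hp hmax x] at h2
  have hEx : ∀ g : List (ℤ × ℤ) → ℝ, Ex x D p q g =
      gc (YY D p q) x L (fun _ w => g (w.map (hexMot.τ p))) / Zr x D p q := by
    intro g
    unfold Ex
    rw [fin_sum hp hmax]
  have hx0 : 0 < x := by rw [hx]; positivity
  have hgc0 : ∀ g : List (ℤ × ℤ) → ℝ, (∀ l, 0 ≤ g l) →
      0 ≤ gc (YY D p q) x L (fun _ w => g (w.map (hexMot.τ p))) := by
    intro g hg
    unfold gc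
    exact sum_nonneg fun n _ => mul_nonneg (by positivity) (sum_nonneg fun w _ => hg _)
  have hgc1 : ∀ (g : List (ℤ × ℤ) → ℝ) (c d : ℝ),
      gc (YY D p q) x L (fun _ w => c * g (w.map (hexMot.τ p)) + d) =
        c * gc (YY D p q) x L (fun _ w => g (w.map (hexMot.τ p))) + d * Zr x D p q := by
    intro g c d
    rw [Zr_eq hp hmax]
    unfold gc
    rw [mul_sum, mul_sum, ← sum_add_distrib]
    refine sum_congr rfl fun n _ => ?_
    rw [sum_add_distrib, ← mul_sum, sum_const, sum_const, nsmul_eq_mul, nsmul_eq_mul]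
    ring
  have hE01 : ∀ g : List (ℤ × ℤ) → ℝ, (∀ l, 0 ≤ g l ∧ g l ≤ 1) →
      0 ≤ Ex x D p q g ∧ Ex x D p q g ≤ 1 := by
    intro g hg
    rw [hEx]
    refine ⟨div_nonneg (hgc0 g fun l => (hg l).1) hZ.le, ?_⟩
    rw [div_le_one hZ, Zr_eq hp hmax]
    unfold gc
    exact sum_le_sum fun n _ => mul_le_mul_of_nonneg_left
      (sum_le_sum fun w _ => (hg _).2) (by positivity)
  have hsq0 : 0 ≤ C * √(1 / m + θ ^ m / Zr x D p q) := by positivity
  by_cases hη1 : 1 < η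
  · have a1 := hE01 f hf
    have a2 := hE01 f' hf'
    rw [abs_le]
    constructor <;> linarith
  have hη1' := not_lt.1 hη1
  have hmem : ∀ n, ∀ w ∈ (YY D p q).K n, ∀ r ∈ (YY D p q).S w,
      |f (((YY D p q).ins w r).map (hexMot.τ p)) - f' (w.map (hexMot.τ p))| ≤ η := by
    intro n w hw r hr
    refine hff _ (tau_mem hp hw).1 _ (tau_mem hp ((YY D p q).ins_K n w r hw hr)).1
      (ins_fl hp hw hr)
  have b1 := h2 (fun w => f (w.map (hexMot.τ p))) (fun w => 1 * f' (w.map (hexMot.τ p)) + η)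
    (fun n w _ => hf _) (fun n w _ => by
      have := hf' (w.map (hexMot.τ p))
      constructor <;> linarith) (fun n w hw r hr => by
      have := (abs_le.1 (hmem n w hw r hr)).2
      linarith)
  have b2 := h2 (fun w => (-1) * f (w.map (hexMot.τ p)) + 1)
    (fun w => (-1) * f' (w.map (hexMot.τ p)) + (1 + η))
    (fun n w _ => by
      have := hf (w.map (hexMot.τ p))
      constructor <;> linarith) (fun n w _ => by
      have := hf' (w.map (hexMot.τ p))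
      constructor <;> linarith) (fun n w hw r hr => by
      have := (abs_le.1 (hmem n w hw r hr)).1
      linarith)
  rw [hgc1 f' 1 η, ← hEx, add_div, mul_div_assoc, mul_div_assoc, ← hEx, div_self hZ.ne'] at b1
  rw [hgc1 f (-1) 1, hgc1 f' (-1) (1 + η), add_div, add_div, mul_div_assoc, mul_div_assoc,
    mul_div_assoc, mul_div_assoc, ← hEx, ← hEx, div_self hZ.ne'] at b2
  rw [abs_le]
  constructor <;> linarith

end Pool.Agent.R965.HP
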