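import Pool.Agent.R965.HP.All

/-!
# Systems of moves: means of functionals which change little under the moves
-/

set_option autoImplicit false

namespace Pool.Agent.R965.HP

open Finset Filter Topology TH966.KS TH966.AK
open scoped Classical

variable {α σ : Type} {Y : Sys α σ} {μ K : ℝ} {a : ℕ}

/-- upper bound for the sum of `f` over the objects of size `n + s` -/
theorem upperF (Y : Sys α σ) (f f' : α → ℝ) (M n : ℕ) (hn0 : Y.n0 ≤ n) (hn : 4 * M * Y.C ≤ n)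
    (hf0 : ∀ w ∈ Y.K (n + Y.s), 0 ≤ f w) (hf1 : ∀ w ∈ Y.K (n + Y.s), f w ≤ 1)
    (hff : ∀ w ∈ Y.K n, ∀ q ∈ Y.S w, f (Y.ins w q) ≤ f' w) (hf' : ∀ w ∈ Y.K n, 0 ≤ f' w) :
    Y.af f (n + Y.s) ≤ (((Y.bad M (n + Y.s)).card : ℝ) + Y.C * (n + 1) * (Y.bad M n).card) +
      ∑ w ∈ (Y.K n).filter (Y.good M n),
        f' w * (((Y.S w).card : ℝ) / (((Y.B w).card : ℝ) - Y.C)) := by
  set F : α → α → ℝ :=
    fun _ w' => f w' * (if Y.good M (n + Y.s) w' then 1 / ((Y.B w').card : ℝ) else 0) with hF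
  have hS := Y.sum_eq n hn0 F
  have hcard : ∀ m, ((Y.bad M m).card : ℝ) =
      ∑ w ∈ Y.K m, (if ¬ Y.good M m w then (1 : ℝ) else 0) := by
    intro m
    rw [Finset.sum_boole]
    unfold Sys.bad
    congr 1
    refine congrArg Finset.card ?_
    apply filter_congr
    intro w _
    rw [Y.not_good]
  have h1 : Y.af f (n + Y.s) ≤ ((Y.bad M (n + Y.s)).card : ℝ) +
      ∑ w ∈ Y.K (n + Y.s), ∑ j ∈ Y.B w, F (Y.rem w j) w := by
    unfold Sys.af
    rw [hcard, ← sum_add_distrib]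
    apply sum_le_sum
    intro w hw
    have hw0 := hf0 w hw
    have hw1 := hf1 w hw
    by_cases hg : Y.good M (n + Y.s) w
    · have hb : 0 < (Y.B w).card := by
        have h2 := Y.big (show 4 * M * Y.C ≤ n + Y.s by omega) hg.2
        omega
      rw [if_neg (not_not.mpr hg), zero_add]
      simp only [hF, if_pos hg]
      rw [← mul_sum, Y.sum_inv_eq w hb, mul_one]
    · rw [if_pos hg]
      simp only [hF, if_neg hg]
      simpa using hw1
  rw [← hS] at h1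
  refine h1.trans ?_
  rw [add_assoc]
  refine add_le_add le_rfl ?_
  have h2 : ∀ w ∈ Y.K n, ∑ q ∈ Y.S w, F w (Y.ins w q) ≤
      (Y.C * (n + 1) : ℝ) * (if ¬ Y.good M n w then (1 : ℝ) else 0) +
        (if Y.good M n w then
          f' w * (((Y.S w).card : ℝ) / (((Y.B w).card : ℝ) - Y.C)) else 0) := by
    intro w hw
    have hw0 := hf' w hw
    have hC : (1 : ℝ) ≤ Y.C := by exact_mod_cast Y.hC
    by_cases hg : Y.good M n w
    · rw [if_neg (not_not.mpr hg), if_pos hg, mul_zero, zero_add]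
      have hb := Y.big hn hg.2
      have hb' : (4 * Y.C : ℝ) < (Y.B w).card := by exact_mod_cast hb
      have : ∀ q ∈ Y.S w, F w (Y.ins w q) ≤ f' w * (1 / (((Y.B w).card : ℝ) - Y.C)) := by
        intro q hq
        have h3 := Y.chB1 n w q hw hq
        have h4 : ((Y.B w).card : ℝ) ≤ (Y.B (Y.ins w q)).card + Y.C := by exact_mod_cast h3
        have h5 : (if Y.good M (n + Y.s) (Y.ins w q) then
            1 / ((Y.B (Y.ins w q)).card : ℝ) else 0) ≤ 1 / (((Y.B w).card : ℝ) - Y.C) := by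
          split_ifs
          · apply one_div_le_one_div_of_le <;> linarith
          · apply one_div_nonneg.mpr; linarith
        have h6 : (0 : ℝ) ≤ (if Y.good M (n + Y.s) (Y.ins w q) then
            1 / ((Y.B (Y.ins w q)).card : ℝ) else 0) := by
          split_ifs <;> positivity
        simp only [hF]
        exact mul_le_mul (hff w hw q hq) h5 h6 hw0
      refine (sum_le_sum this).trans ?_
      rw [sum_const, nsmul_eq_mul]
      apply le_of_eq
      ring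
    · rw [if_pos hg, if_neg hg, add_zero, mul_one]
      have hle : ∀ q ∈ Y.S w, F w (Y.ins w q) ≤ 1 := by
        intro q hq
        have i1 := Y.ins_K n w q hw hq
        have i2 := hf1 _ i1
        have i3 := hf0 _ i1
        simp only [hF]
        split_ifs
        · exact mul_le_one₀ i2 (by positivity) (Sys.inv_le_one _)
        · simp
      refine (sum_le_sum hle).trans ?_
      rw [sum_const, nsmul_eq_mul, mul_one]
      exact_mod_cast Y.S_le n w hw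
  refine (sum_le_sum h2).trans ?_
  rw [sum_add_distrib, ← sum_filter, ← mul_sum, ← hcard]

/-- the constants of one step, for large `n` -/
theorem Gr.prep (G : Gr Y μ K a) : ∃ M : ℕ, 1 ≤ M ∧ ∀ᶠ n : ℕ in atTop,
    Y.n0 ≤ n ∧ 4 * M * Y.C ≤ n ∧ 1 ≤ n ∧
    (((Y.bad M (n + Y.s)).card : ℝ) + Y.C * (n + 1) * (Y.bad M n).card) ≤
      N Y (n + Y.s) / n := by
  have hμ := G.hμ
  have hμ0 : 0 < μ := by linarith
  have hs := G.hs
  obtain ⟨M, θ, C', hM, hθ0, hθ1, hC', hbad⟩ := Y.pattern μ hμ G.hup G.poor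
  obtain ⟨t, ht⟩ : ∃ t : ℝ, t = (1 + θ) / 2 := ⟨_, rfl⟩
  have ht1 : t < 1 := by rw [ht]; linarith
  have ht0 : 0 < t := by rw [ht]; linarith
  have hsh : Tendsto (fun n : ℕ => n + Y.s) atTop atTop := tendsto_add_atTop_nat _
  refine ⟨M, hM, ?_⟩
  filter_upwards [Y.errors μ θ t C' hμ0 hθ0 (by rw [ht]; linarith),
    hsh.eventually (exp_small a K ht0 ht1), eventually_ge_atTop Y.n0,
    eventually_ge_atTop (4 * M * Y.C), eventually_ge_atTop 2] with n h1 h2 h3 h4 h5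
  have hn0 : (0 : ℝ) < n := by exact_mod_cast (show 0 < n by omega)
  refine ⟨h3, h4, by omega, ?_⟩
  rw [le_div_iff₀ hn0]
  have b1 := hbad (n + Y.s)
  have b2 := hbad n
  have h6 : (t * μ) ^ (n + Y.s) ≤ N Y (n + Y.s) := by
    refine le_trans ?_ (G.low _ (by omega))
    rw [mul_pow, mul_comm]
    exact mul_le_mul_of_nonneg_left h2 (by positivity)
  calc (((Y.bad M (n + Y.s)).card : ℝ) + Y.C * (n + 1) * (Y.bad M n).card) * n
      ≤ (C' * (θ * μ) ^ (n + Y.s) + Y.C * (n + 1) * (C' * (θ * μ) ^ n)) * n := by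
        apply mul_le_mul_of_nonneg_right _ hn0.le
        apply add_le_add b1
        exact mul_le_mul_of_nonneg_left b2 (by positivity)
    _ = n * (C' * (θ * μ) ^ (n + Y.s) + Y.C * (n + 1) * (C' * (θ * μ) ^ n)) := mul_comm _ _
    _ ≤ (t * μ) ^ (n + Y.s) := h1
    _ ≤ _ := h6

/-- the ratio -/
noncomputable def rr (Y : Sys α σ) (n : ℕ) : ℝ := N Y (n + Y.s) / N Y n

/-- the variance bound, up to the constant -/
noncomputable def VV (Y : Sys α σ) (c : ℝ) (n : ℕ) : ℝ :=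
  rr Y n * (rr Y (n + Y.s) - rr Y n) + c / n

theorem var_real {A0 A1 A2 S1 S2 n x1 x2 ρ : ℝ} (hA0 : 0 < A0) (hA1 : 0 < A1) (hA2 : 0 < A2)
    (hn : 1 ≤ n) (hx1 : 0 ≤ x1) (hx2 : 0 ≤ x2) (hx2' : x2 ≤ 1 / 2)
    (h1 : A1 - A1 / n ≤ (1 + x1) * S1) (h2 : (1 - x2) * S2 ≤ A2)
    (hρ : A1 / A0 ≤ ρ) (hρ' : A2 / A1 ≤ ρ) :
    S2 - 2 * (A1 / A0) * S1 + (A1 / A0) ^ 2 * A0 ≤
      A0 * (A1 / A0 * (A2 / A1 - A1 / A0) + (2 * x2 + 2 * (1 / n + x1)) * ρ ^ 2) := by
  obtain ⟨r, hr⟩ : ∃ r, r = A1 / A0 := ⟨_, rfl⟩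
  obtain ⟨r', hr'⟩ : ∃ r', r' = A2 / A1 := ⟨_, rfl⟩
  have hr0 : 0 < r := by rw [hr]; positivity
  have hr0' : 0 < r' := by rw [hr']; positivity
  have e1 : A1 = r * A0 := by rw [hr]; field_simp
  have e2 : A2 = r' * (r * A0) := by rw [hr', ← e1]; field_simp
  rw [← hr] at hρ ⊢
  rw [← hr'] at hρ' ⊢
  have hn0 : 0 < n := by linarith
  -- bound for S2
  have k2 : S2 ≤ (1 + 2 * x2) * A2 := by
    have p : (1 + 2 * x2) * ((1 - x2) * S2) ≤ (1 + 2 * x2) * A2 :=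
      mul_le_mul_of_nonneg_left h2 (by linarith)
    by_cases hS : 0 ≤ S2
    · have : S2 ≤ (1 + 2 * x2) * ((1 - x2) * S2) := by
        have : 0 ≤ x2 * (1 - 2 * x2) * S2 :=
          mul_nonneg (mul_nonneg hx2 (by linarith)) hS
        nlinarith
      exact this.trans p
    · have : 0 ≤ (1 + 2 * x2) * A2 := by positivity
      linarith [not_le.1 hS]
  -- bound for S1
  have k1 : A1 * (1 - 1 / n - x1) ≤ S1 := by
    have q1 : A1 * (1 - 1 / n) ≤ (1 + x1) * S1 := by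
      rw [mul_sub, mul_one, mul_one_div]; exact h1
    have hin : 0 ≤ 1 - 1 / n := by
      rw [sub_nonneg, div_le_one hn0]; exact hn
    have hS1 : 0 ≤ S1 := by
      have : 0 ≤ (1 + x1) * S1 := le_trans (mul_nonneg hA1.le hin) q1
      by_contra hcon
      have : (1 + x1) * S1 < 0 := mul_neg_of_pos_of_neg (by linarith) (not_le.1 hcon)
      linarith
    by_cases hc : 1 - 1 / n - x1 ≤ 0
    · exact le_trans (mul_nonpos_of_nonneg_of_nonpos hA1.le hc) hS1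
    · have h3 := not_le.1 hc
      have h4 : A1 * (1 - 1 / n - x1) * (1 + x1) ≤ A1 * (1 - 1 / n) := by
        have hin' : 1 / n ≤ 1 := by linarith
        have : (1 - 1 / n - x1) * (1 + x1) ≤ 1 - 1 / n := by
          have i0 : 0 ≤ 1 / n := by positivity
          nlinarith [mul_nonneg hx1 i0, sq_nonneg x1]
        calc A1 * (1 - 1 / n - x1) * (1 + x1) = A1 * ((1 - 1 / n - x1) * (1 + x1)) := by ring
          _ ≤ _ := mul_le_mul_of_nonneg_left this hA1.le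
      have h5 : A1 * (1 - 1 / n - x1) * (1 + x1) ≤ S1 * (1 + x1) := by
        linarith
      exact le_of_mul_le_mul_right h5 (by linarith)
  have k1' : 2 * r * (A1 * (1 - 1 / n - x1)) ≤ 2 * r * S1 :=
    mul_le_mul_of_nonneg_left k1 (by positivity)
  have k3 : S2 - 2 * r * S1 + r ^ 2 * A0 ≤
      A0 * (r * (r' - r) + 2 * x2 * (r * r') + 2 * (1 / n + x1) * (r * r)) := by
    rw [e2] at k2
    rw [e1] at k1'
    have e3 : A0 * (r * (r' - r) + 2 * x2 * (r * r') + 2 * (1 / n + x1) * (r * r)) =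
        (1 + 2 * x2) * (r' * (r * A0)) - 2 * r * (r * A0 * (1 - 1 / n - x1)) + r ^ 2 * A0 := by
      ring
    rw [e3]
    linarith
  refine k3.trans (mul_le_mul_of_nonneg_left ?_ hA0.le)
  have m1 : r * r' ≤ ρ ^ 2 := by
    rw [sq]; exact mul_le_mul hρ hρ' hr0'.le (by linarith)
  have m2 : r * r ≤ ρ ^ 2 := by
    rw [sq]; exact mul_le_mul hρ hρ hr0.le (by linarith)
  have m3 := mul_le_mul_of_nonneg_left m1 (show 0 ≤ 2 * x2 by positivity)
  have m4 := mul_le_mul_of_nonneg_left m2 (show 0 ≤ 2 * (1 / n + x1) by positivity)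
  nlinarith

/-- one step, upper bound -/
theorem Gr.one_up (G : Gr Y μ K a) (ha : 1 ≤ a) : ∃ c ρ C : ℝ, 0 ≤ c ∧ 1 ≤ ρ ∧ 1 ≤ C ∧
    ∀ᶠ n : ℕ in atTop, 0 ≤ VV Y c n ∧ 1 / 2 ≤ rr Y n ∧ rr Y n ≤ ρ ∧
      ∀ (f : α → ℝ) (δ : ℝ), 0 ≤ δ → δ ≤ 1 → (∀ w ∈ Y.K n, 0 ≤ f w ∧ f w ≤ 1) →
        (∀ w ∈ Y.K (n + Y.s), 0 ≤ f w ∧ f w ≤ 1) →
        (∀ w ∈ Y.K n, ∀ q ∈ Y.S w, f (Y.ins w q) ≤ f w + δ) →
        EY Y (n + Y.s) f ≤ EY Y n f + C * (√(VV Y c n) + 1 / n + δ) := by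
  have hμ := G.hμ
  have hμ0 : 0 < μ := by linarith
  have hμs : 1 ≤ μ ^ Y.s := one_le_pow₀ hμ
  obtain ⟨M, hM, hprep⟩ := G.prep
  obtain ⟨R, hR, hrat⟩ := G.ratio ha
  have hC : (1 : ℝ) ≤ Y.C := by exact_mod_cast Y.hC
  have hM' : (1 : ℝ) ≤ M := by exact_mod_cast hM
  have t1 : Tendsto (fun n : ℕ => R * rt a n) atTop (𝓝 0) := by
    have := (rt_tendsto a).const_mul R
    rwa [mul_zero] at this
  have hsh : Tendsto (fun n : ℕ => n + Y.s) atTop atTop := tendsto_add_atTop_nat _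
  have hrr : ∀ᶠ n : ℕ in atTop, 1 / 2 ≤ rr Y n ∧ rr Y n ≤ μ ^ Y.s + 1 := by
    filter_upwards [t1.eventually_lt_const (show (0 : ℝ) < 1 / 2 by norm_num),
      eventually_ge_atTop 2] with n h1 h2
    have h3 := (abs_le.1 (hrat n h2))
    unfold rr
    constructor <;> linarith
  obtain ⟨ρ, hρ⟩ : ∃ ρ : ℝ, ρ = μ ^ Y.s + 1 := ⟨_, rfl⟩
  obtain ⟨c, hc⟩ : ∃ c : ℝ, c = (12 * Y.C * M + 2) * ρ ^ 2 := ⟨_, rfl⟩
  rw [← hρ] at hrr
  have hρ1 : 1 ≤ ρ := by rw [hρ]; linarith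
  refine ⟨c, ρ, 8 + (1 + 2 * Y.C * M), by rw [hc]; positivity, hρ1, by
    have : (0 : ℝ) ≤ Y.C * M := by positivity
    linarith, ?_⟩
  filter_upwards [hprep, hrr, hsh.eventually hrr, eventually_ge_atTop (8 * M * Y.C)]
    with n hp h2 h3 h8
  obtain ⟨hn0, hn4, hn1, herr⟩ := hp
  have hn : (1 : ℝ) ≤ n := by exact_mod_cast hn1
  have hnp : (0 : ℝ) < n := by linarith
  have hn4' : (4 * M * Y.C : ℝ) ≤ n := by exact_mod_cast hn4
  have hn8' : (8 * M * Y.C : ℝ) ≤ n := by exact_mod_cast h8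
  have hA0 := G.pos n
  have hA1 := G.pos (n + Y.s)
  have hA2 := G.pos (n + Y.s + Y.s)
  set Gd := (Y.K n).filter (Y.good M n) with hGd
  set Rw : α → ℝ := fun w =>
    if Y.good M n w then ((Y.S w).card : ℝ) / ((Y.B w).card : ℝ) else 0 with hRw
  have hgood : ∀ w ∈ Gd, ((n : ℝ) < M * (Y.S w).card ∧ (n : ℝ) < M * (Y.B w).card) ∧
      (4 * Y.C : ℝ) < (Y.S w).card ∧ (4 * Y.C : ℝ) < (Y.B w).card := by
    intro w hw
    have := (mem_filter.mp hw).2
    exact ⟨⟨by exact_mod_cast this.1, by exact_mod_cast this.2⟩,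
      by exact_mod_cast Y.big hn4 this.1, by exact_mod_cast Y.big hn4 this.2⟩
  have hsumR : ∀ g : α → ℝ, ∑ w ∈ Gd, g w * (((Y.S w).card : ℝ) / ((Y.B w).card : ℝ)) =
      ∑ w ∈ Y.K n, g w * Rw w := by
    intro g
    rw [hGd, sum_filter]
    refine sum_congr rfl fun w _ => ?_
    simp only [hRw]
    split_ifs <;> simp
  have hup : ∀ g : α → ℝ, (∀ w ∈ Y.K n, 0 ≤ g w) →
      ∑ w ∈ Gd, g w * (((Y.S w).card : ℝ) / (((Y.B w).card : ℝ) - Y.C)) ≤
      (1 + 2 * Y.C * M / n) * ∑ w ∈ Y.K n, g w * Rw w := by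
    intro g hg
    rw [← hsumR, mul_sum]
    apply sum_le_sum
    intro w hw
    have hgw := hgood w hw
    have h3 := Sys.term1 ((Y.S w).card : ℝ) ((Y.B w).card : ℝ) Y.C M n hC hnp (by positivity)
      hgw.1.2 hgw.2.2
    calc g w * (((Y.S w).card : ℝ) / (((Y.B w).card : ℝ) - Y.C)) ≤
          g w * ((1 + 2 * Y.C * M / n) * (((Y.S w).card : ℝ) / ((Y.B w).card : ℝ))) :=
          mul_le_mul_of_nonneg_left h3 (hg w (mem_filter.1 hw).1)
      _ = _ := by ring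
  obtain ⟨S1, hS1⟩ : ∃ S1 : ℝ, S1 = ∑ w ∈ Y.K n, Rw w := ⟨_, rfl⟩
  obtain ⟨S2, hS2⟩ : ∃ S2 : ℝ, S2 = ∑ w ∈ Y.K n, Rw w ^ 2 := ⟨_, rfl⟩
  have u1 : N Y (n + Y.s) - N Y (n + Y.s) / n ≤ (1 + 2 * Y.C * M / n) * S1 := by
    have k1 := upperF Y (fun _ => 1) (fun _ => 1) M n hn0 hn4 (fun _ _ => zero_le_one)
      (fun _ _ => le_rfl) (fun _ _ _ _ => le_rfl) (fun _ _ => zero_le_one)
    rw [af_one] at k1
    have k2 := hup (fun _ => 1) (fun _ _ => zero_le_one)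
    simp only [one_mul] at k1 k2
    rw [← hS1] at k2
    linarith
  have u2 : (1 - 4 * Y.C * M / n) * S2 ≤ N Y (n + Y.s + Y.s) := by
    have k1 := Y.lowerW (wg_one Y 0).wt M n hn0 hn4
    rw [af_one] at k1
    refine le_trans ?_ k1
    have e : S2 = ∑ w ∈ Gd, (((Y.S w).card : ℝ) / ((Y.B w).card : ℝ)) ^ 2 := by
      rw [hS2, hGd, sum_filter]
      refine sum_congr rfl fun w _ => ?_
      simp only [hRw]
      split_ifs <;> simp
    rw [e, mul_sum]
    apply sum_le_sum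
    intro w hw
    have hgw := hgood w hw
    have h3 := Sys.term2 ((Y.S w).card : ℝ) ((Y.B w).card : ℝ) Y.C M n hC hM' hn4'
      hgw.1.1 hgw.1.2 hgw.2.1 hgw.2.2
    simpa using h3
  have hr : N Y (n + Y.s) / N Y n = rr Y n := rfl
  have hr' : N Y (n + Y.s + Y.s) / N Y (n + Y.s) = rr Y (n + Y.s) := rfl
  have hvar := var_real (n := (n : ℝ)) (x1 := 2 * Y.C * M / n) (x2 := 4 * Y.C * M / n) (ρ := ρ)
    hA0 hA1 hA2 hn (by positivity) (by positivity) (by
      rw [div_le_div_iff₀ hnp (by norm_num)]; linarith) u1 u2 h2.2 h3.2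
  rw [hr, hr'] at hvar
  have eV : rr Y n * (rr Y (n + Y.s) - rr Y n) +
      (2 * (4 * Y.C * M / n) + 2 * (1 / n + 2 * Y.C * M / n)) * ρ ^ 2 = VV Y c n := by
    unfold VV
    rw [hc]
    congr 1
    field_simp
    ring
  rw [eV] at hvar
  obtain ⟨V, hV⟩ : ∃ V : ℝ, V = VV Y c n := ⟨_, rfl⟩
  rw [← hV] at hvar ⊢
  obtain ⟨r, hrd⟩ : ∃ r : ℝ, r = rr Y n := ⟨_, rfl⟩
  rw [← hrd] at hvar hr h2 ⊢
  have eA1 : N Y (n + Y.s) = r * N Y n := by rw [← hr]; field_simp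
  have hsq : ∑ w ∈ Y.K n, (Rw w - r) ^ 2 = S2 - 2 * r * S1 + r ^ 2 * N Y n := by
    have : ∀ w ∈ Y.K n, (Rw w - r) ^ 2 = Rw w ^ 2 - 2 * r * Rw w + r ^ 2 := fun w _ => by ring
    rw [sum_congr rfl this, sum_add_distrib, sum_sub_distrib, ← mul_sum, ← hS1, ← hS2,
      sum_const, nsmul_eq_mul]
    unfold N
    ring
  rw [← hsq] at hvar
  have hV0 : 0 ≤ V := by
    have : 0 ≤ N Y n * V := le_trans (sum_nonneg fun w _ => sq_nonneg _) hvar
    by_contra hcon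
    have : N Y n * V < 0 := mul_neg_of_pos_of_neg hA0 (not_le.1 hcon)
    linarith
  refine ⟨hV0, h2.1, h2.2, fun f δ hδ hδ1 hf0 hf1 hff => ?_⟩
  have k1 := upperF Y f (fun w => f w + δ) M n hn0 hn4 (fun w hw => (hf1 w hw).1)
    (fun w hw => (hf1 w hw).2) hff (fun w hw => by have := (hf0 w hw).1; linarith)
  have k2 := hup (fun w => f w + δ) (fun w hw => by have := (hf0 w hw).1; linarith)
  -- Cauchy-Schwarz
  have cs : ∑ w ∈ Y.K n, (f w + δ) * (Rw w - r) ≤ 2 * N Y n * √V := by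
    have h4 := Finset.sum_mul_sq_le_sq_mul_sq (Y.K n) (fun w => f w + δ) (fun w => Rw w - r)
    have h5 : ∑ w ∈ Y.K n, (f w + δ) ^ 2 ≤ 4 * N Y n := by
      have : ∀ w ∈ Y.K n, (f w + δ) ^ 2 ≤ 4 := by
        intro w hw
        have := hf0 w hw
        nlinarith
      refine (sum_le_sum this).trans ?_
      rw [sum_const, nsmul_eq_mul]
      unfold N
      linarith
    have h6 : (∑ w ∈ Y.K n, (f w + δ) * (Rw w - r)) ^ 2 ≤ (2 * N Y n * √V) ^ 2 := by
      refine h4.trans ?_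
      calc _ ≤ 4 * N Y n * (N Y n * V) :=
            mul_le_mul h5 hvar (sum_nonneg fun w _ => sq_nonneg _) (by positivity)
        _ = (2 * N Y n * √V) ^ 2 := by
            rw [mul_pow, Real.sq_sqrt hV0]; ring
    exact (le_abs_self _).trans (abs_le_of_sq_le_sq h6 (by positivity))
  have e5 : ∑ w ∈ Y.K n, (f w + δ) * Rw w =
      ∑ w ∈ Y.K n, (f w + δ) * (Rw w - r) + r * (∑ w ∈ Y.K n, f w + N Y n * δ) := by
    have : ∀ w ∈ Y.K n, (f w + δ) * Rw w = (f w + δ) * (Rw w - r) + (r * f w + r * δ) :=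
      fun w _ => by ring
    rw [sum_congr rfl this, sum_add_distrib, sum_add_distrib, ← mul_sum, sum_const,
      nsmul_eq_mul]
    unfold N
    ring
  have e6 : ∑ w ∈ Y.K n, f w = N Y n * EY Y n f := by
    unfold EY
    field_simp
  have e7 : Y.af f (n + Y.s) = N Y (n + Y.s) * EY Y (n + Y.s) f := by
    unfold EY Sys.af
    field_simp
  rw [e5, e6] at k2
  rw [e7, eA1] at k1
  rw [eA1] at herr
  have hE0 : 0 ≤ EY Y n f := EY_nonneg G fun w hw => (hf0 w hw).1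
  have hE1 : EY Y n f ≤ 1 := EY_le G fun w hw => (hf0 w hw).2
  have hx1 : (2 * Y.C * M / n : ℝ) ≤ 1 := by
    rw [div_le_one hnp]; nlinarith
  have hx0 : (0 : ℝ) ≤ 2 * Y.C * M / n := by positivity
  obtain ⟨x, hx⟩ : ∃ x : ℝ, x = 2 * Y.C * M / n := ⟨_, rfl⟩
  rw [← hx] at k2 hx1 hx0
  have hsV := Real.sqrt_nonneg V
  have k3 : r * N Y n * EY Y (n + Y.s) f ≤ r * N Y n / n +
      (1 + x) * (2 * N Y n * √V + r * (N Y n * EY Y n f + N Y n * δ)) := by
    refine k1.trans (add_le_add herr (k2.trans ?_))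
    exact mul_le_mul_of_nonneg_left (by linarith) (by linarith)
  have hr0 : 0 < r := by linarith [h2.1]
  have k4 : EY Y (n + Y.s) f ≤ 1 / n + (1 + x) * (2 * √V / r + (EY Y n f + δ)) := by
    have e8 : r * N Y n / n +
        (1 + x) * (2 * N Y n * √V + r * (N Y n * EY Y n f + N Y n * δ)) =
        r * N Y n * (1 / n + (1 + x) * (2 * √V / r + (EY Y n f + δ))) := by
      field_simp
    rw [e8] at k3
    exact le_of_mul_le_mul_left k3 (by positivity)
  have k5 : 2 * √V / r ≤ 4 * √V := by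
    rw [div_le_iff₀ hr0]
    nlinarith [h2.1]
  have hx' : x = 2 * Y.C * M * (1 / n) := by rw [hx]; ring
  have hn' : (0 : ℝ) ≤ 1 / n := by positivity
  have hCM : (0 : ℝ) ≤ Y.C * M := by positivity
  calc EY Y (n + Y.s) f ≤ 1 / n + (1 + x) * (2 * √V / r + (EY Y n f + δ)) := k4
    _ ≤ 1 / n + (1 + x) * (4 * √V + δ) + (1 + x) * EY Y n f := by
        have := mul_le_mul_of_nonneg_left k5 (show 0 ≤ 1 + x by linarith)
        linarith
    _ ≤ 1 / n + 2 * (4 * √V + δ) + (EY Y n f + x) := by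
        have q1 : (1 + x) * (4 * √V + δ) ≤ 2 * (4 * √V + δ) :=
          mul_le_mul_of_nonneg_right (by linarith) (by positivity)
        have q2 : x * EY Y n f ≤ x := mul_le_of_le_one_right hx0 hE1
        linarith
    _ ≤ _ := by
        rw [hx']
        have q3 : 0 ≤ (Y.C : ℝ) * M * √V := by positivity
        have q4 : 0 ≤ (Y.C : ℝ) * M * δ := by positivity
        have e9 : (8 + (1 + 2 * (Y.C : ℝ) * M)) * (√V + 1 / n + δ) =
            1 / n + 2 * (4 * √V + δ) + 2 * Y.C * M * (1 / n) +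
              (√V + 2 * (Y.C * M * √V) + 8 * (1 / n) + 7 * δ + 2 * (Y.C * M * δ)) := by
          ring
        rw [e9]
        linarith

end Pool.Agent.R965.HP
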