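import Pool.Agent.R965.HP.Path
import Pool.Agent.H976R3.HPL.F1

/-!
# The square grid: closed and strict half-plane walks, first blocks
-/

set_option autoImplicit false

namespace Pool.Agent.R965.HP

open Finset Filter Topology TH966.KS TH966.AK
open Pool.Agent.H976R3

/-- the closed half-plane -/
def Hc (p : P) : Prop := 0 ≤ p.1

/-- the unit step -/
def ee : P := (1, 0)

theorem sq_nei {p q : P} (h : Sq.A p q) (h1 : p.1 < q.1) : q = p + ee := by
  rw [Sq.A_iff] at h
  unfold ee
  refine Prod.ext ?_ ?_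
  · simp only [Prod.fst_add]; omega
  · simp only [Prod.snd_add]; omega

theorem mem_HWs {n : ℕ} {l : List P} : l ∈ HPL.HW sqS n 0 ↔ l.length = n + 1 ∧
    l.head? = some 0 ∧ l.IsChain Sq.A ∧ l.Nodup ∧ ∀ w ∈ l.tail, 0 < w.1 := by
  rw [HPL.mem_HW]
  exact Iff.rfl

theorem mem_Kc {n : ℕ} {w : List P} : w ∈ Kw (AD Sq.A Hc) n ↔ (w.length = n + 1 ∧
    w.head? = some 0 ∧ w.Nodup ∧ w.IsChain Sq.A) ∧ ∀ x ∈ w, 0 ≤ x.1 := by
  rw [Kw_D Sq.rule (show Hc 0 from le_rfl), Sq.rule.mem_K]
  exact Iff.rfl

theorem HW_sub {n : ℕ} {l : List P} (h : l ∈ HPL.HW sqS n 0) : l ∈ Kw (AD Sq.A Hc) n := by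
  rw [mem_HWs] at h
  rw [mem_Kc]
  obtain ⟨h1, h2, h3, h4, h5⟩ := h
  refine ⟨⟨h1, h2, h4, h3⟩, fun x hx => ?_⟩
  cases l with
  | nil => simp at h1
  | cons y t =>
    simp only [List.head?_cons, Option.some.injEq] at h2
    subst h2
    rcases List.mem_cons.1 hx with rfl | hx
    · exact le_rfl
    · exact (h5 x (by simpa using hx)).le

/-- translation -/
def tr (c : P) (l : List P) : List P := l.map (fun w => w + c)

theorem tr_tr (c : P) (l : List P) : tr (-c) (tr c l) = l := by
  unfold tr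
  rw [List.map_map]
  have : ((fun w : P => w + -c) ∘ fun w : P => w + c) = id := by
    funext w
    simp
  rw [this, List.map_id]

theorem tr_inj (c : P) : Function.Injective (tr c) := by
  intro l l' h
  rw [← tr_tr c l, h, tr_tr]

theorem tr_HW {c : P} {n : ℕ} {v : P} {l : List P} :
    l ∈ HPL.HW sqS n v ↔ tr c l ∈ HPL.HW sqS n (v + c) :=
  HPL.HW_map (G := sqS) (c := c) trivial

/-- closed walks and strict walks -/
theorem HW_succ (n : ℕ) : HPL.HW sqS (n + 1) 0 =
    (Kw (AD Sq.A Hc) n).image (fun w => 0 :: tr ee w) := by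
  classical
  ext l
  rw [Finset.mem_image]
  constructor
  · intro h
    have h0 := h
    rw [mem_HWs] at h
    obtain ⟨h1, h2, h3, h4, h5⟩ := h
    match l, h1, h2, h3, h4, h5 with
    | x :: y :: t, h1, h2, h3, h4, h5 =>
      simp only [List.head?_cons, Option.some.injEq] at h2
      subst h2
      have hxy := (List.isChain_cons_cons.1 h3).1
      have hy : 0 < y.1 := h5 y (by simp)
      have ey : y = ee := by
        have := sq_nei hxy hy
        rwa [zero_add] at this
      subst ey
      refine ⟨tr (-ee) (ee :: t), ?_, ?_⟩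
      · rw [mem_Kc]
        refine ⟨⟨by unfold tr; simp at h1 ⊢; omega, by unfold tr; simp, ?_, ?_⟩, ?_⟩
        · unfold tr
          refine (List.nodup_cons.1 h4).2.map ?_
          intro a b hab
          simpa using hab
        · unfold tr
          rw [List.isChain_map]
          exact (List.isChain_cons_cons.1 h3).2.imp fun {a b} hab => sqS.adj_good trivial hab
        · intro z hz
          unfold tr at hz
          rw [List.mem_map] at hz
          obtain ⟨z', hz', rfl⟩ := hz
          have h6 := h5 z' (by simpa using hz')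
          simp only [ee, Prod.fst_add, Prod.fst_neg]
          omega
      · have := tr_tr (-ee) (ee :: t)
        rw [neg_neg] at this
        rw [this]
  · rintro ⟨w, hw, rfl⟩
    rw [mem_Kc] at hw
    obtain ⟨⟨h1, h2, h3, h4⟩, h5⟩ := hw
    rw [mem_HWs]
    have hpos : ∀ x ∈ tr ee w, 0 < x.1 := by
      intro z hz
      unfold tr at hz
      rw [List.mem_map] at hz
      obtain ⟨z', hz', rfl⟩ := hz
      have h6 := h5 z' hz'
      simp only [ee, Prod.fst_add]
      omega
    refine ⟨by simp [tr, h1], rfl, ?_, ?_, ?_⟩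
    · cases w with
      | nil => simp at h1
      | cons x t =>
        simp only [List.head?_cons, Option.some.injEq] at h2
        subst h2
        have e : tr ee (0 :: t) = ee :: tr ee t := by unfold tr; simp
        rw [e, List.isChain_cons_cons]
        refine ⟨by
          have := sqS.adj_e 0
          rwa [zero_add] at this, ?_⟩
        rw [← e]
        unfold tr
        rw [List.isChain_map]
        exact h4.imp fun {a b} hab => sqS.adj_good trivial hab
    · rw [List.nodup_cons]
      refine ⟨fun h => ?_, ?_⟩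
      · have := hpos _ h
        simp at this
      · unfold tr
        refine h3.map ?_
        intro a b hab
        simpa using hab
    · intro z hz
      exact hpos z (by simpa using hz)

/-- mean over the strict walks -/
noncomputable def Sm (n : ℕ) (F : (ℕ → P) → ℝ) : ℝ :=
  (∑ l ∈ HPL.HW sqS n 0, F (pth l)) / (HPL.a sqS 0 n : ℝ)

theorem a_eq (n : ℕ) : (HPL.a sqS 0 (n + 1) : ℝ) = N (ruleD Sq.rule Hc).sys n := by
  classical
  show (((HPL.HW sqS (n + 1) 0).card : ℕ) : ℝ) = (((Kw (AD Sq.A Hc) n).card : ℕ) : ℝ)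
  rw [HW_succ, Finset.card_image_of_injective]
  intro w w' h
  exact tr_inj ee (List.cons_injective h)

theorem lst_cons {x : P} {l : List P} (h : l ≠ []) : lst (x :: l) = lst l := by
  have := lst_append [] [x] l (by simp)
  rw [if_neg h] at this
  simpa using this

theorem lst_tr (c : P) {l : List P} (h : l ≠ []) : lst (tr c l) = lst l + c := by
  unfold lst tr
  rw [List.getLast?_map, List.getLast?_eq_getLast_of_ne_nil h]
  rfl

theorem pth_tr (c : P) {l : List P} (h : l ≠ []) (t : ℕ) : pth (tr c l) t = pth l t + c := by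
  have h2 : tr c l ≠ [] := by unfold tr; simpa using h
  have hlen : (tr c l).length = l.length := by unfold tr; simp
  by_cases h1 : t < l.length
  · rw [pth_lt h1, pth_lt (by omega)]
    unfold tr
    rw [List.getElem_map]
  · rw [pth_ge h (by omega), pth_ge h2 (by omega), lst_tr c h]

theorem pth_cons {x : P} {l : List P} (h : l ≠ []) (t : ℕ) : pth (x :: l) (t + 1) = pth l t := by
  unfold pth
  rw [List.getD_cons_succ, lst_cons h]

theorem near_cons {w : List P} (h0 : w ≠ []) (hc : w.IsChain Sq.A) (hh : w.head? = some 0) :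
    Near 2 (pth (0 :: tr ee w)) (pth w) := by
  have h2 : tr ee w ≠ [] := by unfold tr; simpa using h0
  intro t
  cases t with
  | zero =>
    have e1 : pth (0 :: tr ee w) 0 = 0 := by unfold pth; simp
    have e2 : pth w 0 = 0 := by
      rw [pth_lt (List.length_pos_of_ne_nil h0)]
      cases w with
      | nil => exact absurd rfl h0
      | cons x t => simpa using hh
    rw [e1, e2]
    simp
  | succ t =>
    rw [pth_cons h2, pth_tr ee h0]
    have h3 := pth_step Sq.rule h0 hc t
    unfold ee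
    simp only [Prod.fst_add, Prod.snd_add]
    rw [abs_le, abs_le] at *
    omega

/-- the condition for the walks with at least `L` steps -/
def VarF (L R : ℕ) (δ : ℝ) (F : (ℕ → P) → ℝ) : Prop :=
  ∀ m m', L ≤ m → L ≤ m' → m ≤ m' + R → m' ≤ m + R →
    ∀ γ ∈ Wn Sq.A Hc m, ∀ γ' ∈ Wn Sq.A Hc m', Near R γ γ' → |F γ - F γ'| ≤ δ

theorem mem_Wn {n : ℕ} {w : List P} (h : w ∈ Kw (AD Sq.A Hc) n) : pth w ∈ Wn Sq.A Hc n := by
  rw [← pth_image Sq.rule (show Hc 0 from le_rfl)]
  exact ⟨w, h, rfl⟩

theorem closed_strict {L R : ℕ} {δ : ℝ} {F : (ℕ → P) → ℝ} (hL : VarF L R δ F) (hR : 2 ≤ R)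
    {n : ℕ} (hn : L ≤ n) : |Sm (n + 1) F - mean Sq.A Hc n F| ≤ δ := by
  classical
  have hpos : (0 : ℝ) < HPL.a sqS 0 (n + 1) := by exact_mod_cast HPL.a_pos (G := sqS) 0 (n + 1)
  rw [mean_eq Sq.rule (show Hc 0 from le_rfl)]
  unfold Sm EY
  rw [← a_eq, ← sub_div, abs_div, abs_of_pos hpos, div_le_iff₀ hpos, HW_succ,
    Finset.sum_image (fun w _ w' _ h => tr_inj ee (List.cons_injective h))]
  have e : ∑ w ∈ (ruleD Sq.rule Hc).sys.K n, F (pth w) = ∑ w ∈ Kw (AD Sq.A Hc) n, F (pth w) := rfl
  rw [e, ← Finset.sum_sub_distrib]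
  refine (Finset.abs_sum_le_sum_abs _ _).trans ?_
  have hc : (HPL.a sqS 0 (n + 1) : ℝ) = ((Kw (AD Sq.A Hc) n).card : ℝ) := a_eq n
  rw [hc, mul_comm, ← nsmul_eq_mul, ← Finset.sum_const]
  refine Finset.sum_le_sum fun w hw => ?_
  have hw' := mem_Kc.1 hw
  have hne : w ≠ [] := by
    rintro rfl
    simp at hw'
  have h1 : 0 :: tr ee w ∈ HPL.HW sqS (n + 1) 0 := by
    rw [HW_succ, Finset.mem_image]
    exact ⟨w, hw, rfl⟩
  exact hL (n + 1) n (by omega) hn (by omega) (by omega) _ (mem_Wn (HW_sub h1)) _ (mem_Wn hw)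
    ((near_cons hne hw'.1.2.2.2 hw'.1.2.1).mono (by exact_mod_cast hR))

end Pool.Agent.R965.HP
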