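import Pool.Agent.R965.HP.Window
import Pool.Agent.R965.HP.End

/-!
# Walks as paths; Lipschitz functionals
-/

set_option autoImplicit false

namespace Pool.Agent.R965.HP

open Finset Filter Topology TH966.KS TH966.AK
open scoped Classical

/-- the path of a list: constant after the last point -/
noncomputable def pth (w : List P) (t : ℕ) : P := w.getD t (lst w)

/-- the distance of two paths is at most `r` -/
def Near (r : ℤ) (x y : ℕ → P) : Prop :=
  ∀ t, |(x t).1 - (y t).1| ≤ r ∧ |(x t).2 - (y t).2| ≤ r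

theorem Near.symm {r : ℤ} {x y : ℕ → P} (h : Near r x y) : Near r y x := by
  intro t
  rw [abs_sub_comm, abs_sub_comm (y t).2]
  exact h t

theorem lst_eq {w : List P} (h : w ≠ []) : lst w = w.getLast h := by
  unfold lst
  rw [List.getLast?_eq_getLast_of_ne_nil h]
  rfl

theorem pth_lt {w : List P} {t : ℕ} (h : t < w.length) : pth w t = w[t] := by
  unfold pth
  rw [List.getD_eq_getElem _ _ h]

theorem pth_ge {w : List P} {t : ℕ} (h0 : w ≠ []) (h : w.length ≤ t + 1) : pth w t = lst w := by
  unfold pth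
  by_cases h1 : t < w.length
  · rw [List.getD_eq_getElem _ _ h1, lst_eq h0, List.getLast_eq_getElem]
    congr 1
    omega
  · rw [List.getD_eq_default _ _ (by omega)]

theorem pth_mem {w : List P} (h0 : w ≠ []) (t : ℕ) : pth w t ∈ w := by
  by_cases h1 : t < w.length
  · rw [pth_lt h1]
    exact List.getElem_mem h1
  · rw [pth_ge h0 (by omega), lst_eq h0]
    exact List.getLast_mem h0

section rule

variable {A : P → P → Prop}

theorem pth_step (Z : Rule A) {w : List P} (h0 : w ≠ []) (hc : w.IsChain A) (t : ℕ) :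
    |(pth w (t + 1)).1 - (pth w t).1| ≤ 1 ∧ |(pth w (t + 1)).2 - (pth w t).2| ≤ 1 := by
  by_cases h1 : t + 1 < w.length
  · rw [pth_lt h1, pth_lt (show t < w.length by omega)]
    have h2 := List.isChain_iff_getElem.1 hc t h1
    have h3 := Z.step _ _ h2
    rw [abs_sub_comm, abs_sub_comm (w[t + 1]).2]
    exact h3
  · rw [pth_ge h0 (show w.length ≤ t + 1 + 1 by omega), pth_ge h0 (show w.length ≤ t + 1 by omega)]
    simp

theorem pth_lip (Z : Rule A) {w : List P} (h0 : w ≠ []) (hc : w.IsChain A) (t k : ℕ) :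
    |(pth w (t + k)).1 - (pth w t).1| ≤ k ∧ |(pth w (t + k)).2 - (pth w t).2| ≤ k := by
  induction k with
  | zero => simp
  | succ k ih =>
    have h1 := pth_step Z h0 hc (t + k)
    have e : t + (k + 1) = t + k + 1 := by ring
    rw [e]
    rw [abs_le, abs_le] at *
    push_cast
    omega

theorem getD_mid {L U R : List P} {t : ℕ} {d : P} (h1 : L.length ≤ t)
    (h2 : t < L.length + U.length) : (L ++ U ++ R).getD t d ∈ U := by
  have h3 : t < (L ++ U).length := by rw [List.length_append]; exact h2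
  rw [List.getD_append _ _ _ _ h3, List.getD_append_right _ _ _ _ h1,
    List.getD_eq_getElem _ _ (by omega)]
  exact List.getElem_mem _

theorem getD_end {L U R : List P} {t : ℕ} {d : P}
    (h2 : L.length + U.length ≤ t) :
    (L ++ U ++ R).getD t d = R.getD (t - (L.length + U.length)) d := by
  have h3 : (L ++ U).length ≤ t := by rw [List.length_append]; exact h2
  rw [List.getD_append_right _ _ _ _ h3, List.length_append]

theorem getD_beg {L U R : List P} {t : ℕ} {d : P}
    (h2 : t < L.length) : (L ++ U ++ R).getD t d = L.getD t d := by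
  have h3 : t < (L ++ U).length := by rw [List.length_append]; omega
  rw [List.getD_append _ _ _ _ h3, List.getD_append _ _ _ _ h2]

/-- an insertion moves the path by a bounded distance -/
theorem near_ins (Z : Rule A) {n : ℕ} {w : List P} {q : List P × List P} (hw : w ∈ Z.sys.K n)
    (hq : q ∈ Z.sys.S w) : Near (Z.ρ + Z.s) (pth w) (pth (Z.sys.ins w q)) := by
  obtain ⟨U, U'⟩ := q
  change w ∈ Kw A n at hw
  change (U, U') ∈ Z.S w at hq
  have hl := lst_ins Z (n := n) (w := w) (q := (U, U')) hw hq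
  rw [Z.mem_K] at hw
  rw [Rule.mem_S] at hq
  obtain ⟨L, R, h1, h2, -⟩ := Rule.rep_all (Z.pair _ _ hq.1) hw.2 hq.2
  change lst (Rule.rep w U U') = lst w at hl
  change Near _ (pth w) (pth (Rule.rep w U U'))
  simp only at h1 h2 hq
  obtain ⟨hU, hU'⟩ := Z.len U U' hq.1
  have hUne := Rule.ne_nil (Z.pair _ _ hq.1)
  have hk : 1 ≤ U.length := List.length_pos_of_ne_nil hUne
  have h0 : w ≠ [] := by
    intro h
    rw [h] at hw
    simp at hw
  have hc : w.IsChain A := hw.2.2.2
  intro t
  by_cases c1 : t < L.length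
  · have e1 : pth w t = pth (Rule.rep w U U') t := by
      unfold pth
      rw [hl, h2]
      conv_lhs => rw [h1]
      rw [getD_beg c1, getD_beg c1, ← h1]
    rw [e1]
    simp
    positivity
  by_cases c2 : L.length + U'.length ≤ t
  · have e1 : pth (Rule.rep w U U') t = pth w (t - Z.s) := by
      unfold pth
      rw [hl, h2]
      conv_rhs => rw [h1]
      rw [getD_end c2, getD_end (by omega), ← h1]
      congr 1
      omega
    rw [e1]
    have h3 := pth_lip Z h0 hc (t - Z.s) Z.s
    rw [show t - Z.s + Z.s = t by omega] at h3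
    have : (0 : ℤ) ≤ Z.ρ := by positivity
    constructor <;> linarith [h3.1, h3.2]
  · have e1 : pth (Rule.rep w U U') t ∈ U' := by
      unfold pth
      rw [h2]
      exact getD_mid (by omega) (by omega)
    obtain ⟨t', ht'⟩ : ∃ t', t' = min t (L.length + U.length - 1) := ⟨_, rfl⟩
    have e2 : pth w t' ∈ U := by
      unfold pth
      rw [h1]
      exact getD_mid (by omega) (by omega)
    have h3 := pth_lip Z h0 hc t' (t - t')
    rw [show t' + (t - t') = t by omega] at h3
    have h4 := Z.loc U U' hq.1 _ (List.mem_append_left _ e2) _ (List.mem_append_right _ e1)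
    have h5 : ((t - t' : ℕ) : ℤ) ≤ Z.s := by
      have : t - t' ≤ Z.s := by omega
      exact_mod_cast this
    rw [abs_le, abs_le] at *
    omega

end rule

/-! ### the set of the paths -/

/-- the `n`-step self-avoiding walks in `D` from the origin, constant after the time `n` -/
def Wn (A : P → P → Prop) (D : P → Prop) (n : ℕ) : Set (ℕ → P) :=
  {γ | γ 0 = 0 ∧ (∀ i < n, A (γ i) (γ (i + 1))) ∧ (∀ i ≤ n, ∀ j ≤ n, γ i = γ j → i = j) ∧
    (∀ i, D (γ i)) ∧ ∀ i, n ≤ i → γ i = γ n}

variable {A : P → P → Prop} {D : P → Prop}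

theorem pth_image (Z : Rule A) (h0 : D 0) (n : ℕ) :
    pth '' (Kw (AD A D) n : Set (List P)) = Wn A D n := by
  ext γ
  constructor
  · rintro ⟨w, hw, rfl⟩
    rw [Finset.mem_coe, Kw_D Z h0, Z.mem_K] at hw
    obtain ⟨⟨h1, h2, h3, h4⟩, h5⟩ := hw
    have hne : w ≠ [] := by rintro rfl; simp at h1
    refine ⟨?_, ?_, ?_, ?_, ?_⟩
    · rw [pth_lt (by omega)]
      cases w with
      | nil => exact absurd rfl hne
      | cons x t => simpa using h2
    · intro i hi
      rw [pth_lt (show i < w.length by omega), pth_lt (show i + 1 < w.length by omega)]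
      exact List.isChain_iff_getElem.1 h4 i (by omega)
    · intro i hi j hj hij
      rw [pth_lt (show i < w.length by omega), pth_lt (show j < w.length by omega)] at hij
      exact (List.Nodup.getElem_inj_iff h3).1 hij
    · intro i
      exact h5 _ (pth_mem hne i)
    · intro i hi
      rw [pth_ge hne (by omega), pth_ge hne (by omega)]
  · rintro ⟨h1, h2, h3, h4, h5⟩
    have hlen : (List.ofFn (fun i : Fin (n + 1) => γ i)).length = n + 1 := by simp
    have hne : (List.ofFn (fun i : Fin (n + 1) => γ i)) ≠ [] := by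
      intro h
      rw [h] at hlen
      simp at hlen
    refine ⟨List.ofFn (fun i : Fin (n + 1) => γ i), ?_, ?_⟩
    · rw [Finset.mem_coe, Kw_D Z h0, Z.mem_K]
      refine ⟨⟨hlen, ?_, ?_, ?_⟩, ?_⟩
      · rw [List.ofFn_succ]
        simp [h1]
      · rw [List.nodup_ofFn]
        intro i j hij
        exact Fin.ext (h3 i (by omega) j (by omega) hij)
      · rw [List.isChain_ofFn]
        intro i hi
        exact h2 i (by omega)
      · intro x hx
        rw [List.mem_ofFn] at hx
        obtain ⟨i, rfl⟩ := hx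
        exact h4 _
    · funext t
      by_cases ht : t < n + 1
      · rw [pth_lt (by omega), List.getElem_ofFn]
      · rw [pth_ge hne (by omega), lst_ofFn, Fin.val_last]
        exact (h5 t (by omega)).symm

theorem pth_inj {n : ℕ} {w w' : List P} (h : w.length = n + 1) (h' : w'.length = n + 1)
    (e : pth w = pth w') : w = w' := by
  refine List.ext_getElem (by omega) fun i hi hi' => ?_
  rw [← pth_lt hi, ← pth_lt hi', e]

theorem pth_injOn (Z : Rule A) (n : ℕ) : Set.InjOn pth (Kw (AD A D) n : Set (List P)) := by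
  intro w hw w' hw' e
  rw [Finset.mem_coe, (ruleD Z D).mem_K] at hw hw'
  exact pth_inj hw.1 hw'.1 e

/-- the mean over the `n`-step walks in `D` -/
noncomputable def mean (A : P → P → Prop) (D : P → Prop) (n : ℕ) (F : (ℕ → P) → ℝ) : ℝ :=
  (∑ᶠ γ ∈ Wn A D n, F γ) / ((Wn A D n).ncard : ℝ)

theorem ncard_Wn (Z : Rule A) (h0 : D 0) (n : ℕ) :
    ((Wn A D n).ncard : ℝ) = N (ruleD Z D).sys n := by
  rw [← pth_image Z h0 n, (pth_injOn Z n).ncard_image, Set.ncard_coe_finset]
  rfl

theorem mean_eq (Z : Rule A) (h0 : D 0) (n : ℕ) (F : (ℕ → P) → ℝ) :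
    mean A D n F = EY (ruleD Z D).sys n (fun w => F (pth w)) := by
  unfold mean EY
  rw [ncard_Wn Z h0, ← pth_image Z h0 n, finsum_mem_image (pth_injOn Z n),
    finsum_mem_coe_finset]
  rfl

theorem Near.mono {r r' : ℤ} {x y : ℕ → P} (h : Near r x y) (hr : r ≤ r') : Near r' x y :=
  fun t => ⟨(h t).1.trans hr, (h t).2.trans hr⟩

/-- `F` changes by at most `δ` if the walk (with at least `L` and at most `L'` steps) is changed by
at most `R` -/
def Var (A : P → P → Prop) (D : P → Prop) (L L' R : ℕ) (δ : ℝ) (F : (ℕ → P) → ℝ) : Prop :=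
  ∀ m m', L ≤ m → L ≤ m' → m ≤ L' → m' ≤ L' → m ≤ m' + R → m' ≤ m + R →
    ∀ γ ∈ Wn A D m, ∀ γ' ∈ Wn A D m', Near R γ γ' → |F γ - F γ'| ≤ δ

/-- **windows of lengths** -/
theorem window_D (Z : Rule A) (h0 : D 0) {μ K : ℝ} {a : ℕ} (G : Gr (ruleD Z D).sys μ K a)
    (ha : 1 ≤ a) : ∃ C : ℝ, 1 ≤ C ∧ ∀ n : ℕ, 2 ≤ n → ∀ (k : ℕ) (F : (ℕ → P) → ℝ) (δ : ℝ),
      0 ≤ δ → (∀ γ, 0 ≤ F γ ∧ F γ ≤ 1) → Var A D n (n + Z.s * k) (Z.ρ + Z.s) δ F →
      |mean A D (n + Z.s * k) F - mean A D n F| ≤ C * √(k * rt a n) + C * k * δ := by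
  obtain ⟨C, hC, h⟩ := G.window ha
  refine ⟨C, hC, fun n hn k F δ hδ hF hL => ?_⟩
  rw [mean_eq Z h0, mean_eq Z h0]
  have hmem : ∀ m, ∀ w ∈ (ruleD Z D).sys.K m, pth w ∈ Wn A D m := by
    intro m w hw
    rw [← pth_image Z h0]
    exact ⟨w, hw, rfl⟩
  exact h n hn k (fun w => F (pth w)) δ hδ
    (fun m _ _ w _ => hF _) (fun m hm1 hm2 w hw q hq => by
      have h4 := near_ins (ruleD Z D) hw hq
      have h5 := (ruleD Z D).sys.ins_K m w q hw hq
      change m + Z.s ≤ n + Z.s * k at hm2
      have h6 := hL m (m + Z.s) hm1 (by omega) (by omega) hm2 (by omega) (by omega)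
        _ (hmem m w hw) _ (hmem _ _ h5) (by
          push_cast
          exact h4)
      rw [abs_sub_comm]
      exact h6)

end Pool.Agent.R965.HP
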