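import Pool.Agent.TH966.AK.Rate

/-!
# Rates of the ratios under Kesten's inequality and the bounds `exp (± K (log k)^a)`
-/

set_option autoImplicit false

namespace Pool.Agent.R965.HP

open Finset Filter Topology TH966.KS TH966.KO TH966.AK

/-- the rate -/
noncomputable def rt (a n : ℕ) : ℝ := √(Real.log n ^ a / (n : ℝ))

theorem rt_nonneg (a n : ℕ) : 0 ≤ rt a n := Real.sqrt_nonneg _

theorem log_pow_div (a : ℕ) : Tendsto (fun k : ℕ => Real.log k ^ a / (k : ℝ)) atTop (𝓝 0) := by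
  have h := (isLittleO_log_rpow_rpow_atTop (a : ℝ) (show (0 : ℝ) < 1 by norm_num)).tendsto_div_nhds_zero
  have h2 := h.comp tendsto_natCast_atTop_atTop
  refine h2.congr fun k => ?_
  simp only [Function.comp, Real.rpow_natCast, Real.rpow_one]

theorem rt_tendsto (a : ℕ) : Tendsto (fun n : ℕ => rt a n) atTop (𝓝 0) := by
  have h := (Real.continuous_sqrt.tendsto 0).comp (log_pow_div a)
  rwa [Real.sqrt_zero] at h

theorem exp_small (a : ℕ) (K : ℝ) {θ : ℝ} (hθ0 : 0 < θ) (hθ1 : θ < 1) :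
    ∀ᶠ n : ℕ in atTop, θ ^ n ≤ Real.exp (-(K * Real.log n ^ a)) := by
  have hL : 0 < -Real.log θ := by
    have := Real.log_neg hθ0 hθ1
    linarith
  have h1 := (log_pow_div a).const_mul K
  rw [mul_zero] at h1
  filter_upwards [h1.eventually (gt_mem_nhds hL), eventually_ge_atTop 1] with n hn hn1
  have hn0 : (0 : ℝ) < n := by exact_mod_cast hn1
  rw [← Real.exp_log hθ0, ← Real.exp_nat_mul, Real.exp_le_exp]
  rw [← mul_div_assoc, div_lt_iff₀ hn0] at hn
  linarith

/-- the rate of convergence of the ratios, uniform version -/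
theorem rate_gen (D θ : ℝ) (k0 : ℕ) (hD : 0 ≤ D) (hθ0 : 0 < θ) (hθ1 : θ < 1)
    (k1 a : ℕ) {K : ℝ} (hK0 : 0 ≤ K) :
    ∃ R : ℝ, 0 < R ∧ ∀ᶠ k : ℕ in atTop, ∀ y : ℕ → ℝ, Kes y D θ k0 → (∀ k, 0 ≤ y k) →
      (∀ k, k1 ≤ k → Real.exp (-(K * Real.log k ^ a)) ≤ y k) →
      (∀ k : ℕ, 2 ≤ k → ∀ m ≤ k, y m ≤ Real.exp (K * Real.log k ^ a)) →
      |y (k + 1) / y k - 1| ≤ R * rt a k := by
  set M : ℝ := 16 * (D + 1) with hM
  have hM0 : 0 < M := by positivity
  set R : ℝ := √(8 * K * M * 2 ^ a + 1) with hR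
  have hR0 : 0 < R := Real.sqrt_pos.2 (by positivity)
  have hRp : R ^ 2 = 8 * K * M * 2 ^ a + 1 := Real.sq_sqrt (by positivity)
  refine ⟨R, hR0, ?_⟩
  have t1 : Tendsto (fun k : ℕ => R * rt a k) atTop (𝓝 0) := by
    have := (rt_tendsto a).const_mul R
    rwa [mul_zero] at this
  have t2 : Tendsto (fun k : ℕ => R * √(k : ℝ)) atTop atTop :=
    (Real.tendsto_sqrt_atTop.comp tendsto_natCast_atTop_atTop).const_mul_atTop hR0
  have t3 : Tendsto (fun k : ℕ => Real.log (k : ℝ)) atTop atTop :=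
    Real.tendsto_log_atTop.comp tendsto_natCast_atTop_atTop
  filter_upwards [t1.eventually_lt_const (show (0 : ℝ) < 1 / 2 by norm_num),
    t2.eventually_ge_atTop M, t3.eventually_ge_atTop 1, exp_small a K hθ0 hθ1,
    eventually_ge_atTop (2 * k0 + 2 * k1 + 8)] with k e1 e2 e3 e4 hk y hK hy hy1 hgr
  have hkR : (0 : ℝ) < k := by exact_mod_cast (show 0 < k by omega)
  have hsk : 0 < √(k : ℝ) := Real.sqrt_pos.2 hkR
  have hsq : √(k : ℝ) * √(k : ℝ) = k := Real.mul_self_sqrt hkR.le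
  set L : ℝ := Real.log k with hL
  have hLa : 1 ≤ L ^ a := one_le_pow₀ e3
  obtain ⟨q, hq⟩ : ∃ q : ℝ, q = rt a k := ⟨_, rfl⟩
  have hq0 : 0 < q := by
    rw [hq]
    exact Real.sqrt_pos.2 (by positivity)
  have hqq : q * q * k = L ^ a := by
    rw [hq]
    unfold rt
    rw [← hL, Real.mul_self_sqrt (by positivity)]
    field_simp
  set c : ℝ := R * q with hc
  rw [← hq] at e1 ⊢
  have hc0 : 0 < c := by positivity
  have hcc : c * (c * k) = R ^ 2 * L ^ a := by
    rw [hc, ← hqq]; ring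
  have hckM : M ≤ c * k := by
    have h1 : √(k : ℝ) ≤ q * k := by
      rw [Real.sqrt_le_left (by positivity)]
      calc (k : ℝ) ≤ L ^ a * k := le_mul_of_one_le_left hkR.le hLa
        _ = (q * k) ^ 2 := by rw [← hqq]; ring
    calc M ≤ R * √(k : ℝ) := e2
      _ ≤ R * (q * k) := mul_le_mul_of_nonneg_left h1 hR0.le
      _ = c * k := by rw [hc]; ring
  have hyk1 := hy1 k (by omega)
  have hyk : 0 < y k := (Real.exp_pos _).trans_le hyk1
  have hθk : θ ^ k ≤ y k := e4.trans hyk1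
  -- the contradiction
  have hfin : ∀ J m : ℕ, c * k / M ≤ J → m ≤ 2 * k →
      Real.exp (c / 4 * J) * y k ≤ y m → False := by
    intro J m hJ hm2 hle
    have h2 : Real.log ((2 * k : ℕ) : ℝ) ≤ 2 * L := by
      have h3 : ((2 * k : ℕ) : ℝ) ≤ k * k := by
        exact_mod_cast Nat.mul_le_mul_right k (show 2 ≤ k by omega)
      have h5 := Real.log_le_log (by exact_mod_cast (show 0 < 2 * k by omega)) h3
      rw [Real.log_mul hkR.ne' hkR.ne'] at h5
      rw [hL]; linarith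
    have h6 : 0 ≤ Real.log ((2 * k : ℕ) : ℝ) :=
      Real.log_nonneg (by exact_mod_cast (show 1 ≤ 2 * k by omega))
    have h7 : Real.log ((2 * k : ℕ) : ℝ) ^ a ≤ (2 * L) ^ a := pow_le_pow_left₀ h6 h2 a
    have h1 : Real.exp (c / 4 * J + -(K * L ^ a)) ≤
        Real.exp (K * Real.log ((2 * k : ℕ) : ℝ) ^ a) := by
      rw [Real.exp_add]
      refine le_trans (mul_le_mul_of_nonneg_left hyk1 (Real.exp_pos _).le) ?_
      exact hle.trans (hgr (2 * k) (by omega) m hm2)
    rw [Real.exp_le_exp] at h1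
    have h8 : c / 4 * (c * k / M) ≤ K * (2 * L) ^ a + K * L ^ a := by
      have h9 := mul_le_mul_of_nonneg_left hJ (show 0 ≤ c / 4 by positivity)
      have h10 := mul_le_mul_of_nonneg_left h7 hK0
      linarith
    have h9 : c / 4 * (c * k / M) = R ^ 2 * L ^ a / (4 * M) := by
      rw [← hcc]; field_simp
    rw [h9, hRp, div_le_iff₀ (by positivity), mul_pow] at h8
    have h11 : (1 : ℝ) ≤ 2 ^ a := one_le_pow₀ (by norm_num)
    have h12 : 0 ≤ K * M * L ^ a := by positivity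
    have h13 : K * M * L ^ a * 1 ≤ K * M * L ^ a * 2 ^ a := mul_le_mul_of_nonneg_left h11 h12
    nlinarith
  rw [abs_le]
  constructor
  · by_contra hcon
    have h1 : y (k + 1) / y k < 1 - c := by linarith [not_le.1 hcon]
    rw [div_lt_iff₀ hyk] at h1
    obtain ⟨J, hJ1, hJ2, hJk, hJ3⟩ := prop_down hK hy hD hθ0 hθ1 hc0
      e1.le (by omega) (by omega) hckM hyk hθk h1
    exact hfin J (k - J) hJ1 (by omega) hJ3
  · by_contra hcon
    have h1 : 1 + c < y (k + 1) / y k := by linarith [not_le.1 hcon]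
    rw [lt_div_iff₀ hyk] at h1
    obtain ⟨J, hJ1, hJk, hJ3⟩ := prop_up' hK hy hD hθ0 hθ1 hc0
      e1.le (by omega) (by omega) hckM hyk hθk h1
    exact hfin J (k + J) hJ1 (by omega) hJ3

end Pool.Agent.R965.HP
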