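import Pool.Agent.TH966.AK.Win

/-!
# The square lattice: local moves, walks with few U-turns
-/

set_option autoImplicit false

namespace Pool.Agent.R965.HP.Sq

open Finset TH966.AK

/-- adjacency -/
def A (p q : P) : Prop := |p.1 - q.1| + |p.2 - q.2| = 1

theorem A_iff (p q : P) : A p q ↔ (q.1 = p.1 + 1 ∧ q.2 = p.2) ∨ (q.1 = p.1 - 1 ∧ q.2 = p.2) ∨
    (q.1 = p.1 ∧ q.2 = p.2 + 1) ∨ (q.1 = p.1 ∧ q.2 = p.2 - 1) := by
  unfold A
  constructor
  · intro h
    rcases abs_cases (p.1 - q.1) with h1 | h1 <;> rcases abs_cases (p.2 - q.2) with h2 | h2 <;>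
      omega
  · rintro (⟨h1, h2⟩ | ⟨h1, h2⟩ | ⟨h1, h2⟩ | ⟨h1, h2⟩) <;> rw [h1, h2] <;> norm_num

instance : DecidableRel A := fun p q =>
  inferInstanceAs (Decidable (|p.1 - q.1| + |p.2 - q.2| = 1))

theorem A_symm {p q : P} (h : A p q) : A q p := by
  rw [A_iff] at h ⊢
  omega

theorem A_ne {p q : P} (h : A p q) : p ≠ q := by
  rintro rfl
  rw [A_iff] at h
  omega

theorem A_step {p q : P} (h : A p q) : |p.1 - q.1| ≤ 1 ∧ |p.2 - q.2| ≤ 1 := by
  rw [A_iff] at h
  rw [abs_le, abs_le]
  omega

/-- an edge is replaced by the three other sides of a square -/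
def T (U U' : List P) : Prop := ∃ p v w r, U = [p, r] ∧ U' = [p, v, w, r] ∧ A p r ∧ A p v ∧
  A v w ∧ A w r ∧ p ≠ w ∧ v ≠ r

/-- the rule -/
def rule : Rule A where
  T := T
  ρ := 2
  k := 2
  s := 2
  step := fun _ _ h => A_step h
  pair := by
    rintro U U' ⟨p, v, w, r, rfl, rfl, h1, h2, h3, h4, h5, h6⟩
    have n1 := A_ne h1
    have n2 := A_ne h2
    have n3 := A_ne h3
    have n4 := A_ne h4
    refine ⟨⟨p, r, [], [v, w], rfl, rfl, by simp, ?_⟩, ?_, ?_, ?_, ?_⟩
    · intro x hx
      simp only [List.mem_cons, List.not_mem_nil, or_false] at hx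
      simp only [List.cons_append, List.nil_append, List.mem_cons, List.not_mem_nil, or_false,
        not_or]
      rcases hx with rfl | rfl
      · exact ⟨n2.symm, h6⟩
      · exact ⟨h5.symm, n4⟩
    · simp [n1]
    · simp [n1, n2, n3, n4, h5, h6]
    · simp [h1]
    · simp [h2, h3, h4]
  len := by
    rintro U U' ⟨p, v, w, r, rfl, rfl, h1, h2, h3, h4, h5, h6⟩
    simp
  loc := by
    rintro U U' ⟨p, v, w, r, rfl, rfl, h1, h2, h3, h4, h5, h6⟩ x hx y hy
    simp only [List.cons_append, List.nil_append, List.mem_cons, List.not_mem_nil,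
      or_false] at hx hy
    have a1 := A_step h1
    have a2 := A_step h2
    have a3 := A_step h3
    have a4 := A_step h4
    rw [abs_le, abs_le] at a1 a2 a3 a4
    have h : (x = p ∨ x = v ∨ x = w ∨ x = r) ∧ (y = p ∨ y = v ∨ y = w ∨ y = r) := by tauto
    rw [abs_le, abs_le]
    push_cast
    rcases h with ⟨rfl | rfl | rfl | rfl, rfl | rfl | rfl | rfl⟩ <;> omega

/-! ### counting continuations -/

/-- the neighbours -/
def nb (b : P) : Finset P := {(b.1 + 1, b.2), (b.1 - 1, b.2), (b.1, b.2 + 1), (b.1, b.2 - 1)}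

theorem mem_nb {b c : P} : c ∈ nb b ↔ A b c := by
  obtain ⟨c1, c2⟩ := c
  rw [A_iff]
  simp only [nb, Finset.mem_insert, Finset.mem_singleton, Prod.mk.injEq]

/-- the potential: `141` after a straight piece, `100` after a turn -/
def F (a b c : P) : ℝ := if c - b = b - a then 141 else 100

theorem F_ge (a b c : P) : 100 ≤ F a b c := by
  unfold F; split_ifs <;> norm_num

theorem F_le (a b c : P) : F a b c ≤ 141 := by
  unfold F; split_ifs <;> norm_num

theorem step_sum {a b c : P} (hab : A a b) (hbc : A b c) (hac : a ≠ c) :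
    ∑ d ∈ (nb c).erase b, (if A a d then (1 / 100 : ℝ) else 1) * F b c d ≤
      (121 / 50) * F a b c := by
  obtain ⟨a1, a2⟩ := a
  obtain ⟨b1, b2⟩ := b
  obtain ⟨c1, c2⟩ := c
  rw [A_iff] at hab hbc
  simp only at hab hbc
  have key : ∀ x1 x2 y1 y2 : ℤ, (x1, x2) ∈ ({(1, 0), (-1, 0), (0, 1), (0, -1)} : Finset (ℤ × ℤ)) →
      (y1, y2) ∈ ({(1, 0), (-1, 0), (0, 1), (0, -1)} : Finset (ℤ × ℤ)) →
      ¬ (x1 + y1 = 0 ∧ x2 + y2 = 0) → a1 = c1 - y1 - x1 → a2 = c2 - y2 - x2 → b1 = c1 - y1 →
      b2 = c2 - y2 →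
      ∑ d ∈ (nb (c1, c2)).erase (b1, b2), (if A (a1, a2) d then (1 / 100 : ℝ) else 1) *
        F (b1, b2) (c1, c2) d ≤ (121 / 50) * F (a1, a2) (b1, b2) (c1, c2) := by
    rintro x1 x2 y1 y2 hx hy hne rfl rfl rfl rfl
    have e : (nb (c1, c2)).erase (c1 - y1, c2 - y2) =
        ((({(1, 0), (-1, 0), (0, 1), (0, -1)} : Finset (ℤ × ℤ)).erase (-y1, -y2)).image
          (fun d => (c1 + d.1, c2 + d.2))) := by
      ext ⟨d1, d2⟩
      simp only [nb, Finset.mem_erase, Finset.mem_insert, Finset.mem_singleton, Prod.mk.injEq,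
        Finset.mem_image, Prod.exists, ne_eq]
      constructor
      · rintro ⟨h1, h2⟩
        exact ⟨d1 - c1, d2 - c2, ⟨by omega, by omega⟩, by omega, by omega⟩
      · rintro ⟨u, v, ⟨h1, h2⟩, h3, h4⟩
        exact ⟨by omega, by omega⟩
    rw [e, Finset.sum_image (by
      rintro ⟨u, v⟩ _ ⟨u', v'⟩ _ h
      simp only [Prod.mk.injEq] at h ⊢
      omega)]
    have hA : ∀ d : ℤ × ℤ, A (c1 - y1 - x1, c2 - y2 - x2) (c1 + d.1, c2 + d.2) ↔
        A (0, 0) (d.1 + y1 + x1, d.2 + y2 + x2) := by
      intro d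
      rw [A_iff, A_iff]
      simp only
      omega
    have hF1 : ∀ d : ℤ × ℤ, F (c1 - y1, c2 - y2) (c1, c2) (c1 + d.1, c2 + d.2) =
        if d = (y1, y2) then 141 else 100 := by
      intro d
      unfold F
      congr 1
      rw [Prod.ext_iff, Prod.ext_iff]
      simp only [Prod.mk_sub_mk, eq_iff_iff]
      omega
    have hF2 : F (c1 - y1 - x1, c2 - y2 - x2) (c1 - y1, c2 - y2) (c1, c2) =
        if (y1, y2) = (x1, x2) then 141 else 100 := by
      unfold F
      congr 1
      rw [Prod.ext_iff, Prod.ext_iff]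
      simp only [Prod.mk_sub_mk, eq_iff_iff]
      omega
    rw [hF2]
    simp only [hA, hF1]
    simp only [Finset.mem_insert, Finset.mem_singleton, Prod.mk.injEq] at hx hy
    have e1 : (({(1, 0), (-1, 0), (0, 1), (0, -1)} : Finset (ℤ × ℤ)).erase (-1, 0)) =
      {(1, 0), (0, 1), (0, -1)} := by decide
    have e2 : (({(1, 0), (-1, 0), (0, 1), (0, -1)} : Finset (ℤ × ℤ)).erase (1, 0)) =
      {(-1, 0), (0, 1), (0, -1)} := by decide
    have e3 : (({(1, 0), (-1, 0), (0, 1), (0, -1)} : Finset (ℤ × ℤ)).erase (0, -1)) =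
      {(1, 0), (-1, 0), (0, 1)} := by decide
    have e4 : (({(1, 0), (-1, 0), (0, 1), (0, -1)} : Finset (ℤ × ℤ)).erase (0, 1)) =
      {(1, 0), (-1, 0), (0, -1)} := by decide
    have s1 : ∀ f : ℤ × ℤ → ℝ, ∑ d ∈ ({(1, 0), (0, 1), (0, -1)} : Finset (ℤ × ℤ)), f d =
        f (1, 0) + (f (0, 1) + f (0, -1)) := by
      intro f
      rw [Finset.sum_insert (by decide), Finset.sum_insert (by decide), Finset.sum_singleton]
    have s2 : ∀ f : ℤ × ℤ → ℝ, ∑ d ∈ ({(-1, 0), (0, 1), (0, -1)} : Finset (ℤ × ℤ)), f d =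
        f (-1, 0) + (f (0, 1) + f (0, -1)) := by
      intro f
      rw [Finset.sum_insert (by decide), Finset.sum_insert (by decide), Finset.sum_singleton]
    have s3 : ∀ f : ℤ × ℤ → ℝ, ∑ d ∈ ({(1, 0), (-1, 0), (0, 1)} : Finset (ℤ × ℤ)), f d =
        f (1, 0) + (f (-1, 0) + f (0, 1)) := by
      intro f
      rw [Finset.sum_insert (by decide), Finset.sum_insert (by decide), Finset.sum_singleton]
    have s4 : ∀ f : ℤ × ℤ → ℝ, ∑ d ∈ ({(1, 0), (-1, 0), (0, -1)} : Finset (ℤ × ℤ)), f d =
        f (1, 0) + (f (-1, 0) + f (0, -1)) := by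
      intro f
      rw [Finset.sum_insert (by decide), Finset.sum_insert (by decide), Finset.sum_singleton]
    rcases hx with ⟨rfl, rfl⟩ | ⟨rfl, rfl⟩ | ⟨rfl, rfl⟩ | ⟨rfl, rfl⟩ <;>
    rcases hy with ⟨rfl, rfl⟩ | ⟨rfl, rfl⟩ | ⟨rfl, rfl⟩ | ⟨rfl, rfl⟩ <;>
    first
    | (exfalso; omega)
    | (simp only [neg_neg, neg_zero, e1, e2, e3, e4, s1, s2, s3, s4, A]; norm_num)
  have hne : ¬ ((b1 - a1) + (c1 - b1) = 0 ∧ (b2 - a2) + (c2 - b2) = 0) := by
    intro h
    exact hac (Prod.ext (by simp only; omega) (by simp only; omega))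
  refine key (b1 - a1) (b2 - a2) (c1 - b1) (c2 - b2) ?_ ?_ hne (by ring) (by ring) (by ring)
    (by ring)
  · simp only [Finset.mem_insert, Finset.mem_singleton, Prod.mk.injEq]
    omega
  · simp only [Finset.mem_insert, Finset.mem_singleton, Prod.mk.injEq]
    omega

/-- continuations without immediate reversals -/
def E : ℕ → P → P → P → Finset (List P)
  | 0, _, _, _ => {[]}
  | m + 1, _, b, c => ((nb c).erase b).biUnion (fun d => (E m b c d).image (List.cons d))

theorem mem_E : ∀ (m : ℕ) (a b c : P) (l : List P), (a :: b :: c :: l).Nodup →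
    (a :: b :: c :: l).IsChain A → l.length = m → l ∈ E m a b c := by
  intro m
  induction m with
  | zero =>
    intro a b c l _ _ hl
    rw [List.length_eq_zero_iff] at hl
    simp [E, hl]
  | succ m ih =>
    intro a b c l hn hc hl
    obtain ⟨d, l', rfl⟩ := List.exists_cons_of_length_eq_add_one hl
    simp only [E, Finset.mem_biUnion, Finset.mem_erase, Finset.mem_image]
    have h2 := (List.isChain_cons_cons.1 hc).2
    have h3 := (List.isChain_cons_cons.1 h2).2
    refine ⟨d, ⟨?_, mem_nb.2 (List.isChain_cons_cons.1 h3).1⟩, l',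
      ih b c d l' (List.nodup_cons.1 hn).2 h2 (by simpa using hl), rfl⟩
    rintro rfl
    exact (List.nodup_cons.1 (List.nodup_cons.1 hn).2).1 (by simp)

/-- number of U-turns -/
def sh : List P → ℕ
  | a :: b :: c :: d :: l => (if A a d then 1 else 0) + sh (b :: c :: d :: l)
  | _ => 0

theorem sum_E : ∀ (m : ℕ) (a b c : P), A a b → A b c → a ≠ c →
    ∑ l ∈ E m a b c, (1 / 100 : ℝ) ^ sh (a :: b :: c :: l) ≤
      (121 / 50) ^ m * (F a b c / 100) := by
  intro m
  induction m with
  | zero =>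
    intro a b c _ _ _
    have := F_ge a b c
    simp [E, sh]
    linarith
  | succ m ih =>
    intro a b c hab hbc hac
    simp only [E]
    rw [Finset.sum_biUnion]
    · have h1 : ∀ d ∈ (nb c).erase b,
          ∑ l ∈ (E m b c d).image (List.cons d), (1 / 100 : ℝ) ^ sh (a :: b :: c :: l) ≤
          (121 / 50) ^ m / 100 * ((if A a d then (1 / 100 : ℝ) else 1) * F b c d) := by
        intro d hd
        rw [Finset.sum_image (fun _ _ _ _ h => (List.cons.inj h).2)]
        have h2 := ih b c d hbc (mem_nb.1 (Finset.mem_erase.1 hd).2)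
          (fun h => (Finset.mem_erase.1 hd).1 h.symm)
        have e : ∀ l : List P, (1 / 100 : ℝ) ^ sh (a :: b :: c :: d :: l) =
            (if A a d then (1 / 100 : ℝ) else 1) * (1 / 100 : ℝ) ^ sh (b :: c :: d :: l) := by
          intro l
          simp only [sh]
          rw [pow_add]
          congr 1
          split_ifs <;> simp
        simp only [e]
        rw [← Finset.mul_sum]
        calc _ ≤ (if A a d then (1 / 100 : ℝ) else 1) * ((121 / 50) ^ m * (F b c d / 100)) :=
              mul_le_mul_of_nonneg_left h2 (by split_ifs <;> norm_num)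
          _ = _ := by ring
      refine (Finset.sum_le_sum h1).trans ?_
      rw [← Finset.mul_sum]
      calc _ ≤ (121 / 50 : ℝ) ^ m / 100 * ((121 / 50) * F a b c) :=
            mul_le_mul_of_nonneg_left (step_sum hab hbc hac) (by positivity)
        _ = _ := by ring
    · intro c _ c' _ hcc
      simp only [Function.onFun]
      rw [Finset.disjoint_left]
      intro l hl hl'
      rw [Finset.mem_image] at hl hl'
      obtain ⟨l1, -, rfl⟩ := hl
      obtain ⟨l2, -, h2⟩ := hl'
      exact hcc (List.cons.inj h2).1.symm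

theorem sh_le : ∀ w : List P, w.Nodup → w.IsChain A → sh w ≤ (rule.B w).card := by
  intro w
  induction w with
  | nil => intro _ _; simp [sh]
  | cons a w ih =>
    intro hn hc
    match w, ih, hn, hc with
    | [], _, _, _ => simp [sh]
    | [b], _, _, _ => simp [sh]
    | [b, c], _, _, _ => simp [sh]
    | b :: c :: d :: l, ih, hn, hc =>
      have h1 := ih (List.nodup_cons.1 hn).2 (List.isChain_cons_cons.1 hc).2
      have hab := (List.isChain_cons_cons.1 hc).1
      have hc2 := (List.isChain_cons_cons.1 hc).2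
      have hbc := (List.isChain_cons_cons.1 hc2).1
      have hcd := (List.isChain_cons_cons.1 (List.isChain_cons_cons.1 hc2).2).1
      have hac : a ≠ c := by
        rintro rfl
        exact (List.nodup_cons.1 hn).1 (by simp)
      have hbd : b ≠ d := by
        rintro rfl
        exact (List.nodup_cons.1 (List.nodup_cons.1 hn).2).1 (by simp)
      have hsub : rule.B (b :: c :: d :: l) ⊆ rule.B (a :: b :: c :: d :: l) := by
        intro q hq
        rw [rule.mem_B] at hq ⊢
        obtain ⟨h2, h3, h4⟩ := hq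
        refine ⟨h2, h3.trans ⟨[a], [], by simp⟩, ?_⟩
        obtain ⟨p, v, w, r, e1, e2, -⟩ := h2
        intro x hx hx'
        rw [e1] at hx
        rw [e2] at hx'
        simp only [List.mem_cons, List.not_mem_nil, or_false, not_or] at hx hx'
        tauto
      simp only [sh]
      by_cases had : A a d
      · rw [if_pos had]
        have hq : (([a, d], [a, b, c, d]) : List P × List P) ∈ rule.B (a :: b :: c :: d :: l) := by
          rw [rule.mem_B]
          refine ⟨⟨a, b, c, d, rfl, rfl, had, hab, hbc, hcd, hac, hbd⟩, ⟨[], l, by simp⟩, ?_⟩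
          intro x hx hx'
          simp only [List.mem_cons, List.not_mem_nil, or_false, not_or] at hx hx'
          tauto
        have hq' : (([a, d], [a, b, c, d]) : List P × List P) ∉ rule.B (b :: c :: d :: l) := by
          rw [rule.mem_B]
          rintro ⟨-, h3, -⟩
          exact (List.nodup_cons.1 hn).1 (h3.subset (by simp))
        have h5 : insert (([a, d], [a, b, c, d]) : List P × List P) (rule.B (b :: c :: d :: l)) ⊆
            rule.B (a :: b :: c :: d :: l) := by
          classical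
          intro q hq2
          rw [Finset.mem_insert] at hq2
          rcases hq2 with rfl | hq2
          · exact hq
          · exact hsub hq2
        have h6 := Finset.card_le_card h5
        rw [Finset.card_insert_of_notMem hq'] at h6
        omega
      · rw [if_neg had, zero_add]
        exact h1.trans (Finset.card_le_card hsub)

end Pool.Agent.R965.HP.Sq
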