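import Pool.Agent.R965.HP.SupHex

/-!
# The density of the moves; the second moment of the number of steps
-/

set_option autoImplicit false

namespace Pool.Agent.R965.HP

open Finset Filter Topology TH966.KS TH966.AK
open scoped Classical

section
variable {A : P → P → Prop}

/-- few moves of one of the two kinds -/
noncomputable def few (Y : Sys (List P) (List P × List P)) (M n : ℕ) (w : List P) : ℝ :=
  if M * (Y.S w).card ≤ n ∨ M * (Y.B w).card ≤ n then 1 else 0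

theorem two_dens_x (Z : Rule A) {μ : ℝ} (hμ : 1 ≤ μ)
    (hp : ∃ (M0 : ℕ) (ρ C0 : ℝ), 1 ≤ M0 ∧ 0 ≤ ρ ∧ ρ < μ ∧ ∀ n : ℕ,
      (((Kw A n).filter (fun w => M0 * (Z.B w).card ≤ n)).card : ℝ) ≤ C0 * ρ ^ n)
    (hup : ∀ τ : ℝ, 0 < τ → ∃ C1 : ℝ, ∀ n : ℕ, ((Kw A n).card : ℝ) ≤ C1 * ((1 + τ) * μ) ^ n) :
    ∃ (M : ℕ) (C θ X : ℝ), 1 ≤ M ∧ 1 ≤ C ∧ 0 < θ ∧ θ < 1 ∧ 1 / μ < X ∧
      ∀ x : ℝ, 1 / μ ≤ x → x ≤ X → ∀ (D : P → Prop), D 0 → ∀ (y : P) (m L : ℕ),
      (∀ n, n < m → (two Z D y).K n = ∅) →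
      gc (two Z D y) x L (few (two Z D y) M) ≤ C * θ ^ m := by
  obtain ⟨M, θ0, C0, hM, hθ0, hθ1, hC0, hbad⟩ := bad_any Z hμ hp hup
  have hμ0 : 0 < μ := by linarith
  obtain ⟨θ, hθ⟩ : ∃ θ : ℝ, θ = (1 + θ0) / 2 := ⟨_, rfl⟩
  have hθ00 : 0 < θ := by rw [hθ]; linarith
  have hθ11 : θ < 1 := by rw [hθ]; linarith
  obtain ⟨X, hX⟩ : ∃ X : ℝ, X = (1 + (1 - θ0) / 2) / μ := ⟨_, rfl⟩
  have hX1 : 1 / μ < X := by rw [hX]; exact div_lt_div_of_pos_right (by linarith) hμ0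
  have h1θ : 0 < 1 - θ := by linarith
  refine ⟨M, C0 * (1 / (1 - θ)) + 1, θ, X, hM, ?_, hθ00, hθ11, hX1, ?_⟩
  · have : 0 ≤ C0 * (1 / (1 - θ)) := by positivity
    linarith
  intro x hx1 hx2 D h0 y m L hmin
  have hx0 : 0 < x := lt_of_lt_of_le (by positivity) hx1
  have hxμ : θ0 * (x * μ) ≤ θ := by
    have h1 : x * μ ≤ 1 + (1 - θ0) / 2 := by
      rw [hX, le_div_iff₀ hμ0] at hx2
      exact hx2
    have h2 := mul_le_mul_of_nonneg_left h1 hθ0.le
    rw [hθ]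
    nlinarith
  have h1 : ∀ n ∈ range L, x ^ n * ∑ w ∈ (two Z D y).K n, few (two Z D y) M n w ≤
      if m ≤ n then C0 * θ ^ n else 0 := by
    intro n _
    split_ifs with hmn
    · have h2 : (((two Z D y).bad M n).card : ℝ) ≤ C0 * (θ0 * μ) ^ n := by
        refine le_trans ?_ (hbad D h0 n)
        exact_mod_cast card_le_card (two_bad Z D y M n)
      have h3 : ∑ w ∈ (two Z D y).K n, few (two Z D y) M n w =
          (((two Z D y).bad M n).card : ℝ) := by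
        unfold few
        rw [← sum_filter, sum_const, nsmul_one]
        rfl
      rw [h3]
      calc x ^ n * (((two Z D y).bad M n).card : ℝ) ≤ x ^ n * (C0 * (θ0 * μ) ^ n) :=
            mul_le_mul_of_nonneg_left h2 (by positivity)
        _ = C0 * (θ0 * (x * μ)) ^ n := by rw [mul_pow, mul_pow, mul_pow]; ring
        _ ≤ C0 * θ ^ n := mul_le_mul_of_nonneg_left
            (pow_le_pow_left₀ (by positivity) hxμ _) hC0
    · rw [hmin n (not_le.1 hmn)]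
      simp
  have h2 : gc (two Z D y) x L (few (two Z D y) M) ≤
      ∑ n ∈ range L, if m ≤ n then C0 * θ ^ n else 0 := by
    unfold gc
    exact sum_le_sum h1
  refine h2.trans ?_
  rw [← sum_filter, ← mul_sum]
  have h4 : ∑ n ∈ (range L).filter (fun n => m ≤ n), θ ^ n ≤ 1 / (1 - θ) * θ ^ m := by
    have h5 : (range L).filter (fun n => m ≤ n) ⊆ (range L).image (fun i => m + i) := by
      intro n hn
      rw [mem_filter, mem_range] at hn
      rw [mem_image]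
      exact ⟨n - m, by rw [mem_range]; omega, by omega⟩
    refine (sum_le_sum_of_subset_of_nonneg h5 fun n _ _ => by positivity).trans ?_
    rw [sum_image (by intro a _ b _ h; simpa using h)]
    simp only [pow_add]
    rw [← mul_sum, mul_comm]
    refine mul_le_mul_of_nonneg_right ?_ (by positivity)
    have h6 := Summable.sum_le_tsum (range L) (fun i _ => pow_nonneg hθ00.le i)
      (summable_geometric_of_lt_one hθ00.le hθ11)
    rw [tsum_geometric_of_lt_one hθ00.le hθ11] at h6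
    rw [one_div]
    exact h6
  have h5 := mul_le_mul_of_nonneg_left h4 hC0
  have h6 : 0 ≤ θ ^ m := by positivity
  nlinarith

end

variable {D : Set (ℤ × ℤ)} {p q : ℤ × ℤ}

/-- few moves of one of the two kinds, for lists -/
noncomputable def fewH (M : ℕ) (D : Set (ℤ × ℤ)) (l : List (ℤ × ℤ)) : ℝ :=
  if M * (upS D l).ncard ≤ l.length - 1 ∨ M * (dnS D l).ncard ≤ l.length - 1 then 1 else 0

theorem hex_dens_x : ∃ (M : ℕ) (C θ X : ℝ), 1 ≤ M ∧ 1 ≤ C ∧ 0 < θ ∧ θ < 1 ∧ xr < X ∧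
    ∀ x : ℝ, xr ≤ x → x ≤ X → ∀ (D : Set (ℤ × ℤ)), D.Finite →
    ∀ (p q : ℤ × ℤ) (m : ℕ), p ∈ D → (∀ l ∈ Tj D p q, m < l.length) →
      0 < Zr x D p q → Ex x D p q (fewH M D) ≤ C * θ ^ m / Zr x D p q := by
  obtain ⟨M, C, θ, X, hM, hC, hθ0, hθ1, hX, h⟩ := two_dens_x Hex.rule
    (@H982.one_le_mu H982P.hexL) hex_poor hex_hup
  rw [Pool.Agent.H976R3.HPL.mu_hex] at h hX
  refine ⟨M, C, θ, X, hM, hC, hθ0, hθ1, hX, fun x hx1 hx2 D hD p q m hp hmin hZ => ?_⟩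
  obtain ⟨L, hmax⟩ := exists_max (q := q) hp hD
  have h1 := h x hx1 hx2 (fun x => hexMot.τ p x ∈ D) (D_zero hp) (hexMot.σ p q) m L (by
    intro n hn
    rw [Finset.eq_empty_iff_forall_notMem]
    intro w hw
    obtain ⟨h6, h7⟩ := tau_mem (D := D) (p := p) (q := q) hp (n := n) (w := w) hw
    have := hmin _ h6
    omega)
  change gc (YY D p q) x L (few (YY D p q) M) ≤ C * θ ^ m at h1
  unfold Ex
  refine div_le_div_of_nonneg_right (le_trans (le_of_eq ?_) h1) hZ.le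
  rw [fin_sum hp hmax]
  unfold gc
  refine sum_congr rfl fun n _ => ?_
  congr 1
  refine sum_congr rfl fun w hw => ?_
  have hw' := ((mem_YY hp).1 hw).2.1
  have hlen := (tau_mem (D := D) (p := p) (q := q) hp (n := n) (w := w) hw).2
  unfold fewH few
  beta_reduce
  rw [upS_card (q := q) hw', dnS_card (q := q) hw']
  have e : (w.map (hexMot.τ p)).length - 1 = n := by omega
  rw [e]

theorem exp_sup (C θ κ : ℝ) (C0 : ℕ) (hC : 1 ≤ C) (hθ0 : 0 < θ) (hθ1 : θ < 1) (hκ : 0 < κ) :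
    ∃ K : ℝ, 1 ≤ K ∧ ∀ δ : ℝ, 0 < δ → K * δ ≤ 1 → ∀ m : ℕ, κ ≤ m * δ → ∀ Z : ℝ, δ ^ C0 ≤ Z →
      C * θ ^ m / Z ≤ Real.exp (-(1 / (K * δ))) := by
  have hc : 0 < -Real.log θ := by have := Real.log_neg hθ0 hθ1; linarith
  obtain ⟨s, hs⟩ : ∃ s, s = -Real.log θ * κ / 2 := ⟨_, rfl⟩
  have hs0 : 0 < s := by rw [hs]; positivity
  have ht2 := (Real.tendsto_pow_mul_exp_neg_atTop_nhds_zero C0).const_mul C
  obtain ⟨y0, hy0⟩ := eventually_atTop.1 (ht2.eventually_le_const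
    (show C * 0 < s ^ C0 by rw [mul_zero]; positivity))
  have p1 : 0 ≤ 1 / s := by positivity
  have p2 : 0 ≤ |y0| / s := by positivity
  refine ⟨1 / s + |y0| / s + 1, by linarith, fun δ hδ hK m hm Z hZ => ?_⟩
  obtain ⟨y, hy⟩ : ∃ y, y = s / δ := ⟨_, rfl⟩
  have hy00 : 0 < y := by rw [hy]; positivity
  have hyδ : δ * y = s := by rw [hy]; field_simp
  have h1 : y0 ≤ y := by
    have h2 : |y0| / s * δ ≤ 1 := by nlinarith
    rw [div_mul_eq_mul_div, div_le_one hs0] at h2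
    rw [hy, le_div_iff₀ hδ]
    exact (mul_le_mul_of_nonneg_right (le_abs_self y0) hδ.le).trans h2
  have h3 := hy0 y h1
  have h4 : C * Real.exp (-y) ≤ δ ^ C0 := by
    have h5 : (C * Real.exp (-y)) * y ^ C0 ≤ δ ^ C0 * y ^ C0 := by
      rw [← mul_pow, hyδ]
      refine le_trans (le_of_eq ?_) h3
      ring
    exact le_of_mul_le_mul_right h5 (by positivity)
  have h5 : θ ^ m ≤ Real.exp (-y) * Real.exp (-y) := by
    rw [← Real.exp_add]
    have e1 : θ ^ m = Real.exp (m * Real.log θ) := by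
      rw [Real.exp_nat_mul, Real.exp_log hθ0]
    rw [e1, Real.exp_le_exp]
    have e2 : 2 * y = -Real.log θ * (κ / δ) := by
      rw [hy, hs]; field_simp
    have e3 : κ / δ ≤ m := by rwa [div_le_iff₀ hδ]
    have e4 := mul_le_mul_of_nonneg_left e3 hc.le
    linarith
  have hZ0 : 0 < Z := lt_of_lt_of_le (by positivity) hZ
  have h6 : C * θ ^ m / Z ≤ Real.exp (-y) := by
    rw [div_le_iff₀ hZ0]
    calc C * θ ^ m ≤ C * (Real.exp (-y) * Real.exp (-y)) :=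
          mul_le_mul_of_nonneg_left h5 (by linarith)
      _ = Real.exp (-y) * (C * Real.exp (-y)) := by ring
      _ ≤ Real.exp (-y) * Z := mul_le_mul_of_nonneg_left (h4.trans hZ) (Real.exp_pos _).le
  refine h6.trans (Real.exp_le_exp.2 (neg_le_neg ?_))
  rw [hy, div_le_div_iff₀ (by positivity) hδ, one_mul]
  have h7 : 1 ≤ s * (1 / s + |y0| / s + 1) := by
    have : s * (1 / s) = 1 := by field_simp
    have h8 : 0 ≤ s * (|y0| / s) := by positivity
    nlinarith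
  calc δ = 1 * δ := (one_mul δ).symm
    _ ≤ (s * (1 / s + |y0| / s + 1)) * δ := mul_le_mul_of_nonneg_right h7 hδ.le
    _ = _ := by ring

/-- the minimal number of steps -/
theorem geo_len (d : ℝ) (hd : 0 < d) : ∃ C κ : ℝ, 1 ≤ C ∧ 0 < κ ∧ ∀ δ : ℝ, 0 < δ → C * δ ≤ 1 →
    ∀ (D : Set (ℤ × ℤ)) (p q : ℤ × ℤ), d ≤ δ * ‖eb p - eb q‖ →
      ∃ m : ℕ, κ ≤ m * δ ∧ ∀ l ∈ Tj D p q, m < l.length := by
  obtain ⟨κ, hκ⟩ : ∃ κ : ℝ, κ = d / 12 := ⟨_, rfl⟩
  have hκ0 : 0 < κ := by rw [hκ]; positivity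
  have h2 : 0 ≤ 12 / d := by positivity
  refine ⟨12 / d + 1, κ, by linarith, hκ0, fun δ hδ hCδ D p q hpq => ?_⟩
  have g1 : 12 / d * δ ≤ 1 := by nlinarith
  have g3 : 12 * δ ≤ d := by
    rw [div_mul_eq_mul_div, div_le_one hd] at g1
    exact g1
  obtain ⟨m, hm⟩ : ∃ m : ℕ, m = ⌊d / (6 * δ)⌋₊ := ⟨_, rfl⟩
  have hm1 : (m : ℝ) ≤ d / (6 * δ) := by rw [hm]; exact Nat.floor_le (by positivity)
  have hm2 : d / (6 * δ) < m + 1 := by rw [hm]; exact Nat.lt_floor_add_one _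
  have hm3 : κ ≤ m * δ := by
    have h4 : d / (6 * δ) * δ = d / 6 := by field_simp
    have h5 : d / (6 * δ) * δ < (m + 1) * δ := mul_lt_mul_of_pos_right hm2 hδ
    rw [h4] at h5
    rw [hκ]
    linarith
  refine ⟨m, hm3, ?_⟩
  intro l hl
  obtain ⟨h6, h7⟩ := tj_dist hl
  have h8 : d ≤ δ * (3 * ((l.length : ℝ) - 1) + 1) :=
    hpq.trans (mul_le_mul_of_nonneg_left h6 hδ.le)
  have h9 : (m : ℝ) ≤ (l.length : ℝ) - 1 := by
    refine hm1.trans ?_
    rw [div_le_iff₀ (by positivity)]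
    nlinarith
  have h10 : (m : ℝ) < l.length := by linarith
  exact_mod_cast h10

theorem Ex_one {x : ℝ} (hZ : 0 < Zr x D p q) : Ex x D p q (fun _ => 1) = 1 := by
  unfold Ex
  simp only [one_mul]
  exact div_self hZ.ne'

theorem Ex_mul {x : ℝ} (hfin : (Tj D p q).Finite) (c : ℝ) (f : List (ℤ × ℤ) → ℝ) :
    Ex x D p q (fun l => c * f l) = c * Ex x D p q f := by
  unfold Ex
  rw [← mul_div_assoc, finsum_mem_eq_finite_toFinset_sum _ hfin,
    finsum_mem_eq_finite_toFinset_sum _ hfin, mul_sum]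
  congr 1
  exact sum_congr rfl fun l _ => by ring

/-- the second moment -/
theorem ConclX.second {x c : ℝ} (H : ConclX x c D p q) (hx : 0 < x) (hfin : (Tj D p q).Finite)
    (hZ : 0 < Zr x D p q) (hc : 0 < c) (hc1 : 2 * c ≤ 1) (t : ℝ) :
    1 / (64 * c ^ 2) ≤ Ex x D p q (fun l => (((l.length - 1 : ℕ) : ℝ) - t) ^ 2) := by
  obtain ⟨k, hk⟩ : ∃ k : ℕ, k = ⌊1 / (2 * c)⌋₊ := ⟨_, rfl⟩
  have k1 : (k : ℝ) ≤ 1 / (2 * c) := by rw [hk]; exact Nat.floor_le (by positivity)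
  have k2 : 1 / (2 * c) < k + 1 := by rw [hk]; exact Nat.lt_floor_add_one _
  have k3 : 1 ≤ 1 / (2 * c) := by rw [le_div_iff₀ (by positivity)]; linarith
  have k4 : 1 ≤ k := by rw [hk]; exact Nat.one_le_floor_iff _ |>.2 k3
  have k4' : (1 : ℝ) ≤ k := by exact_mod_cast k4
  have k5 : 1 / (4 * c) ≤ k := by
    have e : 1 / (2 * c) = 2 * (1 / (4 * c)) := by field_simp; norm_num
    rw [e] at k2
    linarith
  have k6 : k * c ≤ 1 / 2 := by
    have := mul_le_mul_of_nonneg_right k1 hc.le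
    refine this.trans (le_of_eq ?_)
    field_simp
  obtain ⟨g, hg⟩ : ∃ g : ℕ → ℝ, g = fun (n : ℕ) => if |(n : ℝ) - t| < k then (1 : ℝ) else 0 :=
    ⟨fun (n : ℕ) => if |(n : ℝ) - t| < k then (1 : ℝ) else 0, rfl⟩
  have hg01 : ∀ n, 0 ≤ g n ∧ g n ≤ 1 := by
    intro n; rw [hg]; dsimp only; split_ifs <;> norm_num
  have h1 := H.shift g hg01 k
  have h2 : Ex x D p q (fun l => g (l.length - 1)) ≤
      1 - Ex x D p q (fun l => g (l.length - 1 + 2 * k)) := by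
    rw [← Ex_one (x := x) (D := D) (p := p) (q := q) hZ, Ex_sub_x x hfin]
    refine Ex_mono_x hx hfin _ _ (fun l => ?_) hZ
    rw [hg]
    dsimp only
    split_ifs with c1 c2 c2
    · exfalso
      rw [abs_lt] at c1 c2
      push_cast at c2
      linarith [c1.1, c1.2, c2.1, c2.2]
    · norm_num
    · norm_num
    · norm_num
  have h3 : Ex x D p q (fun l => g (l.length - 1)) ≤ 3 / 4 := by
    have := (abs_le.1 h1).2
    linarith
  have h4 : (k : ℝ) ^ 2 * (1 - Ex x D p q (fun l => g (l.length - 1))) ≤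
      Ex x D p q (fun l => (((l.length - 1 : ℕ) : ℝ) - t) ^ 2) := by
    rw [← Ex_one (x := x) (D := D) (p := p) (q := q) hZ, Ex_sub_x x hfin, ← Ex_mul hfin]
    refine Ex_mono_x hx hfin _ _ (fun l => ?_) hZ
    rw [hg]
    dsimp only
    split_ifs with c1
    · rw [sub_self, mul_zero]
      positivity
    · rw [sub_zero, mul_one, ← sq_abs (((l.length - 1 : ℕ) : ℝ) - t)]
      exact pow_le_pow_left₀ (by positivity) (not_lt.1 c1) 2
  have h5 : (k : ℝ) ^ 2 * (1 / 4) ≤ (k : ℝ) ^ 2 * (1 - Ex x D p q (fun l => g (l.length - 1))) :=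
    mul_le_mul_of_nonneg_left (by linarith) (by positivity)
  refine le_trans ?_ (h5.trans h4)
  have h6 : (1 / (4 * c)) ^ 2 ≤ (k : ℝ) ^ 2 := pow_le_pow_left₀ (by positivity) k5 2
  calc 1 / (64 * c ^ 2) = (1 / (4 * c)) ^ 2 * (1 / 4) := by field_simp; norm_num
    _ ≤ _ := by linarith

end Pool.Agent.R965.HP
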