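import Pool.Agent.R965.HP.SupDens

/-!
# Walks in the discretisations of a domain, at the fugacities of an interval `[x_c, x_1]`
-/

set_option autoImplicit false

namespace Pool.Agent.R965.HP

open Filter Topology
open scoped ENNReal

theorem dom_base (W : Set ℂ) (hW : IsOpen W) (hc : IsConnected W) (a b : ℂ) (hab : a ≠ b)
    (ε ε' : ℝ) (hε : ε = 1 ∨ ε = -1) (hε' : ε' = 1 ∨ ε' = -1) (r : ℝ) (hr : 0 < r)
    (ha : Pool.Agent.W832.HR.HD a ε r ⊆ W) (hb : Pool.Agent.W832.HR.HD b ε' r ⊆ W) (M : ℝ) :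
    ∃ K : Set ℂ, K ⊆ W ∧ IsCompact K ∧ ∃ (C0 : ℕ) (C : ℝ), 1 ≤ C ∧ ∀ δ : ℝ, 0 < δ → C * δ ≤ 1 →
      ∀ (D : Set (ℤ × ℤ)) (p q : ℤ × ℤ), Pool.Agent.W832.HR.Bd ε p →
      Pool.Agent.W832.HR.Bd ε' q → C * ‖(δ : ℂ) * Pool.Agent.W832.HR.emb p - a‖ ≤ 1 →
      C * ‖(δ : ℂ) * Pool.Agent.W832.HR.emb q - b‖ ≤ 1 →
      (∀ v : ℤ × ℤ, (δ : ℂ) * Pool.Agent.W832.HR.emb v ∈ K → v ∈ D) →
      Pool.Agent.W832.HR.Hd δ ε r p ⊆ D → Pool.Agent.W832.HR.Hd δ ε' r q ⊆ D →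
      (∀ v ∈ D, ‖(δ : ℂ) * Pool.Agent.W832.HR.emb v‖ ≤ M) →
      D.Finite ∧ p ∈ D ∧ ‖a - b‖ / 2 ≤ δ * ‖eb p - eb q‖ ∧ δ ^ C0 ≤ Zr xr D p q := by
  obtain ⟨K, hK1, hK2, C0, hC0, h⟩ := Pool.Agent.W832.HR.domain_two_point W hW hc a b hab ε ε'
    hε hε' r hr ha hb
  have hab' : 0 < ‖a - b‖ := norm_pos_iff.2 (sub_ne_zero.2 hab)
  have hC0' : (1 : ℝ) ≤ C0 := by exact_mod_cast hC0
  have h4 : 0 ≤ 4 / ‖a - b‖ := by positivity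
  refine ⟨K, hK1, hK2, C0, C0 + 4 / ‖a - b‖, by linarith, ?_⟩
  intro δ hδ hCδ D p q hp hq hpa hqb hKD hpD hqD hDM
  have hfin := bounded_finite hδ hDM
  have n1 := norm_nonneg ((δ : ℂ) * Pool.Agent.W832.HR.emb p - a)
  have n2 := norm_nonneg ((δ : ℂ) * Pool.Agent.W832.HR.emb q - b)
  have hZ := h δ hδ (by nlinarith) D p q hp hq (by nlinarith) (by nlinarith) hKD hpD hqD
  have hZ' : Pool.Agent.W832.HR.Z D p q = ENNReal.ofReal (Zr xr D p q) := Z_eq hfin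
  rw [hZ'] at hZ
  have hδC : 0 < δ ^ C0 := by positivity
  have hZp : 0 < Zr xr D p q := by
    by_contra hcon
    rw [ENNReal.ofReal_of_nonpos (not_lt.1 hcon)] at hZ
    have := ENNReal.ofReal_pos.2 hδC
    exact absurd hZ (not_le.2 this)
  have hZl : δ ^ C0 ≤ Zr xr D p q := (ENNReal.ofReal_le_ofReal_iff hZp.le).1 hZ
  have hpD' : p ∈ D := by
    refine hpD ?_
    show ‖(δ : ℂ) * Pool.Agent.W832.HR.emb p - δ * Pool.Agent.W832.HR.emb p‖ < r ∧ _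
    rw [sub_self, norm_zero, sub_self, mul_zero]
    exact ⟨hr, le_rfl⟩
  have hdist : ‖a - b‖ / 2 ≤ δ * ‖eb p - eb q‖ := by
    have e1 : δ * ‖eb p - eb q‖ = ‖(δ : ℂ) * Pool.Agent.W832.HR.emb p -
        (δ : ℂ) * Pool.Agent.W832.HR.emb q‖ := by
      rw [← mul_sub, norm_mul, Complex.norm_real, Real.norm_of_nonneg hδ.le]
      rfl
    rw [e1]
    have t1 : 4 / ‖a - b‖ * ‖(δ : ℂ) * Pool.Agent.W832.HR.emb p - a‖ ≤ 1 := by nlinarith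
    have t2 : 4 / ‖a - b‖ * ‖(δ : ℂ) * Pool.Agent.W832.HR.emb q - b‖ ≤ 1 := by nlinarith
    rw [div_mul_eq_mul_div, div_le_one hab'] at t1 t2
    have t3 : ‖a - b‖ ≤ ‖(δ : ℂ) * Pool.Agent.W832.HR.emb p - a‖ +
        ‖(δ : ℂ) * Pool.Agent.W832.HR.emb p - (δ : ℂ) * Pool.Agent.W832.HR.emb q‖ +
        ‖(δ : ℂ) * Pool.Agent.W832.HR.emb q - b‖ := by
      have e2 : a - b = -((δ : ℂ) * Pool.Agent.W832.HR.emb p - a) +
          ((δ : ℂ) * Pool.Agent.W832.HR.emb p - (δ : ℂ) * Pool.Agent.W832.HR.emb q) +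
          ((δ : ℂ) * Pool.Agent.W832.HR.emb q - b) := by ring
      conv_lhs => rw [e2]
      refine (norm_add_le _ _).trans (add_le_add ((norm_add_le _ _).trans
        (add_le_add (le_of_eq (norm_neg _)) le_rfl)) le_rfl)
    linarith
  exact ⟨hfin, hpD', hdist, hZl⟩

/-- **all the conclusions** -/
theorem sup_core : ∃ (X : ℝ) (N : ℕ), xr < X ∧ 1 ≤ N ∧
    ∀ (W : Set ℂ), IsOpen W → IsConnected W → ∀ (a b : ℂ), a ≠ b →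
    ∀ (ε ε' : ℝ), (ε = 1 ∨ ε = -1) → (ε' = 1 ∨ ε' = -1) → ∀ (r : ℝ), 0 < r →
    Pool.Agent.W832.HR.HD a ε r ⊆ W → Pool.Agent.W832.HR.HD b ε' r ⊆ W → ∀ (M : ℝ),
    ∃ K : Set ℂ, K ⊆ W ∧ IsCompact K ∧ ∃ C : ℝ, 1 ≤ C ∧ ∀ δ : ℝ, 0 < δ → C * δ ≤ 1 →
      ∀ (D : Set (ℤ × ℤ)) (p q : ℤ × ℤ), Pool.Agent.W832.HR.Bd ε p →
      Pool.Agent.W832.HR.Bd ε' q → C * ‖(δ : ℂ) * Pool.Agent.W832.HR.emb p - a‖ ≤ 1 →
      C * ‖(δ : ℂ) * Pool.Agent.W832.HR.emb q - b‖ ≤ 1 →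
      (∀ v : ℤ × ℤ, (δ : ℂ) * Pool.Agent.W832.HR.emb v ∈ K → v ∈ D) →
      Pool.Agent.W832.HR.Hd δ ε r p ⊆ D → Pool.Agent.W832.HR.Hd δ ε' r q ⊆ D →
      (∀ v ∈ D, ‖(δ : ℂ) * Pool.Agent.W832.HR.emb v‖ ≤ M) →
      ∀ x : ℝ, xr ≤ x → x ≤ X →
      (Tj D p q).Finite ∧ 0 < Zr x D p q ∧ ConclX x (C * √δ) D p q ∧
        (∀ t : ℝ, 1 / (C * δ) ≤ Ex x D p q (fun l => (((l.length - 1 : ℕ) : ℝ) - t) ^ 2)) ∧
        Ex x D p q (fewH N D) ≤ Real.exp (-(1 / (C * δ))) ∧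
        ∀ t : ℝ, 0 < t → t ≤ 1 → Ex x D p q (farX ((1 / x) ^ 2) D t) ≤ C * δ / t ^ 2 := by
  obtain ⟨X1, hX1, hcore0⟩ := core_x
  obtain ⟨N, C4, θ, X2, hN, hC4, hθ0, hθ1, hX2, hdens⟩ := hex_dens_x
  refine ⟨min X1 X2, N, lt_min hX1 hX2, hN,
    fun W hW hc a b hab ε ε' hε hε' r hr ha hb M => ?_⟩
  obtain ⟨K, hK1, hK2, C0, C1, hC1, h⟩ := dom_base W hW hc a b hab ε ε' hε hε' r hr ha hb M
  have hab' : 0 < ‖a - b‖ := norm_pos_iff.2 (sub_ne_zero.2 hab)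
  obtain ⟨C2, hC2, hcore⟩ := hcore0 (‖a - b‖ / 2) (by positivity) C0
  obtain ⟨C3, κ, hC3, hκ, hgeo⟩ := geo_len (‖a - b‖ / 2) (by positivity)
  obtain ⟨C5, hC5, hexp⟩ := exp_sup C4 θ κ C0 hC4 hθ0 hθ1 hκ
  have hC22 : C2 ≤ 64 * C2 ^ 2 := by nlinarith
  refine ⟨K, hK1, hK2, C1 + 64 * C2 ^ 2 + C3 + C5, by nlinarith, ?_⟩
  intro δ hδ hCδ D p q hp hq hpa hqb hKD hpD hqD hDM x hx1 hx2
  have n1 := norm_nonneg ((δ : ℂ) * Pool.Agent.W832.HR.emb p - a)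
  have n2 := norm_nonneg ((δ : ℂ) * Pool.Agent.W832.HR.emb q - b)
  have s2 : 0 ≤ C2 ^ 2 := sq_nonneg _
  obtain ⟨hfin, hpD', hdist, hZ⟩ := h δ hδ (by nlinarith) D p q hp hq (by nlinarith)
    (by nlinarith) hKD hpD hqD hDM
  have htj : (Tj D p q).Finite := tj_finite hfin
  have hZm : Zr xr D p q ≤ Zr x D p q := Zr_mono xr_pos hx1 htj
  have hZl : δ ^ C0 ≤ Zr x D p q := hZ.trans hZm
  have hZp : 0 < Zr x D p q := lt_of_lt_of_le (by positivity) hZl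
  have hx0 : 0 < x := lt_of_lt_of_le xr_pos hx1
  have hδ2 : 64 * C2 ^ 2 * δ ≤ 1 := by nlinarith
  obtain ⟨hc1, hlln⟩ := hcore δ hδ (by nlinarith) x hx1 (hx2.trans (min_le_left _ _)) D hfin p q
    hpD' hdist hZl
  obtain ⟨m, hm1, hm2⟩ := hgeo δ hδ (by nlinarith) D p q hdist
  have hd := hdens x hx1 (hx2.trans (min_le_right _ _)) D hfin p q m hpD' hm2 hZp
  have he := hexp δ hδ (by nlinarith) m hm1 (Zr x D p q) hZl
  refine ⟨htj, hZp, ?_, ?_, ?_, ?_⟩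
  · intro f f' η hη hf hf' hff
    refine (hc1 f f' η hη hf hf' hff).trans (add_le_add ?_ le_rfl)
    exact mul_le_mul_of_nonneg_right (by linarith) (Real.sqrt_nonneg _)
  · intro t
    have hsd : 0 < √δ := Real.sqrt_pos.2 hδ
    have hsq : (C2 * √δ) ^ 2 = C2 ^ 2 * δ := by rw [mul_pow, Real.sq_sqrt hδ.le]
    have h1 : 2 * (C2 * √δ) ≤ 1 := by
      have h2 : (2 * (C2 * √δ)) ^ 2 ≤ 1 ^ 2 := by
        rw [mul_pow, hsq]
        nlinarith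
      exact (pow_le_pow_iff_left₀ (by positivity) zero_le_one two_ne_zero).1 h2
    have h3 := ConclX.second hc1 hx0 htj hZp (by positivity) h1 t
    refine le_trans ?_ h3
    rw [hsq]
    refine one_div_le_one_div_of_le (by positivity) ?_
    have : 64 * C2 ^ 2 * δ ≤ (C1 + 64 * C2 ^ 2 + C3 + C5) * δ :=
      mul_le_mul_of_nonneg_right (by linarith) hδ.le
    linarith
  · refine hd.trans (he.trans (Real.exp_le_exp.2 (neg_le_neg ?_)))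
    refine one_div_le_one_div_of_le (by positivity) ?_
    exact mul_le_mul_of_nonneg_right (by nlinarith) hδ.le
  · intro t ht ht1
    refine (hlln t ht ht1).trans
      (div_le_div_of_nonneg_right (mul_le_mul_of_nonneg_right (by linarith) hδ.le)
        (by positivity))

end Pool.Agent.R965.HP
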