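import Pool.Agent.R965.HP.SupTwo
import Pool.Agent.R965.HP.HexDom

/-!
# Walks on the honeycomb lattice at fugacities in an interval above the critical one
-/

set_option autoImplicit false

namespace Pool.Agent.R965.HP

open Finset Filter Topology TH966.KS TH966.AK
open scoped Classical

variable {D : Set (ℤ × ℤ)} {p q : ℤ × ℤ}

/-- **the main inequality on the honeycomb lattice** -/
theorem hex_main_x : ∃ C θ X : ℝ, 1 ≤ C ∧ 0 < θ ∧ θ < 1 ∧ xr < X ∧ ∀ x : ℝ, xr ≤ x → x ≤ X →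
    ∀ (D : Set (ℤ × ℤ)), D.Finite →
    ∀ (p q : ℤ × ℤ) (m : ℕ), p ∈ D → C ≤ m → (∀ l ∈ Tj D p q, m < l.length) →
      0 < Zr x D p q →
      ∀ (f f' : List (ℤ × ℤ) → ℝ) (η : ℝ), 0 ≤ η → (∀ l, 0 ≤ f l ∧ f l ≤ 1) →
      (∀ l, 0 ≤ f' l ∧ f' l ≤ 1) →
      (∀ l ∈ Tj D p q, ∀ l' ∈ Tj D p q, Fl l l' → |f l' - f' l| ≤ η) →
      |Ex x D p q f -
        Ex x D p q f'| ≤
        C * √(1 / m + θ ^ m / Zr x D p q) + η := by
  obtain ⟨C, θ, X, hC, hθ0, hθ1, hX, h⟩ := two_step_x Hex.rule (@H982.one_le_mu H982P.hexL) hex_poor hex_hup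
  rw [Pool.Agent.H976R3.HPL.mu_hex] at h hX
  refine ⟨C, θ, X, hC, hθ0, hθ1, hX, fun x hx1 hx2 D hD p q m hp hm hmin hZ f f' η hη hf hf'
    hff => ?_⟩
  obtain ⟨L, hmax⟩ := exists_max (q := q) hp hD
  have h1 := h x hx1 hx2 (fun x => hexMot.τ p x ∈ D) (D_zero hp) (hexMot.σ p q) m L hm (by
    intro n hn
    rw [Finset.eq_empty_iff_forall_notMem]
    intro w hw
    obtain ⟨h6, h7⟩ := tau_mem (D := D) (p := p) (q := q) hp (n := n) (w := w) hw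
    have := hmin _ h6
    omega) hmax
  change 0 < gc (YY D p q) x L (fun _ _ => 1) → _ at h1
  rw [← Zr_eq hp hmax] at h1
  have h2 := h1 hZ
  change ∀ f f' : List P → ℝ,
      (∀ n, ∀ w ∈ (YY D p q).K n, 0 ≤ f w ∧ f w ≤ 1) →
      (∀ n, ∀ w ∈ (YY D p q).K n, 0 ≤ f' w ∧ f' w ≤ 2) →
      (∀ n, ∀ w ∈ (YY D p q).K n, ∀ r ∈ (YY D p q).S w, f ((YY D p q).ins w r) ≤ f' w) →
      gc (YY D p q) x L (fun _ => f) /
        gc (YY D p q) x L (fun _ _ => 1) ≤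
        gc (YY D p q) x L (fun _ => f') /
          gc (YY D p q) x L (fun _ _ => 1) +
        C * √(1 / m + θ ^ m / gc (YY D p q) x L
          (fun _ _ => 1)) at h2
  rw [← Zr_eq hp hmax x] at h2
  have hEx : ∀ g : List (ℤ × ℤ) → ℝ, Ex x D p q g =
      gc (YY D p q) x L (fun _ w => g (w.map (hexMot.τ p))) / Zr x D p q := by
    intro g
    unfold Ex
    rw [fin_sum hp hmax]
  have hx0 : 0 < x := lt_of_lt_of_le xr_pos hx1
  have hgc0 : ∀ g : List (ℤ × ℤ) → ℝ, (∀ l, 0 ≤ g l) →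
      0 ≤ gc (YY D p q) x L (fun _ w => g (w.map (hexMot.τ p))) := by
    intro g hg
    unfold gc
    exact sum_nonneg fun n _ => mul_nonneg (by positivity) (sum_nonneg fun w _ => hg _)
  have hgc1 : ∀ (g : List (ℤ × ℤ) → ℝ) (c d : ℝ),
      gc (YY D p q) x L (fun _ w => c * g (w.map (hexMot.τ p)) + d) =
        c * gc (YY D p q) x L (fun _ w => g (w.map (hexMot.τ p))) + d * Zr x D p q := by
    intro g c d
    rw [Zr_eq hp hmax]
    unfold gc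
    rw [mul_sum, mul_sum, ← sum_add_distrib]
    refine sum_congr rfl fun n _ => ?_
    rw [sum_add_distrib, ← mul_sum, sum_const, sum_const, nsmul_eq_mul, nsmul_eq_mul]
    ring
  have hE01 : ∀ g : List (ℤ × ℤ) → ℝ, (∀ l, 0 ≤ g l ∧ g l ≤ 1) →
      0 ≤ Ex x D p q g ∧ Ex x D p q g ≤ 1 := by
    intro g hg
    rw [hEx]
    refine ⟨div_nonneg (hgc0 g fun l => (hg l).1) hZ.le, ?_⟩
    rw [div_le_one hZ, Zr_eq hp hmax]
    unfold gc
    exact sum_le_sum fun n _ => mul_le_mul_of_nonneg_left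
      (sum_le_sum fun w _ => (hg _).2) (by positivity)
  have hsq0 : 0 ≤ C * √(1 / m + θ ^ m / Zr x D p q) := by positivity
  by_cases hη1 : 1 < η
  · have a1 := hE01 f hf
    have a2 := hE01 f' hf'
    rw [abs_le]
    constructor <;> linarith
  have hη1' := not_lt.1 hη1
  have hmem : ∀ n, ∀ w ∈ (YY D p q).K n, ∀ r ∈ (YY D p q).S w,
      |f (((YY D p q).ins w r).map (hexMot.τ p)) - f' (w.map (hexMot.τ p))| ≤ η := by
    intro n w hw r hr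
    refine hff _ (tau_mem hp hw).1 _ (tau_mem hp ((YY D p q).ins_K n w r hw hr)).1
      (ins_fl hp hw hr)
  have b1 := h2 (fun w => f (w.map (hexMot.τ p))) (fun w => 1 * f' (w.map (hexMot.τ p)) + η)
    (fun n w _ => hf _) (fun n w _ => by
      have := hf' (w.map (hexMot.τ p))
      constructor <;> linarith) (fun n w hw r hr => by
      have := (abs_le.1 (hmem n w hw r hr)).2
      linarith)
  have b2 := h2 (fun w => (-1) * f (w.map (hexMot.τ p)) + 1)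
    (fun w => (-1) * f' (w.map (hexMot.τ p)) + (1 + η))
    (fun n w _ => by
      have := hf (w.map (hexMot.τ p))
      constructor <;> linarith) (fun n w _ => by
      have := hf' (w.map (hexMot.τ p))
      constructor <;> linarith) (fun n w hw r hr => by
      have := (abs_le.1 (hmem n w hw r hr)).1
      linarith)
  rw [hgc1 f' 1 η, ← hEx, add_div, mul_div_assoc, mul_div_assoc, ← hEx, div_self hZ.ne'] at b1
  rw [hgc1 f (-1) 1, hgc1 f' (-1) (1 + η), add_div, add_div, mul_div_assoc, mul_div_assoc,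
    mul_div_assoc, mul_div_assoc, ← hEx, ← hEx, div_self hZ.ne'] at b2
  rw [abs_le]
  constructor <;> linarith

/-- the quotient of the numbers of moves is not close to `c` -/
noncomputable def farX (c : ℝ) (D : Set (ℤ × ℤ)) (t : ℝ) (l : List (ℤ × ℤ)) : ℝ :=
  if |((upS D l).ncard : ℝ) - c * ((dnS D l).ncard : ℝ)| ≤
    t * ((dnS D l).ncard : ℝ) ∧ 0 < (dnS D l).ncard then 0 else 1

/-- **the quotient of the numbers of moves on the honeycomb lattice** -/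
theorem hex_lln_x : ∃ C θ X : ℝ, 1 ≤ C ∧ 0 < θ ∧ θ < 1 ∧ xr < X ∧ ∀ x : ℝ, xr ≤ x → x ≤ X →
    ∀ (D : Set (ℤ × ℤ)), D.Finite →
    ∀ (p q : ℤ × ℤ) (m : ℕ), p ∈ D → C ≤ m → (∀ l ∈ Tj D p q, m < l.length) →
      0 < Zr x D p q → ∀ t : ℝ, 0 < t → t ≤ 1 →
      Ex x D p q (farX ((1 / x) ^ 2) D t) ≤ C * (1 / m + θ ^ m / Zr x D p q) / t ^ 2 := by
  obtain ⟨C, θ, X, hC, hθ0, hθ1, hX, h⟩ := two_lln_x Hex.rule (@H982.one_le_mu H982P.hexL)
    hex_poor hex_hup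
  rw [Pool.Agent.H976R3.HPL.mu_hex] at h hX
  refine ⟨C, θ, X, hC, hθ0, hθ1, hX, fun x hx1 hx2 D hD p q m hp hm hmin hZ t ht ht1 => ?_⟩
  obtain ⟨L, hmax⟩ := exists_max (q := q) hp hD
  have h1 := h x hx1 hx2 (fun x => hexMot.τ p x ∈ D) (D_zero hp) (hexMot.σ p q) m L hm (by
    intro n hn
    rw [Finset.eq_empty_iff_forall_notMem]
    intro w hw
    obtain ⟨h6, h7⟩ := tau_mem (D := D) (p := p) (q := q) hp (n := n) (w := w) hw
    have := hmin _ h6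
    omega) hmax
  change 0 < gc (YY D p q) x L (fun _ _ => 1) → ∀ t : ℝ, 0 < t → t ≤ 1 →
      gc (YY D p q) x L (fun _ => far (YY D p q) ((1 / x) ^ 2) t) /
        gc (YY D p q) x L (fun _ _ => 1) ≤
        C * (1 / m + θ ^ m / gc (YY D p q) x L (fun _ _ => 1)) / t ^ 2 at h1
  rw [← Zr_eq hp hmax] at h1
  have h2 := h1 hZ t ht ht1
  refine le_trans (le_of_eq ?_) h2
  unfold Ex
  rw [fin_sum hp hmax]
  congr 1
  unfold gc
  refine sum_congr rfl fun n _ => ?_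
  congr 1
  refine sum_congr rfl fun w hw => ?_
  have hw' := ((mem_YY hp).1 hw).2.1
  show farX ((1 / x) ^ 2) D t (w.map (hexMot.τ p)) = far (YY D p q) ((1 / x) ^ 2) t w
  unfold farX far
  rw [upS_card (q := q) hw', dnS_card (q := q) hw']

/-- the choice of the minimal number of steps -/
theorem geo_x (C1 θ : ℝ) (hC1 : 1 ≤ C1) (hθ0 : 0 < θ) (hθ1 : θ < 1) (d : ℝ) (hd : 0 < d) (C0 : ℕ) :
    ∃ C : ℝ, 1 ≤ C ∧ ∀ δ : ℝ, 0 < δ → C * δ ≤ 1 → ∀ (x : ℝ)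
    (D : Set (ℤ × ℤ)) (p q : ℤ × ℤ), d ≤ δ * ‖eb p - eb q‖ →
      δ ^ C0 ≤ Zr x D p q → ∃ m : ℕ, C1 ≤ m ∧ (∀ l ∈ Tj D p q, m < l.length) ∧
        1 / m + θ ^ m / Zr x D p q ≤ C * δ := by
  obtain ⟨κ, hκ⟩ : ∃ κ : ℝ, κ = d / 12 := ⟨_, rfl⟩
  have hκ0 : 0 < κ := by rw [hκ]; positivity
  have ht : Tendsto (fun n : ℕ => (n : ℝ) ^ (C0 + 1) * θ ^ n) atTop (𝓝 0) :=
    tendsto_pow_const_mul_const_pow_of_abs_lt_one (C0 + 1) (by rw [abs_of_pos hθ0]; exact hθ1)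
  obtain ⟨m0, hm0⟩ := eventually_atTop.1 (ht.eventually_le_const
    (show (0 : ℝ) < κ ^ (C0 + 1) by positivity))
  have h1 : 0 ≤ 1 / κ := by positivity
  have h2 : 0 ≤ 12 / d := by positivity
  have h3 : 0 ≤ (m0 + C1) / κ := by positivity
  refine ⟨(1 / κ + 1) + 12 / d + (m0 + C1) / κ + 1, by linarith,
    fun δ hδ hCδ x D p q hpq hZ => ?_⟩
  have g1 : 12 / d * δ ≤ 1 := by nlinarith
  have g2 : (m0 + C1) / κ * δ ≤ 1 := by nlinarith
  have g3 : 12 * δ ≤ d := by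
    rw [div_mul_eq_mul_div, div_le_one hd] at g1
    exact g1
  have g4 : (m0 + C1) * δ ≤ κ := by
    rw [div_mul_eq_mul_div, div_le_one hκ0] at g2
    exact g2
  obtain ⟨m, hm⟩ : ∃ m : ℕ, m = ⌊d / (6 * δ)⌋₊ := ⟨_, rfl⟩
  have hm1 : (m : ℝ) ≤ d / (6 * δ) := by rw [hm]; exact Nat.floor_le (by positivity)
  have hm2 : d / (6 * δ) < m + 1 := by rw [hm]; exact Nat.lt_floor_add_one _
  have hm3 : κ ≤ m * δ := by
    have h4 : d / (6 * δ) * δ = d / 6 := by field_simp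
    have h5 : d / (6 * δ) * δ < (m + 1) * δ := mul_lt_mul_of_pos_right hm2 hδ
    rw [h4] at h5
    rw [hκ]
    linarith
  have hm4 : (m0 : ℝ) + C1 ≤ m := by
    have h4 : ((m0 : ℝ) + C1) * δ ≤ m * δ := g4.trans hm3
    exact le_of_mul_le_mul_right h4 hδ
  have hm0m : m0 ≤ m := by
    have : (m0 : ℝ) ≤ m := by linarith
    exact_mod_cast this
  have hC1m : C1 ≤ m := by
    have : (0 : ℝ) ≤ m0 := Nat.cast_nonneg _
    linarith
  have hmp : (0 : ℝ) < m := by linarith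
  have hZp : 0 < Zr x D p q := lt_of_lt_of_le (by positivity) hZ
  refine ⟨m, hC1m, ?_, ?_⟩
  · intro l hl
    obtain ⟨h6, h7⟩ := tj_dist hl
    have h8 : d ≤ δ * (3 * ((l.length : ℝ) - 1) + 1) :=
      hpq.trans (mul_le_mul_of_nonneg_left h6 hδ.le)
    have h9 : (m : ℝ) ≤ (l.length : ℝ) - 1 := by
      refine hm1.trans ?_
      rw [div_le_iff₀ (by positivity)]
      nlinarith
    have h10 : (m : ℝ) < l.length := by linarith
    exact_mod_cast h10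
  have k1 : 1 / (m : ℝ) ≤ 1 / κ * δ := by
    rw [div_mul_eq_mul_div, one_mul, div_le_div_iff₀ hmp hκ0]
    linarith
  have k2 : θ ^ m ≤ δ ^ (C0 + 1) := by
    have h6 := hm0 m hm0m
    have h7 : κ ^ (C0 + 1) ≤ (m : ℝ) ^ (C0 + 1) * δ ^ (C0 + 1) := by
      rw [← mul_pow]
      exact pow_le_pow_left₀ hκ0.le hm3 _
    exact le_of_mul_le_mul_left (h6.trans h7) (by positivity)
  have k3 : θ ^ m / Zr x D p q ≤ δ := by
    rw [div_le_iff₀ hZp]
    calc θ ^ m ≤ δ ^ (C0 + 1) := k2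
      _ = δ * δ ^ C0 := by rw [pow_succ]; ring
      _ ≤ δ * Zr x D p q := mul_le_mul_of_nonneg_left hZ hδ.le
  calc 1 / m + θ ^ m / Zr x D p q ≤ 1 / κ * δ + δ := add_le_add k1 k3
    _ = (1 / κ + 1) * δ := by ring
    _ ≤ _ := mul_le_mul_of_nonneg_right (by linarith) hδ.le


/-- the conclusion -/
def ConclX (x c : ℝ) (D : Set (ℤ × ℤ)) (p q : ℤ × ℤ) : Prop :=
  ∀ (f f' : List (ℤ × ℤ) → ℝ) (η : ℝ), 0 ≤ η → (∀ l, 0 ≤ f l ∧ f l ≤ 1) →
    (∀ l, 0 ≤ f' l ∧ f' l ≤ 1) →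
    (∀ l ∈ Tj D p q, ∀ l' ∈ Tj D p q, Fl l l' → |f l' - f' l| ≤ η) →
    |Ex x D p q f - Ex x D p q f'| ≤ c + η

theorem core_x : ∃ X : ℝ, xr < X ∧ ∀ (d : ℝ), 0 < d → ∀ (C0 : ℕ), ∃ C : ℝ, 1 ≤ C ∧
    ∀ δ : ℝ, 0 < δ → C * δ ≤ 1 → ∀ x : ℝ, xr ≤ x → x ≤ X →
    ∀ (D : Set (ℤ × ℤ)), D.Finite → ∀ p q : ℤ × ℤ, p ∈ D → d ≤ δ * ‖eb p - eb q‖ →
      δ ^ C0 ≤ Zr x D p q → ConclX x (C * √δ) D p q ∧ ∀ t : ℝ, 0 < t → t ≤ 1 →
        Ex x D p q (farX ((1 / x) ^ 2) D t) ≤ C * δ / t ^ 2 := by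
  obtain ⟨C1, θ1, X1, hC1, hθ10, hθ11, hX1, h1⟩ := hex_main_x
  obtain ⟨C2, θ2, X2, hC2, hθ20, hθ21, hX2, h2⟩ := hex_lln_x
  refine ⟨min X1 X2, lt_min hX1 hX2, fun d hd C0 => ?_⟩
  obtain ⟨G1, hG1, g1⟩ := geo_x C1 θ1 hC1 hθ10 hθ11 d hd C0
  obtain ⟨G2, hG2, g2⟩ := geo_x C2 θ2 hC2 hθ20 hθ21 d hd C0
  have e1 : 0 ≤ C1 * G1 := by positivity
  have e2 : 0 ≤ C2 * G2 := by positivity
  have e3 : 0 ≤ C1 * √G1 := by positivity
  refine ⟨C1 * G1 + C2 * G2 + C1 * √G1 + G1 + G2, by linarith,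
    fun δ hδ hCδ x hx1 hx2 D hD p q hp hpq hZ => ?_⟩
  have hx0 : 0 < x := lt_of_lt_of_le xr_pos hx1
  have hZp : 0 < Zr x D p q := lt_of_lt_of_le (by positivity) hZ
  constructor
  · obtain ⟨m, h3, h4, h5⟩ := g1 δ hδ (by nlinarith) x D p q hpq hZ
    intro f f' η hη hf hf' hff
    have h6 := h1 x hx1 (hx2.trans (min_le_left _ _)) D hD p q m hp h3 h4 hZp f f' η hη hf hf' hff
    refine h6.trans (add_le_add ?_ le_rfl)
    have h7 : √(1 / m + θ1 ^ m / Zr x D p q) ≤ √G1 * √δ := by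
      rw [← Real.sqrt_mul (by linarith)]
      exact Real.sqrt_le_sqrt h5
    calc C1 * √(1 / m + θ1 ^ m / Zr x D p q) ≤ C1 * (√G1 * √δ) :=
          mul_le_mul_of_nonneg_left h7 (by linarith)
      _ = C1 * √G1 * √δ := by ring
      _ ≤ _ := mul_le_mul_of_nonneg_right (by linarith) (Real.sqrt_nonneg _)
  · intro t ht ht1
    obtain ⟨m, h3, h4, h5⟩ := g2 δ hδ (by nlinarith) x D p q hpq hZ
    have h6 := h2 x hx1 (hx2.trans (min_le_right _ _)) D hD p q m hp h3 h4 hZp t ht ht1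
    refine h6.trans (div_le_div_of_nonneg_right ?_ (by positivity))
    calc C2 * (1 / m + θ2 ^ m / Zr x D p q) ≤ C2 * (G2 * δ) :=
          mul_le_mul_of_nonneg_left h5 (by linarith)
      _ = C2 * G2 * δ := by ring
      _ ≤ _ := mul_le_mul_of_nonneg_right (by linarith) hδ.le

/-- shifts of the number of steps -/
theorem ConclX.shift {x c : ℝ} (H : ConclX x c D p q) (h : ℕ → ℝ)
    (hh : ∀ n, 0 ≤ h n ∧ h n ≤ 1) (k : ℕ) : |Ex x D p q (fun l => h (l.length - 1)) -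
      Ex x D p q (fun l => h (l.length - 1 + 2 * k))| ≤ k * c := by
  induction k with
  | zero => simp
  | succ k ih =>
    have h1 := H (fun l => h (l.length - 1 + 2 * k)) (fun l => h (l.length - 1 + 2 * (k + 1))) 0
      le_rfl (fun l => hh _) (fun l => hh _) (fun l _ l' _ hl => by
        rw [fl_len hl, show l.length - 1 + 2 + 2 * k = l.length - 1 + 2 * (k + 1) by ring]
        simp)
    rw [add_zero] at h1
    have h2 := abs_sub_le (Ex x D p q (fun l => h (l.length - 1)))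
      (Ex x D p q (fun l => h (l.length - 1 + 2 * k)))
      (Ex x D p q (fun l => h (l.length - 1 + 2 * (k + 1))))
    push_cast
    linarith

theorem Ex_sub_x (x : ℝ) (hfin : (Tj D p q).Finite) (f g : List (ℤ × ℤ) → ℝ) :
    Ex x D p q f - Ex x D p q g = Ex x D p q (fun l => f l - g l) := by
  unfold Ex
  rw [← sub_div]
  congr 1
  rw [← finsum_mem_sub_distrib _ _ hfin]
  refine finsum_mem_congr rfl fun l _ => ?_
  ring

theorem Ex_mono_x {x : ℝ} (hx : 0 < x) (hfin : (Tj D p q).Finite) (f g : List (ℤ × ℤ) → ℝ)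
    (h : ∀ l, f l ≤ g l) (hZ : 0 < Zr x D p q) : Ex x D p q f ≤ Ex x D p q g := by
  unfold Ex
  refine div_le_div_of_nonneg_right ?_ hZ.le
  rw [finsum_mem_eq_finite_toFinset_sum _ hfin, finsum_mem_eq_finite_toFinset_sum _ hfin]
  exact sum_le_sum fun l _ => mul_le_mul_of_nonneg_right (h l) (pow_nonneg hx.le _)

/-- the largest atom -/
theorem ConclX.atom {x c : ℝ} (H : ConclX x c D p q) (hx : 0 < x) (hfin : (Tj D p q).Finite)
    (hZ : 0 < Zr x D p q) (n : ℕ) :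
    Ex x D p q (fun l => if l.length - 1 = n then 1 else 0) ≤ c := by
  have h1 := H.shift (fun t => if n < t then 1 else 0) (fun t => by
    split_ifs <;> norm_num) 1
  rw [abs_sub_comm, Ex_sub_x x hfin, Nat.cast_one, one_mul, mul_one] at h1
  refine le_trans (Ex_mono_x hx hfin _ _ (fun l => ?_) hZ) ((le_abs_self _).trans h1)
  by_cases h2 : l.length - 1 = n
  · rw [if_pos h2, if_pos (by omega), if_neg (by omega)]
    norm_num
  · rw [if_neg h2]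
    split_ifs with h3 h4 <;> first | omega | norm_num

theorem Zr_mono {x y : ℝ} (hx : 0 < x) (hxy : x ≤ y) (hfin : (Tj D p q).Finite) :
    Zr x D p q ≤ Zr y D p q := by
  unfold Zr
  rw [finsum_mem_eq_finite_toFinset_sum _ hfin, finsum_mem_eq_finite_toFinset_sum _ hfin]
  exact sum_le_sum fun l _ => pow_le_pow_left₀ hx.le hxy _

theorem dom_core_x : ∃ X : ℝ, xr < X ∧
    ∀ (W : Set ℂ), IsOpen W → IsConnected W → ∀ (a b : ℂ), a ≠ b →
    ∀ (ε ε' : ℝ), (ε = 1 ∨ ε = -1) → (ε' = 1 ∨ ε' = -1) → ∀ (r : ℝ), 0 < r →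
    Pool.Agent.W832.HR.HD a ε r ⊆ W → Pool.Agent.W832.HR.HD b ε' r ⊆ W → ∀ (M : ℝ),
    ∃ K : Set ℂ, K ⊆ W ∧ IsCompact K ∧ ∃ C : ℝ, 1 ≤ C ∧ ∀ δ : ℝ, 0 < δ → C * δ ≤ 1 →
      ∀ (D : Set (ℤ × ℤ)) (p q : ℤ × ℤ), Pool.Agent.W832.HR.Bd ε p →
      Pool.Agent.W832.HR.Bd ε' q → C * ‖(δ : ℂ) * Pool.Agent.W832.HR.emb p - a‖ ≤ 1 →
      C * ‖(δ : ℂ) * Pool.Agent.W832.HR.emb q - b‖ ≤ 1 →
      (∀ v : ℤ × ℤ, (δ : ℂ) * Pool.Agent.W832.HR.emb v ∈ K → v ∈ D) →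
      Pool.Agent.W832.HR.Hd δ ε r p ⊆ D → Pool.Agent.W832.HR.Hd δ ε' r q ⊆ D →
      (∀ v ∈ D, ‖(δ : ℂ) * Pool.Agent.W832.HR.emb v‖ ≤ M) →
      ∀ x : ℝ, xr ≤ x → x ≤ X →
      (Tj D p q).Finite ∧ 0 < Zr x D p q ∧ ConclX x (C * √δ) D p q ∧
        ∀ t : ℝ, 0 < t → t ≤ 1 → Ex x D p q (farX ((1 / x) ^ 2) D t) ≤ C * δ / t ^ 2 := by
  obtain ⟨X, hX, hcore0⟩ := core_x
  refine ⟨X, hX, fun W hW hc a b hab ε ε' hε hε' r hr ha hb M => ?_⟩
  obtain ⟨K, hK1, hK2, C0, hC0, h⟩ := Pool.Agent.W832.HR.domain_two_point W hW hc a b hab ε ε'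
    hε hε' r hr ha hb
  have hab' : 0 < ‖a - b‖ := norm_pos_iff.2 (sub_ne_zero.2 hab)
  obtain ⟨C1, hC1, hcore⟩ := hcore0 (‖a - b‖ / 2) (by positivity) C0
  have hC0' : (1 : ℝ) ≤ C0 := by exact_mod_cast hC0
  have h4 : 0 ≤ 4 / ‖a - b‖ := by positivity
  refine ⟨K, hK1, hK2, C0 + C1 + 4 / ‖a - b‖, by linarith, ?_⟩
  intro δ hδ hCδ D p q hp hq hpa hqb hKD hpD hqD hDM x hx1 hx2
  have hfin := bounded_finite hδ hDM
  have n1 := norm_nonneg ((δ : ℂ) * Pool.Agent.W832.HR.emb p - a)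
  have n2 := norm_nonneg ((δ : ℂ) * Pool.Agent.W832.HR.emb q - b)
  have hZ := h δ hδ (by nlinarith) D p q hp hq (by nlinarith) (by nlinarith) hKD hpD hqD
  have hZ' : Pool.Agent.W832.HR.Z D p q = ENNReal.ofReal (Zr xr D p q) := Z_eq hfin
  rw [hZ'] at hZ
  have hδC : 0 < δ ^ C0 := by positivity
  have hZp : 0 < Zr xr D p q := by
    by_contra hcon
    rw [ENNReal.ofReal_of_nonpos (not_lt.1 hcon)] at hZ
    have := ENNReal.ofReal_pos.2 hδC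
    exact absurd hZ (not_le.2 this)
  have hZl : δ ^ C0 ≤ Zr xr D p q := (ENNReal.ofReal_le_ofReal_iff hZp.le).1 hZ
  have hpD' : p ∈ D := by
    refine hpD ?_
    show ‖(δ : ℂ) * Pool.Agent.W832.HR.emb p - δ * Pool.Agent.W832.HR.emb p‖ < r ∧ _
    rw [sub_self, norm_zero, sub_self, mul_zero]
    exact ⟨hr, le_rfl⟩
  have hZm : Zr xr D p q ≤ Zr x D p q := Zr_mono xr_pos hx1 (tj_finite hfin)
  refine ⟨tj_finite hfin, hZp.trans_le hZm, ?_⟩
  have hCδ1 : C1 * δ ≤ 1 := by nlinarith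
  have hdist : ‖a - b‖ / 2 ≤ δ * ‖eb p - eb q‖ := by
    have e1 : δ * ‖eb p - eb q‖ = ‖(δ : ℂ) * Pool.Agent.W832.HR.emb p -
        (δ : ℂ) * Pool.Agent.W832.HR.emb q‖ := by
      rw [← mul_sub, norm_mul, Complex.norm_real, Real.norm_of_nonneg hδ.le]
      rfl
    rw [e1]
    have t1 : 4 / ‖a - b‖ * ‖(δ : ℂ) * Pool.Agent.W832.HR.emb p - a‖ ≤ 1 := by nlinarith
    have t2 : 4 / ‖a - b‖ * ‖(δ : ℂ) * Pool.Agent.W832.HR.emb q - b‖ ≤ 1 := by nlinarith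
    rw [div_mul_eq_mul_div, div_le_one hab'] at t1 t2
    have t3 : ‖a - b‖ ≤ ‖(δ : ℂ) * Pool.Agent.W832.HR.emb p - a‖ +
        ‖(δ : ℂ) * Pool.Agent.W832.HR.emb p - (δ : ℂ) * Pool.Agent.W832.HR.emb q‖ +
        ‖(δ : ℂ) * Pool.Agent.W832.HR.emb q - b‖ := by
      have e2 : a - b = -((δ : ℂ) * Pool.Agent.W832.HR.emb p - a) +
          ((δ : ℂ) * Pool.Agent.W832.HR.emb p - (δ : ℂ) * Pool.Agent.W832.HR.emb q) +
          ((δ : ℂ) * Pool.Agent.W832.HR.emb q - b) := by ring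
      conv_lhs => rw [e2]
      refine (norm_add_le _ _).trans (add_le_add ((norm_add_le _ _).trans
        (add_le_add (le_of_eq (norm_neg _)) le_rfl)) le_rfl)
    linarith
  obtain ⟨hc1, hlln⟩ := hcore δ hδ hCδ1 x hx1 hx2 D hfin p q hpD' hdist (hZl.trans hZm)
  refine ⟨?_, fun t ht ht1 => ?_⟩
  · intro f f' η hη hf hf' hff
    refine (hc1 f f' η hη hf hf' hff).trans (add_le_add ?_ le_rfl)
    exact mul_le_mul_of_nonneg_right (by linarith) (Real.sqrt_nonneg _)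
  · refine (hlln t ht ht1).trans
      (div_le_div_of_nonneg_right (mul_le_mul_of_nonneg_right (by linarith) hδ.le)
        (by positivity))

end Pool.Agent.R965.HP
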