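import Pool.Agent.R965.HP.TwoLLN

/-!
# The two-point ensemble at supercritical fugacities close to the critical one
-/

set_option autoImplicit false

namespace Pool.Agent.R965.HP

open Finset Filter Topology TH966.KS TH966.AK
open scoped Classical

variable {A : P → P → Prop}

/-- **one step in the ensemble**, uniformly in the set of vertices -/
theorem two_step_x (Z : Rule A) {μ : ℝ} (hμ : 1 ≤ μ)
    (hp : ∃ (M0 : ℕ) (ρ C0 : ℝ), 1 ≤ M0 ∧ 0 ≤ ρ ∧ ρ < μ ∧ ∀ n : ℕ,
      (((Kw A n).filter (fun w => M0 * (Z.B w).card ≤ n)).card : ℝ) ≤ C0 * ρ ^ n)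
    (hup : ∀ τ : ℝ, 0 < τ → ∃ C1 : ℝ, ∀ n : ℕ, ((Kw A n).card : ℝ) ≤ C1 * ((1 + τ) * μ) ^ n) :
    ∃ C θ X : ℝ, 1 ≤ C ∧ 0 < θ ∧ θ < 1 ∧ 1 / μ < X ∧ ∀ x : ℝ, 1 / μ ≤ x → x ≤ X →
      ∀ (D : P → Prop), D 0 → ∀ (y : P) (m L : ℕ), C ≤ m →
      (∀ n, n < m → (two Z D y).K n = ∅) → (∀ n, L ≤ n → (two Z D y).K n = ∅) →
      0 < gc (two Z D y) x L (fun _ _ => 1) → ∀ f f' : List P → ℝ,
      (∀ n, ∀ w ∈ (two Z D y).K n, 0 ≤ f w ∧ f w ≤ 1) →
      (∀ n, ∀ w ∈ (two Z D y).K n, 0 ≤ f' w ∧ f' w ≤ 2) →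
      (∀ n, ∀ w ∈ (two Z D y).K n, ∀ q ∈ (two Z D y).S w, f ((two Z D y).ins w q) ≤ f' w) →
      gc (two Z D y) x L (fun _ => f) / gc (two Z D y) x L (fun _ _ => 1) ≤
        gc (two Z D y) x L (fun _ => f') / gc (two Z D y) x L (fun _ _ => 1) +
        C * √(1 / m + θ ^ m / gc (two Z D y) x L (fun _ _ => 1)) := by
  obtain ⟨M, θ0, C0, hM, hθ0, hθ1, hC0, hbad⟩ := bad_any Z hμ hp hup
  have hμ0 : 0 < μ := by linarith
  obtain ⟨θa, hθa⟩ : ∃ θa : ℝ, θa = (1 + θ0) / 2 := ⟨_, rfl⟩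
  have hθa0 : 0 < θa := by rw [hθa]; linarith
  have hθa1 : θa < 1 := by rw [hθa]; linarith
  obtain ⟨θ, hθ⟩ : ∃ θ : ℝ, θ = (1 + θa) / 2 := ⟨_, rfl⟩
  have hθ00 : 0 < θ := by rw [hθ]; linarith
  have hθ11 : θ < 1 := by rw [hθ]; linarith
  obtain ⟨C1, hC1, hab⟩ := absorb 1 hθa0 (show θa < θ by rw [hθ]; linarith)
  obtain ⟨X, hX⟩ : ∃ X : ℝ, X = (1 + (1 - θ0) / 2) / μ := ⟨_, rfl⟩
  have hX0 : 0 < X := by rw [hX]; exact div_pos (by linarith) hμ0
  have hX1 : 1 / μ < X := by rw [hX]; exact div_lt_div_of_pos_right (by linarith) hμ0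
  obtain ⟨CC, hCC⟩ : ∃ CC : ℝ, CC = (Z.CC : ℝ) := ⟨_, rfl⟩
  have hCC0 : 0 ≤ CC := by rw [hCC]; positivity
  obtain ⟨C2, hC2⟩ : ∃ C2 : ℝ, C2 = (1 + CC * X ^ Z.s) * (C0 * (C1 * (1 / (1 - θ)))) := ⟨_, rfl⟩
  have h1θ : 0 < 1 - θ := by linarith
  have hC20 : 0 ≤ C2 := by rw [hC2]; positivity
  obtain ⟨E, hE⟩ : ∃ E : ℝ, E = 4 * CC * M + C2 + 4 * √(12 * CC * M + 2 * C2) := ⟨_, rfl⟩
  have hE0 : 0 ≤ E := by rw [hE]; positivity
  refine ⟨E + 8 * M * CC + 2 * Z.s + 1, θ, X, ?_, hθ00, hθ11, hX1, ?_⟩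
  · have : 0 ≤ 8 * M * CC := by positivity
    have : (0 : ℝ) ≤ 2 * Z.s := by positivity
    linarith
  intro x hx1 hx2 D h0 y m L hm hmin hmax hZ f f' hf hf' hff
  have hx0 : 0 < x := lt_of_lt_of_le (by positivity) hx1
  have hxμ : θ0 * (x * μ) ≤ θa := by
    have h1 : x * μ ≤ 1 + (1 - θ0) / 2 := by
      rw [hX, le_div_iff₀ hμ0] at hx2
      exact hx2
    have h2 := mul_le_mul_of_nonneg_left h1 hθ0.le
    rw [hθa]
    nlinarith
  have hxX : x ^ Z.s ≤ X ^ Z.s := pow_le_pow_left₀ hx0.le hx2 _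
  obtain ⟨ZZ, hZZ⟩ : ∃ ZZ, ZZ = gc (two Z D y) x L (fun _ _ => 1) := ⟨_, rfl⟩
  have hp1 : 0 ≤ 8 * M * CC := by positivity
  have hp2 : (0 : ℝ) ≤ 2 * Z.s := by positivity
  have hm1 : (1 : ℝ) ≤ m := by linarith
  have hmp : (0 : ℝ) < m := by linarith
  have G : GH (two Z D y) x L M m := by
    refine ⟨hx0, rfl, hM, by exact_mod_cast hm1, ?_, ?_, hmin, hmax⟩
    · have : (8 * M * CC : ℝ) ≤ m := by linarith
      rw [hCC] at this
      show 8 * M * Z.CC ≤ m
      exact_mod_cast this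
    · have : (2 * Z.s : ℝ) ≤ m := by linarith
      have h2 : 2 * Z.s ≤ m := by exact_mod_cast this
      show Z.s + Z.s ≤ m
      omega
  -- the error terms
  have hbb : bb (two Z D y) x L M ≤ C0 * (C1 * (1 / (1 - θ))) * θ ^ m := by
    have h1 : ∀ n ∈ range L, x ^ n * (((n : ℝ) + 1) * (((two Z D y).bad M n).card : ℝ)) ≤
        if m ≤ n then C0 * (C1 * θ ^ n) else 0 := by
      intro n _
      split_ifs with hmn
      · have h2 : (((two Z D y).bad M n).card : ℝ) ≤ C0 * (θ0 * μ) ^ n := by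
          refine le_trans ?_ (hbad D h0 n)
          exact_mod_cast card_le_card (two_bad Z D y M n)
        have h3 := hab n
        rw [pow_one] at h3
        have h4 : ((n : ℝ) + 1) * (θ0 * (x * μ)) ^ n ≤ C1 * θ ^ n := by
          refine le_trans ?_ h3
          exact mul_le_mul (by
            have : (0 : ℝ) ≤ n := Nat.cast_nonneg n
            linarith) (pow_le_pow_left₀ (by positivity) hxμ _) (by positivity) (by positivity)
        calc x ^ n * (((n : ℝ) + 1) * (((two Z D y).bad M n).card : ℝ)) ≤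
              x ^ n * (((n : ℝ) + 1) * (C0 * (θ0 * μ) ^ n)) := by
              refine mul_le_mul_of_nonneg_left (mul_le_mul_of_nonneg_left h2 ?_) (by positivity)
              positivity
          _ = C0 * (((n : ℝ) + 1) * (θ0 * (x * μ)) ^ n) := by
              rw [mul_pow, mul_pow, mul_pow]; ring
          _ ≤ C0 * (C1 * θ ^ n) := mul_le_mul_of_nonneg_left h4 hC0
      · have h2 : (two Z D y).bad M n = ∅ := by
          unfold Sys.bad
          rw [hmin n (not_le.1 hmn), filter_empty]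
        rw [h2]
        simp
    have h2 : bb (two Z D y) x L M ≤ ∑ n ∈ range L, if m ≤ n then C0 * (C1 * θ ^ n) else 0 :=
      sum_le_sum h1
    refine h2.trans ?_
    rw [← sum_filter]
    have h3 : ∑ n ∈ (range L).filter (fun n => m ≤ n), C0 * (C1 * θ ^ n) =
        C0 * (C1 * ∑ n ∈ (range L).filter (fun n => m ≤ n), θ ^ n) := by
      rw [mul_sum, mul_sum]
    rw [h3]
    have h4 : ∑ n ∈ (range L).filter (fun n => m ≤ n), θ ^ n ≤ 1 / (1 - θ) * θ ^ m := by
      have h5 : (range L).filter (fun n => m ≤ n) ⊆ (range L).image (fun i => m + i) := by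
        intro n hn
        rw [mem_filter, mem_range] at hn
        rw [mem_image]
        exact ⟨n - m, by rw [mem_range]; omega, by omega⟩
      refine (sum_le_sum_of_subset_of_nonneg h5 fun n _ _ => by positivity).trans ?_
      rw [sum_image (by intro a _ b _ h; simpa using h)]
      simp only [pow_add]
      rw [← mul_sum, mul_comm]
      refine mul_le_mul_of_nonneg_right ?_ (by positivity)
      have h6 := Summable.sum_le_tsum (range L) (fun i _ => pow_nonneg hθ00.le i)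
        (summable_geometric_of_lt_one hθ00.le hθ11)
      rw [tsum_geometric_of_lt_one hθ00.le hθ11] at h6
      rw [one_div]
      exact h6
    calc C0 * (C1 * ∑ n ∈ (range L).filter (fun n => m ≤ n), θ ^ n) ≤
          C0 * (C1 * (1 / (1 - θ) * θ ^ m)) :=
          mul_le_mul_of_nonneg_left (mul_le_mul_of_nonneg_left h4 hC1) hC0
      _ = _ := by ring
  obtain ⟨β, hβ⟩ : ∃ β : ℝ, β = C2 * (θ ^ m / ZZ) := ⟨_, rfl⟩
  have hZp : 0 < ZZ := by rw [hZZ]; exact hZ
  have hβ1 : (1 + (two Z D y).C * x ^ (two Z D y).s) * bb (two Z D y) x L M ≤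
      β * gc (two Z D y) x L (fun _ _ => 1) := by
    rw [← hZZ, hβ]
    have e1 : (1 + (two Z D y).C * x ^ (two Z D y).s) = (1 + CC * x ^ Z.s) := by
      rw [hCC]; rfl
    rw [e1]
    calc (1 + CC * x ^ Z.s) * bb (two Z D y) x L M ≤
          (1 + CC * X ^ Z.s) * (C0 * (C1 * (1 / (1 - θ))) * θ ^ m) :=
          mul_le_mul (by nlinarith) hbb (by
            unfold bb
            exact sum_nonneg fun n _ => by positivity) (by positivity)
      _ = C2 * (θ ^ m / ZZ) * ZZ := by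
          rw [hC2]
          field_simp
  have hst := G.step hZ f f' hf hf' hff β hβ1
  have e2 : (2 * (two Z D y).C * M / m : ℝ) = 2 * CC * M / m := by rw [hCC]; rfl
  rw [e2] at hst
  rw [← hZZ] at hst ⊢
  obtain ⟨T, hT⟩ : ∃ T : ℝ, T = 1 / m + θ ^ m / ZZ := ⟨_, rfl⟩
  rw [← hT]
  have q1 : (0 : ℝ) ≤ 1 / m := by positivity
  have q2 : 0 ≤ θ ^ m / ZZ := by positivity
  have hT0 : 0 ≤ T := by rw [hT]; linarith
  have hlin : ∀ c d : ℝ, 0 ≤ c → 0 ≤ d → c * (1 / m) + d * (θ ^ m / ZZ) ≤ (c + d) * T := by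
    intro c d hc hd
    rw [hT]
    have := mul_nonneg hc q2
    have := mul_nonneg hd q1
    nlinarith
  have a1 : 2 * (2 * CC * M / m) + β ≤ (4 * CC * M + C2) * T := by
    have := hlin (4 * CC * M) C2 (by positivity) hC20
    rw [hβ]
    refine le_trans (le_of_eq ?_) this
    ring
  have a2 : 6 * (2 * CC * M / m) + 2 * β ≤ (12 * CC * M + 2 * C2) * T := by
    have := hlin (12 * CC * M) (2 * C2) (by positivity) (by positivity)
    rw [hβ]
    refine le_trans (le_of_eq ?_) this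
    ring
  have a3 : √(6 * (2 * CC * M / m) + 2 * β) ≤ √(12 * CC * M + 2 * C2) * √T := by
    rw [← Real.sqrt_mul (by positivity)]
    exact Real.sqrt_le_sqrt a2
  have hsT := Real.sqrt_nonneg T
  have hs12 := Real.sqrt_nonneg (12 * CC * M + 2 * C2)
  by_cases hT1 : T ≤ 1
  · have hTT : T ≤ √T := by
      refine Real.le_sqrt_of_sq_le ?_
      nlinarith
    have a4 : (4 * CC * M + C2) * T ≤ (4 * CC * M + C2) * √T :=
      mul_le_mul_of_nonneg_left hTT (by positivity)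
    have a5 : 0 ≤ (8 * M * CC + 2 * Z.s + 1) * √T := by positivity
    refine hst.trans (add_le_add le_rfl ?_)
    calc 2 * (2 * CC * M / m) + β + 4 * √(6 * (2 * CC * M / m) + 2 * β) ≤
          (4 * CC * M + C2) * √T + 4 * (√(12 * CC * M + 2 * C2) * √T) := by linarith
      _ = E * √T := by rw [hE]; ring
      _ ≤ _ := by linarith
  · have h1 : 1 ≤ √T := by rw [Real.one_le_sqrt]; exact (not_le.1 hT1).le
    have h2 : gc (two Z D y) x L (fun _ => f) / ZZ ≤ 1 := by
      rw [div_le_one hZp, hZZ]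
      unfold gc
      exact sum_le_sum fun n _ => mul_le_mul_of_nonneg_left
        (sum_le_sum fun w hw => (hf n w hw).2) (by positivity)
    have h3 : 0 ≤ gc (two Z D y) x L (fun _ => f') / ZZ := by
      refine div_nonneg ?_ hZp.le
      unfold gc
      exact sum_nonneg fun n _ => mul_nonneg (by positivity)
        (sum_nonneg fun w hw => (hf' n w hw).1)
    have h4 : 1 * 1 ≤ (E + 8 * M * CC + 2 * Z.s + 1) * √T :=
      mul_le_mul (by linarith) h1 zero_le_one (by positivity)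
    linarith

/-- **the quotient of the numbers of moves** -/
theorem two_lln_x (Z : Rule A) {μ : ℝ} (hμ : 1 ≤ μ)
    (hp : ∃ (M0 : ℕ) (ρ C0 : ℝ), 1 ≤ M0 ∧ 0 ≤ ρ ∧ ρ < μ ∧ ∀ n : ℕ,
      (((Kw A n).filter (fun w => M0 * (Z.B w).card ≤ n)).card : ℝ) ≤ C0 * ρ ^ n)
    (hup : ∀ τ : ℝ, 0 < τ → ∃ C1 : ℝ, ∀ n : ℕ, ((Kw A n).card : ℝ) ≤ C1 * ((1 + τ) * μ) ^ n) :
    ∃ C θ X : ℝ, 1 ≤ C ∧ 0 < θ ∧ θ < 1 ∧ 1 / μ < X ∧ ∀ x : ℝ, 1 / μ ≤ x → x ≤ X →
      ∀ (D : P → Prop), D 0 → ∀ (y : P) (m L : ℕ), C ≤ m →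
      (∀ n, n < m → (two Z D y).K n = ∅) → (∀ n, L ≤ n → (two Z D y).K n = ∅) →
      0 < gc (two Z D y) x L (fun _ _ => 1) → ∀ t : ℝ, 0 < t → t ≤ 1 →
      gc (two Z D y) x L (fun _ => far (two Z D y) ((1 / x) ^ Z.s) t) /
        gc (two Z D y) x L (fun _ _ => 1) ≤
        C * (1 / m + θ ^ m / gc (two Z D y) x L (fun _ _ => 1)) / t ^ 2 := by
  obtain ⟨M, θ0, C0, hM, hθ0, hθ1, hC0, hbad⟩ := bad_any Z hμ hp hup
  have hμ0 : 0 < μ := by linarith
  obtain ⟨θa, hθa⟩ : ∃ θa : ℝ, θa = (1 + θ0) / 2 := ⟨_, rfl⟩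
  have hθa0 : 0 < θa := by rw [hθa]; linarith
  have hθa1 : θa < 1 := by rw [hθa]; linarith
  obtain ⟨θ, hθ⟩ : ∃ θ : ℝ, θ = (1 + θa) / 2 := ⟨_, rfl⟩
  have hθ00 : 0 < θ := by rw [hθ]; linarith
  have hθ11 : θ < 1 := by rw [hθ]; linarith
  obtain ⟨C1, hC1, hab⟩ := absorb 1 hθa0 (show θa < θ by rw [hθ]; linarith)
  obtain ⟨X, hX⟩ : ∃ X : ℝ, X = (1 + (1 - θ0) / 2) / μ := ⟨_, rfl⟩
  have hX0 : 0 < X := by rw [hX]; exact div_pos (by linarith) hμ0
  have hX1 : 1 / μ < X := by rw [hX]; exact div_lt_div_of_pos_right (by linarith) hμ0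
  obtain ⟨CC, hCC⟩ : ∃ CC : ℝ, CC = (Z.CC : ℝ) := ⟨_, rfl⟩
  have hCC0 : 0 ≤ CC := by rw [hCC]; positivity
  obtain ⟨C2, hC2⟩ : ∃ C2 : ℝ, C2 = (1 + CC * X ^ Z.s) * (C0 * (C1 * (1 / (1 - θ)))) := ⟨_, rfl⟩
  have h1θ : 0 < 1 - θ := by linarith
  have hC20 : 0 ≤ C2 := by rw [hC2]; positivity
  obtain ⟨E, hE⟩ : ∃ E : ℝ, E = C2 + (μ ^ Z.s) ^ 2 * (12 * CC * M + 2 * C2) := ⟨_, rfl⟩
  have hE0 : 0 ≤ E := by rw [hE]; positivity
  refine ⟨E + 8 * M * CC + 2 * Z.s + 1, θ, X, ?_, hθ00, hθ11, hX1, ?_⟩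
  · have : 0 ≤ 8 * M * CC := by positivity
    have : (0 : ℝ) ≤ 2 * Z.s := by positivity
    linarith
  intro x hx1 hx2 D h0 y m L hm hmin hmax hZ t ht ht1
  have hx0 : 0 < x := lt_of_lt_of_le (by positivity) hx1
  have hxμ : θ0 * (x * μ) ≤ θa := by
    have h1 : x * μ ≤ 1 + (1 - θ0) / 2 := by
      rw [hX, le_div_iff₀ hμ0] at hx2
      exact hx2
    have h2 := mul_le_mul_of_nonneg_left h1 hθ0.le
    rw [hθa]
    nlinarith
  have hxX : x ^ Z.s ≤ X ^ Z.s := pow_le_pow_left₀ hx0.le hx2 _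
  obtain ⟨ZZ, hZZ⟩ : ∃ ZZ, ZZ = gc (two Z D y) x L (fun _ _ => 1) := ⟨_, rfl⟩
  have hp1 : 0 ≤ 8 * M * CC := by positivity
  have hp2 : (0 : ℝ) ≤ 2 * Z.s := by positivity
  have hm1 : (1 : ℝ) ≤ m := by linarith
  have hmp : (0 : ℝ) < m := by linarith
  have G : GH (two Z D y) x L M m := by
    refine ⟨hx0, rfl, hM, by exact_mod_cast hm1, ?_, ?_, hmin, hmax⟩
    · have : (8 * M * CC : ℝ) ≤ m := by linarith
      rw [hCC] at this
      show 8 * M * Z.CC ≤ m
      exact_mod_cast this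
    · have : (2 * Z.s : ℝ) ≤ m := by linarith
      have h2 : 2 * Z.s ≤ m := by exact_mod_cast this
      show Z.s + Z.s ≤ m
      omega
  -- the error terms
  have hbb : bb (two Z D y) x L M ≤ C0 * (C1 * (1 / (1 - θ))) * θ ^ m := by
    have h1 : ∀ n ∈ range L, x ^ n * (((n : ℝ) + 1) * (((two Z D y).bad M n).card : ℝ)) ≤
        if m ≤ n then C0 * (C1 * θ ^ n) else 0 := by
      intro n _
      split_ifs with hmn
      · have h2 : (((two Z D y).bad M n).card : ℝ) ≤ C0 * (θ0 * μ) ^ n := by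
          refine le_trans ?_ (hbad D h0 n)
          exact_mod_cast card_le_card (two_bad Z D y M n)
        have h3 := hab n
        rw [pow_one] at h3
        have h4 : ((n : ℝ) + 1) * (θ0 * (x * μ)) ^ n ≤ C1 * θ ^ n := by
          refine le_trans ?_ h3
          exact mul_le_mul (by
            have : (0 : ℝ) ≤ n := Nat.cast_nonneg n
            linarith) (pow_le_pow_left₀ (by positivity) hxμ _) (by positivity) (by positivity)
        calc x ^ n * (((n : ℝ) + 1) * (((two Z D y).bad M n).card : ℝ)) ≤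
              x ^ n * (((n : ℝ) + 1) * (C0 * (θ0 * μ) ^ n)) := by
              refine mul_le_mul_of_nonneg_left (mul_le_mul_of_nonneg_left h2 ?_) (by positivity)
              positivity
          _ = C0 * (((n : ℝ) + 1) * (θ0 * (x * μ)) ^ n) := by
              rw [mul_pow, mul_pow, mul_pow]; ring
          _ ≤ C0 * (C1 * θ ^ n) := mul_le_mul_of_nonneg_left h4 hC0
      · have h2 : (two Z D y).bad M n = ∅ := by
          unfold Sys.bad
          rw [hmin n (not_le.1 hmn), filter_empty]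
        rw [h2]
        simp
    have h2 : bb (two Z D y) x L M ≤ ∑ n ∈ range L, if m ≤ n then C0 * (C1 * θ ^ n) else 0 :=
      sum_le_sum h1
    refine h2.trans ?_
    rw [← sum_filter]
    have h3 : ∑ n ∈ (range L).filter (fun n => m ≤ n), C0 * (C1 * θ ^ n) =
        C0 * (C1 * ∑ n ∈ (range L).filter (fun n => m ≤ n), θ ^ n) := by
      rw [mul_sum, mul_sum]
    rw [h3]
    have h4 : ∑ n ∈ (range L).filter (fun n => m ≤ n), θ ^ n ≤ 1 / (1 - θ) * θ ^ m := by
      have h5 : (range L).filter (fun n => m ≤ n) ⊆ (range L).image (fun i => m + i) := by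
        intro n hn
        rw [mem_filter, mem_range] at hn
        rw [mem_image]
        exact ⟨n - m, by rw [mem_range]; omega, by omega⟩
      refine (sum_le_sum_of_subset_of_nonneg h5 fun n _ _ => by positivity).trans ?_
      rw [sum_image (by intro a _ b _ h; simpa using h)]
      simp only [pow_add]
      rw [← mul_sum, mul_comm]
      refine mul_le_mul_of_nonneg_right ?_ (by positivity)
      have h6 := Summable.sum_le_tsum (range L) (fun i _ => pow_nonneg hθ00.le i)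
        (summable_geometric_of_lt_one hθ00.le hθ11)
      rw [tsum_geometric_of_lt_one hθ00.le hθ11] at h6
      rw [one_div]
      exact h6
    calc C0 * (C1 * ∑ n ∈ (range L).filter (fun n => m ≤ n), θ ^ n) ≤
          C0 * (C1 * (1 / (1 - θ) * θ ^ m)) :=
          mul_le_mul_of_nonneg_left (mul_le_mul_of_nonneg_left h4 hC1) hC0
      _ = _ := by ring
  obtain ⟨β, hβ⟩ : ∃ β : ℝ, β = C2 * (θ ^ m / ZZ) := ⟨_, rfl⟩
  have hZp : 0 < ZZ := by rw [hZZ]; exact hZ
  have hβ1 : (1 + (two Z D y).C * x ^ (two Z D y).s) * bb (two Z D y) x L M ≤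
      β * gc (two Z D y) x L (fun _ _ => 1) := by
    rw [← hZZ, hβ]
    have e1 : (1 + (two Z D y).C * x ^ (two Z D y).s) = (1 + CC * x ^ Z.s) := by
      rw [hCC]; rfl
    rw [e1]
    calc (1 + CC * x ^ Z.s) * bb (two Z D y) x L M ≤
          (1 + CC * X ^ Z.s) * (C0 * (C1 * (1 / (1 - θ))) * θ ^ m) :=
          mul_le_mul (by nlinarith) hbb (by
            unfold bb
            exact sum_nonneg fun n _ => by positivity) (by positivity)
      _ = C2 * (θ ^ m / ZZ) * ZZ := by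
          rw [hC2]
          field_simp
  have hvar := G.var
  have hb0 : 0 ≤ bb (two Z D y) x L M := by
    unfold bb
    exact sum_nonneg fun n _ => by positivity
  have e3 : (1 + (two Z D y).C * x ^ (two Z D y).s) = (1 + CC * x ^ Z.s) := by
    rw [hCC]; rfl
  rw [e3] at hβ1 hvar
  have hbb2 : bb (two Z D y) x L M ≤ β * ZZ := by
    rw [← hZZ] at hβ1
    refine le_trans ?_ hβ1
    have : 0 ≤ CC * x ^ Z.s * bb (two Z D y) x L M := by positivity
    linarith
  have e2 : (6 * (2 * (two Z D y).C * M / m) : ℝ) = 12 * CC * M * (1 / m) := by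
    rw [hCC]
    have : ((two Z D y).C : ℝ) = (Z.CC : ℝ) := rfl
    rw [this]
    ring
  rw [e2] at hvar
  rw [← hZZ] at hvar hβ1 ⊢
  obtain ⟨V, hV⟩ : ∃ V, V = gc (two Z D y) x L
    (fun n w => (x ^ (two Z D y).s * Rg (two Z D y) M n w - 1) ^ 2) := ⟨_, rfl⟩
  rw [← hV] at hvar
  have hV1 : V ≤ (12 * CC * M * (1 / m) + 2 * β) * ZZ := by linarith
  -- the pointwise estimate
  have hxs : x ^ Z.s * (1 / x) ^ Z.s = 1 := by
    rw [← mul_pow, mul_one_div_cancel hx0.ne', one_pow]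
  have hfar : gc (two Z D y) x L (fun _ => far (two Z D y) ((1 / x) ^ Z.s) t) ≤
      bb (two Z D y) x L M + ((1 / x) ^ Z.s) ^ 2 / t ^ 2 * V := by
    rw [hV]
    unfold gc bb
    rw [mul_sum, ← sum_add_distrib]
    refine sum_le_sum fun n _ => ?_
    have h1 : ∑ w ∈ (two Z D y).K n, far (two Z D y) ((1 / x) ^ Z.s) t w ≤
        ∑ w ∈ (two Z D y).K n, ((if w ∈ (two Z D y).bad M n then (1 : ℝ) else 0) +
          ((1 / x) ^ Z.s) ^ 2 / t ^ 2 *
            (x ^ (two Z D y).s * Rg (two Z D y) M n w - 1) ^ 2) := by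
      refine sum_le_sum fun w hw => ?_
      have h3 : 0 ≤ ((1 / x) ^ Z.s) ^ 2 / t ^ 2 *
            (x ^ (two Z D y).s * Rg (two Z D y) M n w - 1) ^ 2 := by positivity
      unfold far
      split_ifs with c1 c2 c2
      · linarith
      · linarith
      · linarith
      · -- good and far
        have hg : (two Z D y).good M n w := by
          by_contra hcon
          rw [Sys.not_good] at hcon
          apply c2
          unfold Sys.bad
          rw [mem_filter]
          exact ⟨hw, hcon⟩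
        have hB : 0 < ((two Z D y).B w).card := by
          have := hg.2
          by_contra h0
          have h00 : ((two Z D y).B w).card = 0 := by omega
          rw [h00] at this
          omega
        have hB' : (0 : ℝ) < (((two Z D y).B w).card : ℝ) := by exact_mod_cast hB
        have c3 : t * (((two Z D y).B w).card : ℝ) <
            |(((two Z D y).S w).card : ℝ) - ((1 / x) ^ Z.s) * (((two Z D y).B w).card : ℝ)| := by
          by_contra hcon
          exact c1 ⟨not_lt.1 hcon, hB⟩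
        have e4 : Rg (two Z D y) M n w = (((two Z D y).S w).card : ℝ) /
            (((two Z D y).B w).card : ℝ) := by
          unfold Rg
          rw [if_pos hg]
        have e5 : (((two Z D y).S w).card : ℝ) - ((1 / x) ^ Z.s) * (((two Z D y).B w).card : ℝ) =
            ((1 / x) ^ Z.s) * (x ^ (two Z D y).s * Rg (two Z D y) M n w - 1) *
              (((two Z D y).B w).card : ℝ) := by
          have e6 : x ^ (two Z D y).s = x ^ Z.s := rfl
          rw [e4, e6]
          have e7 : ((1 / x) ^ Z.s) * (x ^ Z.s * ((((two Z D y).S w).card : ℝ) /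
              (((two Z D y).B w).card : ℝ)) - 1) * (((two Z D y).B w).card : ℝ) =
              (x ^ Z.s * ((1 / x) ^ Z.s)) * ((((two Z D y).S w).card : ℝ) /
              (((two Z D y).B w).card : ℝ) * (((two Z D y).B w).card : ℝ)) -
              ((1 / x) ^ Z.s) * (((two Z D y).B w).card : ℝ) := by ring
          rw [e7, hxs, one_mul, div_mul_cancel₀ _ hB'.ne']
        rw [e5, abs_mul, abs_of_pos hB'] at c3
        have c4 := lt_of_mul_lt_mul_right c3 hB'.le
        have c5 : t ^ 2 ≤ (((1 / x) ^ Z.s) * (x ^ (two Z D y).s * Rg (two Z D y) M n w - 1)) ^ 2 := by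
          rw [← sq_abs (((1 / x) ^ Z.s) * _)]
          exact pow_le_pow_left₀ ht.le c4.le 2
        have c6 : 1 ≤ ((1 / x) ^ Z.s) ^ 2 / t ^ 2 *
            (x ^ (two Z D y).s * Rg (two Z D y) M n w - 1) ^ 2 := by
          rw [div_mul_eq_mul_div, one_le_div (by positivity), ← mul_pow]
          exact c5
        linarith
    have h2 : ∑ w ∈ (two Z D y).K n, (if w ∈ (two Z D y).bad M n then (1 : ℝ) else 0) =
        (((two Z D y).bad M n).card : ℝ) := by
      rw [← sum_filter, sum_const, nsmul_one]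
      congr 1
      refine congrArg Finset.card ?_
      ext w
      rw [mem_filter]
      constructor
      · exact fun h => h.2
      · intro h
        refine ⟨?_, h⟩
        unfold Sys.bad at h
        exact (mem_filter.1 h).1
    rw [sum_add_distrib, h2, ← mul_sum] at h1
    have h4 := mul_le_mul_of_nonneg_left h1 (show 0 ≤ x ^ n by positivity)
    refine h4.trans ?_
    have h5 : x ^ n * (((two Z D y).bad M n).card : ℝ) ≤
        x ^ n * (((n : ℝ) + 1) * (((two Z D y).bad M n).card : ℝ)) := by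
      refine mul_le_mul_of_nonneg_left ?_ (by positivity)
      have : (0 : ℝ) ≤ n * (((two Z D y).bad M n).card : ℝ) := by positivity
      linarith
    rw [mul_add]
    refine add_le_add h5 (le_of_eq ?_)
    ring
  have hV0 : 0 ≤ V := by
    rw [hV]
    unfold gc
    exact sum_nonneg fun n _ => mul_nonneg (by positivity) (sum_nonneg fun w _ => sq_nonneg _)
  have hxμ2 : ((1 / x) ^ Z.s) ^ 2 ≤ (μ ^ Z.s) ^ 2 := by
    have h1 : 1 / x ≤ μ := by
      rw [div_le_iff₀ hx0]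
      rw [div_le_iff₀ hμ0] at hx1
      linarith
    exact pow_le_pow_left₀ (by positivity) (pow_le_pow_left₀ (by positivity) h1 _) _
  have hfar : gc (two Z D y) x L (fun _ => far (two Z D y) ((1 / x) ^ Z.s) t) ≤
      bb (two Z D y) x L M + (μ ^ Z.s) ^ 2 / t ^ 2 * V := by
    refine hfar.trans (add_le_add le_rfl ?_)
    exact mul_le_mul_of_nonneg_right (div_le_div_of_nonneg_right hxμ2 (by positivity)) hV0
  obtain ⟨T, hT⟩ : ∃ T : ℝ, T = 1 / m + θ ^ m / ZZ := ⟨_, rfl⟩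
  rw [← hT]
  have q1 : (0 : ℝ) ≤ 1 / m := by positivity
  have q2 : 0 ≤ θ ^ m / ZZ := by positivity
  have hT0 : 0 ≤ T := by rw [hT]; linarith
  have hβT : β ≤ C2 * T := by
    rw [hβ, hT]
    exact mul_le_mul_of_nonneg_left (by linarith) hC20
  have hmT : 12 * CC * M * (1 / m) ≤ 12 * CC * M * T := by
    rw [hT]
    exact mul_le_mul_of_nonneg_left (by linarith) (by positivity)
  rw [div_le_iff₀ hZp]
  refine hfar.trans ?_
  have ht2 : 0 < t ^ 2 := by positivity
  have ht21 : t ^ 2 ≤ 1 := pow_le_one₀ ht.le ht1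
  have hμs : 0 ≤ (μ ^ Z.s) ^ 2 := sq_nonneg _
  have f1 : bb (two Z D y) x L M ≤ C2 * T * ZZ / t ^ 2 := by
    rw [le_div_iff₀ ht2]
    have g1 : bb (two Z D y) x L M ≤ C2 * T * ZZ :=
      hbb2.trans (mul_le_mul_of_nonneg_right hβT hZp.le)
    calc bb (two Z D y) x L M * t ^ 2 ≤ bb (two Z D y) x L M * 1 :=
          mul_le_mul_of_nonneg_left ht21 hb0
      _ ≤ _ := by rw [mul_one]; exact g1
  have f2 : (μ ^ Z.s) ^ 2 / t ^ 2 * V ≤
      (μ ^ Z.s) ^ 2 * (12 * CC * M + 2 * C2) * T * ZZ / t ^ 2 := by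
    have g1 : V ≤ (12 * CC * M + 2 * C2) * T * ZZ := by
      refine hV1.trans (mul_le_mul_of_nonneg_right ?_ hZp.le)
      linarith
    calc (μ ^ Z.s) ^ 2 / t ^ 2 * V ≤ (μ ^ Z.s) ^ 2 / t ^ 2 * ((12 * CC * M + 2 * C2) * T * ZZ) :=
          mul_le_mul_of_nonneg_left g1 (by positivity)
      _ = _ := by ring
  have f3 : C2 * T * ZZ / t ^ 2 + (μ ^ Z.s) ^ 2 * (12 * CC * M + 2 * C2) * T * ZZ / t ^ 2 =
      E * T / t ^ 2 * ZZ := by rw [hE]; ring
  have f4 : E * T / t ^ 2 * ZZ ≤ (E + 8 * M * CC + 2 * Z.s + 1) * T / t ^ 2 * ZZ := by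
    refine mul_le_mul_of_nonneg_right (div_le_div_of_nonneg_right
      (mul_le_mul_of_nonneg_right ?_ hT0) ht2.le) hZp.le
    linarith
  linarith

end Pool.Agent.R965.HP
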