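import Pool.Agent.R965.HP.Rate
import Pool.Agent.TH966.AK.Conv

/-!
# Systems of moves with two-sided growth bounds: rates of the ratios, uniformly in the weight
-/

set_option autoImplicit false

namespace Pool.Agent.R965.HP

open Finset Filter Topology TH966.KS TH966.AK
open scoped Classical

variable {α σ : Type}

/-- the number of the objects of size `n` -/
noncomputable def N (Y : Sys α σ) (n : ℕ) : ℝ := ((Y.K n).card : ℝ)

/-- growth bounds for the classes of a system of moves -/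
structure Gr (Y : Sys α σ) (μ K : ℝ) (a : ℕ) : Prop where
  hs : 1 ≤ Y.s
  hμ : 1 ≤ μ
  hK : 0 ≤ K
  pos : ∀ n, 0 < N Y n
  low : ∀ n : ℕ, 2 ≤ n → μ ^ n * Real.exp (-(K * Real.log n ^ a)) ≤ N Y n
  up : ∀ n : ℕ, 2 ≤ n → N Y n ≤ μ ^ n * Real.exp (K * Real.log n ^ a)
  poor : ∃ (M0 : ℕ) (ρ C0 : ℝ), 1 ≤ M0 ∧ 0 ≤ ρ ∧ ρ < μ ∧ ∀ n : ℕ,
      (((Y.K n).filter (fun w => M0 * (Y.B w).card ≤ n)).card : ℝ) ≤ C0 * ρ ^ n

/-- the weights -/
structure Wg (Y : Sys α σ) (m : ℕ) (f : α → ℝ) : Prop where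
  wt : Y.Wt f
  ge : ∀ n, 1 ≤ n → ∀ w ∈ Y.K n, 1 ≤ f w
  le : ∀ n, ∀ w ∈ Y.K n, f w ≤ (2 * (n : ℝ) + 2) ^ m

variable {Y : Sys α σ} {μ K : ℝ} {a : ℕ}

theorem exp_log_le (a : ℕ) (K τ : ℝ) (hτ : 0 < τ) :
    ∀ᶠ n : ℕ in atTop, Real.exp (K * Real.log n ^ a) ≤ (1 + τ) ^ n := by
  have h := exp_small a K (show (0 : ℝ) < 1 / (1 + τ) by positivity)
    (by rw [div_lt_one (by positivity)]; linarith)
  filter_upwards [h] with n hn
  rw [one_div, inv_pow, Real.exp_neg] at hn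
  exact (inv_le_inv₀ (by positivity) (Real.exp_pos _)).1 hn

theorem Gr.hup (G : Gr Y μ K a) (τ : ℝ) (hτ : 0 < τ) :
    ∃ C1 : ℝ, ∀ n : ℕ, N Y n ≤ C1 * ((1 + τ) * μ) ^ n := by
  obtain ⟨N0, hN⟩ := eventually_atTop.1 (exp_log_le a K τ hτ)
  have hμ := G.hμ
  have h1 : 1 ≤ (1 + τ) * μ := by nlinarith
  refine ⟨1 + ∑ i ∈ range (N0 + 2), N Y i, fun n => ?_⟩
  have hp : 1 ≤ ((1 + τ) * μ) ^ n := one_le_pow₀ h1
  have hsum : 0 ≤ ∑ i ∈ range (N0 + 2), N Y i :=
    Finset.sum_nonneg fun i _ => (G.pos i).le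
  by_cases hn : n < N0 + 2
  · have h2 : N Y n ≤ ∑ i ∈ range (N0 + 2), N Y i :=
      Finset.single_le_sum (f := fun i => N Y i) (fun i _ => (G.pos i).le)
        (Finset.mem_range.2 hn)
    nlinarith
  · have h2 := G.up n (by omega)
    have h3 := hN n (by omega)
    have h4 : μ ^ n * Real.exp (K * Real.log n ^ a) ≤ μ ^ n * (1 + τ) ^ n :=
      mul_le_mul_of_nonneg_left h3 (by positivity)
    rw [mul_pow]
    rw [mul_pow] at hp
    nlinarith

/-- the normalised weighted numbers -/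
noncomputable def yf (Y : Sys α σ) (f : α → ℝ) (μ : ℝ) (r : ℕ) (k : ℕ) : ℝ :=
  Y.af f (Y.s * k + r) / μ ^ (Y.s * k + r)

theorem af_ge {m : ℕ} {f : α → ℝ} (hf : Wg Y m f) {n : ℕ} (hn : 1 ≤ n) :
    N Y n ≤ Y.af f n := by
  unfold Sys.af N
  rw [← nsmul_one, ← sum_const]
  exact sum_le_sum fun w hw => hf.ge n hn w hw

theorem af_nonneg {m : ℕ} {f : α → ℝ} (hf : Wg Y m f) (n : ℕ) : 0 ≤ Y.af f n :=
  sum_nonneg fun w hw => hf.wt.1 n w hw

theorem af_le {m : ℕ} {f : α → ℝ} (hf : Wg Y m f) (n : ℕ) :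
    Y.af f n ≤ (2 * (n : ℝ) + 2) ^ m * N Y n := by
  unfold Sys.af N
  rw [mul_comm, ← nsmul_eq_mul, ← sum_const]
  exact sum_le_sum fun w hw => hf.le n w hw

theorem badf_le {m : ℕ} {f : α → ℝ} (hf : Wg Y m f) (M n : ℕ) :
    Y.badf f M n ≤ (2 * (n : ℝ) + 2) ^ m * (Y.bad M n).card := by
  unfold Sys.badf
  rw [mul_comm, ← nsmul_eq_mul, ← sum_const]
  refine sum_le_sum fun w hw => hf.le n w ?_
  unfold Sys.bad at hw
  exact (mem_filter.1 hw).1

/-- a polynomial is absorbed by a change of the base -/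
theorem absorb (m : ℕ) {θ θ' : ℝ} (h0 : 0 < θ) (h1 : θ < θ') :
    ∃ C : ℝ, 0 ≤ C ∧ ∀ n : ℕ, (2 * (n : ℝ) + 2) ^ m * θ ^ n ≤ C * θ' ^ n := by
  have h0' : 0 < θ' := h0.trans h1
  have hr : |θ / θ'| < 1 := by
    rw [abs_of_pos (div_pos h0 h0'), div_lt_one h0']
    exact h1
  have h2 : Tendsto (fun n : ℕ => (n : ℝ) ^ m * (θ / θ') ^ n) atTop (𝓝 0) :=
    tendsto_pow_const_mul_const_pow_of_abs_lt_one m hr
  obtain ⟨B, hB⟩ := h2.bddAbove_range
  have hB' : ∀ n : ℕ, (n : ℝ) ^ m * (θ / θ') ^ n ≤ B := fun n => hB ⟨n, rfl⟩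
  have hB1 : 0 ≤ B := le_trans (by positivity) (hB' 1)
  refine ⟨4 ^ m * B + 2 ^ m, by positivity, fun n => ?_⟩
  have h3 : (2 * (n : ℝ) + 2) ^ m * (θ / θ') ^ n ≤ 4 ^ m * B + 2 ^ m := by
    rcases Nat.eq_zero_or_pos n with rfl | hn
    · simp only [Nat.cast_zero, mul_zero, zero_add, pow_zero, mul_one]
      have : 0 ≤ 4 ^ m * B := by positivity
      linarith
    · have h4 : (1 : ℝ) ≤ n := by exact_mod_cast hn
      have h5 : (2 * (n : ℝ) + 2) ^ m ≤ (4 * n) ^ m :=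
        pow_le_pow_left₀ (by positivity) (by linarith) m
      have h6 : 0 ≤ (θ / θ') ^ n := by positivity
      calc (2 * (n : ℝ) + 2) ^ m * (θ / θ') ^ n ≤ (4 * n) ^ m * (θ / θ') ^ n :=
            mul_le_mul_of_nonneg_right h5 h6
        _ = 4 ^ m * ((n : ℝ) ^ m * (θ / θ') ^ n) := by rw [mul_pow]; ring
        _ ≤ 4 ^ m * B := mul_le_mul_of_nonneg_left (hB' n) (by positivity)
        _ ≤ _ := by
          have : (0 : ℝ) ≤ 2 ^ m := by positivity
          linarith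
  have h7 : (θ / θ') ^ n * θ' ^ n = θ ^ n := by
    rw [← mul_pow, div_mul_cancel₀ _ h0'.ne']
  calc (2 * (n : ℝ) + 2) ^ m * θ ^ n = ((2 * (n : ℝ) + 2) ^ m * (θ / θ') ^ n) * θ' ^ n := by
        rw [mul_assoc, h7]
    _ ≤ _ := mul_le_mul_of_nonneg_right h3 (by positivity)

/-- Kesten's inequality, uniformly in the weight -/
theorem Gr.kes (G : Gr Y μ K a) (m : ℕ) : ∃ D : ℝ, 0 ≤ D ∧ ∀ r : ℕ, ∃ k0 : ℕ,
    ∀ f : α → ℝ, Wg Y m f → Kes (yf Y f μ r) D (1 / 2) k0 := by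
  have hμ := G.hμ
  have hμ0 : 0 < μ := by linarith
  have hs := G.hs
  obtain ⟨M, θ, C', hM, hθ0, hθ1, hC', hbad⟩ := Y.pattern μ hμ G.hup G.poor
  obtain ⟨B, hB0, hB⟩ := absorb m hθ0 (show θ < (1 + θ) / 2 by linarith)
  obtain ⟨t, ht⟩ : ∃ t : ℝ, t = (3 + θ) / 4 := ⟨_, rfl⟩
  have ht1 : t < 1 := by rw [ht]; linarith
  have ht0 : 0 < t := by rw [ht]; linarith
  have hconv := Y.convexW M hM μ ((1 + θ) / 2) t (C' * B) hμ0 (by linarith)
    (by rw [ht]; linarith)
  refine ⟨8 * (6 * Y.C * M + 1), by positivity, fun r => ?_⟩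
  have htt : Tendsto (fun k : ℕ => Y.s * k + r) atTop atTop := by
    refine tendsto_atTop_mono (fun k => ?_) tendsto_id
    have := Nat.mul_le_mul_right k hs
    simp only [id]
    omega
  have hsh : Tendsto (fun n : ℕ => n + Y.s) atTop atTop := tendsto_add_atTop_nat _
  obtain ⟨k0, hk0⟩ := eventually_atTop.1 (htt.eventually (hconv.and
    (hsh.eventually (exp_small a K ht0 ht1))))
  refine ⟨max k0 2, fun f hf k hk _ => ?_⟩
  have hk1 : 2 ≤ k := le_trans (le_max_right _ _) hk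
  obtain ⟨h0, he⟩ := hk0 k (le_trans (le_max_left _ _) hk)
  have hn2 : 2 ≤ Y.s * k + r := by
    have := Nat.mul_le_mul hs hk1
    omega
  have h2 := h0 f hf.wt (fun n => by
    refine (badf_le hf M n).trans ?_
    have h2 : (2 * (n : ℝ) + 2) ^ m * (Y.bad M n).card ≤
        (2 * (n : ℝ) + 2) ^ m * (C' * (θ * μ) ^ n) :=
      mul_le_mul_of_nonneg_left (hbad n) (by positivity)
    refine h2.trans ?_
    have h3 := mul_le_mul_of_nonneg_right (hB n) (show 0 ≤ C' * μ ^ n by positivity)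
    rw [mul_pow, mul_pow]
    calc (2 * (n : ℝ) + 2) ^ m * (C' * (θ ^ n * μ ^ n)) =
          (2 * (n : ℝ) + 2) ^ m * θ ^ n * (C' * μ ^ n) := by ring
      _ ≤ _ := h3
      _ = _ := by ring) (by
    refine le_trans ?_ (af_ge hf (by omega))
    refine le_trans ?_ (G.low _ (by omega))
    rw [mul_pow, mul_comm]
    exact mul_le_mul_of_nonneg_left he (by positivity))
  have e1 : Y.s * k + r + Y.s = Y.s * (k + 1) + r := by ring
  have e2 : Y.s * (k + 1) + r + Y.s = Y.s * (k + 2) + r := by ring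
  rw [e1, e2] at h2
  have hk' : (1 : ℝ) ≤ k := by exact_mod_cast (show 1 ≤ k by omega)
  have h3 : (1 : ℝ) + (8 * (6 * Y.C * M + 1)) / ((Y.s * k + r : ℕ) : ℝ) ≤
      1 + (8 * (6 * Y.C * M + 1)) / k := by
    refine add_le_add le_rfl (div_le_div_of_nonneg_left (by positivity) (by positivity) ?_)
    have h4 : k ≤ Y.s * k + r := by
      have := Nat.mul_le_mul_right k hs
      omega
    exact_mod_cast h4
  have h4 : Y.af f (Y.s * (k + 1) + r) ^ 2 ≤ Y.af f (Y.s * k + r) *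
      Y.af f (Y.s * (k + 2) + r) * (1 + (8 * (6 * Y.C * M + 1)) / k) := by
    refine h2.trans (mul_le_mul_of_nonneg_left ?_
      (mul_nonneg (af_nonneg hf _) (af_nonneg hf _)))
    exact h3
  unfold yf
  have e3 : (μ ^ (Y.s * (k + 1) + r)) ^ 2 = μ ^ (Y.s * k + r) * μ ^ (Y.s * (k + 2) + r) := by
    rw [← pow_mul, ← pow_add]
    congr 1
    ring
  rw [div_pow, div_mul_div_comm, div_mul_eq_mul_div, e3]
  exact div_le_div_of_nonneg_right h4 (by positivity)

/-- logarithms of affine functions -/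
theorem log_aff (s r : ℕ) : ∃ q : ℝ, 1 ≤ q ∧ ∀ k : ℕ, 2 ≤ k → ∀ j ≤ k,
    Real.log (2 * ((s * j + r : ℕ) : ℝ) + 2) ≤ q * Real.log k := by
  obtain ⟨b, hb⟩ : ∃ b : ℝ, b = 2 * (s : ℝ) + 2 * r + 2 := ⟨_, rfl⟩
  have h1 : (0 : ℝ) ≤ s := Nat.cast_nonneg _
  have h2 : (0 : ℝ) ≤ r := Nat.cast_nonneg _
  have hb1 : 1 ≤ b := by linarith
  have hl2 : 0 < Real.log 2 := Real.log_pos (by norm_num)
  have hlb : 0 ≤ Real.log b := Real.log_nonneg hb1
  refine ⟨Real.log b / Real.log 2 + 1, by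
    have : 0 ≤ Real.log b / Real.log 2 := by positivity
    linarith, fun k hk j hj => ?_⟩
  have hk' : (2 : ℝ) ≤ k := by exact_mod_cast hk
  have hlk : Real.log 2 ≤ Real.log k := Real.log_le_log (by norm_num) hk'
  have h3 : (2 * ((s * j + r : ℕ) : ℝ) + 2) ≤ b * k := by
    have hj' : (j : ℝ) ≤ k := by exact_mod_cast hj
    push_cast
    rw [hb]
    nlinarith
  refine (Real.log_le_log (by positivity) h3).trans ?_
  rw [Real.log_mul (by linarith) (by linarith), add_mul, one_mul]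
  refine add_le_add ?_ le_rfl
  rw [div_mul_eq_mul_div, le_div_iff₀ hl2]
  exact mul_le_mul_of_nonneg_left hlk hlb

theorem Gr.grow (G : Gr Y μ K a) (ha : 1 ≤ a) (m r : ℕ) : ∃ K' : ℝ, 0 ≤ K' ∧ ∀ f : α → ℝ,
    Wg Y m f → (∀ k : ℕ, 2 ≤ k → Real.exp (-(K' * Real.log k ^ a)) ≤ yf Y f μ r k) ∧
    ∀ k : ℕ, 2 ≤ k → ∀ j ≤ k, yf Y f μ r j ≤ Real.exp (K' * Real.log k ^ a) := by
  have hμ := G.hμ
  have hK := G.hK
  have hμ0 : 0 < μ := by linarith
  have hs := G.hs
  obtain ⟨q, hq1, hq⟩ := log_aff Y.s r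
  have hl2 : 0 < Real.log 2 := Real.log_pos (by norm_num)
  obtain ⟨B, hB⟩ : ∃ B : ℝ, B = 1 + N Y 0 + N Y 1 := ⟨_, rfl⟩
  have hB1 : 1 ≤ B := by
    have := (G.pos 0).le
    have := (G.pos 1).le
    linarith
  have hlB : 0 ≤ Real.log B := Real.log_nonneg hB1
  -- comparison of powers of logarithms
  have hpw : ∀ k : ℕ, 2 ≤ k → 1 ≤ (1 / Real.log 2) ^ a * Real.log k ^ a := by
    intro k hk
    rw [← mul_pow]
    refine one_le_pow₀ ?_
    rw [one_div, inv_mul_eq_div, one_le_div hl2]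
    exact Real.log_le_log (by norm_num) (by exact_mod_cast hk)
  have hpw1 : ∀ k : ℕ, 2 ≤ k → Real.log k ≤ (1 / Real.log 2) ^ a * Real.log k ^ a * Real.log 2 := by
    intro k hk
    have h1 : 1 ≤ Real.log k / Real.log 2 := by
      rw [one_le_div hl2]
      exact Real.log_le_log (by norm_num) (by exact_mod_cast hk)
    have h2 : Real.log k / Real.log 2 ≤ (Real.log k / Real.log 2) ^ a :=
      le_self_pow₀ h1 (by omega)
    rw [← mul_pow, one_div, inv_mul_eq_div]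
    calc Real.log k = Real.log k / Real.log 2 * Real.log 2 := by field_simp
      _ ≤ _ := mul_le_mul_of_nonneg_right h2 hl2.le
  refine ⟨K * q ^ a + m * q * ((1 / Real.log 2) ^ a * Real.log 2) +
    Real.log B * (1 / Real.log 2) ^ a, by positivity, fun f hf => ⟨fun k hk => ?_,
    fun k hk j hj => ?_⟩⟩
  · have hlk : 0 ≤ Real.log (k : ℝ) := Real.log_natCast_nonneg k
    have hn : 2 ≤ Y.s * k + r := by
      have := Nat.mul_le_mul hs hk
      omega
    have h1 := (G.low _ hn).trans (af_ge hf (show 1 ≤ Y.s * k + r by omega))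
    unfold yf
    rw [le_div_iff₀ (by positivity), mul_comm]
    refine le_trans ?_ h1
    refine mul_le_mul_of_nonneg_left (Real.exp_le_exp.2 ?_) (by positivity)
    have h2 : Real.log ((Y.s * k + r : ℕ) : ℝ) ≤ q * Real.log k := by
      refine le_trans ?_ (hq k hk k le_rfl)
      refine Real.log_le_log (by exact_mod_cast (show 0 < Y.s * k + r by omega)) ?_
      have : (0 : ℝ) ≤ ((Y.s * k + r : ℕ) : ℝ) := Nat.cast_nonneg _
      linarith
    have h3 : Real.log ((Y.s * k + r : ℕ) : ℝ) ^ a ≤ (q * Real.log k) ^ a :=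
      pow_le_pow_left₀ (Real.log_natCast_nonneg _) h2 a
    rw [mul_pow] at h3
    have h4 := mul_le_mul_of_nonneg_left h3 hK
    have h5 : 0 ≤ (m * q * ((1 / Real.log 2) ^ a * Real.log 2) +
      Real.log B * (1 / Real.log 2) ^ a) * Real.log k ^ a := by positivity
    nlinarith
  · have hlk : 0 ≤ Real.log (k : ℝ) := Real.log_natCast_nonneg k
    have hla := hq k hk j hj
    have h0 : (0 : ℝ) ≤ ((Y.s * j + r : ℕ) : ℝ) := Nat.cast_nonneg _
    have h4 : (2 * ((Y.s * j + r : ℕ) : ℝ) + 2) ^ m ≤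
        Real.exp (m * q * ((1 / Real.log 2) ^ a * Real.log 2) * Real.log k ^ a) := by
      have h5 : 2 * ((Y.s * j + r : ℕ) : ℝ) + 2 ≤ Real.exp (q * Real.log k) := by
        rw [← Real.exp_log (show 0 < 2 * ((Y.s * j + r : ℕ) : ℝ) + 2 by positivity)]
        exact Real.exp_le_exp.2 hla
      have h6 := pow_le_pow_left₀ (by positivity) h5 m
      rw [← Real.exp_nat_mul] at h6
      refine h6.trans (Real.exp_le_exp.2 ?_)
      have h7 := mul_le_mul_of_nonneg_left (hpw1 k hk) (show 0 ≤ (m : ℝ) * q by positivity)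
      calc (m : ℝ) * (q * Real.log k) = m * q * Real.log k := by ring
        _ ≤ _ := h7
        _ = _ := by ring
    have h5 : yf Y f μ r j ≤ (2 * ((Y.s * j + r : ℕ) : ℝ) + 2) ^ m *
        (N Y (Y.s * j + r) / μ ^ (Y.s * j + r)) := by
      unfold yf
      rw [← mul_div_assoc]
      exact div_le_div_of_nonneg_right (af_le hf _) (by positivity)
    have h6 : N Y (Y.s * j + r) / μ ^ (Y.s * j + r) ≤
        Real.exp (K * q ^ a * Real.log k ^ a + Real.log B * (1 / Real.log 2) ^ a *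
          Real.log k ^ a) := by
      by_cases hn : 2 ≤ Y.s * j + r
      · have h1 := G.up _ hn
        rw [div_le_iff₀ (by positivity), mul_comm (Real.exp _)]
        refine h1.trans (mul_le_mul_of_nonneg_left ?_ (by positivity))
        rw [Real.exp_le_exp]
        have h2 : Real.log ((Y.s * j + r : ℕ) : ℝ) ≤ q * Real.log k := by
          refine le_trans ?_ hla
          refine Real.log_le_log (by exact_mod_cast (show 0 < Y.s * j + r by omega)) ?_
          linarith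
        have h3 : Real.log ((Y.s * j + r : ℕ) : ℝ) ^ a ≤ (q * Real.log k) ^ a :=
          pow_le_pow_left₀ (Real.log_natCast_nonneg _) h2 a
        rw [mul_pow] at h3
        have h4 := mul_le_mul_of_nonneg_left h3 hK
        have h5 : 0 ≤ Real.log B * (1 / Real.log 2) ^ a * Real.log k ^ a := by positivity
        nlinarith
      · have h1 : N Y (Y.s * j + r) ≤ B := by
          have hc : Y.s * j + r = 0 ∨ Y.s * j + r = 1 := by omega
          have p0 := (G.pos 0).le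
          have p1 := (G.pos 1).le
          rcases hc with h | h <;> rw [h, hB] <;> linarith
        have h2 : N Y (Y.s * j + r) / μ ^ (Y.s * j + r) ≤ B := by
          rw [div_le_iff₀ (by positivity)]
          exact h1.trans (le_mul_of_one_le_right (by linarith) (one_le_pow₀ hμ))
        refine h2.trans ?_
        rw [← Real.exp_log (show 0 < B by linarith), Real.exp_le_exp]
        have h3 := mul_le_mul_of_nonneg_left (hpw k hk) hlB
        have h4 : 0 ≤ K * q ^ a * Real.log k ^ a := by positivity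
        rw [Real.exp_log (by linarith)]
        nlinarith
    refine h5.trans ((mul_le_mul h4 h6 ?_ (Real.exp_pos _).le).trans ?_)
    · exact div_nonneg (G.pos _).le (by positivity)
    · rw [← Real.exp_add, Real.exp_le_exp]
      apply le_of_eq
      ring

/-- the weighted ratios along one residue class -/
theorem Gr.rate (G : Gr Y μ K a) (ha : 1 ≤ a) (m r : ℕ) : ∃ R : ℝ, 0 < R ∧ ∀ᶠ k : ℕ in atTop,
    ∀ f : α → ℝ, Wg Y m f →
    |Y.af f (Y.s * k + r + Y.s) / Y.af f (Y.s * k + r) / μ ^ Y.s - 1| ≤ R * rt a k := by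
  have hμ := G.hμ
  have hμ0 : 0 < μ := by linarith
  obtain ⟨D, hD, hk⟩ := G.kes m
  obtain ⟨k0, hk0⟩ := hk r
  obtain ⟨K', hK', hg⟩ := G.grow ha m r
  obtain ⟨R, hR, hr⟩ := rate_gen D (1 / 2) k0 hD (by norm_num) (by norm_num) 2 a hK'
  refine ⟨R, hR, ?_⟩
  filter_upwards [hr, eventually_ge_atTop 2] with k hk hk1 f hf
  have h1 := hk (yf Y f μ r) (hk0 f hf) (fun j => by
    unfold yf
    exact div_nonneg (af_nonneg hf _) (by positivity)) (hg f hf).1 (hg f hf).2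
  have e : Y.af f (Y.s * k + r + Y.s) / Y.af f (Y.s * k + r) / μ ^ Y.s =
      yf Y f μ r (k + 1) / yf Y f μ r k := by
    unfold yf
    have e1 : Y.s * (k + 1) + r = Y.s * k + r + Y.s := by ring
    have h2 : 0 < Y.af f (Y.s * k + r) := by
      refine lt_of_lt_of_le (G.pos _) (af_ge hf ?_)
      have := Nat.mul_le_mul G.hs (show 1 ≤ k by omega)
      omega
    rw [e1, pow_add μ (Y.s * k + r) Y.s]
    field_simp
  rw [e]
  exact h1

end Pool.Agent.R965.HP
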