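import Pool.Agent.R965.HP.GC
import Pool.Agent.R965.HP.BadAny

/-!
# The critical ensemble of the walks with given end points
-/

set_option autoImplicit false

namespace Pool.Agent.R965.HP

open Finset Filter Topology TH966.KS TH966.AK
open scoped Classical

variable {α σ : Type}

/-- the objects with a property which the moves preserve -/
noncomputable def subS (Y : Sys α σ) (p : α → Prop)
    (h1 : ∀ n w q, w ∈ Y.K n → q ∈ Y.S w → (p (Y.ins w q) ↔ p w)) (hn0 : Y.n0 = 0) :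
    Sys α σ where
  K n := (Y.K n).filter p
  S := Y.S
  B := Y.B
  ins := Y.ins
  rem := Y.rem
  s := Y.s
  C := Y.C
  n0 := 0
  hC := Y.hC
  ins_K n w q hw hq := by
    rw [mem_filter] at *
    exact ⟨Y.ins_K n w q hw.1 hq, (h1 n w q hw.1 hq).2 hw.2⟩
  ins_B n w q hw hq := Y.ins_B n w q (mem_filter.1 hw).1 hq
  rem_ins n w q hw hq := Y.rem_ins n w q (mem_filter.1 hw).1 hq
  rem_K n w q _ hw hq := by
    rw [mem_filter] at *
    have g0 : Y.n0 ≤ n := by rw [hn0]; exact Nat.zero_le _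
    have g1 := Y.rem_K n w q g0 hw.1 hq
    have g2 := Y.rem_S n w q g0 hw.1 hq
    have g3 := Y.ins_rem n w q g0 hw.1 hq
    refine ⟨g1, (h1 n _ q g1 g2).1 ?_⟩
    rw [g3]
    exact hw.2
  rem_S n w q _ hw hq := Y.rem_S n w q (by rw [hn0]; exact Nat.zero_le _) (mem_filter.1 hw).1 hq
  ins_rem n w q _ hw hq :=
    Y.ins_rem n w q (by rw [hn0]; exact Nat.zero_le _) (mem_filter.1 hw).1 hq
  chS1 n w q hw hq := Y.chS1 n w q (mem_filter.1 hw).1 hq
  chS2 n w q hw hq := Y.chS2 n w q (mem_filter.1 hw).1 hq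
  chB1 n w q hw hq := Y.chB1 n w q (mem_filter.1 hw).1 hq
  chB2 n w q hw hq := Y.chB2 n w q (mem_filter.1 hw).1 hq
  S_le n w hw := Y.S_le n w (mem_filter.1 hw).1

variable {A : P → P → Prop}

/-- the walks in `D` from `0` to `y` -/
noncomputable def two (Z : Rule A) (D : P → Prop) (y : P) : Sys (List P) (List P × List P) :=
  subS (ruleD Z D).sys (fun w => lst w = y) (fun n w q hw hq => by
    have h := lst_ins (ruleD Z D) (n := n) hw hq
    show lst ((ruleD Z D).sys.ins w q) = y ↔ lst w = y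
    rw [h]) rfl

theorem two_mem (Z : Rule A) (D : P → Prop) (y : P) (n : ℕ) (w : List P) :
    w ∈ (two Z D y).K n ↔ w ∈ Kw (AD A D) n ∧ lst w = y := by
  unfold two subS
  simp only [Finset.mem_filter]
  exact Iff.rfl

theorem two_bad (Z : Rule A) (D : P → Prop) (y : P) (M n : ℕ) :
    (two Z D y).bad M n ⊆ (ruleD Z D).sys.bad M n := by
  intro w hw
  unfold Sys.bad at hw ⊢
  rw [mem_filter] at hw ⊢
  exact ⟨((two_mem Z D y n w).1 hw.1).1, hw.2⟩

/-- **one step in the ensemble**, uniformly in the set of vertices -/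
theorem two_step (Z : Rule A) {μ : ℝ} (hμ : 1 ≤ μ)
    (hp : ∃ (M0 : ℕ) (ρ C0 : ℝ), 1 ≤ M0 ∧ 0 ≤ ρ ∧ ρ < μ ∧ ∀ n : ℕ,
      (((Kw A n).filter (fun w => M0 * (Z.B w).card ≤ n)).card : ℝ) ≤ C0 * ρ ^ n)
    (hup : ∀ τ : ℝ, 0 < τ → ∃ C1 : ℝ, ∀ n : ℕ, ((Kw A n).card : ℝ) ≤ C1 * ((1 + τ) * μ) ^ n) :
    ∃ C θ : ℝ, 1 ≤ C ∧ 0 < θ ∧ θ < 1 ∧ ∀ (D : P → Prop), D 0 → ∀ (y : P) (m L : ℕ), C ≤ m →
      (∀ n, n < m → (two Z D y).K n = ∅) → (∀ n, L ≤ n → (two Z D y).K n = ∅) →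
      0 < gc (two Z D y) (1 / μ) L (fun _ _ => 1) → ∀ f f' : List P → ℝ,
      (∀ n, ∀ w ∈ (two Z D y).K n, 0 ≤ f w ∧ f w ≤ 1) →
      (∀ n, ∀ w ∈ (two Z D y).K n, 0 ≤ f' w ∧ f' w ≤ 2) →
      (∀ n, ∀ w ∈ (two Z D y).K n, ∀ q ∈ (two Z D y).S w, f ((two Z D y).ins w q) ≤ f' w) →
      gc (two Z D y) (1 / μ) L (fun _ => f) / gc (two Z D y) (1 / μ) L (fun _ _ => 1) ≤
        gc (two Z D y) (1 / μ) L (fun _ => f') / gc (two Z D y) (1 / μ) L (fun _ _ => 1) +
        C * √(1 / m + θ ^ m / gc (two Z D y) (1 / μ) L (fun _ _ => 1)) := by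
  obtain ⟨M, θ0, C0, hM, hθ0, hθ1, hC0, hbad⟩ := bad_any Z hμ hp hup
  have hμ0 : 0 < μ := by linarith
  obtain ⟨θ, hθ⟩ : ∃ θ : ℝ, θ = (1 + θ0) / 2 := ⟨_, rfl⟩
  have hθ00 : 0 < θ := by rw [hθ]; linarith
  have hθ11 : θ < 1 := by rw [hθ]; linarith
  obtain ⟨C1, hC1, hab⟩ := absorb 1 hθ0 (show θ0 < θ by rw [hθ]; linarith)
  obtain ⟨CC, hCC⟩ : ∃ CC : ℝ, CC = (Z.CC : ℝ) := ⟨_, rfl⟩
  have hCC0 : 0 ≤ CC := by rw [hCC]; positivity
  obtain ⟨x, hx⟩ : ∃ x : ℝ, x = 1 / μ := ⟨_, rfl⟩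
  have hx0 : 0 < x := by rw [hx]; positivity
  have hxμ : x * μ = 1 := by rw [hx]; field_simp
  obtain ⟨C2, hC2⟩ : ∃ C2 : ℝ, C2 = (1 + CC * x ^ Z.s) * (C0 * (C1 * (1 / (1 - θ)))) := ⟨_, rfl⟩
  have h1θ : 0 < 1 - θ := by linarith
  have hC20 : 0 ≤ C2 := by rw [hC2]; positivity
  obtain ⟨E, hE⟩ : ∃ E : ℝ, E = 4 * CC * M + C2 + 4 * √(12 * CC * M + 2 * C2) := ⟨_, rfl⟩
  have hE0 : 0 ≤ E := by rw [hE]; positivity
  refine ⟨E + 8 * M * CC + 2 * Z.s + 1, θ, ?_, hθ00, hθ11, ?_⟩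
  · have : 0 ≤ 8 * M * CC := by positivity
    have : (0 : ℝ) ≤ 2 * Z.s := by positivity
    linarith
  intro D h0 y m L hm hmin hmax hZ f f' hf hf' hff
  rw [← hx] at hZ ⊢
  obtain ⟨ZZ, hZZ⟩ : ∃ ZZ, ZZ = gc (two Z D y) x L (fun _ _ => 1) := ⟨_, rfl⟩
  have hp1 : 0 ≤ 8 * M * CC := by positivity
  have hp2 : (0 : ℝ) ≤ 2 * Z.s := by positivity
  have hm1 : (1 : ℝ) ≤ m := by linarith
  have hmp : (0 : ℝ) < m := by linarith
  have G : GH (two Z D y) x L M m := by
    refine ⟨hx0, rfl, hM, by exact_mod_cast hm1, ?_, ?_, hmin, hmax⟩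
    · have : (8 * M * CC : ℝ) ≤ m := by linarith
      rw [hCC] at this
      show 8 * M * Z.CC ≤ m
      exact_mod_cast this
    · have : (2 * Z.s : ℝ) ≤ m := by linarith
      have h2 : 2 * Z.s ≤ m := by exact_mod_cast this
      show Z.s + Z.s ≤ m
      omega
  -- the error terms
  have hbb : bb (two Z D y) x L M ≤ C0 * (C1 * (1 / (1 - θ))) * θ ^ m := by
    have h1 : ∀ n ∈ range L, x ^ n * (((n : ℝ) + 1) * (((two Z D y).bad M n).card : ℝ)) ≤
        if m ≤ n then C0 * (C1 * θ ^ n) else 0 := by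
      intro n _
      split_ifs with hmn
      · have h2 : (((two Z D y).bad M n).card : ℝ) ≤ C0 * (θ0 * μ) ^ n := by
          refine le_trans ?_ (hbad D h0 n)
          exact_mod_cast card_le_card (two_bad Z D y M n)
        have h3 := hab n
        rw [pow_one] at h3
        have h4 : ((n : ℝ) + 1) * θ0 ^ n ≤ C1 * θ ^ n := by
          refine le_trans ?_ h3
          exact mul_le_mul_of_nonneg_right (by
            have : (0 : ℝ) ≤ n := Nat.cast_nonneg n
            linarith) (by positivity)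
        calc x ^ n * (((n : ℝ) + 1) * (((two Z D y).bad M n).card : ℝ)) ≤
              x ^ n * (((n : ℝ) + 1) * (C0 * (θ0 * μ) ^ n)) := by
              refine mul_le_mul_of_nonneg_left (mul_le_mul_of_nonneg_left h2 ?_) (by positivity)
              positivity
          _ = C0 * ((((n : ℝ) + 1) * θ0 ^ n) * (x * μ) ^ n) := by
              rw [mul_pow, mul_pow]; ring
          _ = C0 * (((n : ℝ) + 1) * θ0 ^ n) := by rw [hxμ, one_pow, mul_one]
          _ ≤ C0 * (C1 * θ ^ n) := mul_le_mul_of_nonneg_left h4 hC0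
      · have h2 : (two Z D y).bad M n = ∅ := by
          unfold Sys.bad
          rw [hmin n (not_le.1 hmn), filter_empty]
        rw [h2]
        simp
    have h2 : bb (two Z D y) x L M ≤ ∑ n ∈ range L, if m ≤ n then C0 * (C1 * θ ^ n) else 0 :=
      sum_le_sum h1
    refine h2.trans ?_
    rw [← sum_filter]
    have h3 : ∑ n ∈ (range L).filter (fun n => m ≤ n), C0 * (C1 * θ ^ n) =
        C0 * (C1 * ∑ n ∈ (range L).filter (fun n => m ≤ n), θ ^ n) := by
      rw [mul_sum, mul_sum]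
    rw [h3]
    have h4 : ∑ n ∈ (range L).filter (fun n => m ≤ n), θ ^ n ≤ 1 / (1 - θ) * θ ^ m := by
      have h5 : (range L).filter (fun n => m ≤ n) ⊆ (range L).image (fun i => m + i) := by
        intro n hn
        rw [mem_filter, mem_range] at hn
        rw [mem_image]
        exact ⟨n - m, by rw [mem_range]; omega, by omega⟩
      refine (sum_le_sum_of_subset_of_nonneg h5 fun n _ _ => by positivity).trans ?_
      rw [sum_image (by intro a _ b _ h; simpa using h)]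
      simp only [pow_add]
      rw [← mul_sum, mul_comm]
      refine mul_le_mul_of_nonneg_right ?_ (by positivity)
      have h6 := Summable.sum_le_tsum (range L) (fun i _ => pow_nonneg hθ00.le i)
        (summable_geometric_of_lt_one hθ00.le hθ11)
      rw [tsum_geometric_of_lt_one hθ00.le hθ11] at h6
      rw [one_div]
      exact h6
    calc C0 * (C1 * ∑ n ∈ (range L).filter (fun n => m ≤ n), θ ^ n) ≤
          C0 * (C1 * (1 / (1 - θ) * θ ^ m)) :=
          mul_le_mul_of_nonneg_left (mul_le_mul_of_nonneg_left h4 hC1) hC0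
      _ = _ := by ring
  obtain ⟨β, hβ⟩ : ∃ β : ℝ, β = C2 * (θ ^ m / ZZ) := ⟨_, rfl⟩
  have hZp : 0 < ZZ := by rw [hZZ]; exact hZ
  have hβ1 : (1 + (two Z D y).C * x ^ (two Z D y).s) * bb (two Z D y) x L M ≤
      β * gc (two Z D y) x L (fun _ _ => 1) := by
    rw [← hZZ, hβ]
    have e1 : (1 + (two Z D y).C * x ^ (two Z D y).s) = (1 + CC * x ^ Z.s) := by
      rw [hCC]; rfl
    rw [e1]
    calc (1 + CC * x ^ Z.s) * bb (two Z D y) x L M ≤
          (1 + CC * x ^ Z.s) * (C0 * (C1 * (1 / (1 - θ))) * θ ^ m) :=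
          mul_le_mul_of_nonneg_left hbb (by positivity)
      _ = C2 * (θ ^ m / ZZ) * ZZ := by
          rw [hC2]
          field_simp
  have hst := G.step hZ f f' hf hf' hff β hβ1
  have e2 : (2 * (two Z D y).C * M / m : ℝ) = 2 * CC * M / m := by rw [hCC]; rfl
  rw [e2] at hst
  rw [← hZZ] at hst ⊢
  obtain ⟨T, hT⟩ : ∃ T : ℝ, T = 1 / m + θ ^ m / ZZ := ⟨_, rfl⟩
  rw [← hT]
  have q1 : (0 : ℝ) ≤ 1 / m := by positivity
  have q2 : 0 ≤ θ ^ m / ZZ := by positivity
  have hT0 : 0 ≤ T := by rw [hT]; linarith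
  have hlin : ∀ c d : ℝ, 0 ≤ c → 0 ≤ d → c * (1 / m) + d * (θ ^ m / ZZ) ≤ (c + d) * T := by
    intro c d hc hd
    rw [hT]
    have := mul_nonneg hc q2
    have := mul_nonneg hd q1
    nlinarith
  have a1 : 2 * (2 * CC * M / m) + β ≤ (4 * CC * M + C2) * T := by
    have := hlin (4 * CC * M) C2 (by positivity) hC20
    rw [hβ]
    refine le_trans (le_of_eq ?_) this
    ring
  have a2 : 6 * (2 * CC * M / m) + 2 * β ≤ (12 * CC * M + 2 * C2) * T := by
    have := hlin (12 * CC * M) (2 * C2) (by positivity) (by positivity)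
    rw [hβ]
    refine le_trans (le_of_eq ?_) this
    ring
  have a3 : √(6 * (2 * CC * M / m) + 2 * β) ≤ √(12 * CC * M + 2 * C2) * √T := by
    rw [← Real.sqrt_mul (by positivity)]
    exact Real.sqrt_le_sqrt a2
  have hsT := Real.sqrt_nonneg T
  have hs12 := Real.sqrt_nonneg (12 * CC * M + 2 * C2)
  by_cases hT1 : T ≤ 1
  · have hTT : T ≤ √T := by
      refine Real.le_sqrt_of_sq_le ?_
      nlinarith
    have a4 : (4 * CC * M + C2) * T ≤ (4 * CC * M + C2) * √T :=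
      mul_le_mul_of_nonneg_left hTT (by positivity)
    have a5 : 0 ≤ (8 * M * CC + 2 * Z.s + 1) * √T := by positivity
    refine hst.trans (add_le_add le_rfl ?_)
    calc 2 * (2 * CC * M / m) + β + 4 * √(6 * (2 * CC * M / m) + 2 * β) ≤
          (4 * CC * M + C2) * √T + 4 * (√(12 * CC * M + 2 * C2) * √T) := by linarith
      _ = E * √T := by rw [hE]; ring
      _ ≤ _ := by linarith
  · have h1 : 1 ≤ √T := by rw [Real.one_le_sqrt]; exact (not_le.1 hT1).le
    have h2 : gc (two Z D y) x L (fun _ => f) / ZZ ≤ 1 := by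
      rw [div_le_one hZp, hZZ]
      unfold gc
      exact sum_le_sum fun n _ => mul_le_mul_of_nonneg_left
        (sum_le_sum fun w hw => (hf n w hw).2) (by positivity)
    have h3 : 0 ≤ gc (two Z D y) x L (fun _ => f') / ZZ := by
      refine div_nonneg ?_ hZp.le
      unfold gc
      exact sum_nonneg fun n _ => mul_nonneg (by positivity)
        (sum_nonneg fun w hw => (hf' n w hw).1)
    have h4 : 1 * 1 ≤ (E + 8 * M * CC + 2 * Z.s + 1) * √T :=
      mul_le_mul (by linarith) h1 zero_le_one (by positivity)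
    linarith

end Pool.Agent.R965.HP
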