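import Pool.Agent.R965.HP.WinPoor
import Pool.Agent.R965.HP.Core

/-!
# Walks with few moves in a window of times are rare
-/

set_option autoImplicit false

namespace Pool.Agent.R965.HP

open Finset Filter Topology TH966.KS TH966.AK
open scoped Classical

variable {A : P → P → Prop} {D : P → Prop}

/-- the hypotheses of the results about windows of times -/
structure WH (Z : Rule A) (D : P → Prop) (μ K K1 C1 : ℝ) (g : ℕ) : Prop where
  h0 : D 0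
  G : Gr (ruleD Z D).sys μ K g
  hK1 : 0 ≤ K1
  hC1 : 1 ≤ C1
  full : ∀ j n : ℕ, j ≤ n → 2 ≤ n →
    ((Kw A j).card : ℝ) ≤ C1 * μ ^ j * Real.exp (K1 * Real.log n ^ g)
  poor : ∃ (M0 : ℕ) (ρ C0 : ℝ), 1 ≤ M0 ∧ 0 ≤ ρ ∧ ρ < μ ∧ 0 ≤ C0 ∧
    ∀ n a b m : ℕ, n + 1 = a + (m + 1) + b →
      (((Kw (AD A D) n).filter (fun w => M0 * (BW (ruleD Z D) a b w).card ≤ m)).card : ℝ) ≤
        ((Kw A a).card : ℝ) * (C0 * ρ ^ m) * ((Kw A b).card : ℝ)

variable {Z : Rule A} {μ K K1 C1 : ℝ} {g : ℕ}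

theorem half_pow {M : ℕ} (hM : 1 ≤ M) (ℓ : ℕ) :
    (1 / 4 : ℝ) ^ (ℓ / M) ≤ 2 * (1 - 1 / (2 * (M : ℝ))) ^ ℓ := by
  have hM' : (1 : ℝ) ≤ M := by exact_mod_cast hM
  obtain ⟨θ, hθ⟩ : ∃ θ : ℝ, θ = 1 - 1 / (2 * (M : ℝ)) := ⟨_, rfl⟩
  rw [← hθ]
  have hθ2 : 1 / (2 * (M : ℝ)) ≤ 1 / 2 := by
    rw [div_le_div_iff₀ (by positivity) (by norm_num)]; linarith
  have hθ0 : 0 < θ := by rw [hθ]; linarith
  have hθ1 : θ ≤ 1 := by
    rw [hθ]
    have : 0 < 1 / (2 * (M : ℝ)) := by positivity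
    linarith
  have hp : (1 / 2 : ℝ) ≤ θ ^ M := by
    have h := one_add_mul_le_pow (a := -(1 / (2 * (M : ℝ)))) (by linarith) M
    have e : (1 : ℝ) + -(1 / (2 * M)) = θ := by rw [hθ]; ring
    rw [e] at h
    refine le_trans (le_of_eq ?_) h
    field_simp
    norm_num
  obtain ⟨j, hj⟩ : ∃ j, j = ℓ / M := ⟨_, rfl⟩
  rw [← hj]
  have hℓ : ℓ ≤ M * (j + 1) := by
    have h1 := Nat.lt_mul_div_succ ℓ (show 0 < M by omega)
    rw [← hj] at h1
    exact h1.le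
  have h1 : θ ^ (M * (j + 1)) ≤ θ ^ ℓ := pow_le_pow_of_le_one hθ0.le hθ1 hℓ
  have h2 : (1 / 2 : ℝ) ^ (j + 1) ≤ θ ^ (M * (j + 1)) := by
    rw [pow_mul]
    exact pow_le_pow_left₀ (by norm_num) hp _
  have h3 : (1 / 4 : ℝ) ^ j ≤ (1 / 2) ^ j := pow_le_pow_left₀ (by norm_num) (by norm_num) _
  rw [pow_succ] at h2
  linarith

/-- walks with few moves in the window -/
theorem bad_win (H : WH Z D μ K K1 C1 g) : ∃ (M : ℕ) (θ C2 K2 : ℝ), 1 ≤ M ∧ 0 < θ ∧ θ < 1 ∧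
    0 ≤ C2 ∧ 0 ≤ K2 ∧ ∀ n a b ℓ : ℕ, 2 ≤ n → n + 1 = a + (ℓ + 1) + b →
    (((Kw (AD A D) n).filter (fun w => M * (SW (ruleD Z D) a b w).card ≤ ℓ ∨
      M * (BW (ruleD Z D) a b w).card ≤ ℓ)).card : ℝ) ≤
      N (ruleD Z D).sys n * (C2 * Real.exp (K2 * Real.log n ^ g) * θ ^ ℓ) := by
  obtain ⟨M0, ρ, C0, hM0, hρ0, hρ1, hC00, hp⟩ := H.poor
  have hμ := H.G.hμ
  have hμ0 : 0 < μ := by linarith
  have hK := H.G.hK
  have hK1 := H.hK1
  have hC1 := H.hC1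
  obtain ⟨k, hk⟩ : ∃ k, k = 5 * (ruleD Z D).CC + 5 + 2 * Z.s := ⟨_, rfl⟩
  obtain ⟨M, hM⟩ : ∃ M, M = M0 * k := ⟨_, rfl⟩
  have hkM : k ≤ M := by rw [hM]; exact Nat.le_mul_of_pos_left _ hM0
  have hM1 : 1 ≤ M := by omega
  have hM0M : M0 ≤ M := by rw [hM]; exact Nat.le_mul_of_pos_right _ (by omega)
  obtain ⟨θ₁, hθ₁⟩ : ∃ θ₁ : ℝ, θ₁ = 1 - 1 / (2 * (M : ℝ)) := ⟨_, rfl⟩
  have hM' : (1 : ℝ) ≤ M := by exact_mod_cast hM1
  have hθ2 : 1 / (2 * (M : ℝ)) ≤ 1 / 2 := by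
    rw [div_le_div_iff₀ (by positivity) (by norm_num)]; linarith
  have hθ0 : 0 < θ₁ := by rw [hθ₁]; linarith
  have hθ1 : θ₁ < 1 := by
    rw [hθ₁]
    have : 0 < 1 / (2 * (M : ℝ)) := by positivity
    linarith
  have hθρ : ρ / μ < 1 := by rw [div_lt_one hμ0]; exact hρ1
  refine ⟨M, max θ₁ (ρ / μ), C1 * C1 * C0 + 2 * C1, K + 2 * K1, hM1, lt_max_of_lt_left hθ0,
    max_lt hθ1 hθρ, by positivity, by positivity, fun n a b ℓ hn hab => ?_⟩
  obtain ⟨θ, hθ⟩ : ∃ θ, θ = max θ₁ (ρ / μ) := ⟨_, rfl⟩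
  rw [← hθ]
  have hθ00 : 0 < θ := by rw [hθ]; exact lt_max_of_lt_left hθ0
  obtain ⟨Λ, hΛ⟩ : ∃ Λ, Λ = Real.log n ^ g := ⟨_, rfl⟩
  have hΛ0 : 0 ≤ Λ := by rw [hΛ]; exact pow_nonneg (Real.log_natCast_nonneg n) _
  have hlow := H.G.low n hn
  rw [← hΛ] at hlow ⊢
  obtain ⟨X, hX⟩ : ∃ X, X = N (ruleD Z D).sys n := ⟨_, rfl⟩
  rw [← hX] at hlow ⊢
  have hXp : 0 < X := by rw [hX]; exact H.G.pos n
  have hμn : μ ^ n ≤ X * Real.exp (K * Λ) := by
    have h1 := mul_le_mul_of_nonneg_right hlow (Real.exp_pos (K * Λ)).le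
    rw [mul_assoc, ← Real.exp_add, neg_add_cancel, Real.exp_zero, mul_one] at h1
    exact h1
  -- few downward moves
  have q1 : (((Kw (AD A D) n).filter (fun w => M0 * (BW (ruleD Z D) a b w).card ≤ ℓ)).card : ℝ) ≤
      X * (C1 * C1 * C0 * Real.exp ((K + 2 * K1) * Λ) * θ ^ ℓ) := by
    refine (hp n a b ℓ hab).trans ?_
    have f1 := H.full a n (by omega) hn
    have f2 := H.full b n (by omega) hn
    rw [← hΛ] at f1 f2
    have hρℓ : ρ ^ ℓ ≤ θ ^ ℓ * μ ^ ℓ := by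
      rw [← mul_pow]
      refine pow_le_pow_left₀ hρ0 ?_ _
      have h1 : ρ / μ ≤ θ := by rw [hθ]; exact le_max_right _ _
      rwa [div_le_iff₀ hμ0] at h1
    have f3 : C0 * ρ ^ ℓ ≤ C0 * (θ ^ ℓ * μ ^ ℓ) := mul_le_mul_of_nonneg_left hρℓ hC00
    have hn' : n = a + ℓ + b := by omega
    calc ((Kw A a).card : ℝ) * (C0 * ρ ^ ℓ) * ((Kw A b).card : ℝ)
        ≤ (C1 * μ ^ a * Real.exp (K1 * Λ)) * (C0 * (θ ^ ℓ * μ ^ ℓ)) *
          (C1 * μ ^ b * Real.exp (K1 * Λ)) := by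
          refine mul_le_mul (mul_le_mul f1 f3 ?_ ?_) f2 (Nat.cast_nonneg _) ?_ <;> positivity
      _ = μ ^ n * (C1 * C1 * C0 * (Real.exp (K1 * Λ) * Real.exp (K1 * Λ)) * θ ^ ℓ) := by
          rw [hn', pow_add, pow_add]; ring
      _ ≤ (X * Real.exp (K * Λ)) *
          (C1 * C1 * C0 * (Real.exp (K1 * Λ) * Real.exp (K1 * Λ)) * θ ^ ℓ) :=
          mul_le_mul_of_nonneg_right hμn (by positivity)
      _ = _ := by
          have e1 : Real.exp ((K + 2 * K1) * Λ) =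
              Real.exp (K * Λ) * (Real.exp (K1 * Λ) * Real.exp (K1 * Λ)) := by
            rw [← Real.exp_add, ← Real.exp_add]
            congr 1
            ring
          rw [e1]
          ring
  -- many downward moves and few upward moves
  have q2 : (((Kw (AD A D) n).filter (fun w => M * (SW (ruleD Z D) a b w).card ≤ ℓ ∧
      ¬ M0 * (BW (ruleD Z D) a b w).card ≤ ℓ)).card : ℝ) ≤
      X * (2 * C1 * Real.exp ((K + 2 * K1) * Λ) * θ ^ ℓ) := by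
    have hd := down_win (sysW (ruleD Z D) a b) rfl hM0 (show ℓ ≤ n by omega)
      ((Kw (AD A D) n).filter (fun w => M * (SW (ruleD Z D) a b w).card ≤ ℓ ∧
      ¬ M0 * (BW (ruleD Z D) a b w).card ≤ ℓ)) (filter_subset _ _) (by
        intro w hw
        rw [mem_filter] at hw
        refine ⟨not_le.1 hw.2.2, ?_⟩
        have := hw.2.1
        rw [hM, hk] at this
        exact this)
    have e0 : M0 * (5 * (sysW (ruleD Z D) a b).C + 5 + 2 * (sysW (ruleD Z D) a b).s) = M := by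
      rw [hM, hk]
      rfl
    rw [e0] at hd
    obtain ⟨j, hj⟩ : ∃ j, j = ℓ / M := ⟨_, rfl⟩
    rw [← hj] at hd
    have h1 : (((sysW (ruleD Z D) a b).K (n - (sysW (ruleD Z D) a b).s * j)).card : ℝ) ≤
        X * (C1 * Real.exp ((K + 2 * K1) * Λ)) := by
      obtain ⟨m, hm⟩ : ∃ m, m = n - (sysW (ruleD Z D) a b).s * j := ⟨_, rfl⟩
      rw [← hm]
      have h2 : (((sysW (ruleD Z D) a b).K m).card : ℝ) ≤ ((Kw A m).card : ℝ) := by
        have : (Kw (AD A D) m).card ≤ (Kw A m).card :=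
          Finset.card_le_card fun w hw => ((Kw_D Z H.h0).1 hw).1
        exact_mod_cast this
      have f1 := H.full m n (by omega) hn
      rw [← hΛ] at f1
      refine h2.trans (f1.trans ?_)
      have h3 : μ ^ m ≤ μ ^ n := pow_le_pow_right₀ hμ (by omega)
      calc C1 * μ ^ m * Real.exp (K1 * Λ) ≤ C1 * (X * Real.exp (K * Λ)) * Real.exp (K1 * Λ) := by
            refine mul_le_mul_of_nonneg_right (mul_le_mul_of_nonneg_left ?_ (by linarith))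
              (Real.exp_pos _).le
            linarith
        _ = X * (C1 * Real.exp ((K + K1) * Λ)) := by
            rw [add_mul, Real.exp_add]; ring
        _ ≤ _ := by
            refine mul_le_mul_of_nonneg_left (mul_le_mul_of_nonneg_left ?_ (by linarith)) hXp.le
            apply Real.exp_le_exp.2
            nlinarith
    have h2 : (((Kw (AD A D) n).filter (fun w => M * (SW (ruleD Z D) a b w).card ≤ ℓ ∧
        ¬ M0 * (BW (ruleD Z D) a b w).card ≤ ℓ)).card : ℝ) * 4 ^ j ≤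
        X * (C1 * Real.exp ((K + 2 * K1) * Λ)) := by
      refine le_trans ?_ h1
      exact_mod_cast hd
    have h3 := half_pow hM1 ℓ
    rw [← hθ₁, ← hj] at h3
    have h4 : θ₁ ^ ℓ ≤ θ ^ ℓ := pow_le_pow_left₀ hθ0.le (by rw [hθ]; exact le_max_left _ _) _
    have h5 : (1 / 4 : ℝ) ^ j ≤ 2 * θ ^ ℓ := by linarith
    have h6 : (4 : ℝ) ^ j * (1 / 4) ^ j = 1 := by
      rw [← mul_pow]; norm_num
    calc (((Kw (AD A D) n).filter (fun w => M * (SW (ruleD Z D) a b w).card ≤ ℓ ∧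
        ¬ M0 * (BW (ruleD Z D) a b w).card ≤ ℓ)).card : ℝ)
        = (((Kw (AD A D) n).filter (fun w => M * (SW (ruleD Z D) a b w).card ≤ ℓ ∧
        ¬ M0 * (BW (ruleD Z D) a b w).card ≤ ℓ)).card : ℝ) * 4 ^ j * (1 / 4) ^ j := by
          rw [mul_assoc, h6, mul_one]
      _ ≤ X * (C1 * Real.exp ((K + 2 * K1) * Λ)) * (2 * θ ^ ℓ) :=
          mul_le_mul h2 h5 (by positivity) (by positivity)
      _ = _ := by ring
  have hcov : (Kw (AD A D) n).filter (fun w => M * (SW (ruleD Z D) a b w).card ≤ ℓ ∨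
      M * (BW (ruleD Z D) a b w).card ≤ ℓ) ⊆
      (Kw (AD A D) n).filter (fun w => M0 * (BW (ruleD Z D) a b w).card ≤ ℓ) ∪
      (Kw (AD A D) n).filter (fun w => M * (SW (ruleD Z D) a b w).card ≤ ℓ ∧
      ¬ M0 * (BW (ruleD Z D) a b w).card ≤ ℓ) := by
    intro w hw
    simp only [mem_union, mem_filter] at hw ⊢
    obtain ⟨h1, h2⟩ := hw
    by_cases h3 : M0 * (BW (ruleD Z D) a b w).card ≤ ℓ
    · exact Or.inl ⟨h1, h3⟩
    · refine Or.inr ⟨h1, ?_, h3⟩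
      rcases h2 with h2 | h2
      · exact h2
      · exact absurd ((Nat.mul_le_mul_right _ hM0M).trans h2) h3
  have hcard : (((Kw (AD A D) n).filter (fun w => M * (SW (ruleD Z D) a b w).card ≤ ℓ ∨
      M * (BW (ruleD Z D) a b w).card ≤ ℓ)).card : ℝ) ≤
      (((Kw (AD A D) n).filter (fun w => M0 * (BW (ruleD Z D) a b w).card ≤ ℓ)).card : ℝ) +
      (((Kw (AD A D) n).filter (fun w => M * (SW (ruleD Z D) a b w).card ≤ ℓ ∧
      ¬ M0 * (BW (ruleD Z D) a b w).card ≤ ℓ)).card : ℝ) := by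
    exact_mod_cast (card_le_card hcov).trans (card_union_le _ _)
  refine hcard.trans ((add_le_add q1 q2).trans (le_of_eq ?_))
  ring

end Pool.Agent.R965.HP
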