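import Pool.Agent.R965.HP.WinBad

/-!
# The error terms and one step, in a window of times
-/

set_option autoImplicit false

namespace Pool.Agent.R965.HP

open Finset Filter Topology TH966.KS TH966.AK
open scoped Classical

variable {A : P → P → Prop} {D : P → Prop} {Z : Rule A} {μ K K1 C1 : ℝ} {g : ℕ}

/-- the walks which are not good have few moves in the window -/
theorem bad_sub (M n ℓ s x : ℕ) (hℓ : 1 ≤ ℓ) (hb : M * (n / ℓ + 1) * x ≤ n + s) :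
    M * x ≤ ℓ + s := by
  obtain ⟨d, hd⟩ : ∃ d, d = n / ℓ + 1 := ⟨_, rfl⟩
  have h1 : n < ℓ * d := by
    rw [hd]
    exact Nat.lt_mul_div_succ n (by omega)
  rw [← hd] at hb
  have hd1 : 1 ≤ d := by rw [hd]; exact Nat.le_add_left 1 _
  have h2 : d * (M * x) ≤ d * (ℓ + s) := by
    calc d * (M * x) = M * d * x := by ring
      _ ≤ n + s := hb
      _ ≤ d * ℓ + d * s := by
          have : s ≤ d * s := Nat.le_mul_of_pos_left _ hd1
          have h3 : n ≤ d * ℓ := by rw [mul_comm]; exact h1.le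
          exact add_le_add h3 this
      _ = _ := by ring
  exact Nat.le_of_mul_le_mul_left h2 (by omega)

theorem log_add_le {s n : ℕ} (hs : s ≤ n) (hn : 2 ≤ n) :
    Real.log ((n + s : ℕ) : ℝ) ≤ 2 * Real.log n := by
  have hn' : (2 : ℝ) ≤ n := by exact_mod_cast hn
  have hs' : (s : ℝ) ≤ n := by exact_mod_cast hs
  have h1 : ((n + s : ℕ) : ℝ) ≤ (n : ℝ) ^ 2 := by
    push_cast
    nlinarith
  have h2 := Real.log_le_log (by positivity) h1
  rw [Real.log_pow] at h2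
  exact_mod_cast h2

/-- the error terms -/
theorem err_win (H : WH Z D μ K K1 C1 g) (hg : 1 ≤ g) : ∃ (M : ℕ) (C3 : ℝ), 1 ≤ M ∧ 1 ≤ C3 ∧
    ∀ᶠ n : ℕ in atTop, ∀ a b ℓ : ℕ, n + 1 = a + (ℓ + 1) + b → C3 * Real.log n ^ g ≤ ℓ →
      1 ≤ ℓ → N (ruleD Z D).sys n ≤ 2 * N (ruleD Z D).sys (n + Z.s) →
      ((((sysW (ruleD Z D) a b).bad (M * (n / ℓ + 1)) (n + Z.s)).card : ℝ) +
        (ruleD Z D).CC * (n + 1) * ((sysW (ruleD Z D) a b).bad (M * (n / ℓ + 1)) n).card) ≤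
        N (ruleD Z D).sys (n + Z.s) / n := by
  obtain ⟨M, θ, C2, K2, hM, hθ0, hθ1, hC2, hK2, hbad⟩ := bad_win H
  obtain ⟨c, hc⟩ : ∃ c, c = -Real.log θ := ⟨_, rfl⟩
  have hc0 : 0 < c := by
    rw [hc]
    have := Real.log_neg hθ0 hθ1
    linarith
  obtain ⟨Q, hQ⟩ : ∃ Q : ℝ, Q = K2 * 2 ^ g + 3 := ⟨_, rfl⟩
  have hQ0 : 0 ≤ Q := by rw [hQ]; positivity
  obtain ⟨C, hCC⟩ : ∃ C : ℝ, C = ((ruleD Z D).CC : ℝ) := ⟨_, rfl⟩
  have hC0 : 0 ≤ C := by rw [hCC]; positivity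
  refine ⟨M, Q / c + 1, hM, by
    have : 0 ≤ Q / c := by positivity
    linarith, ?_⟩
  have t : Tendsto (fun n : ℕ => (n : ℝ)) atTop atTop := tendsto_natCast_atTop_atTop
  have t3 : Tendsto (fun k : ℕ => Real.log (k : ℝ)) atTop atTop :=
    Real.tendsto_log_atTop.comp t
  filter_upwards [eventually_ge_atTop 2, eventually_ge_atTop Z.s, t3.eventually_ge_atTop 1,
    t.eventually_ge_atTop (C2 * (1 + 4 * C))]
    with n hn hsn hlog hbig a b ℓ hab hℓ hℓ1 hN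
  have hn' : (2 : ℝ) ≤ n := by exact_mod_cast hn
  have hnp : (0 : ℝ) < n := by linarith
  obtain ⟨X, hX⟩ : ∃ X, X = N (ruleD Z D).sys (n + Z.s) := ⟨_, rfl⟩
  have hX0 : 0 < X := by rw [hX]; exact H.G.pos _
  have b1 := hbad (n + Z.s) a b (ℓ + Z.s) (by omega) (by omega)
  have b2 := hbad n a b ℓ hn hab
  rw [← hX] at b1 hN ⊢
  obtain ⟨Λ, hΛ⟩ : ∃ Λ, Λ = Real.log n ^ g := ⟨_, rfl⟩
  rw [← hΛ] at b2 hℓ
  have hΛ1 : Real.log n ≤ Λ := by
    rw [hΛ]
    exact le_self_pow₀ hlog (by omega)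
  have hΛ0 : 0 ≤ Λ := by linarith
  have hΛs : Real.log ((n + Z.s : ℕ) : ℝ) ^ g ≤ 2 ^ g * Λ := by
    rw [hΛ, ← mul_pow]
    exact pow_le_pow_left₀ (Real.log_natCast_nonneg _) (log_add_le hsn hn) _
  obtain ⟨E, hE⟩ : ∃ E, E = Real.exp (K2 * 2 ^ g * Λ) * θ ^ ℓ := ⟨_, rfl⟩
  have hE0 : 0 < E := by rw [hE]; positivity
  have e1 : C2 * Real.exp (K2 * Real.log ((n + Z.s : ℕ) : ℝ) ^ g) * θ ^ (ℓ + Z.s) ≤ C2 * E := by
    rw [hE, mul_assoc]
    refine mul_le_mul_of_nonneg_left (mul_le_mul (Real.exp_le_exp.2 ?_) ?_ (by positivity)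
      (Real.exp_pos _).le) hC2
    · rw [mul_assoc]
      exact mul_le_mul_of_nonneg_left hΛs hK2
    · exact pow_le_pow_of_le_one hθ0.le hθ1.le (Nat.le_add_right _ _)
  have e2 : C2 * Real.exp (K2 * Λ) * θ ^ ℓ ≤ C2 * E := by
    rw [hE, mul_assoc]
    refine mul_le_mul_of_nonneg_left (mul_le_mul_of_nonneg_right (Real.exp_le_exp.2 ?_)
      (by positivity)) hC2
    have : (1 : ℝ) ≤ 2 ^ g := one_le_pow₀ (by norm_num)
    have h1 : K2 * Λ * 1 ≤ K2 * Λ * 2 ^ g := mul_le_mul_of_nonneg_left this (by positivity)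
    linarith
  -- the two sets
  have s1 : (((sysW (ruleD Z D) a b).bad (M * (n / ℓ + 1)) (n + Z.s)).card : ℝ) ≤
      X * (C2 * E) := by
    refine le_trans ?_ (b1.trans (mul_le_mul_of_nonneg_left e1 hX0.le))
    rw [Nat.cast_le]
    refine Finset.card_le_card fun w hw => ?_
    unfold Sys.bad at hw
    rw [mem_filter] at hw ⊢
    exact ⟨hw.1, hw.2.imp (bad_sub M n ℓ Z.s _ hℓ1) (bad_sub M n ℓ Z.s _ hℓ1)⟩
  have s2 : (((sysW (ruleD Z D) a b).bad (M * (n / ℓ + 1)) n).card : ℝ) ≤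
      2 * X * (C2 * E) := by
    refine le_trans ?_ ((b2.trans (mul_le_mul_of_nonneg_left e2 (H.G.pos _).le)).trans
      (mul_le_mul_of_nonneg_right hN (by positivity)))
    rw [Nat.cast_le]
    refine Finset.card_le_card fun w hw => ?_
    unfold Sys.bad at hw
    rw [mem_filter] at hw ⊢
    exact ⟨hw.1, hw.2.imp (bad_sub M n ℓ 0 _ hℓ1) (bad_sub M n ℓ 0 _ hℓ1)⟩
  rw [← hCC]
  have hE1 : (n : ℝ) ^ 3 * E ≤ 1 := by
    have h1 : (n : ℝ) ^ 3 ≤ Real.exp (3 * Λ) := by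
      have h2 : Real.log ((n : ℝ) ^ 3) ≤ 3 * Λ := by
        rw [Real.log_pow]
        push_cast
        linarith
      rwa [Real.log_le_iff_le_exp (by positivity)] at h2
    have h2 : θ ^ ℓ = Real.exp (-(c * ℓ)) := by
      rw [hc, neg_mul, neg_neg, mul_comm, Real.exp_nat_mul, Real.exp_log hθ0]
    have h3 : Q * Λ ≤ c * ℓ := by
      have h4 : c * ((Q / c + 1) * Λ) ≤ c * ℓ := mul_le_mul_of_nonneg_left hℓ hc0.le
      have h5 : c * ((Q / c + 1) * Λ) = Q * Λ + c * Λ := by field_simp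
      have h6 : 0 ≤ c * Λ := by positivity
      linarith
    calc (n : ℝ) ^ 3 * E ≤ Real.exp (3 * Λ) * E := mul_le_mul_of_nonneg_right h1 hE0.le
      _ = Real.exp (Q * Λ - c * ℓ) := by
          rw [hE, h2, ← Real.exp_add, ← Real.exp_add, hQ]
          congr 1
          ring
      _ ≤ 1 := by
          rw [Real.exp_le_one_iff]
          linarith
  have hfin : n * (C2 * (1 + 2 * C * (n + 1))) ≤ (n : ℝ) ^ 3 := by
    have h1 : C2 * (1 + 2 * C * (n + 1)) ≤ C2 * (1 + 4 * C) * n := by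
      have : 1 + 2 * C * (n + 1) ≤ (1 + 4 * C) * n := by nlinarith
      calc C2 * (1 + 2 * C * (n + 1)) ≤ C2 * ((1 + 4 * C) * n) :=
            mul_le_mul_of_nonneg_left this hC2
        _ = _ := by ring
    have h2 : C2 * (1 + 4 * C) * n ≤ n * n := mul_le_mul_of_nonneg_right hbig hnp.le
    nlinarith
  rw [le_div_iff₀ hnp]
  calc ((((sysW (ruleD Z D) a b).bad (M * (n / ℓ + 1)) (n + Z.s)).card : ℝ) +
        C * (n + 1) * ((sysW (ruleD Z D) a b).bad (M * (n / ℓ + 1)) n).card) * n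
      ≤ (X * (C2 * E) + C * (n + 1) * (2 * X * (C2 * E))) * n := by
        refine mul_le_mul_of_nonneg_right (add_le_add s1 ?_) hnp.le
        exact mul_le_mul_of_nonneg_left s2 (by positivity)
    _ = X * (n * (C2 * (1 + 2 * C * (n + 1))) * E) := by ring
    _ ≤ X * ((n : ℝ) ^ 3 * E) :=
        mul_le_mul_of_nonneg_left (mul_le_mul_of_nonneg_right hfin hE0.le) hX0.le
    _ ≤ X * 1 := mul_le_mul_of_nonneg_left hE1 hX0.le
    _ = X := mul_one _

end Pool.Agent.R965.HP
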