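import Pool.Agent.R965.HP.WinOne

/-!
# Windows of lengths, functions which ignore a window of times
-/

set_option autoImplicit false

namespace Pool.Agent.R965.HP

open Finset Filter Topology TH966.KS TH966.AK
open scoped Classical

variable {A : P → P → Prop} {D : P → Prop} {Z : Rule A} {μ K K1 C1 : ℝ} {g : ℕ}

/-- `log ^ g / n` decreases and tends to zero -/
theorem lg_ev (g : ℕ) (hg : 1 ≤ g) (C : ℝ) (hC : 1 ≤ C) : ∀ᶠ n : ℕ in atTop, ∀ i : ℕ,
    C * Real.log ((n + i : ℕ) : ℝ) ^ g ≤ C * Real.log n ^ g + i := by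
  have h1 := log_pow_div g
  have h2 : (0 : ℝ) < 1 / C := by positivity
  filter_upwards [rt_anti g hg, h1.eventually_le_const h2, eventually_ge_atTop 2]
    with n hn hs hn2 i
  have hnp : (0 : ℝ) < n := by exact_mod_cast (show 0 < n by omega)
  have hni : (0 : ℝ) < ((n + i : ℕ) : ℝ) := by exact_mod_cast (show 0 < n + i by omega)
  have h3 := hn (n + i) (Nat.le_add_right _ _)
  unfold rt at h3
  have h4 : Real.log ((n + i : ℕ) : ℝ) ^ g / ((n + i : ℕ) : ℝ) ≤ Real.log n ^ g / n := by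
    have p1 : 0 ≤ Real.log ((n + i : ℕ) : ℝ) ^ g / ((n + i : ℕ) : ℝ) := by
      have := Real.log_natCast_nonneg (n + i)
      positivity
    have p2 : 0 ≤ Real.log (n : ℝ) ^ g / (n : ℝ) := by
      have := Real.log_natCast_nonneg n
      positivity
    exact (Real.sqrt_le_sqrt_iff p2).1 h3
  rw [div_le_iff₀ hni] at h4
  have h5 : C * (Real.log n ^ g / n) ≤ 1 := by
    calc C * (Real.log n ^ g / n) ≤ C * (1 / C) := mul_le_mul_of_nonneg_left hs (by linarith)
      _ = 1 := by field_simp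
  have hi : (0 : ℝ) ≤ i := Nat.cast_nonneg i
  calc C * Real.log ((n + i : ℕ) : ℝ) ^ g ≤ C * (Real.log n ^ g / n * ((n + i : ℕ) : ℝ)) :=
        mul_le_mul_of_nonneg_left h4 (by linarith)
    _ = C * Real.log n ^ g + C * (Real.log n ^ g / n) * i := by
        push_cast
        field_simp
    _ ≤ _ := by
        have := mul_le_mul_of_nonneg_right h5 hi
        linarith

/-- several steps, large `n` -/
theorem win_ev (H : WH Z D μ K K1 C1 g) (hg : 1 ≤ g) : ∃ C : ℝ, 1 ≤ C ∧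
    ∀ᶠ n : ℕ in atTop, ∀ k a b ℓ : ℕ, n + 1 = a + (ℓ + 1) + b → C * Real.log n ^ g ≤ ℓ →
      ∀ F : List P → ℝ, (∀ w, 0 ≤ F w ∧ F w ≤ 1) →
        (∀ m, ∀ w ∈ Kw (AD A D) m, ∀ q ∈ (sysW (ruleD Z D) a b).S w,
          F ((sysW (ruleD Z D) a b).ins w q) = F w) →
        |EY (ruleD Z D).sys (n + Z.s * k) F - EY (ruleD Z D).sys n F| ≤
          C * (√(k * rt g n) + k / √ℓ) := by
  obtain ⟨c, ρ, C3, hc, hρ, hC3, hone⟩ := one_win H hg
  obtain ⟨R, hR, hrat⟩ := H.G.ratio hg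
  have hs := H.G.hs
  have hs' : 1 ≤ Z.s := hs
  obtain ⟨n1, hn1⟩ := eventually_atTop.1 (hone.and ((rt_anti g hg).and (lg_ev g hg C3 hC3)))
  obtain ⟨L, hL⟩ : ∃ L : ℝ, L = 2 * R * ρ + 2 * ρ * c + c := ⟨_, rfl⟩
  have hL0 : 0 ≤ L := by rw [hL]; positivity
  have hsL := Real.sqrt_nonneg L
  refine ⟨C3 + (8 * √L + c), by linarith, ?_⟩
  filter_upwards [eventually_ge_atTop n1, eventually_ge_atTop 2]
    with n hn hn2 k a b ℓ hab hℓ F hF hFF
  have hlog : 0 ≤ Real.log (n : ℝ) ^ g := pow_nonneg (Real.log_natCast_nonneg n) g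
  have hℓ3 : C3 * Real.log n ^ g ≤ ℓ := by
    have : 0 ≤ (8 * √L + c) * Real.log (n : ℝ) ^ g := by positivity
    linarith
  -- the hypotheses at each length
  have hi : ∀ i : ℕ, n + Z.s * i + 1 = a + (ℓ + Z.s * i + 1) + b ∧
      C3 * Real.log ((n + Z.s * i : ℕ) : ℝ) ^ g ≤ ((ℓ + Z.s * i : ℕ) : ℝ) := by
    intro i
    refine ⟨by omega, ?_⟩
    have h1 := (hn1 n hn).2.2 (Z.s * i)
    refine h1.trans ?_
    push_cast
    linarith
  have h0 := ((hn1 n hn).1.2.2 a b ℓ hab hℓ3)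
  have hℓ1 : 1 ≤ ℓ := h0.1
  have hℓ1' : (1 : ℝ) ≤ ℓ := by exact_mod_cast hℓ1
  have hℓ0 : (0 : ℝ) < ℓ := by linarith
  have hsℓ : 0 < √(ℓ : ℝ) := Real.sqrt_pos.2 hℓ0
  have hrt0 : 0 < rt g n := rt_pos hn2
  rcases Nat.eq_zero_or_pos k with rfl | hk
  · simp
  have hk' : (1 : ℝ) ≤ k := by exact_mod_cast hk
  obtain ⟨V, hV⟩ : ∃ V : ℕ → ℝ, V = fun i => rr (ruleD Z D).sys (n + Z.s * i) *
      (rr (ruleD Z D).sys (n + Z.s * (i + 1)) - rr (ruleD Z D).sys (n + Z.s * i)) +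
        c / ((ℓ + Z.s * i : ℕ) : ℝ) := ⟨_, rfl⟩
  have hVi : ∀ i, V i = rr (ruleD Z D).sys (n + Z.s * i) *
      (rr (ruleD Z D).sys (n + Z.s * (i + 1)) - rr (ruleD Z D).sys (n + Z.s * i)) +
        c / ((ℓ + Z.s * i : ℕ) : ℝ) := fun i => by rw [hV]
  have hile : ∀ i : ℕ, c / ((ℓ + Z.s * i : ℕ) : ℝ) ≤ c / ℓ := by
    intro i
    refine div_le_div_of_nonneg_left hc hℓ0 ?_
    exact_mod_cast Nat.le_add_right ℓ (Z.s * i)
  have e1 : ∀ i, n + Z.s * (i + 1) = n + Z.s * i + Z.s := fun i => by ring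
  have hV0 : ∀ i, 0 ≤ V i := by
    intro i
    have h1 := ((hn1 (n + Z.s * i) (by omega)).1.2.2 a b (ℓ + Z.s * i) (hi i).1 (hi i).2).2.1
    rw [hVi, e1]
    exact h1
  -- telescoping
  have tel : |EY (ruleD Z D).sys (n + Z.s * k) F - EY (ruleD Z D).sys n F| ≤
      ∑ i ∈ range k, (8 * √(V i) + c / ℓ) := by
    have h1 : EY (ruleD Z D).sys (n + Z.s * k) F - EY (ruleD Z D).sys n F =
        ∑ i ∈ range k, (EY (ruleD Z D).sys (n + Z.s * (i + 1)) F -
          EY (ruleD Z D).sys (n + Z.s * i) F) := by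
      rw [Finset.sum_range_sub (fun i => EY (ruleD Z D).sys (n + Z.s * i) F)]
      simp
    rw [h1]
    refine (Finset.abs_sum_le_sum_abs _ _).trans (sum_le_sum fun i _ => ?_)
    have h2 := ((hn1 (n + Z.s * i) (by omega)).1.2.2 a b (ℓ + Z.s * i) (hi i).1 (hi i).2).2.2 F
      (fun w _ => hF w) (fun w _ => hF w) (hFF _)
    have h3 := hile i
    rw [hVi, e1]
    linarith
  have hVup : ∀ i, V i ≤ ρ * (rr (ruleD Z D).sys (n + Z.s * (i + 1)) -
      rr (ruleD Z D).sys (n + Z.s * i) + 2 * c / ℓ) + c / ℓ := by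
    intro i
    obtain ⟨g2, g3, -⟩ := (hn1 (n + Z.s * i) (by omega)).1
    have g1 := hV0 i
    rw [hVi] at g1 ⊢
    obtain ⟨x, hx⟩ : ∃ x, x = rr (ruleD Z D).sys (n + Z.s * (i + 1)) -
      rr (ruleD Z D).sys (n + Z.s * i) := ⟨_, rfl⟩
    obtain ⟨r, hr⟩ : ∃ r, r = rr (ruleD Z D).sys (n + Z.s * i) := ⟨_, rfl⟩
    rw [← hx] at g1 ⊢
    rw [← hr] at g1 g2 g3 ⊢
    have h1 := hile i
    have h2 : 0 ≤ c / ℓ := by positivity
    have h3 : 0 ≤ x + 2 * c / ℓ := by
      have e : 2 * c / ℓ = 2 * (c / ℓ) := by ring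
      rw [e]
      by_contra hcon
      have h4 := not_le.1 hcon
      have h5 : r * x < r * (-(2 * (c / ℓ))) := mul_lt_mul_of_pos_left (by linarith) (by linarith)
      have h6 : r * (-(2 * (c / ℓ))) ≤ -(c / ℓ) := by nlinarith
      linarith
    have h7 : r * x ≤ r * (x + 2 * c / ℓ) :=
      mul_le_mul_of_nonneg_left (by
        have : 0 ≤ 2 * c / ℓ := by positivity
        linarith) (by linarith)
    have h8 : r * (x + 2 * c / ℓ) ≤ ρ * (x + 2 * c / ℓ) := mul_le_mul_of_nonneg_right g3 h3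
    linarith
  have hsumV : ∑ i ∈ range k, V i ≤ 2 * R * ρ * rt g n + (2 * ρ * c + c) * (k / ℓ) := by
    refine (sum_le_sum fun i _ => hVup i).trans ?_
    rw [sum_add_distrib, ← mul_sum, sum_add_distrib, Finset.sum_range_sub
      (fun i => rr (ruleD Z D).sys (n + Z.s * i)), sum_const, sum_const, card_range,
      nsmul_eq_mul, nsmul_eq_mul, Nat.mul_zero, Nat.add_zero]
    have h1 := (abs_le.1 (hrat (n + Z.s * k) (by omega))).2
    have h2 := (abs_le.1 (hrat n hn2)).1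
    have h3 : rt g (n + Z.s * k) ≤ rt g n := (hn1 n hn).2.1 _ (by omega)
    have h4 : rr (ruleD Z D).sys (n + Z.s * k) - rr (ruleD Z D).sys n ≤ 2 * R * rt g n := by
      unfold rr
      have := mul_le_mul_of_nonneg_left h3 hR
      linarith
    calc ρ * (rr (ruleD Z D).sys (n + Z.s * k) - rr (ruleD Z D).sys n + k * (2 * c / ℓ)) +
          k * (c / ℓ)
        = ρ * (rr (ruleD Z D).sys (n + Z.s * k) - rr (ruleD Z D).sys n) +
          (2 * ρ * c + c) * (k / ℓ) := by ring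
      _ ≤ ρ * (2 * R * rt g n) + (2 * ρ * c + c) * (k / ℓ) := by
          refine add_le_add (mul_le_mul_of_nonneg_left h4 (by linarith)) le_rfl
      _ = _ := by ring
  obtain ⟨T, hT⟩ : ∃ T : ℝ, T = √(k * rt g n) + k / √ℓ := ⟨_, rfl⟩
  have hT0 : 0 ≤ T := by rw [hT]; positivity
  have hTsq : k * rt g n + k * (k / ℓ) ≤ T ^ 2 := by
    rw [hT]
    have h1 : √(k * rt g n) ^ 2 = k * rt g n := Real.sq_sqrt (by positivity)
    have h2 : (k / √(ℓ : ℝ)) ^ 2 = k * (k / ℓ) := by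
      rw [div_pow, Real.sq_sqrt hℓ0.le]
      ring
    have h3 : 0 ≤ √(k * rt g n) * (k / √(ℓ : ℝ)) := by positivity
    nlinarith
  have hsq : ∑ i ∈ range k, √(V i) ≤ √L * T := by
    have h1 := Finset.sum_mul_sq_le_sq_mul_sq (range k) (fun _ => (1 : ℝ)) (fun i => √(V i))
    have h2 : ∑ i ∈ range k, √(V i) ^ 2 = ∑ i ∈ range k, V i :=
      sum_congr rfl fun i _ => Real.sq_sqrt (hV0 i)
    rw [h2] at h1
    simp only [one_mul, one_pow, sum_const, card_range, nsmul_eq_mul, mul_one] at h1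
    have h3 : (∑ i ∈ range k, √(V i)) ^ 2 ≤ (√L * T) ^ 2 := by
      rw [mul_pow, Real.sq_sqrt hL0]
      refine h1.trans ?_
      have hkk : (0 : ℝ) ≤ k := by linarith
      calc (k : ℝ) * ∑ i ∈ range k, V i ≤
            k * (2 * R * ρ * rt g n + (2 * ρ * c + c) * (k / ℓ)) :=
            mul_le_mul_of_nonneg_left hsumV hkk
        _ = 2 * R * ρ * (k * rt g n) + (2 * ρ * c + c) * (k * (k / ℓ)) := by ring
        _ ≤ L * (k * rt g n) + L * (k * (k / ℓ)) := by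
            refine add_le_add (mul_le_mul_of_nonneg_right ?_ (by positivity))
              (mul_le_mul_of_nonneg_right ?_ (by positivity))
            · rw [hL]
              have : 0 ≤ 2 * ρ * c + c := by positivity
              linarith
            · rw [hL]
              have : 0 ≤ 2 * R * ρ := by positivity
              linarith
        _ = L * (k * rt g n + k * (k / ℓ)) := by ring
        _ ≤ L * T ^ 2 := mul_le_mul_of_nonneg_left hTsq hL0
    exact (le_abs_self _).trans (abs_le_of_sq_le_sq h3 (by positivity))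
  have hlin : (k : ℝ) * (c / ℓ) ≤ c * T := by
    have h1 : (k : ℝ) / ℓ ≤ k / √ℓ := by
      refine div_le_div_of_nonneg_left (by linarith) hsℓ ?_
      rw [Real.sqrt_le_left (by linarith)]
      nlinarith
    have h2 : (k : ℝ) / √ℓ ≤ T := by
      rw [hT]
      have := Real.sqrt_nonneg (k * rt g n)
      linarith
    calc (k : ℝ) * (c / ℓ) = c * (k / ℓ) := by ring
      _ ≤ c * T := mul_le_mul_of_nonneg_left (h1.trans h2) hc
  refine tel.trans ?_
  rw [sum_add_distrib, ← mul_sum, sum_const, card_range, nsmul_eq_mul, ← hT]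
  have h3T : 0 ≤ C3 * T := by positivity
  calc 8 * ∑ i ∈ range k, √(V i) + k * (c / ℓ) ≤ 8 * (√L * T) + c * T := by linarith
    _ ≤ _ := by linarith

/-- several steps -/
theorem win_all (H : WH Z D μ K K1 C1 g) (hg : 1 ≤ g) : ∃ C : ℝ, 1 ≤ C ∧
    ∀ n : ℕ, 2 ≤ n → ∀ k a b ℓ : ℕ, n + 1 = a + (ℓ + 1) + b → C * Real.log n ^ g ≤ ℓ →
      ∀ F : List P → ℝ, (∀ w, 0 ≤ F w ∧ F w ≤ 1) →
        (∀ m, ∀ w ∈ Kw (AD A D) m, ∀ q ∈ (sysW (ruleD Z D) a b).S w,
          F ((sysW (ruleD Z D) a b).ins w q) = F w) →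
        |EY (ruleD Z D).sys (n + Z.s * k) F - EY (ruleD Z D).sys n F| ≤
          C * (√(k * rt g n) + k / √ℓ) := by
  obtain ⟨C, hC, h⟩ := win_ev H hg
  obtain ⟨n1, hn1⟩ := eventually_atTop.1 h
  have hs0 : 0 ≤ ∑ i ∈ range n1, 1 / √(rt g i) := sum_nonneg fun i _ => by positivity
  refine ⟨C + ∑ i ∈ range n1, 1 / √(rt g i), by linarith, ?_⟩
  intro n hn k a b ℓ hab hℓ F hF hFF
  have hrt0 : 0 < rt g n := rt_pos hn
  have hT0 : 0 ≤ √(k * rt g n) + k / √(ℓ : ℝ) := by positivity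
  by_cases hn' : n1 ≤ n
  · have hlog : 0 ≤ Real.log (n : ℝ) ^ g := pow_nonneg (Real.log_natCast_nonneg n) g
    refine (hn1 n hn' k a b ℓ hab ?_ F hF hFF).trans
      (mul_le_mul_of_nonneg_right (by linarith) hT0)
    refine le_trans ?_ hℓ
    exact mul_le_mul_of_nonneg_right (by linarith) hlog
  · rcases Nat.eq_zero_or_pos k with rfl | hk
    · simp
    have hk' : (1 : ℝ) ≤ k := by exact_mod_cast hk
    have htriv : |EY (ruleD Z D).sys (n + Z.s * k) F - EY (ruleD Z D).sys n F| ≤ 1 := by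
      have b1 : 0 ≤ EY (ruleD Z D).sys n F := EY_nonneg H.G fun w _ => (hF w).1
      have b2 : EY (ruleD Z D).sys n F ≤ 1 := EY_le H.G fun w _ => (hF w).2
      have b3 : 0 ≤ EY (ruleD Z D).sys (n + Z.s * k) F := EY_nonneg H.G fun w _ => (hF w).1
      have b4 : EY (ruleD Z D).sys (n + Z.s * k) F ≤ 1 := EY_le H.G fun w _ => (hF w).2
      rw [abs_le]
      constructor <;> linarith
    have h1 : 1 / √(rt g n) ≤ ∑ i ∈ range n1, 1 / √(rt g i) :=
      Finset.single_le_sum (f := fun i => 1 / √(rt g i)) (fun i _ => by positivity)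
        (Finset.mem_range.2 (by omega))
    have hsp : 0 < √(rt g n) := Real.sqrt_pos.2 hrt0
    have h2 : √(rt g n) ≤ √(k * rt g n) + k / √(ℓ : ℝ) := by
      have h3 : √(rt g n) ≤ √(k * rt g n) := Real.sqrt_le_sqrt (by nlinarith)
      have h4 : 0 ≤ (k : ℝ) / √(ℓ : ℝ) := by positivity
      linarith
    refine htriv.trans ?_
    calc (1 : ℝ) = 1 / √(rt g n) * √(rt g n) := by field_simp
      _ ≤ (C + ∑ i ∈ range n1, 1 / √(rt g i)) * (√(k * rt g n) + k / √(ℓ : ℝ)) :=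
        mul_le_mul (by linarith) h2 hsp.le (by linarith)

end Pool.Agent.R965.HP
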