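import Pool.Agent.R965.HP.WinPoor

/-!
# Few moves in a window of times: grids with motions
-/

set_option autoImplicit false

namespace Pool.Agent.R965.HP

open Finset Filter Topology TH966.KS TH966.AK
open scoped Classical

variable {A : P → P → Prop} {D : P → Prop}

/-- motions which carry the points to the origin -/
structure Mot (Z : Rule A) where
  σ : P → P → P
  τ : P → P → P
  h0 : ∀ v, σ v v = 0
  st : ∀ v x, σ v (τ v x) = x
  ts : ∀ v x, τ v (σ v x) = x
  adj : ∀ v p q, A p q → A (σ v p) (σ v q)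
  tT : ∀ v U U', Z.T U U' → Z.T (U.map (τ v)) (U'.map (τ v))

/-- a downward move of a piece which is not possible for the whole walk contains one of four
points -/
def Exc (Z : Rule A) : Prop :=
  ∀ (w : List P), w.Nodup → w.IsChain A → ∀ a m b : ℕ, w.length = a + (m + 1) + b →
    ∀ V V', Z.T V V' → V' <:+: (w.drop a).take (m + 1) →
      (∃ x ∈ V, x ∉ (w.drop a).take (m + 1) ∧ x ∈ w) →
      w.getD 0 0 ∈ V ++ V' ∨ w.getD (a + m + b) 0 ∈ V ++ V' ∨ w.getD a 0 ∈ V ++ V' ∨
        w.getD (a + m) 0 ∈ V ++ V'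

theorem Mot.inj {Z : Rule A} (Mo : Mot Z) (v : P) : Function.Injective (Mo.σ v) :=
  Function.LeftInverse.injective (Mo.ts v)

theorem Mot.inj' {Z : Rule A} (Mo : Mot Z) (v : P) : Function.Injective (Mo.τ v) :=
  Function.LeftInverse.injective (Mo.st v)

theorem piece_gen {Z : Rule A} (Mo : Mot Z) {w : List P}
    (hn : w.Nodup) (hc : w.IsChain A) {i l : ℕ} (h : i + l < w.length) :
    ((w.drop i).take (l + 1)).map (Mo.σ (w.getD i 0)) ∈ Kw A l := by
  have hlen : ((w.drop i).take (l + 1)).length = l + 1 := by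
    rw [List.length_take, List.length_drop]; omega
  rw [Z.mem_K]
  refine ⟨by rw [List.length_map, hlen], ?_, ?_, ?_⟩
  · have h1 : ((w.drop i).take (l + 1)).head? = some (w.getD i 0) := by
      rw [List.head?_take, List.head?_drop, List.getD_eq_getElem _ _ (by omega),
        List.getElem?_eq_getElem (by omega)]
      simp
    rw [List.head?_map, h1]
    simp [Mo.h0]
  · exact List.Nodup.map (Mo.inj _)
      (hn.sublist ((List.take_sublist _ _).trans (List.drop_sublist _ _)))
  · rw [List.isChain_map]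
    exact ((hc.drop i).take (l + 1)).imp fun {x y} hxy => Mo.adj _ _ _ hxy

theorem card_BW_gen {Z : Rule A} (Mo : Mot Z) (hex : Exc Z)
    (hcl : ∀ U U', Z.T U U' → (∀ x ∈ U', D x) → ∀ x ∈ U, D x) {w : List P}
    (hn : w.Nodup) (hc : w.IsChain A) (hD : ∀ x ∈ w, D x)
    {a b m : ℕ} (v : P) (h : w.length = a + (m + 1) + b) :
    (Z.B (((w.drop a).take (m + 1)).map (Mo.σ v))).card ≤
      (BW (ruleD Z D) a b w).card + 4 * Z.CC := by
  obtain ⟨pc, hpc⟩ : ∃ pc, pc = (w.drop a).take (m + 1) := ⟨_, rfl⟩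
  have hback : (pc.map (Mo.σ v)).map (Mo.τ v) = pc := by
    rw [List.map_map]
    have : (Mo.τ v) ∘ (Mo.σ v) = id := by
      funext x
      exact Mo.ts v x
    rw [this, List.map_id]
  rw [← hpc]
  have hinj : Function.Injective (fun q : List P × List P =>
      (q.1.map (Mo.τ v), q.2.map (Mo.τ v))) := by
    rintro ⟨U, U'⟩ ⟨V, V'⟩ h1
    simp only [Prod.mk.injEq] at h1
    exact Prod.ext (List.map_injective_iff.2 (Mo.inj' v) h1.1)
      (List.map_injective_iff.2 (Mo.inj' v) h1.2)
  rw [← Finset.card_image_of_injective _ hinj]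
  refine Rule.card_le_of_diff (N := Z.near (w.getD 0 0) ∪ (Z.near (w.getD (a + m + b) 0) ∪
    (Z.near (w.getD a 0) ∪ Z.near (w.getD (a + m) 0)))) ?_ ?_
  · intro q hq hq'
    rw [Finset.mem_image] at hq
    obtain ⟨⟨U, U'⟩, hq, rfl⟩ := hq
    rw [Z.mem_B] at hq
    obtain ⟨h1, h2, h3⟩ := hq
    simp only at h1 h2 h3 hq'
    obtain ⟨V, hV⟩ : ∃ V, V = U.map (Mo.τ v) := ⟨_, rfl⟩
    obtain ⟨V', hV'⟩ : ∃ V', V' = U'.map (Mo.τ v) := ⟨_, rfl⟩
    have hT : Z.T V V' := by rw [hV, hV']; exact Mo.tT v _ _ h1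
    have hin : V' <:+: pc := by
      have := h2.map (Mo.τ v)
      rwa [hback, ← hV'] at this
    have hnew : ∀ x ∈ V, x ∉ V' → x ∉ pc := by
      intro x hx hx' hxp
      rw [hV, List.mem_map] at hx
      obtain ⟨u, hu, rfl⟩ := hx
      refine h3 u hu (fun hu' => hx' (by rw [hV']; exact List.mem_map_of_mem hu')) ?_
      rw [List.mem_map]
      exact ⟨_, hxp, Mo.st v u⟩
    rw [← hV, ← hV'] at hq' ⊢
    by_contra hcon
    simp only [Finset.mem_union, not_or] at hcon
    obtain ⟨c1, c2, c3, c4⟩ := hcon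
    have hno : ¬ ∃ x ∈ V, x ∉ pc ∧ x ∈ w := by
      intro hx
      rw [hpc] at hx hin
      rcases hex w hn hc a m b h V V' hT hin hx with h4 | h4 | h4 | h4
      · exact c1 (Z.mem_near hT hT h4 h4 h4)
      · exact c2 (Z.mem_near hT hT h4 h4 h4)
      · exact c3 (Z.mem_near hT hT h4 h4 h4)
      · exact c4 (Z.mem_near hT hT h4 h4 h4)
    apply hq'
    rw [mem_BW]
    obtain ⟨L, R, h5⟩ := hin
    have hw : w = (w.take a ++ L) ++ V' ++ (R ++ w.drop (a + (m + 1))) := by
      have e1 : w = w.take a ++ ((w.drop a).take (m + 1) ++ (w.drop a).drop (m + 1)) := by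
        rw [List.take_append_drop, List.take_append_drop]
      rw [← hpc, ← h5, List.drop_drop] at e1
      conv_lhs => rw [e1]
      simp only [List.append_assoc]
    have hDV : ∀ x ∈ V', D x := by
      intro x hx
      refine hD x ?_
      rw [hw]
      simp [hx]
    refine ⟨⟨hT, hcl _ _ hT hDV, hDV⟩,
      w.take a ++ L, R ++ w.drop (a + (m + 1)), hw, ?_, ?_, ?_⟩
    · rw [List.length_append, List.length_take]; omega
    · rw [List.length_append, List.length_drop]; omega
    · intro x hx hx' hxw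
      exact hno ⟨x, hx, hnew x hx hx', hxw⟩
  · refine (Finset.card_union_le _ _).trans ?_
    have g1 := Finset.card_union_le (Z.near (w.getD (a + m + b) 0))
      (Z.near (w.getD a 0) ∪ Z.near (w.getD (a + m) 0))
    have g2 := Finset.card_union_le (Z.near (w.getD a 0)) (Z.near (w.getD (a + m) 0))
    have g3 := Z.card_near (w.getD 0 0)
    have g4 := Z.card_near (w.getD (a + m + b) 0)
    have g5 := Z.card_near (w.getD a 0)
    have g6 := Z.card_near (w.getD (a + m) 0)
    omega

theorem poor_win_gen {Z : Rule A} (Mo : Mot Z) (hex : Exc Z) (h0 : D 0)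
    (hcl : ∀ U U', Z.T U U' → (∀ x ∈ U', D x) → ∀ x ∈ U, D x) {M1 : ℕ} {Q : ℕ → ℝ}
    (hp : ∀ m : ℕ, (((Kw A m).filter (fun w => M1 * (Z.B w).card ≤ m + M1 * (4 * Z.CC))).card : ℝ)
      ≤ Q m)
    {n a b m : ℕ} (hn : n + 1 = a + (m + 1) + b) :
    (((Kw (AD A D) n).filter (fun w => M1 * (BW (ruleD Z D) a b w).card ≤ m)).card : ℝ) ≤
      ((Kw A a).card : ℝ) * Q m * ((Kw A b).card : ℝ) := by
  have hcard : ((Kw (AD A D) n).filter (fun w => M1 * (BW (ruleD Z D) a b w).card ≤ m)).card ≤
      ((Kw A a) ×ˢ (((Kw A m).filter (fun w => M1 * (Z.B w).card ≤ m + M1 * (4 * Z.CC))) ×ˢ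
        (Kw A b))).card := by
    refine Finset.card_le_card_of_injOn (fun w => (w.take (a + 1),
      ((w.drop a).take (m + 1)).map (Mo.σ (w.getD a 0)),
      (w.drop (a + m)).map (Mo.σ (w.getD (a + m) 0)))) ?_ ?_
    · intro w hw
      rw [Finset.mem_coe, Finset.mem_filter, Kw_D Z h0, Z.mem_K] at hw
      obtain ⟨⟨⟨h1, h2, h3, h4⟩, h5⟩, h6⟩ := hw
      rw [Finset.mem_coe, Finset.mem_product, Finset.mem_product, Finset.mem_filter]
      refine ⟨?_, ⟨piece_gen Mo h3 h4 (by omega), ?_⟩, ?_⟩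
      · show w.take (a + 1) ∈ Kw A a
        rw [Z.mem_K]
        refine ⟨by rw [List.length_take]; omega, ?_, h3.sublist (List.take_sublist _ _),
          h4.take _⟩
        cases w with
        | nil => simp at h1
        | cons x t => simpa using h2
      · have h7 := card_BW_gen Mo hex hcl h3 h4 h5 (w.getD a 0)
          (show w.length = a + (m + 1) + b by omega)
        have h8 := Nat.mul_le_mul_left M1 h7
        rw [Nat.mul_add] at h8
        exact h8.trans (Nat.add_le_add_right h6 _)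
      · have h7 := piece_gen Mo h3 h4 (i := a + m) (l := b) (by omega)
        rw [List.take_of_length_le (by rw [List.length_drop]; omega)] at h7
        exact h7
    · intro w hw w' hw' he
      rw [Finset.mem_coe, Finset.mem_filter, Kw_D Z h0, Z.mem_K] at hw hw'
      have l1 := hw.1.1.1
      have l2 := hw'.1.1.1
      simp only [Prod.mk.injEq] at he
      obtain ⟨e1, e2, e3⟩ := he
      have g1 : ∀ i, i ≤ a → w.getD i 0 = w'.getD i 0 := by
        intro i hi
        have h1 : (w.take (a + 1)).getD i 0 = (w'.take (a + 1)).getD i 0 := by rw [e1]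
        rw [List.getD_eq_getElem?_getD, List.getD_eq_getElem?_getD, List.getElem?_take,
          List.getElem?_take, if_pos (by omega), if_pos (by omega)] at h1
        rw [List.getD_eq_getElem?_getD, List.getD_eq_getElem?_getD]
        exact h1
      rw [g1 a le_rfl] at e2
      have e4 := List.map_injective_iff.2 (Mo.inj _) e2
      have g2 : ∀ i, a ≤ i → i ≤ a + m → w.getD i 0 = w'.getD i 0 := by
        intro i hi hi'
        have h1 : ((w.drop a).take (m + 1)).getD (i - a) 0 =
            ((w'.drop a).take (m + 1)).getD (i - a) 0 := by rw [e4]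
        rw [List.getD_eq_getElem?_getD, List.getD_eq_getElem?_getD, List.getElem?_take,
          List.getElem?_take, if_pos (by omega), if_pos (by omega), List.getElem?_drop,
          List.getElem?_drop, show a + (i - a) = i by omega] at h1
        rw [List.getD_eq_getElem?_getD, List.getD_eq_getElem?_getD]
        exact h1
      rw [g2 (a + m) (by omega) le_rfl] at e3
      have e5 := List.map_injective_iff.2 (Mo.inj _) e3
      refine List.ext_getElem (by omega) fun i hi hi' => ?_
      have h1 : w.getD i 0 = w'.getD i 0 := by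
        by_cases hc : i ≤ a + m
        · by_cases hc' : i ≤ a
          · exact g1 i hc'
          · exact g2 i (by omega) hc
        · have h1 : (w.drop (a + m)).getD (i - (a + m)) 0 =
            (w'.drop (a + m)).getD (i - (a + m)) 0 := by rw [e5]
          rw [List.getD_eq_getElem?_getD, List.getD_eq_getElem?_getD, List.getElem?_drop,
            List.getElem?_drop, show a + m + (i - (a + m)) = i by omega] at h1
          rw [List.getD_eq_getElem?_getD, List.getD_eq_getElem?_getD]
          exact h1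
      rwa [List.getD_eq_getElem _ _ hi, List.getD_eq_getElem _ _ hi'] at h1
  have h1 : (((Kw (AD A D) n).filter
      (fun w => M1 * (BW (ruleD Z D) a b w).card ≤ m)).card : ℝ) ≤
      ((Kw A a).card : ℝ) * ((((Kw A m).filter
        (fun w => M1 * (Z.B w).card ≤ m + M1 * (4 * Z.CC))).card : ℝ) *
        ((Kw A b).card : ℝ)) := by
    rw [Finset.card_product, Finset.card_product] at hcard
    exact_mod_cast hcard
  refine h1.trans ?_
  have h2 := hp m
  calc _ ≤ ((Kw A a).card : ℝ) * (Q m * ((Kw A b).card : ℝ)) := by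
        refine mul_le_mul_of_nonneg_left ?_ (Nat.cast_nonneg _)
        exact mul_le_mul_of_nonneg_right h2 (Nat.cast_nonneg _)
    _ = _ := by ring

/-- the hypothesis about the walks with few downward moves -/
theorem pw_gen {Z : Rule A} (Mo : Mot Z) (hex : Exc Z) (h0 : D 0)
    (hcl : ∀ U U', Z.T U U' → (∀ x ∈ U', D x) → ∀ x ∈ U, D x) {μ : ℝ} {M0 : ℕ} {ρ C0 : ℝ}
    (hM0 : 1 ≤ M0) (hρ : 1 ≤ ρ) (hρμ : ρ < μ)
    (hp : ∀ n : ℕ, (((Kw A n).filter (fun w => M0 * (Z.B w).card ≤ n)).card : ℝ) ≤ C0 * ρ ^ n) :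
    ∃ (M0 : ℕ) (ρ C0 : ℝ), 1 ≤ M0 ∧ 0 ≤ ρ ∧ ρ < μ ∧ 0 ≤ C0 ∧
    ∀ n a b m : ℕ, n + 1 = a + (m + 1) + b →
      (((Kw (AD A D) n).filter (fun w => M0 * (BW (ruleD Z D) a b w).card ≤ m)).card : ℝ) ≤
        ((Kw A a).card : ℝ) * (C0 * ρ ^ m) * ((Kw A b).card : ℝ) := by
  have hC0 : 0 ≤ C0 := by
    have := hp 0
    rw [pow_zero, mul_one] at this
    exact le_trans (Nat.cast_nonneg _) this
  obtain ⟨m0, hm0⟩ : ∃ m0, m0 = 2 * M0 * (4 * Z.CC) := ⟨_, rfl⟩
  have hS : (0 : ℝ) ≤ ∑ i ∈ range m0, ((Kw A i).card : ℝ) :=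
    Finset.sum_nonneg fun i _ => Nat.cast_nonneg _
  refine ⟨2 * M0, ρ, C0 + ∑ i ∈ range m0, ((Kw A i).card : ℝ), by omega, by linarith, hρμ,
    by positivity, fun n a b m hn => poor_win_gen Mo hex h0 hcl
      (Q := fun m => (C0 + ∑ i ∈ range m0, ((Kw A i).card : ℝ)) * ρ ^ m) (fun m => ?_) hn⟩
  have hρm : 1 ≤ ρ ^ m := one_le_pow₀ hρ
  rw [← hm0]
  by_cases hm : m < m0
  · have h1 : ((Kw A m).card : ℝ) ≤ ∑ i ∈ range m0, ((Kw A i).card : ℝ) :=
      Finset.single_le_sum (f := fun i => ((Kw A i).card : ℝ)) (fun i _ => Nat.cast_nonneg _)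
        (Finset.mem_range.2 hm)
    have h2 : (((Kw A m).filter (fun w => 2 * M0 * (Z.B w).card ≤ m + m0)).card : ℝ) ≤
        ((Kw A m).card : ℝ) := by exact_mod_cast Finset.card_filter_le _ _
    nlinarith
  · have h2 : (((Kw A m).filter (fun w => 2 * M0 * (Z.B w).card ≤ m + m0)).card : ℝ) ≤
        (((Kw A m).filter (fun w => M0 * (Z.B w).card ≤ m)).card : ℝ) := by
      rw [Nat.cast_le]
      refine Finset.card_le_card fun w hw => ?_
      rw [mem_filter] at hw ⊢
      refine ⟨hw.1, ?_⟩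
      have := hw.2
      have e : 2 * M0 * (Z.B w).card = 2 * (M0 * (Z.B w).card) := by ring
      rw [e] at this
      omega
    refine h2.trans ((hp m).trans ?_)
    exact mul_le_mul_of_nonneg_right (by linarith) (by positivity)

end Pool.Agent.R965.HP
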