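import Pool.Agent.R965.HP.WinErr

/-!
# One step in a window of times
-/

set_option autoImplicit false

namespace Pool.Agent.R965.HP

open Finset Filter Topology TH966.KS TH966.AK
open scoped Classical

variable {A : P → P → Prop} {D : P → Prop} {Z : Rule A} {μ K K1 C1 : ℝ} {g : ℕ}

/-- one step -/
theorem one_win (H : WH Z D μ K K1 C1 g) (hg : 1 ≤ g) : ∃ c ρ C3 : ℝ, 0 ≤ c ∧ 1 ≤ ρ ∧
    1 ≤ C3 ∧ ∀ᶠ n : ℕ in atTop, 1 / 2 ≤ rr (ruleD Z D).sys n ∧ rr (ruleD Z D).sys n ≤ ρ ∧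
      ∀ a b ℓ : ℕ, n + 1 = a + (ℓ + 1) + b → C3 * Real.log n ^ g ≤ ℓ →
        1 ≤ ℓ ∧ 0 ≤ rr (ruleD Z D).sys n * (rr (ruleD Z D).sys (n + Z.s) -
          rr (ruleD Z D).sys n) + c / ℓ ∧
        ∀ F : List P → ℝ, (∀ w ∈ Kw (AD A D) n, 0 ≤ F w ∧ F w ≤ 1) →
          (∀ w ∈ Kw (AD A D) (n + Z.s), 0 ≤ F w ∧ F w ≤ 1) →
          (∀ w ∈ Kw (AD A D) n, ∀ q ∈ (sysW (ruleD Z D) a b).S w,
            F ((sysW (ruleD Z D) a b).ins w q) = F w) →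
          |EY (ruleD Z D).sys (n + Z.s) F - EY (ruleD Z D).sys n F| ≤
            8 * √(rr (ruleD Z D).sys n * (rr (ruleD Z D).sys (n + Z.s) -
              rr (ruleD Z D).sys n) + c / ℓ) + c / ℓ := by
  obtain ⟨M, C3, hM, hC3, herr⟩ := err_win H hg
  obtain ⟨c0, ρ, C0, -, hρ, -, hone⟩ := H.G.one hg
  obtain ⟨C, hCC⟩ : ∃ C : ℝ, C = ((ruleD Z D).CC : ℝ) := ⟨_, rfl⟩
  have hC0 : 0 ≤ C := by rw [hCC]; positivity
  have hM' : (1 : ℝ) ≤ M := by exact_mod_cast hM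
  obtain ⟨c, hc⟩ : ∃ c : ℝ, c = (24 * C * M + 2) * ρ ^ 2 + (1 + 4 * C * M) := ⟨_, rfl⟩
  have hc0 : 0 ≤ c := by rw [hc]; positivity
  refine ⟨c, ρ, C3, hc0, hρ, hC3, ?_⟩
  have t : Tendsto (fun n : ℕ => (n : ℝ)) atTop atTop := tendsto_natCast_atTop_atTop
  have t3 : Tendsto (fun k : ℕ => Real.log (k : ℝ)) atTop atTop :=
    Real.tendsto_log_atTop.comp t
  filter_upwards [herr, hone, (tendsto_add_atTop_nat Z.s).eventually hone,
    eventually_ge_atTop 2, t3.eventually_ge_atTop (16 * C * M + 1)]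
    with n he h1 h2 hn hlog
  obtain ⟨-, g1, g2, -⟩ := h1
  obtain ⟨-, g3, g4, -⟩ := h2
  refine ⟨g1, g2, fun a b ℓ hab hℓ => ?_⟩
  have hn' : (2 : ℝ) ≤ n := by exact_mod_cast hn
  have hnp : (0 : ℝ) < n := by linarith
  have hCM : 0 ≤ C * M := by positivity
  have hlg : Real.log n ≤ Real.log n ^ g := le_self_pow₀ (by nlinarith) (by omega)
  have hℓ16 : 16 * C * M + 1 ≤ ℓ := by nlinarith
  have hℓ1 : (1 : ℝ) ≤ ℓ := by nlinarith
  have hℓn1 : 1 ≤ ℓ := by exact_mod_cast hℓ1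
  have hℓn : ℓ ≤ n := by omega
  have hℓn' : (ℓ : ℝ) ≤ n := by exact_mod_cast hℓn
  have hℓ0 : (0 : ℝ) < ℓ := by linarith
  have hN : N (ruleD Z D).sys n ≤ 2 * N (ruleD Z D).sys (n + Z.s) := by
    have h3 : 1 / 2 ≤ N (ruleD Z D).sys (n + Z.s) / N (ruleD Z D).sys n := g1
    rw [le_div_iff₀ (H.G.pos n)] at h3
    linarith
  have he' := he a b ℓ hab hℓ hℓn1 hN
  obtain ⟨M', hM1⟩ : ∃ M', M' = M * (n / ℓ + 1) := ⟨_, rfl⟩
  rw [← hM1] at he'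
  have hM1' : 1 ≤ M' := by rw [hM1]; exact Nat.mul_pos hM (Nat.succ_pos _)
  have hMn : (M' : ℝ) * ℓ ≤ 2 * M * n := by
    rw [hM1]
    push_cast
    have h3 : ((n / ℓ : ℕ) : ℝ) * ℓ ≤ n := by exact_mod_cast Nat.div_mul_le_self n ℓ
    have h4 : ((n / ℓ : ℕ) : ℝ) * ℓ + ℓ ≤ 2 * n := by linarith
    calc (M : ℝ) * (((n / ℓ : ℕ) : ℝ) + 1) * ℓ = M * (((n / ℓ : ℕ) : ℝ) * ℓ + ℓ) := by ring
      _ ≤ M * (2 * n) := mul_le_mul_of_nonneg_left h4 (by positivity)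
      _ = _ := by ring
  have h8 : 8 * M' * (sysW (ruleD Z D) a b).C ≤ n := by
    have h3 : (8 * M' * C : ℝ) * ℓ ≤ n * ℓ := by
      calc (8 * M' * C : ℝ) * ℓ = 8 * C * (M' * ℓ) := by ring
        _ ≤ 8 * C * (2 * M * n) := mul_le_mul_of_nonneg_left hMn (by positivity)
        _ = n * (16 * C * M) := by ring
        _ ≤ n * ℓ := mul_le_mul_of_nonneg_left (by linarith) hnp.le
    have h4 := le_of_mul_le_mul_right h3 hℓ0
    rw [hCC] at h4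
    show 8 * M' * (ruleD Z D).CC ≤ n
    exact_mod_cast h4
  obtain ⟨k1, k2⟩ := one_core (sysW (ruleD Z D) a b) M' n hM1' (by omega) (Nat.zero_le _) h8 ρ
    (H.G.pos n) (H.G.pos _) (H.G.pos _) ⟨g1, g2⟩ g4 he'
  -- the constants
  have hCe : ((sysW (ruleD Z D) a b).C : ℝ) = C := by rw [hCC]; rfl
  rw [hCe] at k1 k2
  have hdiv : ∀ x y : ℝ, 0 ≤ x → 0 ≤ y → (x * M' + y) / n ≤ (2 * x * M + y) / ℓ := by
    intro x y hx hy
    rw [div_le_div_iff₀ hnp hℓ0]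
    calc (x * M' + y) * ℓ = x * (M' * ℓ) + y * ℓ := by ring
      _ ≤ x * (2 * M * n) + y * n := by
          refine add_le_add (mul_le_mul_of_nonneg_left hMn hx)
            (mul_le_mul_of_nonneg_left hℓn' hy)
      _ = _ := by ring
  obtain ⟨B, hB⟩ : ∃ B, B = rr (ruleD Z D).sys n * (rr (ruleD Z D).sys (n + Z.s) -
    rr (ruleD Z D).sys n) := ⟨_, rfl⟩
  have hVV : VV (sysW (ruleD Z D) a b) ((12 * C * M' + 2) * ρ ^ 2) n ≤ B + c / ℓ := by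
    have e1 : VV (sysW (ruleD Z D) a b) ((12 * C * M' + 2) * ρ ^ 2) n =
        B + ((12 * C * M' + 2) * ρ ^ 2) / n := by rw [hB]; rfl
    rw [e1]
    refine add_le_add le_rfl ?_
    have h3 := hdiv (12 * C * ρ ^ 2) (2 * ρ ^ 2) (by positivity) (by positivity)
    have e2 : (12 * C * M' + 2) * ρ ^ 2 = 12 * C * ρ ^ 2 * M' + 2 * ρ ^ 2 := by ring
    rw [e2]
    refine h3.trans (div_le_div_of_nonneg_right ?_ hℓ0.le)
    rw [hc]
    have : 0 ≤ 1 + 4 * C * M := by positivity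
    linarith
  have hlin : (1 + 2 * C * M') / n ≤ c / ℓ := by
    have h3 := hdiv (2 * C) 1 (by positivity) (by norm_num)
    have e2 : 1 + 2 * C * M' = 2 * C * M' + 1 := by ring
    rw [e2]
    refine h3.trans (div_le_div_of_nonneg_right ?_ hℓ0.le)
    rw [hc]
    have : 0 ≤ (24 * C * M + 2) * ρ ^ 2 := by positivity
    linarith
  refine ⟨hℓn1, by rw [← hB]; exact k1.trans hVV, fun F hF0 hF1 hFF => ?_⟩
  rw [← hB]
  have hsq : √(VV (sysW (ruleD Z D) a b) ((12 * C * M' + 2) * ρ ^ 2) n) ≤ √(B + c / ℓ) :=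
    Real.sqrt_le_sqrt hVV
  have a1 := k2 F hF0 hF1 (fun w hw q hq => (hFF w hw q hq).le)
  have a2 := k2 (fun w => 1 - F w)
    (fun w hw => ⟨by have := (hF0 w hw).2; linarith, by have := (hF0 w hw).1; linarith⟩)
    (fun w hw => ⟨by have := (hF1 w hw).2; linarith, by have := (hF1 w hw).1; linarith⟩)
    (fun w hw q hq => by rw [hFF w hw q hq])
  have e3 : ∀ m f, EY (sysW (ruleD Z D) a b) m f = EY (ruleD Z D).sys m f := fun _ _ => rfl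
  have e4 : (sysW (ruleD Z D) a b).s = Z.s := rfl
  rw [e4, e3, e3] at a1 a2
  rw [EY_one_sub H.G, EY_one_sub H.G] at a2
  rw [abs_le]
  constructor <;> linarith

end Pool.Agent.R965.HP
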