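import Pool.Agent.R965.HP.WinFin

/-!
# Functions of the first and the last steps of the walk
-/

set_option autoImplicit false

namespace Pool.Agent.R965.HP

open Finset Filter Topology TH966.KS TH966.AK
open scoped Classical

variable {A : P → P → Prop} {D : P → Prop} {Z : Rule A} {μ K K1 C1 : ℝ} {g : ℕ}

/-- `F` depends only on the first `a` and the last `b` steps of the walk -/
def OnEnds (A : P → P → Prop) (D : P → Prop) (a b : ℕ) (F : (ℕ → P) → ℝ) : Prop :=
  ∀ m m', a + b ≤ m → a + b ≤ m' → ∀ γ ∈ Wn A D m, ∀ γ' ∈ Wn A D m',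
    (∀ i ≤ a, γ i = γ' i) → (∀ i ≤ b, γ (m - i) = γ' (m' - i)) → F γ = F γ'

theorem ends_rep {U U' L R : List P} (h : Pair A U U') {a b : ℕ} (ha : a ≤ L.length)
    (hb : b ≤ R.length) (d : P) :
    (∀ i ≤ a, (L ++ U ++ R).getD i d = (L ++ U' ++ R).getD i d) ∧
    (∀ i ≤ b, (L ++ U ++ R).getD (L.length + U.length + R.length - 1 - i) d =
      (L ++ U' ++ R).getD (L.length + U'.length + R.length - 1 - i) d) := by
  obtain ⟨⟨p, r, X, X', h1, h2, -⟩, -⟩ := h
  have l1 : U.length = X.length + 2 := by rw [h1]; simp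
  have l2 : U'.length = X'.length + 2 := by rw [h2]; simp
  constructor
  · intro i hi
    by_cases hc : i < L.length
    · rw [getD_beg hc, getD_beg hc]
    · have e : i = L.length := by omega
      have g1 : ∀ V : List P, 0 < V.length → (L ++ V ++ R).getD i d = V.getD 0 d := by
        intro V hV
        rw [List.getD_append _ _ _ _ (by rw [List.length_append]; omega),
          List.getD_append_right _ _ _ _ (by omega), e, Nat.sub_self]
      rw [g1 U (by omega), g1 U' (by omega), h1, h2]
      simp
  · intro i hi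
    by_cases hc : i < R.length
    · have g1 : ∀ V : List P, (L ++ V ++ R).getD (L.length + V.length + R.length - 1 - i) d =
          R.getD (R.length - 1 - i) d := by
        intro V
        rw [getD_end (by omega)]
        congr 1
        omega
      rw [g1, g1]
    · have e : i = R.length := by omega
      have g1 : ∀ (V Y : List P), V = p :: (Y ++ [r]) →
          (L ++ V ++ R).getD (L.length + V.length + R.length - 1 - i) d = r := by
        intro V Y hV
        have l3 : V.length = Y.length + 2 := by rw [hV]; simp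
        rw [List.getD_append _ _ _ _ (by rw [List.length_append]; omega),
          List.getD_append_right _ _ _ _ (by omega),
          show L.length + V.length + R.length - 1 - i - L.length = Y.length + 1 by omega, hV,
          List.getD_cons_succ, List.getD_append_right _ _ _ _ le_rfl, Nat.sub_self]
        simp
      rw [g1 U X h1, g1 U' X' h2]

theorem onEnds_inv (Z : Rule A) (h0 : D 0) {a b : ℕ} {F : (ℕ → P) → ℝ}
    (hF : OnEnds A D a b F) (m : ℕ) (w : List P) (hw : w ∈ Kw (AD A D) m)
    (q : List P × List P) (hq : q ∈ (sysW (ruleD Z D) a b).S w) :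
    F (pth ((sysW (ruleD Z D) a b).ins w q)) = F (pth w) := by
  have hw' := (sysW (ruleD Z D) a b).ins_K m w q hw hq
  obtain ⟨U, U'⟩ := q
  change (U, U') ∈ SW (ruleD Z D) a b w at hq
  have hw0 := hw
  rw [(ruleD Z D).mem_K] at hw0
  rw [mem_SW] at hq
  obtain ⟨L, R, h1, ha, hb, h2, h3, -⟩ := repW ((ruleD Z D).pair _ _ hq.1) hw0.2 hq.2
  have hl := (ruleD Z D).len _ _ hq.1
  simp only at h1 h2 h3 hl
  have hmem : ∀ j, ∀ v ∈ Kw (AD A D) j, pth v ∈ Wn A D j := by
    intro j v hv
    rw [← pth_image Z h0]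
    exact ⟨v, hv, rfl⟩
  have hins : (sysW (ruleD Z D) a b).ins w (U, U') = L ++ U' ++ R := h2
  rw [hins] at hw' ⊢
  have hlen : L.length + U.length + R.length = m + 1 := by
    have := hw0.1
    rw [h1] at this
    simpa [List.length_append, add_assoc] using this
  have hlen' : L.length + U'.length + R.length = m + Z.s + 1 := by
    have h5 := hw'
    change _ ∈ Kw (AD A D) (m + Z.s) at h5
    rw [(ruleD Z D).mem_K] at h5
    have := h5.1
    simpa [List.length_append, add_assoc] using this
  have hU : 1 ≤ U.length := List.length_pos_of_ne_nil (Rule.ne_nil ((ruleD Z D).pair _ _ hq.1))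
  refine hF _ _ (by omega) (by omega) _ (hmem (m + Z.s) _ hw') _ (hmem m w hw) ?_ ?_
  · intro i hi
    obtain ⟨e1, -⟩ := ends_rep ((ruleD Z D).pair _ _ hq.1) ha hb (0 : P)
    have e2 := e1 i hi
    simp only at e2
    have hwl : w.length = m + 1 := hw0.1
    rw [pth_lt (show i < w.length by omega),
      pth_lt (show i < (L ++ U' ++ R).length by simp only [List.length_append]; omega),
      ← List.getD_eq_getElem _ (0 : P), ← List.getD_eq_getElem _ (0 : P), ← e2, ← h1]
  · intro i hi
    obtain ⟨-, e1⟩ := ends_rep ((ruleD Z D).pair _ _ hq.1) ha hb (0 : P)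
    have e2 := e1 i hi
    simp only at e2
    have hwl : w.length = m + 1 := hw0.1
    rw [hlen, hlen', ← h1] at e2
    rw [pth_lt (show m - i < w.length by omega),
      pth_lt (show m + Z.s - i < (L ++ U' ++ R).length by
        simp only [List.length_append]; omega),
      ← List.getD_eq_getElem _ (0 : P), ← List.getD_eq_getElem _ (0 : P)]
    rw [show m + 1 - 1 - i = m - i by omega,
      show m + Z.s + 1 - 1 - i = m + Z.s - i by omega] at e2
    exact e2.symm

/-- **merging of the laws of the first and the last steps** -/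
theorem ends_merge (H : WH Z D μ K K1 C1 g) (hg : 1 ≤ g) : ∃ C : ℝ, 1 ≤ C ∧
    ∀ n : ℕ, 2 ≤ n → ∀ k a b ℓ : ℕ, n = a + ℓ + b → C * Real.log n ^ g ≤ ℓ →
      ∀ F : (ℕ → P) → ℝ, (∀ γ, 0 ≤ F γ ∧ F γ ≤ 1) → OnEnds A D a b F →
        |mean A D (n + Z.s * k) F - mean A D n F| ≤ C * (√(k * rt g n) + k / √ℓ) := by
  obtain ⟨C, hC, h⟩ := win_all H hg
  refine ⟨C, hC, fun n hn k a b ℓ hab hℓ F hF hE => ?_⟩
  rw [mean_eq Z H.h0, mean_eq Z H.h0]
  exact h n hn k a b ℓ (by omega) hℓ (fun w => F (pth w)) (fun w => hF _)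
    (fun m w hw q hq => onEnds_inv Z H.h0 hE m w hw q hq)

end Pool.Agent.R965.HP
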