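import Pool.Agent.R965.HP.WinSys
import Pool.Agent.R965.HP.Par

/-!
# Few moves in a window of times
-/

set_option autoImplicit false

namespace Pool.Agent.R965.HP

open Finset Filter Topology TH966.KS TH966.AK
open scoped Classical

variable {A : P → P → Prop} {D : P → Prop}

theorem tr_neg (c : P) (l : List P) : tr c (tr (-c) l) = l := by
  have := tr_tr (-c) l
  rwa [neg_neg] at this

theorem tr_length (c : P) (l : List P) : (tr c l).length = l.length := by
  unfold tr; simp

theorem piece_mem (Z : Rule A) (hA : ∀ c p q : P, A p q → A (p + c) (q + c)) {w : List P}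
    (hn : w.Nodup) (hc : w.IsChain A) {i l : ℕ} (h : i + l < w.length) :
    tr (-(w.getD i 0)) ((w.drop i).take (l + 1)) ∈ Kw A l := by
  have hlen : ((w.drop i).take (l + 1)).length = l + 1 := by
    rw [List.length_take, List.length_drop]; omega
  rw [Z.mem_K]
  refine ⟨by rw [tr_length, hlen], ?_, ?_, ?_⟩
  · have h1 : ((w.drop i).take (l + 1)).head? = some (w.getD i 0) := by
      rw [List.head?_take, List.head?_drop, List.getD_eq_getElem _ _ (by omega),
        List.getElem?_eq_getElem (by omega)]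
      simp
    unfold tr
    rw [List.head?_map, h1]
    simp
  · unfold tr
    refine List.Nodup.map ?_ (hn.sublist ((List.take_sublist _ _).trans (List.drop_sublist _ _)))
    intro x y hxy
    simpa using hxy
  · unfold tr
    rw [List.isChain_map]
    exact ((hc.drop i).take (l + 1)).imp fun {x y} hxy => hA _ _ _ hxy

theorem tr_infix {c : P} {U w : List P} (h : U <:+: tr c w) : tr (-c) U <:+: w := by
  obtain ⟨L, R, h1⟩ := h
  refine ⟨tr (-c) L, tr (-c) R, ?_⟩
  have h2 : tr (-c) (L ++ U ++ R) = tr (-c) L ++ tr (-c) U ++ tr (-c) R := by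
    unfold tr; simp
  rw [← h2, h1, tr_tr]

theorem card_BW (Z : Rule A) (hsub : ∀ U U', Z.T U U' → ∀ x ∈ U, x ∈ U')
    (htr : ∀ c U U', Z.T U U' → Z.T (tr c U) (tr c U')) {w : List P} (hD : ∀ x ∈ w, D x)
    {a b m : ℕ} (c : P) (h : w.length = a + (m + 1) + b) :
    (Z.B (tr c ((w.drop a).take (m + 1)))).card ≤ (BW (ruleD Z D) a b w).card := by
  refine Finset.card_le_card_of_injOn (fun q => (tr (-c) q.1, tr (-c) q.2)) ?_ ?_
  · rintro ⟨U, U'⟩ hq
    rw [Finset.mem_coe, Z.mem_B] at hq
    rw [Finset.mem_coe, mem_BW]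
    obtain ⟨h1, h2, -⟩ := hq
    simp only at h1 h2 ⊢
    have h3 := htr (-c) U U' h1
    have h4 := tr_infix h2
    obtain ⟨L, R, h5⟩ := h4
    have hw : w = (w.take a ++ L) ++ tr (-c) U' ++ (R ++ w.drop (a + (m + 1))) := by
      have e1 : w = w.take a ++ ((w.drop a).take (m + 1) ++ (w.drop a).drop (m + 1)) := by
        rw [List.take_append_drop, List.take_append_drop]
      rw [← h5, List.drop_drop] at e1
      conv_lhs => rw [e1]
      simp only [List.append_assoc]
    have hin : ∀ x ∈ tr (-c) U', x ∈ w := by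
      intro x hx
      rw [hw]
      simp [hx]
    refine ⟨⟨h3, fun x hx => hD x (hin x (hsub _ _ h3 x hx)), fun x hx => hD x (hin x hx)⟩,
      w.take a ++ L, R ++ w.drop (a + (m + 1)), hw, ?_, ?_, ?_⟩
    · rw [List.length_append, List.length_take]; omega
    · rw [List.length_append, List.length_drop]; omega
    · intro x hx hx'
      exact absurd (hsub _ _ h3 x hx) hx'
  · rintro ⟨U, U'⟩ - ⟨V, V'⟩ - h1
    simp only [Prod.mk.injEq] at h1
    exact Prod.ext (tr_inj _ h1.1) (tr_inj _ h1.2)

theorem poor_win (Z : Rule A) (h0 : D 0) (hA : ∀ c p q : P, A p q → A (p + c) (q + c))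
    (hsub : ∀ U U', Z.T U U' → ∀ x ∈ U, x ∈ U')
    (htr : ∀ c U U', Z.T U U' → Z.T (tr c U) (tr c U')) {M0 : ℕ} {ρ C0 : ℝ}
    (hp : ∀ n : ℕ, (((Kw A n).filter (fun w => M0 * (Z.B w).card ≤ n)).card : ℝ) ≤ C0 * ρ ^ n)
    {n a b m : ℕ} (hn : n + 1 = a + (m + 1) + b) :
    (((Kw (AD A D) n).filter (fun w => M0 * (BW (ruleD Z D) a b w).card ≤ m)).card : ℝ) ≤
      ((Kw A a).card : ℝ) * (C0 * ρ ^ m) * ((Kw A b).card : ℝ) := by
  have hcard : ((Kw (AD A D) n).filter (fun w => M0 * (BW (ruleD Z D) a b w).card ≤ m)).card ≤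
      ((Kw A a) ×ˢ (((Kw A m).filter (fun w => M0 * (Z.B w).card ≤ m)) ×ˢ (Kw A b))).card := by
    refine Finset.card_le_card_of_injOn (fun w => (w.take (a + 1),
      tr (-(w.getD a 0)) ((w.drop a).take (m + 1)),
      tr (-(w.getD (a + m) 0)) (w.drop (a + m)))) ?_ ?_
    · intro w hw
      rw [Finset.mem_coe, Finset.mem_filter, Kw_D Z h0, Z.mem_K] at hw
      obtain ⟨⟨⟨h1, h2, h3, h4⟩, h5⟩, h6⟩ := hw
      rw [Finset.mem_coe, Finset.mem_product, Finset.mem_product, Finset.mem_filter]
      refine ⟨?_, ⟨piece_mem Z hA h3 h4 (by omega), ?_⟩, ?_⟩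
      · show w.take (a + 1) ∈ Kw A a
        rw [Z.mem_K]
        refine ⟨by rw [List.length_take]; omega, ?_, h3.sublist (List.take_sublist _ _),
          h4.take _⟩
        cases w with
        | nil => simp at h1
        | cons x t => simpa using h2
      · refine le_trans (Nat.mul_le_mul_left _ ?_) h6
        exact card_BW Z hsub htr h5 _ (by omega)
      · have h7 := piece_mem Z hA h3 h4 (i := a + m) (l := b) (by omega)
        rw [List.take_of_length_le (by rw [List.length_drop]; omega)] at h7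
        exact h7
    · intro w hw w' hw' he
      rw [Finset.mem_coe, Finset.mem_filter, Kw_D Z h0, Z.mem_K] at hw hw'
      have l1 := hw.1.1.1
      have l2 := hw'.1.1.1
      simp only [Prod.mk.injEq] at he
      obtain ⟨e1, e2, e3⟩ := he
      have g1 : ∀ i, i ≤ a → w.getD i 0 = w'.getD i 0 := by
        intro i hi
        have h1 : (w.take (a + 1)).getD i 0 = (w'.take (a + 1)).getD i 0 := by rw [e1]
        rw [List.getD_eq_getElem?_getD, List.getD_eq_getElem?_getD, List.getElem?_take,
          List.getElem?_take, if_pos (by omega), if_pos (by omega)] at h1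
        rw [List.getD_eq_getElem?_getD, List.getD_eq_getElem?_getD]
        exact h1
      rw [g1 a le_rfl] at e2
      have e4 := tr_inj _ e2
      have g2 : ∀ i, a ≤ i → i ≤ a + m → w.getD i 0 = w'.getD i 0 := by
        intro i hi hi'
        have h1 : ((w.drop a).take (m + 1)).getD (i - a) 0 =
            ((w'.drop a).take (m + 1)).getD (i - a) 0 := by rw [e4]
        rw [List.getD_eq_getElem?_getD, List.getD_eq_getElem?_getD, List.getElem?_take,
          List.getElem?_take, if_pos (by omega), if_pos (by omega), List.getElem?_drop,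
          List.getElem?_drop, show a + (i - a) = i by omega] at h1
        rw [List.getD_eq_getElem?_getD, List.getD_eq_getElem?_getD]
        exact h1
      rw [g2 (a + m) (by omega) le_rfl] at e3
      have e5 := tr_inj _ e3
      refine List.ext_getElem (by omega) fun i hi hi' => ?_
      have h1 : w.getD i 0 = w'.getD i 0 := by
        by_cases hc : i ≤ a + m
        · by_cases hc' : i ≤ a
          · exact g1 i hc'
          · exact g2 i (by omega) hc
        · have h1 : (w.drop (a + m)).getD (i - (a + m)) 0 =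
            (w'.drop (a + m)).getD (i - (a + m)) 0 := by rw [e5]
          rw [List.getD_eq_getElem?_getD, List.getD_eq_getElem?_getD, List.getElem?_drop,
            List.getElem?_drop, show a + m + (i - (a + m)) = i by omega] at h1
          rw [List.getD_eq_getElem?_getD, List.getD_eq_getElem?_getD]
          exact h1
      rwa [List.getD_eq_getElem _ _ hi, List.getD_eq_getElem _ _ hi'] at h1
  have h1 : (((Kw (AD A D) n).filter
      (fun w => M0 * (BW (ruleD Z D) a b w).card ≤ m)).card : ℝ) ≤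
      ((Kw A a).card : ℝ) * ((((Kw A m).filter (fun w => M0 * (Z.B w).card ≤ m)).card : ℝ) *
        ((Kw A b).card : ℝ)) := by
    rw [Finset.card_product, Finset.card_product] at hcard
    exact_mod_cast hcard
  refine h1.trans ?_
  have h2 := hp m
  calc _ ≤ ((Kw A a).card : ℝ) * ((C0 * ρ ^ m) * ((Kw A b).card : ℝ)) := by
        refine mul_le_mul_of_nonneg_left ?_ (Nat.cast_nonneg _)
        exact mul_le_mul_of_nonneg_right h2 (Nat.cast_nonneg _)
    _ = _ := by ring

/-- many downward moves and few upward moves -/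
theorem down_win {α σ : Type} (Y : Sys α σ) (hY : Y.n0 = 0) {M0 ℓ n : ℕ} (hM0 : 1 ≤ M0)
    (hℓ : ℓ ≤ n) (D : Finset α) (hDK : D ⊆ Y.K n)
    (hD : ∀ w ∈ D, ℓ < M0 * (Y.B w).card ∧ M0 * (5 * Y.C + 5 + 2 * Y.s) * (Y.S w).card ≤ ℓ) :
    D.card * 4 ^ (ℓ / (M0 * (5 * Y.C + 5 + 2 * Y.s))) ≤
      (Y.K (n - Y.s * (ℓ / (M0 * (5 * Y.C + 5 + 2 * Y.s))))).card := by
  obtain ⟨k, hk⟩ : ∃ k, k = 5 * Y.C + 5 + 2 * Y.s := ⟨_, rfl⟩
  rw [← hk] at hD ⊢
  obtain ⟨M, hM⟩ : ∃ M, M = M0 * k := ⟨_, rfl⟩
  rw [← hM] at hD ⊢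
  obtain ⟨j, hj⟩ : ∃ j, j = ℓ / M := ⟨_, rfl⟩
  rw [← hj]
  have hkM : k ≤ M := by rw [hM]; exact Nat.le_mul_of_pos_left _ hM0
  have hM1 : 1 ≤ M := by omega
  have hjn : M * j ≤ ℓ := by rw [hj]; exact Nat.mul_div_le ℓ M
  rcases Nat.eq_zero_or_pos j with h0 | h0
  · rw [h0, pow_zero, mul_one, Nat.mul_zero, Nat.sub_zero]
    exact card_le_card hDK
  · have hkj : k * j ≤ ℓ := (Nat.mul_le_mul_right j hkM).trans hjn
    have hsj : Y.s * j ≤ n := by
      have h1 : Y.s * j ≤ k * j := Nat.mul_le_mul_right j (by omega)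
      omega
    have hβ : k * j ≤ ℓ / M0 := by
      rw [Nat.le_div_iff_mul_le (by omega)]
      calc k * j * M0 = M0 * k * j := by ring
        _ ≤ ℓ := by rw [← hM]; exact hjn
    have h1 := Y.down ((1 + Y.C) * j) (4 * ((1 + Y.C) * j)) j (n - Y.s * j) (ℓ / M0) j D
      (by omega) (by
        refine le_trans ?_ hβ
        rw [hk]
        nlinarith) (by nlinarith) (by
        rw [Nat.sub_add_cancel (by omega)]; exact hDK) (by
        intro w hw
        obtain ⟨h4, h3⟩ := hD w hw
        constructor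
        · have h5 := Nat.div_mul_le_self ℓ M0
          by_contra hcon
          have h6 : (Y.B w).card + 1 ≤ ℓ / M0 := by omega
          have h7 : M0 * ((Y.B w).card + 1) ≤ M0 * (ℓ / M0) := Nat.mul_le_mul_left _ h6
          nlinarith
        · rw [hj, Nat.le_div_iff_mul_le (by omega), mul_comm]
          exact h3)
    have hpos : 0 < ((1 + Y.C) * j) ^ j := by positivity
    refine Nat.le_of_mul_le_mul_right ?_ hpos
    calc D.card * 4 ^ j * ((1 + Y.C) * j) ^ j = D.card * (4 * ((1 + Y.C) * j)) ^ j := by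
          rw [mul_pow 4]; ring
      _ ≤ _ := h1

end Pool.Agent.R965.HP
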