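import Pool.Agent.R965.HP.Path

/-!
# Moves in a window of times
-/

set_option autoImplicit false

namespace Pool.Agent.R965.HP

open Finset Filter Topology TH966.KS TH966.AK
open scoped Classical

variable {A : P → P → Prop}

/-- `U` is a window of `w`, at least `a` points before it and `b` points after it, and the new
points of `U'` are free -/
def FreeW (a b : ℕ) (U U' w : List P) : Prop :=
  ∃ L R, w = L ++ U ++ R ∧ a ≤ L.length ∧ b ≤ R.length ∧ ∀ x ∈ U', x ∉ U → x ∉ w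

theorem FreeW.free {a b : ℕ} {U U' w : List P} (h : FreeW a b U U' w) : Free U U' w := by
  obtain ⟨L, R, h1, -, -, h2⟩ := h
  exact ⟨⟨L, R, h1.symm⟩, h2⟩

theorem split_two {L L1 U V R R1 : List P} (hU : U ≠ []) (hV : V ≠ [])
    (h : L1 ++ V ++ R1 = L ++ U ++ R) (hd : ∀ x ∈ U, x ∉ V) :
    (∃ M, L = L1 ++ V ++ M ∧ R1 = M ++ U ++ R) ∨ (∃ M, R = M ++ V ++ R1 ∧ L1 = L ++ U ++ M) := by
  rw [List.append_assoc L U R] at h
  rcases List.append_eq_append_iff.1 h with ⟨c, h1, h2⟩ | ⟨c, h1, h2⟩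
  · exact Or.inl ⟨c, h1, by rw [h2, List.append_assoc]⟩
  · rcases List.append_eq_append_iff.1 h1 with ⟨d, h3, h4⟩ | ⟨d, h3, h4⟩
    · -- `L = L1 ++ d`, `V = d ++ c`
      cases c with
      | nil =>
        left
        refine ⟨[], ?_, ?_⟩
        · rw [h1]; simp
        · simpa using h2.symm
      | cons x c' =>
        exfalso
        obtain ⟨u, U0, rfl⟩ := List.exists_cons_of_ne_nil hU
        rw [List.cons_append, List.cons_append, List.cons.injEq] at h2
        obtain ⟨rfl, -⟩ := h2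
        exact hd u (by simp) (by rw [h4]; simp)
    · -- `L1 = L ++ d`, `c = d ++ V`
      rw [h4, List.append_assoc] at h2
      rcases List.append_eq_append_iff.1 h2 with ⟨M, h5, h6⟩ | ⟨M, h5, h6⟩
      · right
        refine ⟨M, ?_, ?_⟩
        · rw [h6, List.append_assoc]
        · rw [h3, h5, List.append_assoc]
      · cases M with
        | nil =>
          right
          refine ⟨[], ?_, ?_⟩
          · rw [List.nil_append] at h6
            simpa using h6.symm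
          · rw [h3, h5]; simp
        | cons x M' =>
          exfalso
          obtain ⟨v, V0, rfl⟩ := List.exists_cons_of_ne_nil hV
          rw [List.cons_append, List.cons_append, List.cons.injEq] at h6
          obtain ⟨rfl, -⟩ := h6
          exact hd v (by rw [h5]; simp) (by simp)

theorem keepW {a b : ℕ} {U U' V V' L R : List P} (h : Pair A U U') (hV : V ≠ [])
    (hf : FreeW a b V V' (L ++ U ++ R)) (ha : a ≤ L.length) (hb : b ≤ R.length)
    (hd : ∀ x ∈ U ++ U', x ∉ V ++ V') : FreeW a b V V' (L ++ U' ++ R) := by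
  have hfree := (TH966.AK.keep h hV hf.free hd).2
  obtain ⟨L1, R1, h1, h2, h3, -⟩ := hf
  rcases split_two (Rule.ne_nil h) hV h1.symm
    (fun x hx hc => hd x (by simp [hx]) (by simp [hc])) with ⟨M, h4, h5⟩ | ⟨M, h4, h5⟩
  · refine ⟨L1, M ++ U' ++ R, ?_, h2, ?_, hfree⟩
    · rw [h4]; simp
    · simp only [List.length_append]; omega
  · refine ⟨L ++ U' ++ M, R1, ?_, ?_, h3, hfree⟩
    · rw [h4]; simp
    · simp only [List.length_append]; omega

/-- everything about one replacement -/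
theorem repW {a b : ℕ} {U U' w : List P} (h : Pair A U U') (hw : Walk A w)
    (hf : FreeW a b U U' w) :
    ∃ L R, w = L ++ U ++ R ∧ a ≤ L.length ∧ b ≤ R.length ∧ Rule.rep w U U' = L ++ U' ++ R ∧
      Walk A (L ++ U' ++ R) ∧ FreeW a b U' U (L ++ U' ++ R) ∧
      Rule.rep (L ++ U' ++ R) U' U = w := by
  obtain ⟨L, R, h1, h2, h3, h4⟩ := hf
  subst h1
  obtain ⟨h5, h6⟩ := flip h hw h4
  exact ⟨L, R, rfl, h2, h3, Rule.rep_eq (Rule.ne_nil h) hw.2.1, h5, ⟨L, R, rfl, h2, h3, h6.2⟩,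
    Rule.rep_eq (Rule.ne_nil h.symm) h5.2.1⟩

/-- upward moves in the window -/
noncomputable def SW (Z : Rule A) (a b : ℕ) (w : List P) : Finset (List P × List P) :=
  (Z.S w).filter (fun q => FreeW a b q.1 q.2 w)

/-- downward moves in the window -/
noncomputable def BW (Z : Rule A) (a b : ℕ) (w : List P) : Finset (List P × List P) :=
  (Z.B w).filter (fun q => FreeW a b q.2 q.1 w)

theorem mem_SW (Z : Rule A) {a b : ℕ} {w : List P} {q : List P × List P} :
    q ∈ SW Z a b w ↔ Z.T q.1 q.2 ∧ FreeW a b q.1 q.2 w := by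
  unfold SW
  rw [Finset.mem_filter, Z.mem_S]
  exact ⟨fun h => ⟨h.1.1, h.2⟩, fun h => ⟨⟨h.1, h.2.free⟩, h.2⟩⟩

theorem mem_BW (Z : Rule A) {a b : ℕ} {w : List P} {q : List P × List P} :
    q ∈ BW Z a b w ↔ Z.T q.1 q.2 ∧ FreeW a b q.2 q.1 w := by
  unfold BW
  rw [Finset.mem_filter, Z.mem_B]
  exact ⟨fun h => ⟨h.1.1, h.2⟩, fun h => ⟨⟨h.1, h.2.free⟩, h.2⟩⟩

/-- the change of the numbers of moves -/
theorem changeW (Z : Rule A) {a b : ℕ} {U U' L R : List P} (hT : Z.T U U' ∨ Z.T U' U)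
    (h : Pair A U U') (ha : a ≤ L.length) (hb : b ≤ R.length) :
    (SW Z a b (L ++ U ++ R)).card ≤ (SW Z a b (L ++ U' ++ R)).card + Z.CC ∧
    (BW Z a b (L ++ U ++ R)).card ≤ (BW Z a b (L ++ U' ++ R)).card + Z.CC := by
  obtain ⟨p, U0, h3⟩ := List.exists_cons_of_ne_nil (Rule.ne_nil h)
  have hnear : ∀ V V', Z.T V V' → ∀ x ∈ U ++ U', x ∈ V ++ V' → (V, V') ∈ Z.near p := by
    intro V V' hV x hx hx'
    rcases hT with hT | hT
    · exact Z.mem_near hT hV (by rw [h3]; simp) hx hx'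
    · refine Z.mem_near hT hV (by rw [h3]; simp) ?_ hx'
      rw [List.mem_append] at hx ⊢
      exact hx.symm
  constructor
  · refine Rule.card_le_of_diff (N := Z.near p) ?_ (Z.card_near p)
    rintro ⟨V, V'⟩ hq hq'
    rw [mem_SW] at hq hq'
    by_contra hcon
    refine hq' ⟨hq.1, keepW h (Rule.ne_nil (Z.pair _ _ hq.1)) hq.2 ha hb fun x hx hc => ?_⟩
    exact hcon (hnear V V' hq.1 x hx hc)
  · refine Rule.card_le_of_diff (N := Z.near p) ?_ (Z.card_near p)
    rintro ⟨V, V'⟩ hq hq'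
    rw [mem_BW] at hq hq'
    by_contra hcon
    refine hq' ⟨hq.1, keepW h (Rule.ne_nil (Z.pair _ _ hq.1).symm) hq.2 ha hb
      fun x hx hc => ?_⟩
    refine hcon (hnear V V' hq.1 x hx ?_)
    rw [List.mem_append] at hc ⊢
    exact hc.symm

/-- the system of the moves in the window -/
noncomputable def sysW (Z : Rule A) (a b : ℕ) : Sys (List P) (List P × List P) where
  K := Kw A
  S := SW Z a b
  B := BW Z a b
  ins w q := Rule.rep w q.1 q.2
  rem w q := Rule.rep w q.2 q.1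
  s := Z.s
  C := Z.CC
  n0 := 0
  hC := by unfold Rule.CC; omega
  ins_K := by
    rintro n w ⟨U, U'⟩ hw hq
    rw [Z.mem_K] at hw ⊢
    rw [mem_SW] at hq
    obtain ⟨L, R, h1, ha, hb, h2, h3, h4, h5⟩ := repW (Z.pair _ _ hq.1) hw.2 hq.2
    have hl := Z.len _ _ hq.1
    simp only at h1 h2 h3 h4 h5 hl ⊢
    rw [h2]
    refine ⟨?_, h3⟩
    have h6 := hw.1
    rw [h1] at h6
    simp only [List.length_append] at h6 ⊢
    omega
  ins_B := by
    rintro n w ⟨U, U'⟩ hw hq
    rw [Z.mem_K] at hw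
    rw [mem_SW] at hq
    obtain ⟨L, R, h1, ha, hb, h2, h3, h4, h5⟩ := repW (Z.pair _ _ hq.1) hw.2 hq.2
    rw [mem_BW, h2]
    exact ⟨hq.1, h4⟩
  rem_ins := by
    rintro n w ⟨U, U'⟩ hw hq
    rw [Z.mem_K] at hw
    rw [mem_SW] at hq
    obtain ⟨L, R, h1, ha, hb, h2, h3, h4, h5⟩ := repW (Z.pair _ _ hq.1) hw.2 hq.2
    rw [h2]
    exact h5
  rem_K := by
    rintro n w ⟨U, U'⟩ - hw hq
    rw [Z.mem_K] at hw ⊢
    rw [mem_BW] at hq
    obtain ⟨L, R, h1, ha, hb, h2, h3, h4, h5⟩ := repW (Z.pair _ _ hq.1).symm hw.2 hq.2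
    have hl := Z.len _ _ hq.1
    simp only at h1 h2 h3 h4 h5 hl ⊢
    rw [h2]
    refine ⟨?_, h3⟩
    have h6 := hw.1
    rw [h1] at h6
    simp only [List.length_append] at h6 ⊢
    omega
  rem_S := by
    rintro n w ⟨U, U'⟩ - hw hq
    rw [Z.mem_K] at hw
    rw [mem_BW] at hq
    obtain ⟨L, R, h1, ha, hb, h2, h3, h4, h5⟩ := repW (Z.pair _ _ hq.1).symm hw.2 hq.2
    rw [mem_SW, h2]
    exact ⟨hq.1, h4⟩
  ins_rem := by
    rintro n w ⟨U, U'⟩ - hw hq
    rw [Z.mem_K] at hw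
    rw [mem_BW] at hq
    obtain ⟨L, R, h1, ha, hb, h2, h3, h4, h5⟩ := repW (Z.pair _ _ hq.1).symm hw.2 hq.2
    rw [h2]
    exact h5
  chS1 := by
    rintro n w ⟨U, U'⟩ hw hq
    rw [Z.mem_K] at hw
    rw [mem_SW] at hq
    obtain ⟨L, R, h1, ha, hb, h2, h3, h4, h5⟩ := repW (Z.pair _ _ hq.1) hw.2 hq.2
    rw [h2]
    conv_lhs => rw [h1]
    exact (changeW Z (Or.inl hq.1) (Z.pair _ _ hq.1) ha hb).1
  chS2 := by
    rintro n w ⟨U, U'⟩ hw hq
    rw [Z.mem_K] at hw
    rw [mem_SW] at hq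
    obtain ⟨L, R, h1, ha, hb, h2, h3, h4, h5⟩ := repW (Z.pair _ _ hq.1) hw.2 hq.2
    rw [h2]
    conv_rhs => rw [h1]
    exact (changeW Z (Or.inr hq.1) (Z.pair _ _ hq.1).symm ha hb).1
  chB1 := by
    rintro n w ⟨U, U'⟩ hw hq
    rw [Z.mem_K] at hw
    rw [mem_SW] at hq
    obtain ⟨L, R, h1, ha, hb, h2, h3, h4, h5⟩ := repW (Z.pair _ _ hq.1) hw.2 hq.2
    rw [h2]
    conv_lhs => rw [h1]
    exact (changeW Z (Or.inl hq.1) (Z.pair _ _ hq.1) ha hb).2
  chB2 := by
    rintro n w ⟨U, U'⟩ hw hq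
    rw [Z.mem_K] at hw
    rw [mem_SW] at hq
    obtain ⟨L, R, h1, ha, hb, h2, h3, h4, h5⟩ := repW (Z.pair _ _ hq.1) hw.2 hq.2
    rw [h2]
    conv_rhs => rw [h1]
    exact (changeW Z (Or.inr hq.1) (Z.pair _ _ hq.1).symm ha hb).2
  S_le := by
    intro n w hw
    have h1 : (SW Z a b w).card ≤ (Z.S w).card := Finset.card_filter_le _ _
    exact h1.trans (Z.sys.S_le n w hw)

/-- the points outside of the window are preserved -/
theorem outW (Z : Rule A) {a b n : ℕ} {w : List P} {q : List P × List P}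
    (hw : w ∈ (sysW Z a b).K n) (hq : q ∈ (sysW Z a b).S w) :
    ((sysW Z a b).ins w q).take a = w.take a ∧
    ((sysW Z a b).ins w q).reverse.take b = w.reverse.take b := by
  obtain ⟨U, U'⟩ := q
  change w ∈ Kw A n at hw
  change (U, U') ∈ SW Z a b w at hq
  rw [Z.mem_K] at hw
  rw [mem_SW] at hq
  obtain ⟨L, R, h1, ha, hb, h2, -⟩ := repW (Z.pair _ _ hq.1) hw.2 hq.2
  change (Rule.rep w U U').take a = _ ∧ (Rule.rep w U U').reverse.take b = _
  simp only at h1 h2
  rw [h2]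
  constructor
  · conv_rhs => rw [h1]
    rw [List.append_assoc, List.append_assoc, List.take_append_of_le_length ha,
      List.take_append_of_le_length ha]
  · have e1 : ∀ X : List P, (X ++ R).reverse.take b = R.reverse.take b := by
      intro X
      rw [List.reverse_append, List.take_append_of_le_length (by rw [List.length_reverse]; exact hb)]
    conv_rhs => rw [h1]
    rw [e1, e1]

end Pool.Agent.R965.HP
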