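import Pool.Agent.R965.HP.Lip

/-!
# Windows of lengths
-/

set_option autoImplicit false

namespace Pool.Agent.R965.HP

open Finset Filter Topology TH966.KS TH966.AK
open scoped Classical

variable {α σ : Type} {Y : Sys α σ} {μ K : ℝ} {a : ℕ}

/-- the mean of `1 - f` -/
theorem EY_one_sub (G : Gr Y μ K a) (n : ℕ) (f : α → ℝ) :
    EY Y n (fun w => 1 - f w) = 1 - EY Y n f := by
  unfold EY
  rw [sum_sub_distrib, sub_div]
  congr 1
  rw [sum_const, nsmul_one]
  exact div_self (G.pos n).ne'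

/-- one step -/
theorem Gr.one (G : Gr Y μ K a) (ha : 1 ≤ a) : ∃ c ρ C : ℝ, 0 ≤ c ∧ 1 ≤ ρ ∧ 1 ≤ C ∧
    ∀ᶠ n : ℕ in atTop, 0 ≤ VV Y c n ∧ 1 / 2 ≤ rr Y n ∧ rr Y n ≤ ρ ∧
      ∀ (f : α → ℝ) (δ : ℝ), 0 ≤ δ → δ ≤ 1 → (∀ w ∈ Y.K n, 0 ≤ f w ∧ f w ≤ 1) →
        (∀ w ∈ Y.K (n + Y.s), 0 ≤ f w ∧ f w ≤ 1) →
        (∀ w ∈ Y.K n, ∀ q ∈ Y.S w, |f (Y.ins w q) - f w| ≤ δ) →
        |EY Y (n + Y.s) f - EY Y n f| ≤ C * (√(VV Y c n) + 1 / n + δ) := by
  obtain ⟨c, ρ, C, h1, h2, h3, h4⟩ := G.one_up ha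
  refine ⟨c, ρ, C, h1, h2, h3, ?_⟩
  filter_upwards [h4] with n hn
  obtain ⟨g1, g2, g3, g4⟩ := hn
  refine ⟨g1, g2, g3, fun f δ hδ hδ1 hf0 hf1 hff => ?_⟩
  have a1 := g4 f δ hδ hδ1 hf0 hf1 (fun w hw q hq => by
    have := (abs_le.1 (hff w hw q hq)).2
    linarith)
  have a2 := g4 (fun w => 1 - f w) δ hδ hδ1
    (fun w hw => ⟨by have := (hf0 w hw).2; linarith, by have := (hf0 w hw).1; linarith⟩)
    (fun w hw => ⟨by have := (hf1 w hw).2; linarith, by have := (hf1 w hw).1; linarith⟩)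
    (fun w hw q hq => by
      have := (abs_le.1 (hff w hw q hq)).1
      linarith)
  rw [EY_one_sub G, EY_one_sub G] at a2
  rw [abs_le]
  constructor <;> linarith

/-- the rate decreases -/
theorem rt_anti (a : ℕ) (ha : 1 ≤ a) : ∀ᶠ n : ℕ in atTop, ∀ m : ℕ, n ≤ m → rt a m ≤ rt a n := by
  have ha0 : (0 : ℝ) < a := by exact_mod_cast ha
  have h := Real.log_div_self_rpow_antitoneOn (a := 1 / (a : ℝ)) (by positivity)
  have t : Tendsto (fun n : ℕ => (n : ℝ)) atTop atTop := tendsto_natCast_atTop_atTop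
  filter_upwards [t.eventually_ge_atTop (Real.exp (1 / (1 / (a : ℝ)))), eventually_ge_atTop 1]
    with n hn hn1 m hm
  have hm' : (n : ℝ) ≤ m := by exact_mod_cast hm
  have hn1' : (1 : ℝ) ≤ n := by exact_mod_cast hn1
  have hn3 : Real.exp (1 / (a : ℝ))⁻¹ ≤ n := by rwa [one_div] at hn
  have h1 := h (show (n : ℝ) ∈ Set.Ici _ from hn3) (show (m : ℝ) ∈ Set.Ici _ from hn3.trans hm')
    hm'
  simp only at h1
  have h2 : 0 ≤ Real.log (m : ℝ) / (m : ℝ) ^ (1 / (a : ℝ)) := by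
    have := Real.log_natCast_nonneg m
    positivity
  have h3 := pow_le_pow_left₀ h2 h1 a
  have e : ∀ k : ℕ, (Real.log (k : ℝ) / (k : ℝ) ^ (1 / (a : ℝ))) ^ a = Real.log k ^ a / k := by
    intro k
    rw [div_pow, ← Real.rpow_natCast ((k : ℝ) ^ (1 / (a : ℝ))), ← Real.rpow_mul (by positivity),
      one_div, inv_mul_cancel₀ ha0.ne', Real.rpow_one]
  rw [e, e] at h3
  unfold rt
  exact Real.sqrt_le_sqrt h3

/-- a window of lengths, large `n` -/
theorem Gr.window_ev (G : Gr Y μ K a) (ha : 1 ≤ a) : ∃ C : ℝ, 1 ≤ C ∧ ∀ᶠ n : ℕ in atTop,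
    ∀ (k : ℕ) (f : α → ℝ) (δ : ℝ), 0 ≤ δ →
      (∀ m, n ≤ m → m ≤ n + Y.s * k → ∀ w ∈ Y.K m, 0 ≤ f w ∧ f w ≤ 1) →
      (∀ m, n ≤ m → m + Y.s ≤ n + Y.s * k → ∀ w ∈ Y.K m, ∀ q ∈ Y.S w,
        |f (Y.ins w q) - f w| ≤ δ) →
      |EY Y (n + Y.s * k) f - EY Y n f| ≤ C * √(k * rt a n) + C * k * δ := by
  obtain ⟨c, ρ, C, hc, hρ, hC, hone⟩ := G.one ha
  obtain ⟨R, hR, hrat⟩ := G.ratio ha
  have hs := G.hs
  obtain ⟨n1, hn1⟩ := eventually_atTop.1 (hone.and (rt_anti a ha))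
  have t1 : Tendsto (fun n : ℕ => rt a n) atTop (𝓝 0) := rt_tendsto a
  have t3 : Tendsto (fun k : ℕ => Real.log (k : ℝ)) atTop atTop :=
    Real.tendsto_log_atTop.comp tendsto_natCast_atTop_atTop
  obtain ⟨L, hL⟩ : ∃ L : ℝ, L = 2 * R * ρ + 2 * ρ * c + c := ⟨_, rfl⟩
  have hL0 : 0 ≤ L := by rw [hL]; positivity
  refine ⟨C * (√L + 1), by
    have := Real.sqrt_nonneg L
    nlinarith, ?_⟩
  filter_upwards [eventually_ge_atTop n1, eventually_ge_atTop 2,
    t1.eventually_le_const (show (0 : ℝ) < 1 by norm_num), t3.eventually_ge_atTop 1]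
    with n hn hn2 hrt1 hlog k f δ hδ hf hff
  have hsL := Real.sqrt_nonneg L
  have hCC : 1 ≤ C * (√L + 1) := by nlinarith
  have hf0' := hf n le_rfl (by omega)
  have hfk' := hf (n + Y.s * k) (by omega) le_rfl
  have htriv : |EY Y (n + Y.s * k) f - EY Y n f| ≤ 1 := by
    have b1 : 0 ≤ EY Y n f := EY_nonneg G fun w hw => (hf0' w hw).1
    have b2 : EY Y n f ≤ 1 := EY_le G fun w hw => (hf0' w hw).2
    have b3 : 0 ≤ EY Y (n + Y.s * k) f := EY_nonneg G fun w hw => (hfk' w hw).1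
    have b4 : EY Y (n + Y.s * k) f ≤ 1 := EY_le G fun w hw => (hfk' w hw).2
    rw [abs_le]
    constructor <;> linarith
  rcases Nat.eq_zero_or_pos k with rfl | hk
  · simp
  have hk' : (1 : ℝ) ≤ k := by exact_mod_cast hk
  have hnp : (0 : ℝ) < n := by exact_mod_cast (show 0 < n by omega)
  have hrt0 : 0 < rt a n := rt_pos hn2
  by_cases hbig : 1 < k * rt a n
  · have h1 : 1 ≤ √(k * rt a n) := by rw [Real.one_le_sqrt]; exact hbig.le
    have h2 : 0 ≤ C * (√L + 1) * k * δ := by positivity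
    nlinarith
  by_cases hδ1 : 1 < δ
  · have h2 : 1 ≤ C * (√L + 1) * k * δ := by
      have : 1 ≤ C * (√L + 1) * k := by nlinarith
      nlinarith
    have h3 : 0 ≤ C * (√L + 1) * √(k * rt a n) := by positivity
    linarith
  have hkr := not_lt.1 hbig
  have hδ1' := not_lt.1 hδ1
  -- telescoping
  have tel : |EY Y (n + Y.s * k) f - EY Y n f| ≤
      ∑ i ∈ range k, C * (√(VV Y c (n + Y.s * i)) + 1 / n + δ) := by
    have h1 : EY Y (n + Y.s * k) f - EY Y n f =
        ∑ i ∈ range k, (EY Y (n + Y.s * (i + 1)) f - EY Y (n + Y.s * i) f) := by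
      rw [Finset.sum_range_sub (fun i => EY Y (n + Y.s * i) f)]
      simp
    rw [h1]
    refine (Finset.abs_sum_le_sum_abs _ _).trans (sum_le_sum fun i hi => ?_)
    rw [mem_range] at hi
    have hi1 : Y.s * (i + 1) ≤ Y.s * k := Nat.mul_le_mul_left _ hi
    have e1 : n + Y.s * (i + 1) = n + Y.s * i + Y.s := by ring
    have e2 : Y.s * (i + 1) = Y.s * i + Y.s := by ring
    rw [e1]
    have g := (hn1 (n + Y.s * i) (by omega)).1.2.2.2 f δ hδ hδ1'
      (hf _ (by omega) (by omega)) (hf _ (by omega) (by omega))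
      (hff _ (by omega) (by omega))
    refine g.trans (mul_le_mul_of_nonneg_left ?_ (by linarith))
    have : (1 : ℝ) / ((n + Y.s * i : ℕ) : ℝ) ≤ 1 / n :=
      one_div_le_one_div_of_le hnp (by exact_mod_cast Nat.le_add_right n (Y.s * i))
    linarith
  -- the sum of the variances
  have hile : ∀ i : ℕ, (n : ℝ) ≤ ((n + Y.s * i : ℕ) : ℝ) := by
    intro i
    exact_mod_cast Nat.le_add_right n (Y.s * i)
  have hVi : ∀ i, VV Y c (n + Y.s * i) ≤
      ρ * (rr Y (n + Y.s * (i + 1)) - rr Y (n + Y.s * i) + 2 * c / n) + c / n := by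
    intro i
    obtain ⟨g1, g2, g3, -⟩ := (hn1 (n + Y.s * i) (by omega)).1
    have e1 : n + Y.s * (i + 1) = n + Y.s * i + Y.s := by ring
    rw [e1]
    unfold VV at g1 ⊢
    obtain ⟨x, hx⟩ : ∃ x, x = rr Y (n + Y.s * i + Y.s) - rr Y (n + Y.s * i) := ⟨_, rfl⟩
    obtain ⟨r, hr⟩ : ∃ r, r = rr Y (n + Y.s * i) := ⟨_, rfl⟩
    rw [← hx] at g1 ⊢
    rw [← hr] at g1 g2 g3 ⊢
    have h1 : c / ((n + Y.s * i : ℕ) : ℝ) ≤ c / n :=
      div_le_div_of_nonneg_left hc hnp (hile i)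
    have h2 : 0 ≤ c / n := by positivity
    have h3 : 0 ≤ x + 2 * c / n := by
      have e : 2 * c / n = 2 * (c / n) := by ring
      rw [e]
      by_contra hcon
      have h4 := not_le.1 hcon
      have h5 : r * x < r * (-(2 * (c / n))) := mul_lt_mul_of_pos_left (by linarith) (by linarith)
      have h6 : r * (-(2 * (c / n))) ≤ -(c / n) := by nlinarith
      linarith
    have h7 : r * x ≤ r * (x + 2 * c / n) :=
      mul_le_mul_of_nonneg_left (by
        have : 0 ≤ 2 * c / n := by positivity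
        linarith) (by linarith)
    have h8 : r * (x + 2 * c / n) ≤ ρ * (x + 2 * c / n) := mul_le_mul_of_nonneg_right g3 h3
    linarith
  have hsumV : ∑ i ∈ range k, VV Y c (n + Y.s * i) ≤ L * rt a n := by
    refine (sum_le_sum fun i _ => hVi i).trans ?_
    rw [sum_add_distrib, ← mul_sum, sum_add_distrib, Finset.sum_range_sub
      (fun i => rr Y (n + Y.s * i)), sum_const, sum_const, card_range, nsmul_eq_mul,
      nsmul_eq_mul, Nat.mul_zero, Nat.add_zero]
    have h1 := (abs_le.1 (hrat (n + Y.s * k) (by omega))).2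
    have h2 := (abs_le.1 (hrat n hn2)).1
    have h3 : rt a (n + Y.s * k) ≤ rt a n := (hn1 n hn).2 _ (by omega)
    have h4 : rr Y (n + Y.s * k) - rr Y n ≤ 2 * R * rt a n := by
      unfold rr
      have := mul_le_mul_of_nonneg_left h3 hR
      linarith
    have h5 : (k : ℝ) / n ≤ rt a n := by
      have h6 : 1 / (n : ℝ) ≤ rt a n * rt a n := by
        unfold rt
        rw [Real.mul_self_sqrt (by positivity)]
        exact div_le_div_of_nonneg_right (one_le_pow₀ hlog) hnp.le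
      calc (k : ℝ) / n = k * (1 / n) := by ring
        _ ≤ k * (rt a n * rt a n) := mul_le_mul_of_nonneg_left h6 (by positivity)
        _ = (k * rt a n) * rt a n := by ring
        _ ≤ 1 * rt a n := mul_le_mul_of_nonneg_right hkr hrt0.le
        _ = _ := one_mul _
    calc ρ * (rr Y (n + Y.s * k) - rr Y n + k * (2 * c / n)) + k * (c / n)
        = ρ * (rr Y (n + Y.s * k) - rr Y n) + (2 * ρ * c + c) * (k / n) := by ring
      _ ≤ ρ * (2 * R * rt a n) + (2 * ρ * c + c) * rt a n := by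
          refine add_le_add (mul_le_mul_of_nonneg_left h4 (by linarith))
            (mul_le_mul_of_nonneg_left h5 (by positivity))
      _ = _ := by rw [hL]; ring
  have hsq : ∑ i ∈ range k, √(VV Y c (n + Y.s * i)) ≤ √L * √(k * rt a n) := by
    have h1 := Finset.sum_mul_sq_le_sq_mul_sq (range k) (fun _ => (1 : ℝ))
      (fun i => √(VV Y c (n + Y.s * i)))
    have h2 : ∑ i ∈ range k, √(VV Y c (n + Y.s * i)) ^ 2 =
        ∑ i ∈ range k, VV Y c (n + Y.s * i) :=
      sum_congr rfl fun i _ => Real.sq_sqrt (hn1 (n + Y.s * i) (by omega)).1.1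
    rw [h2] at h1
    simp only [one_mul, one_pow, sum_const, card_range, nsmul_eq_mul, mul_one] at h1
    have h3 : (∑ i ∈ range k, √(VV Y c (n + Y.s * i))) ^ 2 ≤ (√L * √(k * rt a n)) ^ 2 := by
      rw [mul_pow, Real.sq_sqrt hL0, Real.sq_sqrt (by positivity)]
      refine h1.trans ?_
      calc (k : ℝ) * ∑ i ∈ range k, VV Y c (n + Y.s * i) ≤ k * (L * rt a n) :=
            mul_le_mul_of_nonneg_left hsumV (by positivity)
        _ = _ := by ring
    exact (le_abs_self _).trans (abs_le_of_sq_le_sq h3 (by positivity))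
  have hkn : (k : ℝ) / n ≤ √(k * rt a n) := by
    have h6 : 1 / (n : ℝ) ≤ rt a n * rt a n := by
      unfold rt
      rw [Real.mul_self_sqrt (by positivity)]
      exact div_le_div_of_nonneg_right (one_le_pow₀ hlog) hnp.le
    have h7 : (k : ℝ) / n ≤ k * rt a n := by
      calc (k : ℝ) / n = k * (1 / n) := by ring
        _ ≤ k * (rt a n * rt a n) := mul_le_mul_of_nonneg_left h6 (by positivity)
        _ ≤ k * rt a n := by
          refine mul_le_mul_of_nonneg_left ?_ (by positivity)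
          nlinarith
    refine h7.trans (Real.le_sqrt_of_sq_le ?_)
    have h8 : 0 ≤ k * rt a n := by positivity
    nlinarith
  refine tel.trans ?_
  rw [← mul_sum, sum_add_distrib, sum_add_distrib, sum_const, sum_const, card_range,
    nsmul_eq_mul, nsmul_eq_mul]
  have h9 : (k : ℝ) * (1 / n) = k / n := by ring
  rw [h9]
  have hsr := Real.sqrt_nonneg (k * rt a n)
  calc C * (∑ i ∈ range k, √(VV Y c (n + Y.s * i)) + k / n + k * δ)
      ≤ C * (√L * √(k * rt a n) + √(k * rt a n) + k * δ) :=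
        mul_le_mul_of_nonneg_left (by linarith) (by linarith)
    _ ≤ _ := by
        have : 0 ≤ C * √L * k * δ := by positivity
        linarith

/-- a window of lengths -/
theorem Gr.window (G : Gr Y μ K a) (ha : 1 ≤ a) : ∃ C : ℝ, 1 ≤ C ∧ ∀ n : ℕ, 2 ≤ n →
    ∀ (k : ℕ) (f : α → ℝ) (δ : ℝ), 0 ≤ δ →
      (∀ m, n ≤ m → m ≤ n + Y.s * k → ∀ w ∈ Y.K m, 0 ≤ f w ∧ f w ≤ 1) →
      (∀ m, n ≤ m → m + Y.s ≤ n + Y.s * k → ∀ w ∈ Y.K m, ∀ q ∈ Y.S w,
        |f (Y.ins w q) - f w| ≤ δ) →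
      |EY Y (n + Y.s * k) f - EY Y n f| ≤ C * √(k * rt a n) + C * k * δ := by
  obtain ⟨C, hC, h⟩ := G.window_ev ha
  obtain ⟨n1, hn1⟩ := eventually_atTop.1 h
  refine ⟨C + ∑ i ∈ range n1, 1 / √(rt a i), ?_, ?_⟩
  · have : 0 ≤ ∑ i ∈ range n1, 1 / √(rt a i) := sum_nonneg fun i _ => by positivity
    linarith
  intro n hn k f δ hδ hf hff
  have hs0 : 0 ≤ ∑ i ∈ range n1, 1 / √(rt a i) := sum_nonneg fun i _ => by positivity
  have hrt0 : 0 < rt a n := rt_pos hn
  by_cases hn' : n1 ≤ n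
  · refine (hn1 n hn' k f δ hδ hf hff).trans ?_
    have h1 : C * √(k * rt a n) ≤ (C + ∑ i ∈ range n1, 1 / √(rt a i)) * √(k * rt a n) :=
      mul_le_mul_of_nonneg_right (by linarith) (Real.sqrt_nonneg _)
    have h2 : C * k * δ ≤ (C + ∑ i ∈ range n1, 1 / √(rt a i)) * k * δ := by
      refine mul_le_mul_of_nonneg_right (mul_le_mul_of_nonneg_right (by linarith) ?_) hδ
      positivity
    linarith
  · rcases Nat.eq_zero_or_pos k with rfl | hk
    · simp
    have hk' : (1 : ℝ) ≤ k := by exact_mod_cast hk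
    have hf0' := hf n le_rfl (by omega)
    have hfk' := hf (n + Y.s * k) (by omega) le_rfl
    have htriv : |EY Y (n + Y.s * k) f - EY Y n f| ≤ 1 := by
      have b1 : 0 ≤ EY Y n f := EY_nonneg G fun w hw => (hf0' w hw).1
      have b2 : EY Y n f ≤ 1 := EY_le G fun w hw => (hf0' w hw).2
      have b3 : 0 ≤ EY Y (n + Y.s * k) f := EY_nonneg G fun w hw => (hfk' w hw).1
      have b4 : EY Y (n + Y.s * k) f ≤ 1 := EY_le G fun w hw => (hfk' w hw).2
      rw [abs_le]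
      constructor <;> linarith
    have h1 : 1 / √(rt a n) ≤ ∑ i ∈ range n1, 1 / √(rt a i) :=
      Finset.single_le_sum (f := fun i => 1 / √(rt a i)) (fun i _ => by positivity)
        (Finset.mem_range.2 (by omega))
    have hsp : 0 < √(rt a n) := Real.sqrt_pos.2 hrt0
    have h2 : √(rt a n) ≤ √(k * rt a n) := Real.sqrt_le_sqrt (by nlinarith)
    have h3 : 1 ≤ (C + ∑ i ∈ range n1, 1 / √(rt a i)) * √(k * rt a n) := by
      calc (1 : ℝ) = 1 / √(rt a n) * √(rt a n) := by field_simp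
        _ ≤ (C + ∑ i ∈ range n1, 1 / √(rt a i)) * √(k * rt a n) :=
          mul_le_mul (by linarith) h2 hsp.le (by linarith)
    have h4 : 0 ≤ (C + ∑ i ∈ range n1, 1 / √(rt a i)) * k * δ := by positivity
    linarith

end Pool.Agent.R965.HP
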